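import Pool.Agent.H73.D2.Tlv
import Pool.Agent.H31.W.H23.D2.Bwj
import Pool.Agent.H31.W.H46.D2.NoLb
import Pool.Agent.H3.W.Bas
import Pool.Agent.H31.W1.H2.GEN.ChT
import Pool.Agent.H31.W1.H2.GEN.EvS

/-!
# The end in a class, with one more window with balls only

`x10j_con`: as `x10_con`, with the window `o 4` with balls only (`W4`) in the hypothesis on the labels
of the tubes (`HImP`).
-/

set_option autoImplicit false

namespace Pool.W.V1E

open Pool.V1E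

open Finset Real MvPolynomial
open Pool.Agent.H49.Ent Pool.Agent.H32.Dense Pool.STK Pool.KA Pool.KSAT Pool.K2S Pool.PB Pool.S6C
open Pool.GEN Pool.CHT Pool.CHX Pool.ISO Pool.D2R Pool.D2G30 Pool.END18 Pool.D2Con
open Pool.LBT (ThrOf)
open Pool.LEV (Law)
open Pool.NLB46 (Lab lab_no)

variable {m : ℕ}

/-- A larger constant. -/
theorem _root_.Pool.W.D2R.WinB.upC {J : ℕ} {F : Pool.KA.Fam m J} {c : ℕ → Fin m} {r D Dr N M : ℕ} {C₀ C₁ a Eb ηm : ℝ}
    {o η σ : ℕ → ℝ} {lv b : ℕ → ℕ → ℝ} {κ : ℝ} {z : ℕ → ℕ → ℕ} {B : F.Ω → Prop}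
    {g₀ : ℕ → ℕ → ℕ} {G : ℕ → Pool.GEN.PtT F → ℕ → MvPolynomial (Option (Fin m)) ℝ}
    {H : ℕ → Pool.GEN.LnT F → ℕ → MvPolynomial (Option (Fin m)) ℝ}
    (W : Pool.W.D2R.WinB F c r D Dr N M C₀ a Eb ηm o η σ lv b κ z B g₀ G H) (h : C₀ ≤ C₁) :
    Pool.W.D2R.WinB F c r D Dr N M C₁ a Eb ηm o η σ lv b κ z B g₀ G H where
  C1 := W.C1.trans h
  Eb0 := W.Eb0
  hη := W.hη
  hσ := W.hσ
  ho := W.ho
  hb := W.hb
  sds := W.sds
  ev := W.ev
  bal := fun k hk k' hk' q hq h1 h2 ω hω l hl b' hb' =>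
    (W.bal k hk k' hk' q hq h1 h2 ω hω l hl b' hb').trans (by
      have hη0 : 0 ≤ ηm := (W.hη k hk).1.trans (W.hη k hk).2
      have hJ : (0 : ℝ) ≤ J := Nat.cast_nonneg J
      refine div_le_div_of_nonneg_right ?_ (by positivity)
      exact pow_le_pow_right₀ (by norm_num) (Nat.floor_le_floor
        (mul_le_mul_of_nonneg_right h (mul_nonneg hη0 hJ))))


end Pool.W.V1E
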