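import Pool.Agent.H73.D2.Tly
import Pool.Agent.H31.W.H23.D2.Two
import Pool.Agent.H31.W1.H80.GEN.Chn

/-!
# Own paths and velocities at windows with balls only

`own_list`: on a large part of an event with the balls of finitely many windows, the heights of the
lines over the balls are small on the whole windows (Remez), and the velocities are close to the
balls.
-/

set_option autoImplicit false

namespace Pool.W.V1E

open Pool.V1E

open Finset Real MvPolynomial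
open Pool.Agent.H49.Ent Pool.Agent.H32.Dense Pool.STK Pool.KA Pool.KSAT Pool.K2S Pool.PB Pool.S6C
open Pool.GEN Pool.CHT Pool.CHX Pool.ISO Pool.D2R Pool.D2G30
open Pool.FLF (Fam.sub)
open Pool.PB.Trl (rt rt_mem t_rt)

/-- **Own paths and velocities of the balls of finitely many windows.** -/
theorem own_list (m D r : ℕ) : ∃ C : ℕ, 1 ≤ C ∧ ∀ {J : ℕ} {F : Pool.KA.Fam m J} {c : ℕ → Fin m}
    {k : ℕ} {θ : ℝ} {o ee : ℕ → ℕ} {g₀ : ℕ → ℕ → ℕ}
    {G : ℕ → Pool.GEN.PtT F → ℕ → MvPolynomial (Option (Fin m)) ℝ}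
    {H : ℕ → Pool.GEN.LnT F → ℕ → MvPolynomial (Option (Fin m)) ℝ} (n : ℕ) {A : F.Ω → Prop},
    0 < Pool.K2S.Pe F.p A → Set.InjOn c (Set.Iio (r + 1)) →
    (∀ i < n, o i ≤ J ∧ C * (θ + 1) ≤ ((J : ℝ) - o i) * Real.log 2) →
    (∀ i < n, Pool.W.GEN.ChOK F c (r + 1) (fun _ => D) (o i) (o i) (ee i) (g₀ i) A (G i) (H i)) → 0 ≤ θ →
    (∀ (B : F.Ω → Prop) (hB : 0 < Pool.K2S.Pe F.p B), Pool.K2S.Sub B A → Pool.K2S.Pe F.p A / 2 ^ n ≤ Pool.K2S.Pe F.p B →
      (Pool.FLF.Fam.sub F B hB).Tm θ) → Real.exp (C * (θ + 1)) ≤ 2 ^ k →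
    (∀ i < n, ∀ l ≤ r, ee i + g₀ i l + C * (k + 2) ≤ J) →
    ∃ B : F.Ω → Prop, Pool.K2S.Sub B A ∧ Pool.K2S.Pe F.p A / 2 ^ n ≤ Pool.K2S.Pe F.p B ∧ ∀ i < n, ∀ ω, B ω →
      (∀ l ≤ r, ∀ τ ∈ Set.Icc (0 : ℝ) 1,
        |(Pool.GEN.dv (o i) (fun s _ => H i s l) (c l) (Pool.KSAT.slam F (o i) ω)).eval τ| ≤
          2 ^ (C * (k + 2)) / 2 ^ g₀ i l) ∧
      ∀ ν, B ν → Pool.PB.ptr F J ω = Pool.PB.ptr F J ν → ∀ l ≤ r,
        |Pool.GEN.bd F ν (some (c l)) - Pool.D2R.dd (G i (Pool.PB.ptr F J ω) l) (Pool.GEN.bt F ω) (Pool.GEN.bd F ν)| ≤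
          2 ^ (C * (k + 2)) * 2 ^ o i / 2 ^ g₀ i l := by
  classical
  obtain ⟨C₃, hC₃, hrm⟩ := Pool.D2R.rem_fam m (D + 1) (r + 1)
  obtain ⟨C₁, hC₁, hpn⟩ := Pool.W.D2R.path_nat m D r
  obtain ⟨C, hC⟩ : ∃ C : ℕ, C = C₁ + ⌈C₃⌉₊ + 1 := ⟨_, rfl⟩
  have hC3 : C₃ ≤ C := by
    refine (Nat.le_ceil C₃).trans ?_
    have : ⌈C₃⌉₊ ≤ C := by omega
    exact_mod_cast this
  refine ⟨C, by omega, ?_⟩
  intro J F c k θ o ee g₀ G H n A hA hc ho hch hθ hTm hexp hJ
  have hθ1 : 0 ≤ θ + 1 := by linarith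
  have hexp3 : Real.exp (C₃ * (θ + 1)) ≤ 2 ^ k := (Real.exp_le_exp.2
    (mul_le_mul_of_nonneg_right hC3 hθ1)).trans hexp
  have hC1k : C₁ * (k + 2) ≤ C * (k + 2) := Nat.mul_le_mul_right _ (by omega)
  have hCk : k + 1 ≤ C * (k + 2) := by
    have : 1 * (k + 2) ≤ C * (k + 2) := Nat.mul_le_mul_right _ (by omega)
    omega
  -- the own paths
  have hown : ∀ n' ≤ n, ∃ B : F.Ω → Prop, Pool.K2S.Sub B A ∧ Pool.K2S.Pe F.p A / 2 ^ n' ≤ Pool.K2S.Pe F.p B ∧
      ∀ i < n', ∀ ω, B ω → ∀ l ≤ r, ∀ τ ∈ Set.Icc (0 : ℝ) 1,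
        |(Pool.GEN.dv (o i) (fun s _ => H i s l) (c l) (Pool.KSAT.slam F (o i) ω)).eval τ| ≤
          2 ^ (k + 1) / 2 ^ g₀ i l := by
    intro n'
    induction n' with
    | zero =>
      intro _
      exact ⟨A, fun _ h => h, by rw [pow_zero, div_one], fun i hi => absurd hi (Nat.not_lt_zero i)⟩
    | succ n' ih =>
      intro hn'
      obtain ⟨B, hB, hPB, hBo⟩ := ih (by omega)
      have hPA2 : 0 < Pool.K2S.Pe F.p A / 2 ^ n' := by positivity
      have hB0 : 0 < Pool.K2S.Pe F.p B := hPA2.trans_le hPB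
      have hball := (hch n' (by omega)).sub hB
      obtain ⟨haJ, hCJ⟩ := ho n' (by omega)
      have hTB : (Pool.FLF.Fam.sub F B hB0).Tm θ := by
        refine hTm B hB0 hB (le_trans ?_ hPB)
        exact div_le_div_of_nonneg_left hA.le (by positivity)
          (pow_le_pow_right₀ (by norm_num) (by omega))
      obtain ⟨B₁, b1, b2, b3⟩ := hrm J F B hB0 (o n')
        (fun l s => Pool.GEN.dv (o n') (fun s _ => H n' s l) (c l) s)
        (fun l => 2 / 2 ^ g₀ n' l) θ haJ (fun l _ s => Pool.GEN.natDegree_dv (o n')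
          (G := fun s (_ : Fin m) => H n' s l) (fun s _ => hball.degH s l) (c l) s)
        (fun l _ => by positivity) hθ hTB
        ((mul_le_mul_of_nonneg_right hC3 hθ1).trans hCJ) (fun ω hω l hl => by
          show |(Pool.GEN.dv (o n') (fun s _ => H n' s l) (c l) (Pool.KSAT.slam F (o n') ω)).eval
            (Pool.PB.Trl.rt F (o n') ω)| ≤ _
          rw [Pool.GEN.eval_dv F haJ (fun s _ => H n' s l) ω (c l)]
          have h1 := hball.pos ω hω l hl
          have h2 := hball.agr ω hω l hl _ (hball.self hω hl.le)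
          have e1 : F.x ω (c l) - eval (Pool.GEN.bt F ω) (H n' (Pool.KSAT.slam F (o n') ω) l) =
              (F.x ω (c l) - eval (Pool.GEN.bt F ω) (G n' (Pool.PB.ptr F J ω) l)) +
              (eval (Pool.GEN.bt F ω) (G n' (Pool.PB.ptr F J ω) l) -
                eval (Pool.GEN.bt F ω) (H n' (Pool.KSAT.slam F (o n') ω) l)) := by ring
          rw [e1]
          refine (abs_add_le _ _).trans ((add_le_add h1 h2).trans (le_of_eq ?_))
          ring)
      refine ⟨B₁, fun ω hω => hB ω (b1 ω hω), ?_, fun i hi ω hω l hl τ hτ => ?_⟩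
      · rw [pow_succ, ← div_div]
        linarith
      · rcases Nat.lt_or_ge i n' with h4 | h4
        · exact hBo i h4 ω (b1 ω hω) l hl τ hτ
        · obtain rfl : i = n' := by omega
          refine (b3 ω hω l (by omega) τ hτ).trans ?_
          rw [pow_succ, mul_div_assoc]
          exact mul_le_mul_of_nonneg_right hexp3 (by positivity)
  obtain ⟨B, hB, hPB, hBo⟩ := hown n le_rfl
  refine ⟨B, hB, hPB, fun i hi ω hω => ⟨fun l hl τ hτ => (hBo i hi ω hω l hl τ hτ).trans ?_,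
    fun ν hν hpt l hl => ?_⟩⟩
  · exact div_le_div_of_nonneg_right (pow_le_pow_right₀ (by norm_num) hCk) (by positivity)
  · have h1 := (hpn hc (ho i hi).1 ((hch i hi).sub hB) (k := k + 1) (fun l hl => by
      have h2 := hJ i hi l hl
      have h3 : C₁ * (k + 1 + 1) = C₁ * (k + 2) := by ring
      omega) ω ν hω hν hpt (hBo i hi ν hν) l hl).1
    refine h1.trans (div_le_div_of_nonneg_right (mul_le_mul_of_nonneg_right
      (pow_le_pow_right₀ (by norm_num) ?_) (by positivity)) (by positivity))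
    have h3 : C₁ * (k + 1 + 1) = C₁ * (k + 2) := by ring
    omega

end Pool.W.V1E
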