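import Pool.Agent.H73.D2.Tma
import Pool.Agent.H31.W.H73.D2.Tlv
import Pool.Agent.H31.W.H73.D2.Tly
import Pool.Agent.H3.W.Bas
import Pool.Agent.H31.W1.H2.GEN.ChT
import Pool.Agent.H31.W1.H23.D2.Bln

/-!
# The windows with the frame and the ball in a chain, on one event

`WF`: the windows `o 0` (of the target) and `o 1` (deep) with rows, `o 2` (the frame), `o 3` (the ball)
and further windows with balls only, on one event, with `Wdat`, the own paths and the velocities of all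
windows. `wf_con`: it exists in a class.
-/

set_option autoImplicit false

namespace Pool.W.V1E

open Pool.V1E

open Finset Real MvPolynomial
open Pool.Agent.H49.Ent Pool.Agent.H32.Dense Pool.STK Pool.KA Pool.KSAT Pool.K2S Pool.PB Pool.S6C
open Pool.GEN Pool.CHT Pool.CHX Pool.ISO Pool.D2R Pool.D2G30 Pool.END18 Pool.D2Con
open Pool.LBT (ThrOf)
open Pool.LEV (Law)
open Pool.FLF (Fam.sub)

variable {m : ℕ}

/-- A larger constant. -/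
theorem _root_.Pool.W.D2R.Wins.upC {J : ℕ} {F : Pool.KA.Fam m J} {c : ℕ → Fin m} {r D Dr N M : ℕ}
    {R : ℕ → Prop} {C₀ C₁ a Eb ηm : ℝ} {o ε p' η σ : ℕ → ℝ} {lv be b : ℕ → ℕ → ℝ} {κ : ℝ}
    {z : ℕ → ℕ → ℕ} {B : F.Ω → Prop} {gc gT g₀ : ℕ → ℕ → ℕ}
    {G : ℕ → Pool.GEN.PtT F → ℕ → MvPolynomial (Option (Fin m)) ℝ}
    {H : ℕ → Pool.GEN.LnT F → ℕ → MvPolynomial (Option (Fin m)) ℝ}
    {T : ℕ → Pool.GEN.PtT F → ℕ → MvPolynomial (Option (Fin m)) ℝ}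
    {TH : ℕ → Pool.GEN.LnT F → ℕ → MvPolynomial (Option (Fin m)) ℝ}
    {Gt : ℕ → Pool.GEN.PtT F → MvPolynomial (Option (Fin m)) ℝ}
    {Ht : ℕ → Pool.GEN.LnT F → MvPolynomial (Option (Fin m)) ℝ}
    (W : Pool.W.D2R.Wins F c r D Dr N M R C₀ a Eb ηm o ε p' η σ lv be b κ z B gc gT g₀ G H T TH Gt Ht)
    (h : C₀ ≤ C₁) (hp : ∀ k ≤ N, C₁ * η k ≤ p' k) (hg : ∀ k ≤ N, C₁ * (η k * J) ≤ gc k r) :
    Pool.W.D2R.Wins F c r D Dr N M R C₁ a Eb ηm o ε p' η σ lv be b κ z B gc gT g₀ G H T TH Gt Ht := by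
  have hJ : (0 : ℝ) ≤ J := Nat.cast_nonneg J
  refine { W with C1 := W.C1.trans h, hp' := hp, hgr := hg, row := ?_, bal := ?_ }
  · intro i hi j hj hij q q1 q2
    have h1 : C₀ * (η j * J) ≤ C₁ * (η j * J) :=
      mul_le_mul_of_nonneg_right h (mul_nonneg (W.hη j hj).1 hJ)
    exact (W.row i hi j hj hij q (by linarith) (by linarith)).mono le_rfl (by positivity)
      (pow_le_pow_right₀ (by norm_num) (Nat.floor_le_floor h1))
  · have h1 : ∀ k ≤ N, (2 : ℝ) ^ ⌊C₀ * (ηm * J)⌋₊ ≤ 2 ^ ⌊C₁ * (ηm * J)⌋₊ := fun k hk =>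
      pow_le_pow_right₀ (by norm_num) (Nat.floor_le_floor (mul_le_mul_of_nonneg_right h
        (mul_nonneg ((W.hη k hk).1.trans (W.hη k hk).2) hJ)))
    exact ⟨fun k hk ω hω i hi b hb j hj => (W.bal.inc k hk ω hω i hi b hb j hj).trans
      (div_le_div_of_nonneg_right (h1 k hk) (by positivity)),
      fun k hk k' hk' q hq h2 h3 ω hω l hl b hb =>
      (W.bal.bal k hk k' hk' q hq h2 h3 ω hω l hl b hb).trans
      (div_le_div_of_nonneg_right (h1 k hk) (by positivity))⟩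

/-- Smaller events. -/
theorem _root_.Pool.W.D2R.WinB.res {J : ℕ} {F : Pool.KA.Fam m J} {c : ℕ → Fin m} {r D Dr N M : ℕ}
    {C₀ a Eb ηm : ℝ} {o η σ : ℕ → ℝ} {lv b : ℕ → ℕ → ℝ} {κ : ℝ} {z : ℕ → ℕ → ℕ}
    {B : F.Ω → Prop} {g₀ : ℕ → ℕ → ℕ} {G : ℕ → Pool.GEN.PtT F → ℕ → MvPolynomial (Option (Fin m)) ℝ}
    {H : ℕ → Pool.GEN.LnT F → ℕ → MvPolynomial (Option (Fin m)) ℝ}
    (W : Pool.W.D2R.WinB F c r D Dr N M C₀ a Eb ηm o η σ lv b κ z B g₀ G H) {B' : F.Ω → Prop} {κ₁ κ₂ : ℝ}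
    (hB : Pool.K2S.Sub B' B) (hP : κ₁ * Pool.K2S.Pe F.p B ≤ Pool.K2S.Pe F.p B') (h2 : 0 ≤ κ₂) (hκ : κ ≤ κ₂ * κ₁) :
    Pool.W.D2R.WinB F c r D Dr N M C₀ a Eb ηm o η σ lv b κ₂ z B' g₀ G H where
  C1 := W.C1
  Eb0 := W.Eb0
  hη := W.hη
  hσ := W.hσ
  ho := W.ho
  hb := W.hb
  sds := W.sds
  ev := fun k hk => (W.ev k hk).sub hB hP h2 hκ
  bal := fun k hk k' hk' q hq h1 h2 ω hω => W.bal k hk k' hk' q hq h1 h2 ω (hB ω hω)


end Pool.W.V1E
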