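import Pool.Agent.H73.D2.Tme
import Pool.Agent.H31.W.H73.D2.Tma
import Pool.Agent.H3.W.Bas
import Pool.Agent.H31.W1.H2.GEN.ChT
import Pool.Agent.H31.W1.H23.D2.Bln
import Pool.Agent.H31.W1.H80.GEN.Chn

/-!
# Row windows and chain windows on one event

`WG`: the windows `o k`, `k ≤ N`, with rows and `o k`, `N < k ≤ N₂`, with balls only, on one event, with
all balancings, the own paths and the velocities of all windows. `wg_con`: it exists in a class.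
-/

set_option autoImplicit false

namespace Pool.W.V1E

open Pool.V1E

open Finset Real MvPolynomial
open Pool.Agent.H49.Ent Pool.Agent.H32.Dense Pool.STK Pool.KA Pool.KSAT Pool.K2S Pool.PB Pool.S6C
open Pool.GEN Pool.CHT Pool.CHX Pool.ISO Pool.D2R Pool.D2G30 Pool.END18 Pool.D2Con
open Pool.LBT (ThrOf)
open Pool.LEV (Law)
open Pool.FLF (Fam.sub)

variable {m : ℕ}

/-- **The windows** `o k`, `k ≤ N`, with rows, and `o k`, `N < k ≤ N₂`, with balls only, on one event.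
`R`: the rough coordinates. -/
structure WG (c : ℕ → Fin m) (r D Dr N N₂ : ℕ) (R : ℕ → Prop) (C a Eb ε₀ η₀ : ℝ)
    (Pt : ℝ → ℝ → ℝ) (o : ℕ → ℝ) (lv be : ℕ → ℕ → ℝ) {J : ℕ} (F : Pool.KA.Fam m J) (b : ℕ → ℕ → ℝ) (κ : ℝ)
    (z : ℕ → ℕ → ℕ) (B : F.Ω → Prop) (gc gT g₀ : ℕ → ℕ → ℕ)
    (G : ℕ → Pool.GEN.PtT F → ℕ → MvPolynomial (Option (Fin m)) ℝ)
    (H : ℕ → Pool.GEN.LnT F → ℕ → MvPolynomial (Option (Fin m)) ℝ)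
    (T : ℕ → Pool.GEN.PtT F → ℕ → MvPolynomial (Option (Fin m)) ℝ)
    (TH : ℕ → Pool.GEN.LnT F → ℕ → MvPolynomial (Option (Fin m)) ℝ)
    (Gt : ℕ → Pool.GEN.PtT F → MvPolynomial (Option (Fin m)) ℝ)
    (Ht : ℕ → Pool.GEN.LnT F → MvPolynomial (Option (Fin m)) ℝ) : Prop where
  nn : N ≤ N₂
  win : Pool.W.D2R.Wins F c r D Dr N N₂ R C a Eb η₀ o (fun _ => ε₀)
    (fun k => Pt a (o k) - 2 * (C * η₀)) (fun _ => η₀) (fun _ => η₀) lv be b κ z B gc gT g₀ G H T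
    TH Gt Ht
  wb : Pool.W.D2R.WinB F c r D Dr N₂ N₂ C a Eb η₀ o (fun _ => η₀) (fun _ => η₀) lv b κ z B g₀ G H
  own : ∀ i ≤ N₂, ∀ ω, B ω → ∀ l ≤ r, ∀ τ ∈ Set.Icc (0 : ℝ) 1,
    |(Pool.GEN.dv ⌊o i * J⌋₊ (fun s _ => H i s l) (c l) (Pool.KSAT.slam F ⌊o i * J⌋₊ ω)).eval τ| ≤
      2 ^ (⌊C * (η₀ * J)⌋₊ + 1) / 2 ^ g₀ i l
  vel : ∀ i ≤ N₂, ∀ ω ν, B ω → B ν → Pool.PB.ptr F J ω = Pool.PB.ptr F J ν → ∀ l ≤ r,
    |Pool.GEN.bd F ν (some (c l)) - Pool.D2R.dd (G i (Pool.PB.ptr F J ω) l) (Pool.GEN.bt F ω) (Pool.GEN.bd F ν)| ≤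
      2 ^ (⌊C * (η₀ * J)⌋₊ + 1) * 2 ^ ⌊o i * J⌋₊ / 2 ^ g₀ i l
  zz : ∀ i ≤ N₂, ∀ j ≤ N₂, o i + η₀ ≤ o j → z i j = ⌊o j * J⌋₊ - ⌊o i * J⌋₊
  za : ∀ i ≤ N₂, z i i = ⌊a * J⌋₊ - ⌊o i * J⌋₊

/-- **Row windows and chain windows, in a class.** -/
theorem wg_con (m r S₀ : ℕ) (hr : 1 ≤ r) (hS₀ : 1 ≤ S₀) : ∃ D : ℕ, 1 ≤ D ∧ ∀ Dr : ℕ, D ≤ Dr →
    ∃ C : ℝ, 1 ≤ C ∧ ∀ {S : Pool.PB.PCl m} {P : List (Fin m) × Fin m → ℝ → ℝ → ℝ} {θ : ℝ} {c : ℕ → Fin m}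
    {Pt : ℝ → ℝ → ℝ} {R : ℕ → Prop} {a Eb ε₀ η₀ : ℝ} {o : ℕ → ℝ} (N N₂ : ℕ), N ≤ N₂ →
    Pool.LBT.ThrOf (Pool.W.CHT.chsys m θ) S P → 0 < θ → Pool.CHT.TmH S → Set.InjOn c (Set.Iio (r + 1)) → Pool.LEV.Law Pt → 0 ≤ Eb →
    (∀ k ≤ N, Pool.W.ISO.WinD S P θ c r Pt a (o k) S₀ Eb ε₀ R) →
    (∀ k, N < k → k ≤ N₂ → Pool.W.D2R.BalD S P θ c r Pt a (o k) S₀ Eb) → C * ε₀ < η₀ →
    (∀ k ≤ N, 3 * (C * η₀) ≤ o k ∧ 3 * (C * η₀) ≤ Pt a (o k) ∧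
      3 * (C * η₀) ≤ Pool.ISO.lvN P c r Pt r (o k) (o k)) → (∀ k ≤ N₂, o k + 4 * (C * η₀) ≤ a) → a ≤ 1 →
    (∀ k ≤ N, ∀ l ≤ r, Pool.ISO.lvN P c r Pt l (o k) (o k) + (a - o k) + (Eb + 2 * η₀) < 1) →
    (∀ k ≤ N, ∀ l < r, Pool.CHT.bet P c l a (o k) + (Eb + 2 * η₀) < 1) →
    ∃ (K₁ : ℝ) (b : ℕ → ℕ → ℝ), 0 < K₁ ∧ ∀ κ : ℝ, 0 < κ → Pool.S6C.Bas S (fun J F A =>
      ∃ (B : F.Ω → Prop) (z gc gT g₀ : ℕ → ℕ → ℕ)
        (G : ℕ → Pool.GEN.PtT F → ℕ → MvPolynomial (Option (Fin m)) ℝ)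
        (H : ℕ → Pool.GEN.LnT F → ℕ → MvPolynomial (Option (Fin m)) ℝ)
        (T : ℕ → Pool.GEN.PtT F → ℕ → MvPolynomial (Option (Fin m)) ℝ)
        (TH : ℕ → Pool.GEN.LnT F → ℕ → MvPolynomial (Option (Fin m)) ℝ)
        (Gt : ℕ → Pool.GEN.PtT F → MvPolynomial (Option (Fin m)) ℝ)
        (Ht : ℕ → Pool.GEN.LnT F → MvPolynomial (Option (Fin m)) ℝ), Pool.K2S.Sub B A ∧
        Pool.K2S.Pe F.p A ≤ K₁ * Pool.K2S.Pe F.p B ∧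
        Pool.W.V1E.WG c r D Dr N N₂ R C a Eb ε₀ η₀ Pt o (fun k l => Pool.ISO.lvN P c r Pt l (o k) (o k))
          (fun k l => Pool.CHT.bet P c l a (o k)) F b κ z B gc gT g₀ G H T TH Gt Ht) := by
  obtain ⟨D, hD, hwin⟩ := Pool.W.D2R.winJ_con m r S₀ hr hS₀
  refine ⟨D, hD, fun Dr hDr => ?_⟩
  obtain ⟨C₁, CB, hC₁, hCB, hwin⟩ := hwin Dr hDr
  obtain ⟨C₂, hC₂, hown⟩ := Pool.W.V1E.own_list m D r
  obtain ⟨C, hC⟩ : ∃ C : ℝ, C = C₁ + CB + 2 * C₂ := ⟨_, rfl⟩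
  have hC₂R : (1 : ℝ) ≤ C₂ := by exact_mod_cast hC₂
  have hC1 : 1 ≤ C := by linarith
  have hC₁C : C₁ ≤ C := by linarith
  have hCBC : CB ≤ C := by linarith
  have hC₂C : 2 * (C₂ : ℝ) ≤ C := by linarith
  refine ⟨C, hC1, ?_⟩
  intro S P θ c Pt R a Eb ε₀ η₀ o N N₂ hN hP hθ hS hinj hPt hEb hW hWb hεη h3o hoa ha1 htop
    hbet
  have hε₀ : 0 ≤ ε₀ := (hW 0 (by norm_num)).ε0
  have hη0 : 0 < η₀ := lt_of_le_of_lt (mul_nonneg (by linarith) hε₀) hεη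
  have hCη : η₀ ≤ C * η₀ := le_mul_of_one_le_left hη0.le hC1
  have hC₁η : C₁ * η₀ ≤ C * η₀ := mul_le_mul_of_nonneg_right hC₁C hη0.le
  have hC₁ε : C₁ * ε₀ ≤ C * ε₀ := mul_le_mul_of_nonneg_right hC₁C hε₀
  have hC₂η : 2 * (C₂ * η₀) ≤ C * η₀ := by
    have := mul_le_mul_of_nonneg_right hC₂C hη0.le
    linarith
  have hoB : ∀ k ≤ N₂, Pool.W.D2R.BalD S P θ c r Pt a (o k) S₀ Eb := fun k hk => by
    rcases Nat.lt_or_ge N k with h | h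
    · exact hWb k h hk
    · exact Pool.W.D2R.WinD.bal (hW k h)
  have ho0 : ∀ k ≤ N₂, 0 < o k := fun k hk => by
    obtain ⟨ρ, vs, e, e₀, E, sg, Q, d1, -⟩ := (hoB k hk).dw
    exact d1.w0
  obtain ⟨lv, hlv⟩ : ∃ lv : ℕ → ℕ → ℝ, lv = fun k l => Pool.ISO.lvN P c r Pt l (o k) (o k) := ⟨_, rfl⟩
  have hlve : ∀ k l, Pool.ISO.lvN P c r Pt l (o k) (o k) = lv k l := fun k l => by rw [hlv]
  simp only [hlve] at h3o htop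
  obtain ⟨K₁, μ, b, hK₁, hμb, hwin⟩ := hwin (S := S) (P := P) (θ := θ) (c := c) (Pt := Pt)
    (R := R) (a := a) (Eb := Eb) (ηm := η₀) (o := o) (ε := fun _ => ε₀)
    (p' := fun k => Pt a (o k) - 2 * (C * η₀)) (η := fun _ => η₀) (σ := fun _ => η₀)
    (r₀ := fun _ => η₀ / 2) N N₂ N₂ hN hP hθ hS hinj hPt hEb hW hWb
    (fun k hk => ⟨by linarith [(h3o k hk).1], by linarith, by linarith [(h3o k hk).1]⟩)
    (fun k hk => ⟨by linarith [(h3o k hk).2.1], by linarith⟩)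
    (fun k hk => ⟨hη0, hη0, le_rfl, by linarith, by linarith [hoa k hk, ho0 k hk], le_rfl⟩)
    (fun k hk l hl => by
      have := htop k hk l hl
      rw [hlve]
      linarith)
    (fun k hk l hl => by linarith [hbet k hk l hl])
  refine ⟨K₁ * 2 ^ (N₂ + 1), b, by positivity, fun κ hκ => ?_⟩
  obtain ⟨ψ, hψ⟩ : ∃ ψ : ℝ, ψ = η₀ * Real.log 2 / (2 * C₂) := ⟨_, rfl⟩
  have hlog2 : 0 < Real.log 2 := Real.log_pos (by norm_num)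
  have hC₂0 : (0 : ℝ) < C₂ := by linarith
  have hψ0 : 0 < ψ := by rw [hψ]; positivity
  have hψC : C₂ * ψ = η₀ * Real.log 2 / 2 := by
    rw [hψ]
    field_simp
  have hκ' : 0 < κ / 2 ^ (N₂ + 1) := by positivity
  have big : ∀ {x y : ℝ}, 0 < x → ∃ J₀ : ℕ, ∀ J : ℕ, J₀ ≤ J → y ≤ x * J := by
    intro x y hx
    refine ⟨⌈y / x⌉₊, fun J hJ => ?_⟩
    have h1 : y / x ≤ J := (Nat.le_ceil _).trans (by exact_mod_cast hJ)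
    rw [div_le_iff₀ hx] at h1
    linarith
  obtain ⟨J₁, hJ₁⟩ := big (x := η₀) (y := 8) hη0
  obtain ⟨J₂, hJ₂⟩ := big (x := η₀ * Real.log 2 / 2) (y := C₂ + Real.log 2) (by positivity)
  refine Pool.S6C.Bas.mono (max J₁ J₂) (((hwin _ hκ').and
    (Pool.V1E.bas_big (hS.2 ψ hψ0) (K₁ * 2 ^ (N₂ + 1)))).and (Pool.V1E.tmh_cond hS one_pos)) ?_
  rintro J hJ F A ⟨⟨w1, w2⟩, hPA0, -⟩
  have j1 := hJ₁ J (by omega)
  have j2 := hJ₂ J (by omega)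
  have hJ0 : (0 : ℝ) ≤ J := Nat.cast_nonneg J
  have mulJ : ∀ {x y : ℝ}, x ≤ y → x * J ≤ y * J := fun h => mul_le_mul_of_nonneg_right h hJ0
  have fo := fun k (hk : k ≤ N₂) => Pool.V1E.flo (mul_nonneg (ho0 k hk).le hJ0)
  have fa := Pool.V1E.flo (mul_nonneg (by linarith [hoa 0 (by omega), ho0 0 (by omega)] : (0 : ℝ) ≤ a) hJ0)
  have hdiff : ∀ {x y : ℝ}, 0 ≤ x * J → 0 ≤ y * J → x + η₀ ≤ y →
      η₀ / 2 * J ≤ ((⌊y * J⌋₊ - ⌊x * J⌋₊ : ℕ) : ℝ) := by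
    intro x y hx hy h4
    have hxy : ⌊x * (J : ℝ)⌋₊ ≤ ⌊y * (J : ℝ)⌋₊ := Nat.floor_le_floor (mulJ (by linarith))
    rw [Nat.cast_sub hxy]
    have h5 := mulJ h4
    have h6 := Pool.V1E.flo hx
    have h7 := Pool.V1E.flo hy
    linarith [h6.1, h7.2]
  -- the radii
  obtain ⟨z, hz⟩ : ∃ z : ℕ → ℕ → ℕ, z = fun k i =>
      if o k + η₀ ≤ o i then ⌊o i * J⌋₊ - ⌊o k * J⌋₊ else ⌊a * J⌋₊ - ⌊o k * J⌋₊ := ⟨_, rfl⟩
  have hzz : ∀ i j, o i + η₀ ≤ o j → z i j = ⌊o j * J⌋₊ - ⌊o i * J⌋₊ := fun i j h => by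
    rw [hz]
    exact if_pos h
  have hza : ∀ i, z i i = ⌊a * J⌋₊ - ⌊o i * J⌋₊ := fun i => by
    rw [hz]
    exact if_neg (by linarith)
  have hzr : ∀ k ≤ N₂, ∀ i ≤ N₂, η₀ / 2 * J ≤ z k i ∧ z k i ≤ ⌊a * J⌋₊ - ⌊o k * J⌋₊ := by
    intro k hk i hi
    have hk0 := mul_nonneg (ho0 k hk).le hJ0
    have hi0 := mul_nonneg (ho0 i hi).le hJ0
    have ha0 : 0 ≤ a * (J : ℝ) := mul_nonneg (by linarith [hoa k hk, ho0 k hk]) hJ0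
    by_cases h : o k + η₀ ≤ o i
    · rw [hzz k i h]
      refine ⟨hdiff hk0 hi0 h, ?_⟩
      have : ⌊o i * (J : ℝ)⌋₊ ≤ ⌊a * (J : ℝ)⌋₊ :=
        Nat.floor_le_floor (mulJ (by linarith [hoa i hi]))
      omega
    · have h4 : z k i = ⌊a * J⌋₊ - ⌊o k * J⌋₊ := by
        rw [hz]
        exact if_neg h
      rw [h4]
      exact ⟨hdiff hk0 ha0 (by linarith [hoa k hk]), le_rfl⟩
  obtain ⟨B₁, gc, gT, g₀, G, H, T, TH, Gt, Ht, hB₁, hPB₁, W₁, Wb₁⟩ := w1 z hzr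
  simp only [hlve] at W₁ Wb₁
  have hPB₁0 : 0 < Pool.K2S.Pe F.p B₁ := by
    by_contra hcon
    push Not at hcon
    have h4 : K₁ * Pool.K2S.Pe F.p B₁ ≤ 0 := mul_nonpos_of_nonneg_of_nonpos hK₁.le hcon
    linarith
  -- the own paths
  obtain ⟨k, hk⟩ : ∃ k : ℕ, k = ⌊η₀ * J⌋₊ := ⟨_, rfl⟩
  have hηJ0 : 0 ≤ η₀ * J := mul_nonneg hη0.le hJ0
  have fk := Pool.V1E.flo hηJ0
  rw [← hk] at fk
  have hCηJ : 0 ≤ C * (η₀ * J) := mul_nonneg (by linarith) hηJ0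
  have fC := Pool.V1E.flo hCηJ
  have hC₂J : 2 * (C₂ * (η₀ * J)) ≤ C * (η₀ * J) := by
    have := mul_le_mul_of_nonneg_right hC₂C hηJ0
    linarith
  have hψJ : C₂ * (ψ * J) = η₀ * J * Real.log 2 / 2 := by
    have : C₂ * (ψ * J) = C₂ * ψ * J := by ring
    rw [this, hψC]
    ring
  have hC₂8 : (8 : ℝ) * C₂ ≤ C₂ * (η₀ * J) := by
    have := mul_le_mul_of_nonneg_left j1 hC₂0.le
    linarith
  have hk2 : ((C₂ * (k + 2) : ℕ) : ℝ) ≤ C₂ * (η₀ * J) + 2 * C₂ := by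
    push_cast
    have := mul_le_mul_of_nonneg_left fk.1 hC₂0.le
    linarith
  have hkC : C₂ * (k + 2) ≤ ⌊C * (η₀ * J)⌋₊ + 1 := by
    have h4 : ((C₂ * (k + 2) : ℕ) : ℝ) ≤ ((⌊C * (η₀ * J)⌋₊ + 1 : ℕ) : ℝ) := by
      push_cast at hk2 ⊢
      linarith [fC.2]
    exact_mod_cast h4
  obtain ⟨B, hB, hPB, hBo⟩ := hown (F := F) (c := c) (k := k) (θ := ψ * J)
    (o := fun i => ⌊o i * J⌋₊) (ee := fun _ => ⌊(Eb + η₀ + η₀) * J⌋₊) (g₀ := g₀) (G := G)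
    (H := H) (N₂ + 1) (A := B₁) hPB₁0 hinj (fun i hi => by
      have hi' : i ≤ N₂ := by omega
      have f1 := fo i hi'
      have h4 := mulJ (hoa i hi')
      have h5 := mulJ ha1
      have h6 : η₀ * J ≤ (J : ℝ) - (⌊o i * J⌋₊ : ℝ) := by
        have h7 := mulJ hCη
        linarith [f1.1]
      refine ⟨?_, ?_⟩
      · have h7 : (⌊o i * (J : ℝ)⌋₊ : ℝ) ≤ J := by linarith
        exact_mod_cast h7
      · have h7 := mul_le_mul_of_nonneg_right h6 hlog2.le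
        linarith)
    (fun i hi => (Wb₁.ev i (by omega)).ball) (mul_nonneg hψ0.le hJ0) (fun B' hB' hBB' hPB' =>
      w2 B' (fun ω hω => hB₁ ω (hBB' ω hω)) (by
        have h4 : Pool.K2S.Pe F.p B₁ ≤ 2 ^ (N₂ + 1) * Pool.K2S.Pe F.p B' := by
          rw [div_le_iff₀ (by positivity)] at hPB'
          linarith
        calc Pool.K2S.Pe F.p A ≤ K₁ * Pool.K2S.Pe F.p B₁ := hPB₁
          _ ≤ K₁ * (2 ^ (N₂ + 1) * Pool.K2S.Pe F.p B') := mul_le_mul_of_nonneg_left h4 hK₁.le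
          _ = _ := by ring) hB')
    (by
      have h4 : C₂ * (ψ * J + 1) ≤ (k : ℝ) * Real.log 2 := by
        have h5 := mul_le_mul_of_nonneg_right fk.2 hlog2.le
        linarith
      calc Real.exp (C₂ * (ψ * J + 1)) ≤ Real.exp (k * Real.log 2) := Real.exp_le_exp.2 h4
        _ = 2 ^ k := by rw [Real.exp_nat_mul, Real.exp_log two_pos])
    (fun i hi l hl => by
      have hi' : i ≤ N₂ := by omega
      have h4 := mulJ ((hoB i hi').top l hl).le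
      rw [hlve] at h4
      have h5 := mulJ (hoa i hi')
      have h6 := (Wb₁.g_num hi' hl).2.2.2
      have h7 := (Pool.V1E.flo (mul_nonneg (by linarith : (0 : ℝ) ≤ Eb + η₀ + η₀) hJ0)).1
      have h8 : ((⌊(Eb + η₀ + η₀) * J⌋₊ + g₀ i l + C₂ * (k + 2) : ℕ) : ℝ) ≤ J := by
        push_cast at hk2 ⊢
        have h9 := mulJ hCη
        linarith
      exact_mod_cast h8)
  have hPB2 : 1 / 2 ^ (N₂ + 1) * Pool.K2S.Pe F.p B₁ ≤ Pool.K2S.Pe F.p B := by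
    rw [one_div_mul_eq_div]
    exact hPB
  have hκe : κ / 2 ^ (N₂ + 1) ≤ κ * (1 / 2 ^ (N₂ + 1)) := by rw [mul_one_div]
  have W₂ := (W₁.res hB hPB2 hκ.le hκe).upC hC₁C (fun k' hk' => by
      linarith [(h3o k' hk').2.1]) (fun k' hk' => by
      have h4 := (W₁.g_num hk' (l := r) le_rfl).2.2.2.2.1
      have h5 := mulJ (h3o k' hk').2.2
      have h6 : (⌊o k' * (J : ℝ)⌋₊ : ℝ) ≤ ⌊a * (J : ℝ)⌋₊ := by
        exact_mod_cast Nat.floor_le_floor (mulJ (by linarith [hoa k' (by omega)]))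
      have h7 := mulJ hCη
      linarith)
  have Wb₂ := (Wb₁.res hB hPB2 hκ.le hκe).upC hCBC
  have hU : (2 : ℝ) ^ (C₂ * (k + 2)) ≤ 2 ^ (⌊C * (η₀ * J)⌋₊ + 1) :=
    pow_le_pow_right₀ (by norm_num) hkC
  have hown' : ∀ i ≤ N₂, ∀ ω, B ω → ∀ l ≤ r, ∀ τ ∈ Set.Icc (0 : ℝ) 1,
      |(Pool.GEN.dv ⌊o i * J⌋₊ (fun s _ => H i s l) (c l) (Pool.KSAT.slam F ⌊o i * J⌋₊ ω)).eval τ| ≤
        2 ^ (⌊C * (η₀ * J)⌋₊ + 1) / 2 ^ g₀ i l := fun i hi ω hω l hl τ hτ =>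
    ((hBo i (by omega) ω hω).1 l hl τ hτ).trans (div_le_div_of_nonneg_right hU (by positivity))
  have hvel' : ∀ i ≤ N₂, ∀ ω ν, B ω → B ν → Pool.PB.ptr F J ω = Pool.PB.ptr F J ν → ∀ l ≤ r,
      |Pool.GEN.bd F ν (some (c l)) - Pool.D2R.dd (G i (Pool.PB.ptr F J ω) l) (Pool.GEN.bt F ω) (Pool.GEN.bd F ν)| ≤
        2 ^ (⌊C * (η₀ * J)⌋₊ + 1) * 2 ^ ⌊o i * J⌋₊ / 2 ^ g₀ i l := fun i hi ω ν hω hν hpt l hl =>
    ((hBo i (by omega) ω hω).2 ν hν hpt l hl).trans (div_le_div_of_nonneg_right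
      (mul_le_mul_of_nonneg_right hU (by positivity)) (by positivity))
  refine ⟨B, z, gc, gT, g₀, G, H, T, TH, Gt, Ht, fun ω hω => hB₁ ω (hB ω hω), ?_, ?_⟩
  · have h4 : Pool.K2S.Pe F.p B₁ ≤ 2 ^ (N₂ + 1) * Pool.K2S.Pe F.p B := by
      rw [div_le_iff₀ (by positivity)] at hPB
      linarith
    calc Pool.K2S.Pe F.p A ≤ K₁ * Pool.K2S.Pe F.p B₁ := hPB₁
      _ ≤ K₁ * (2 ^ (N₂ + 1) * Pool.K2S.Pe F.p B) := mul_le_mul_of_nonneg_left h4 hK₁.le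
      _ = _ := by ring
  · simp only [hlve]
    exact ⟨hN, W₂, Wb₂, hown', hvel', fun i _ j _ h => hzz i j h, fun i _ => hza i⟩

end Pool.W.V1E
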