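import Pool.Agent.H73.D2.Tmf
import Pool.Agent.H31.W.H73.D2.Tme
import Pool.Agent.H31.W1.H2.GEN.EvS
import Pool.Agent.H31.W1.H23.D2.Bln
import Pool.Agent.H31.W1.H80.GEN.Chn

/-!
# `NvD` with the frame and the ball in a chain

`NvP`: the fields of `NvD` which do not see the polynomial `C`. `winf_nv`, `winf_nv2`: it for the windows
`o 0` (of the target) and `o 1` (deep) with rows, `o 2` (the frame) and `o 3` (the ball) with balls only.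
`WG.nvp`: from `WG`.
-/

set_option autoImplicit false

namespace Pool.W.V1E

open Pool.V1E

open Finset Real MvPolynomial
open Pool.KA Pool.KSAT Pool.PB Pool.GEN Pool.D2R Pool.D2G30 Pool.ISO Pool.CHT Pool.CHX
open Pool.PB.Trl (rt rt_mem t_rt)
open Pool.K2S (Sub)

/-- **The data of the target `N - C (u - H₁ᵤ)`** which do not see `C`. -/
structure NvP {m J : ℕ} (F : Pool.KA.Fam m J) (c : ℕ → Fin m) (r D n M ar MB q₀ Q x p e su : ℕ)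
    (s : ℕ → ℕ) (qe : Fin r → ℕ) (o : ℕ → ℕ) (z g gc gT g₀ : ℕ → ℕ → ℕ) (B : F.Ω → Prop)
    (G T : ℕ → Pool.GEN.PtT F → ℕ → MvPolynomial (Option (Fin m)) ℝ)
    (H TH : ℕ → Pool.GEN.LnT F → ℕ → MvPolynomial (Option (Fin m)) ℝ)
    (Ht : Pool.GEN.LnT F → MvPolynomial (Option (Fin m)) ℝ) : Prop where
  hc : Set.InjOn c (Set.Iio (r + 2))
  bal : Pool.D2R.BalE F c (r + 1) n M ar o z g gc gT g₀ (2 ^ x) B G T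
  n3 : 3 ≤ n
  o1 : o 1 = o 0 + q₀
  o2 : o 2 = o 1 + Q
  o3 : o 2 ≤ o 3
  oa : o 3 ≤ ar
  oJ : o 3 ≤ J
  z02 : ∃ q ≤ M, z 0 q = o 2 - o 0
  z03 : ∃ q ≤ M, z 0 q = o 3 - o 0
  z12 : ∃ q ≤ M, z 1 q = o 2 - o 1
  z23 : ∃ q ≤ M, z 2 q = o 3 - o 2
  dG : ∀ k y l, (G k y l).totalDegree ≤ D
  pG : ∀ k y l, Pool.GEN.DepC c l (G k y l)
  dH : ∀ k s l, (H k s l).totalDegree ≤ D
  pH : ∀ k s l, Pool.GEN.DepC c l (H k s l)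
  dt : ∀ s, (Ht s).totalDegree ≤ D
  pt : ∀ s, Pool.GEN.DepC c (r + 1) (Ht s)
  ch1 : Pool.W.GEN.ChOK F c (r + 2) (fun _ => D) (o 1) (o 1) e (g₀ 1) B (G 1) (H 1)
  ch2 : Pool.W.GEN.ChOK F c (r + 2) (fun _ => D) (o 2) (o 2) e (g₀ 2) B (G 2) (H 2)
  ch3 : Pool.W.GEN.ChOK F c (r + 2) (fun _ => D) (o 3) (o 3) e (g₀ 3) B (G 3) (H 3)
  thin : Pool.W.GEN.ChOK F c (r + 1) (fun _ => D) ar (o 3) e (gT 3) B (T 3) (TH 3)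
  ro : Pool.D2R.ROut1 F c (r + 1) (o 1) (o 3) (ar - o 3) (g₀ 3) (gT 3) p (2 ^ x) B (G 3) (H 3) (T 3)
    (TH 3) Ht
  hT : ∀ j < r, ∀ y, T 3 y j = Pool.GEN.Gno (c j) J J (fun y => G 3 y j) y
  hTH : ∀ j < r, ∀ s, TH 3 s j = Pool.GEN.Hno (c j) (fun s => H 3 s j) s
  cl0 : ∀ ω, B ω → ∀ l < r, G 0 (Pool.PB.ptr F J ω) l = H 0 (Pool.KSAT.slam F (o 0) ω) l
  cl1 : ∀ ω, B ω → ∀ l ≤ r + 1, G 1 (Pool.PB.ptr F J ω) l = H 1 (Pool.KSAT.slam F (o 1) ω) l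
  own0 : ∀ ω, B ω → ∀ l < r, ∀ τ ∈ Set.Icc (0 : ℝ) 1,
    |(Pool.GEN.dv (o 0) (fun s _ => H 0 s l) (c l) (Pool.KSAT.slam F (o 0) ω)).eval τ| ≤ 2 ^ x / 2 ^ g₀ 0 l
  own1 : ∀ ω, B ω → ∀ l ≤ r + 1, ∀ τ ∈ Set.Icc (0 : ℝ) 1,
    |(Pool.GEN.dv (o 1) (fun s _ => H 1 s l) (c l) (Pool.KSAT.slam F (o 1) ω)).eval τ| ≤ 2 ^ x / 2 ^ g₀ 1 l
  vel2 : ∀ ω, B ω → ∀ l ≤ r + 1,
    |Pool.GEN.bd F ω (some (c l)) - Pool.D2R.dd (G 2 (Pool.PB.ptr F J ω) l) (Pool.GEN.bt F ω) (Pool.GEN.bd F ω)| ≤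
      2 ^ x * 2 ^ o 2 / 2 ^ g₀ 2 l
  n0 : ∀ j < r, s j ≤ g₀ 0 j + q₀ + x
  n1d : ∀ j < r, g₀ 1 j ≤ s j + x
  n1f : ∀ j < r, g₀ 1 j ≤ g 1 j + x
  n2a : ∀ j < r, g₀ 2 j ≤ s j + Q + x
  n2b : ∀ j < r, s j + Q ≤ g₀ 2 j + x
  n2c : ∀ j < r, g₀ 2 j ≤ g 0 j + (o 2 - o 0) + x
  n3a : ∀ j < r, g₀ 3 j ≤ g 0 j + (o 3 - o 0) + x
  n3b : ∀ j < r, g₀ 3 j ≤ s j + (o 3 - o 1) + x
  n3c : ∀ j < r, gT 3 j ≤ g₀ 3 j + (ar - o 3) + x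
  u0 : g₀ 1 r ≤ su + x
  u1 : su ≤ g 1 r + x
  u1' : su ≤ g₀ 1 r + x
  u2 : su + Q ≤ g₀ 2 r + x
  u2' : g₀ 2 r ≤ g 2 r + x
  u3 : g₀ 2 r + (o 3 - o 2) ≤ g₀ 3 r + x
  u4 : g₀ 3 r + (ar - o 3) ≤ gc 3 r + x
  u5 : gc 3 r ≤ gT 3 r + x
  m1 : s r ≤ g 1 (r + 1) + x
  m1' : s r ≤ g₀ 1 (r + 1) + x
  m2 : s r + MB ≤ g₀ 2 (r + 1) + x
  m2' : s r + MB ≤ g 2 (r + 1) + x
  m3 : s r + (o 3 - o 1) + (MB - Q) ≤ g₀ 3 (r + 1) + x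
  mp : s r + (ar - o 1) + (MB - Q) ≤ p + x
  QM : Q ≤ MB
  q0M : MB + Q ≤ q₀
  qeM : ∀ i, MB + Q ≤ qe i

section

variable {m J : ℕ} {F : Pool.KA.Fam m J} {c : ℕ → Fin m} {r D n M ar MB q₀ Q x p e su : ℕ}
  {s : ℕ → ℕ} {qe : Fin r → ℕ} {o : ℕ → ℕ} {z g gc gT g₀ : ℕ → ℕ → ℕ} {B : F.Ω → Prop}
  {G T : ℕ → Pool.GEN.PtT F → ℕ → MvPolynomial (Option (Fin m)) ℝ}
  {H TH : ℕ → Pool.GEN.LnT F → ℕ → MvPolynomial (Option (Fin m)) ℝ}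
  {Ht CL : Pool.GEN.LnT F → MvPolynomial (Option (Fin m)) ℝ}
  {Cp : Pool.GEN.PtT F → MvPolynomial (Option (Fin m)) ℝ}


/-- Smaller events. -/
theorem NvP.sub (W : Pool.W.V1E.NvP F c r D n M ar MB q₀ Q x p e su s qe o z g gc gT g₀ B G T H TH Ht)
    {B' : F.Ω → Prop} (hB : Pool.K2S.Sub B' B) :
    Pool.W.V1E.NvP F c r D n M ar MB q₀ Q x p e su s qe o z g gc gT g₀ B' G T H TH Ht := by
  refine { W with bal := ?_, ch1 := W.ch1.sub hB, ch2 := W.ch2.sub hB, ch3 := W.ch3.sub hB,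
                  thin := W.thin.sub hB, ro := W.ro.sub hB,
                  cl0 := fun ω hω => W.cl0 ω (hB ω hω), cl1 := fun ω hω => W.cl1 ω (hB ω hω),
                  own0 := fun ω hω => W.own0 ω (hB ω hω), own1 := fun ω hω => W.own1 ω (hB ω hω),
                  vel2 := fun ω hω => W.vel2 ω (hB ω hω) }
  exact ⟨fun k hk ω hω => W.bal.inc k hk ω (hB ω hω),
    fun k hk k' hk' q hq h1 h2 ω hω => W.bal.bal k hk k' hk' q hq h1 h2 ω (hB ω hω)⟩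

end


variable {m J : ℕ}

/-- **The data of the target `N - C (u - H₁ᵤ)`**, the frame and the ball with balls only. -/
theorem winf_nv {F : Pool.KA.Fam m J} {c : ℕ → Fin m} {r D Dr N N₂ M : ℕ} {R : ℕ → Prop}
    {C₀ a Eb ηm : ℝ} {o ε p' η σ : ℕ → ℝ} {lv be b : ℕ → ℕ → ℝ} {κ κ' : ℝ} {z : ℕ → ℕ → ℕ}
    {B : F.Ω → Prop} {gc gT g₀ : ℕ → ℕ → ℕ}
    {G : ℕ → Pool.GEN.PtT F → ℕ → MvPolynomial (Option (Fin m)) ℝ}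
    {H : ℕ → Pool.GEN.LnT F → ℕ → MvPolynomial (Option (Fin m)) ℝ}
    {T : ℕ → Pool.GEN.PtT F → ℕ → MvPolynomial (Option (Fin m)) ℝ}
    {TH : ℕ → Pool.GEN.LnT F → ℕ → MvPolynomial (Option (Fin m)) ℝ}
    {Gt : ℕ → Pool.GEN.PtT F → MvPolynomial (Option (Fin m)) ℝ}
    {Ht : ℕ → Pool.GEN.LnT F → MvPolynomial (Option (Fin m)) ℝ}
    (W : Pool.W.D2R.Wins F c (r + 1) D Dr N M R C₀ a Eb ηm o ε p' η σ lv be b κ z B gc gT g₀ G H T TH Gt Ht)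
    (Wb : Pool.W.D2R.WinB F c (r + 1) D Dr N₂ M C₀ a Eb ηm o η σ lv b κ' z B g₀ G H) (hN1 : 1 ≤ N)
    (hN : 3 ≤ N₂) {MB q₀ Q x p su : ℕ} {s : ℕ → ℕ} {qe : Fin r → ℕ} {X : ℝ}
    (hown : ∀ i < 4, ∀ ω, B ω → ∀ l ≤ r + 1, ∀ τ ∈ Set.Icc (0 : ℝ) 1,
      |(Pool.GEN.dv ⌊o i * J⌋₊ (fun s _ => H i s l) (c l) (Pool.KSAT.slam F ⌊o i * J⌋₊ ω)).eval τ| ≤
        2 ^ x / 2 ^ g₀ i l)
    (hvel : ∀ i < 4, ∀ ω ν, B ω → B ν → Pool.PB.ptr F J ω = Pool.PB.ptr F J ν → ∀ l ≤ r + 1,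
      |Pool.GEN.bd F ν (some (c l)) - Pool.D2R.dd (G i (Pool.PB.ptr F J ω) l) (Pool.GEN.bt F ω) (Pool.GEN.bd F ν)| ≤
        2 ^ x * 2 ^ ⌊o i * J⌋₊ / 2 ^ g₀ i l)
    (hc : Set.InjOn c (Set.Iio (r + 2))) (hR : ∀ l < r, R l)
    (hbe : ¬ R r → lv 1 r * J + ((⌊a * J⌋₊ : ℝ) - (⌊o 1 * J⌋₊ : ℝ)) ≤
      be 1 r * J + X)
    (hu : C₀ * (ηm * J) ≤ x) (ha : a ≤ 1) (h12 : o 0 ≤ o 3) (h23 : o 3 ≤ o 1)
    (o1 : ⌊o 0 * J⌋₊ = ⌊o 2 * J⌋₊ + q₀) (o2 : ⌊o 3 * J⌋₊ = ⌊o 0 * J⌋₊ + Q)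
    (z02 : ∃ q ≤ M, z 2 q = ⌊o 3 * J⌋₊ - ⌊o 2 * J⌋₊)
    (z03 : ∃ q ≤ M, z 2 q = ⌊o 1 * J⌋₊ - ⌊o 2 * J⌋₊)
    (z12 : ∃ q ≤ M, z 0 q = ⌊o 3 * J⌋₊ - ⌊o 0 * J⌋₊)
    (z23 : ∃ q ≤ M, z 3 q = ⌊o 1 * J⌋₊ - ⌊o 3 * J⌋₊)
    (hX0 : 0 ≤ X) (hx : 2 * X + ηm * J + 1 ≤ x)
    (hn : ∀ k ≤ 3, ∀ j < r, |lv k j * J + (⌊o 0 * J⌋₊ : ℝ) -
      ((s j : ℝ) + (⌊o k * J⌋₊ : ℝ))| ≤ X)
    (hs1 : (su : ℝ) ≤ lv 0 r * J + X) (hs2 : lv 0 r * J ≤ (su : ℝ) + X)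
    (hu2 : (su : ℝ) + Q ≤ lv 3 r * J + X)
    (hu3 : lv 3 r * J + ((⌊o 1 * J⌋₊ : ℝ) - (⌊o 3 * J⌋₊ : ℝ)) ≤
      lv 1 r * J + X)
    (hs : (s r : ℝ) ≤ lv 0 (r + 1) * J + X)
    (h2 : (s r : ℝ) + MB ≤ lv 3 (r + 1) * J + X)
    (h3 : (s r : ℝ) + ((⌊o 1 * J⌋₊ : ℝ) - (⌊o 0 * J⌋₊ : ℝ)) + ((MB : ℝ) - Q) ≤
      lv 1 (r + 1) * J + X)
    (hp0 : (p : ℝ) + C₀ * (ηm * J) ≤ p' 0 * J)
    (hp1 : (p : ℝ) + C₀ * (ηm * J) + ηm * J ≤ lv 1 (r + 1) * J +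
      ((⌊a * J⌋₊ : ℝ) - (⌊o 1 * J⌋₊ : ℝ)))
    (hp : (s r : ℝ) + ((⌊a * J⌋₊ : ℝ) - (⌊o 0 * J⌋₊ : ℝ)) + ((MB : ℝ) - Q) ≤ p + X)
    (QM : Q ≤ MB) (q0M : MB + Q ≤ q₀) (qeM : ∀ i, MB + Q ≤ qe i) :
    Pool.W.V1E.NvP F c r D 3 M ⌊a * J⌋₊ MB q₀ Q x p ⌊(Eb + 2 * ηm) * J⌋₊ su s qe
      (fun k => ⌊o (Pool.V1E.fr4 k) * J⌋₊) (fun k => z (Pool.V1E.fr4 k)) (fun k l => ⌊b (Pool.V1E.fr4 k) l * J⌋₊)
      (Pool.V1E.gX gc) (Pool.V1E.gX gT) (fun k => g₀ (Pool.V1E.fr4 k)) B (fun k => G (Pool.V1E.fr4 k))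
      (Pool.V1E.tX F c G T) (fun k => H (Pool.V1E.fr4 k)) (fun k => TH (Pool.V1E.fr4 k)) (Ht 0) := by
  have hJ : (0 : ℝ) ≤ J := Nat.cast_nonneg J
  have hC1 := W.C1
  have hC0 : 0 ≤ C₀ := by linarith
  have hηm0 : 0 ≤ ηm := (W.hη 0 (by omega)).1.trans (W.hη 0 (by omega)).2
  have hηJ : 0 ≤ ηm * J := mul_nonneg hηm0 hJ
  have hk : ∀ k ≤ N, C₀ * (η k * J) ≤ C₀ * (ηm * J) := fun k hk =>
    mul_le_mul_of_nonneg_left (mul_le_mul_of_nonneg_right (W.hη k hk).2 hJ) hC0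
  have hU : ∀ k ≤ N, (2 : ℝ) ^ ⌊C₀ * (η k * J)⌋₊ ≤ 2 ^ x := fun k hk' =>
    pow_le_pow_right₀ (by norm_num) (Pool.V1E.nat_le ((Nat.floor_le (mul_nonneg hC0
      (mul_nonneg (W.hη k hk').1 hJ))).trans ((hk k hk').trans hu)))
  have hUm : (2 : ℝ) ^ ⌊C₀ * (ηm * J)⌋₊ ≤ 2 ^ x :=
    pow_le_pow_right₀ (by norm_num) (Pool.V1E.nat_le ((Nat.floor_le (mul_nonneg hC0 hηJ)).trans hu))
  have hU1 : (1 : ℝ) ≤ 2 ^ x := one_le_pow₀ (by norm_num)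
  have hfl : ∀ {i j : ℕ}, o i ≤ o j → ⌊o i * J⌋₊ ≤ ⌊o j * J⌋₊ := fun h =>
    Nat.floor_le_floor (mul_le_mul_of_nonneg_right h hJ)
  have he : ∀ k ≤ N₂, ⌊(Eb + σ k + η k) * J⌋₊ ≤ ⌊(Eb + 2 * ηm) * J⌋₊ := fun k hk' =>
    Nat.floor_le_floor (mul_le_mul_of_nonneg_right (by
      have := (Wb.hη k hk').2
      have := (Wb.hσ k hk').2
      linarith) hJ)
  have hf : ∀ k, Pool.V1E.fr4 k ≤ N₂ := fun k => (Pool.V1E.fr4_le k).trans hN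
  have hf1 : ∀ {k : ℕ}, ¬ (k = 0 ∨ k = 2) → Pool.V1E.fr4 k ≤ N := fun h => (Pool.V1E.fr4_main h).trans hN1
  have m0 : 0 ≤ N₂ := Nat.zero_le _
  have m1 : 1 ≤ N₂ := by omega
  have m2 : 2 ≤ N₂ := by omega
  have k0 : 0 ≤ N := Nat.zero_le _
  have ho23 : ⌊o 3 * J⌋₊ ≤ ⌊o 1 * J⌋₊ := hfl h23
  have ho12 : ⌊o 0 * J⌋₊ ≤ ⌊o 3 * J⌋₊ := hfl h12
  have hoa : ⌊o 1 * J⌋₊ ≤ ⌊a * J⌋₊ :=
    Nat.floor_le_floor (mul_le_mul_of_nonneg_right (W.ho 1 hN1).2 hJ)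
  have haJ : ⌊a * J⌋₊ ≤ J := by
    have h := Nat.floor_le_floor (mul_le_mul_of_nonneg_right ha hJ)
    rw [one_mul, Nat.floor_natCast] at h
    exact h
  have hgN : ∀ k ≤ 3, ∀ l, l ≤ r + 1 → (lv k l * J - ηm * J - 1 ≤ (⌊b k l * J⌋₊ : ℝ)) ∧
      ((⌊b k l * J⌋₊ : ℝ) ≤ lv k l * J) ∧ (lv k l * J - ηm * J ≤ (g₀ k l : ℝ)) ∧
      ((g₀ k l : ℝ) ≤ lv k l * J) := fun k hk l hl =>
    Wb.g_num (hk.trans hN) hl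
  have hgD : ∀ l, l ≤ r + 1 →
      (lv 1 l * J - ηm * J + (⌊a * J⌋₊ - ⌊o 1 * J⌋₊) ≤ (gc 1 l : ℝ)) ∧
      ((gc 1 l : ℝ) ≤ lv 1 l * J + (⌊a * J⌋₊ - ⌊o 1 * J⌋₊)) := fun l hl =>
    (W.g_num hN1 hl).2.2.2.2
  have hnn : ∀ k ≤ 3, ∀ j < r, lv k j * J + (⌊o 0 * J⌋₊ : ℝ) ≤
      (s j : ℝ) + (⌊o k * J⌋₊ : ℝ) + X ∧ (s j : ℝ) + (⌊o k * J⌋₊ : ℝ) ≤
      lv k j * J + (⌊o 0 * J⌋₊ : ℝ) + X := fun k hk' j hj => by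
    have := abs_le.1 (hn k hk' j hj)
    constructor <;> linarith [this.1, this.2]
  have o1R : (⌊o 0 * J⌋₊ : ℝ) = (⌊o 2 * J⌋₊ : ℝ) + q₀ := by exact_mod_cast o1
  have o2R : (⌊o 3 * J⌋₊ : ℝ) = (⌊o 0 * J⌋₊ : ℝ) + Q := by exact_mod_cast o2
  have c02 : ((⌊o 3 * J⌋₊ - ⌊o 2 * J⌋₊ : ℕ) : ℝ) = (q₀ : ℝ) + Q := by
    rw [Nat.cast_sub (by omega)]
    linarith
  have c03 : ((⌊o 1 * J⌋₊ - ⌊o 2 * J⌋₊ : ℕ) : ℝ) =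
      (⌊o 1 * J⌋₊ : ℝ) - (⌊o 2 * J⌋₊ : ℝ) := Nat.cast_sub (by omega)
  have c13 : ((⌊o 1 * J⌋₊ - ⌊o 0 * J⌋₊ : ℕ) : ℝ) =
      (⌊o 1 * J⌋₊ : ℝ) - (⌊o 0 * J⌋₊ : ℝ) := Nat.cast_sub (by omega)
  have c23 : ((⌊o 1 * J⌋₊ - ⌊o 3 * J⌋₊ : ℕ) : ℝ) =
      (⌊o 1 * J⌋₊ : ℝ) - (⌊o 3 * J⌋₊ : ℝ) := Nat.cast_sub ho23
  have ca3 : ((⌊a * J⌋₊ - ⌊o 1 * J⌋₊ : ℕ) : ℝ) =
      (⌊a * J⌋₊ : ℝ) - (⌊o 1 * J⌋₊ : ℝ) := Nat.cast_sub hoa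
  have ca1 : ((⌊a * J⌋₊ - ⌊o 0 * J⌋₊ : ℕ) : ℝ) =
      (⌊a * J⌋₊ : ℝ) - (⌊o 0 * J⌋₊ : ℝ) := Nat.cast_sub (by omega)
  have cMQ : ((MB - Q : ℕ) : ℝ) = (MB : ℝ) - Q := Nat.cast_sub QM
  have hbal : Pool.D2R.BalE F c (r + 1) 3 M ⌊a * J⌋₊ (fun k => ⌊o (Pool.V1E.fr4 k) * J⌋₊) (fun k => z (Pool.V1E.fr4 k))
      (fun k l => ⌊b (Pool.V1E.fr4 k) l * J⌋₊) (Pool.V1E.gX gc) (Pool.V1E.gX gT) (fun k => g₀ (Pool.V1E.fr4 k)) (2 ^ x) B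
      (fun k => G (Pool.V1E.fr4 k)) (Pool.V1E.tX F c G T) := by
    refine ⟨fun k hk ω hω i hi b' hb' j hj => ?_, fun k hk k' hk' q hq hoo hz ω hω l hl b' hb' =>
      (Wb.bal (Pool.V1E.fr4 k) (hf k) (Pool.V1E.fr4 k') (hf k') q hq hoo hz ω hω l hl b' hb').trans
      (div_le_div_of_nonneg_right hUm (by positivity))⟩
    by_cases h4 : k = 0 ∨ k = 2
    · have e1 : Pool.V1E.tX F c G T k = fun y l => Pool.GEN.Gno (c l) J J (fun y => G (Pool.V1E.fr4 k) y l) y := if_pos h4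
      have e2 : Pool.V1E.gX gc k = fun _ => 0 := if_pos h4
      have e3 : Pool.V1E.gX gT k = fun _ => 0 := if_pos h4
      rw [e1, e3] at hb'
      rw [e2]
      refine (hb'.2 j hj).trans ?_
      show (1 : ℝ) / 2 ^ 0 ≤ 2 ^ x / 2 ^ 0
      rw [pow_zero, div_one, div_one]
      exact hU1
    · have e1 : Pool.V1E.tX F c G T k = T (Pool.V1E.fr4 k) := if_neg h4
      have e2 : Pool.V1E.gX gc k = gc (Pool.V1E.fr4 k) := if_neg h4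
      have e3 : Pool.V1E.gX gT k = gT (Pool.V1E.fr4 k) := if_neg h4
      rw [e1, e3] at hb'
      rw [e2]
      exact (W.bal.inc (Pool.V1E.fr4 k) (hf1 h4) ω hω i hi b' hb' j hj).trans
        (div_le_div_of_nonneg_right hUm (by positivity))
  refine
    { hc := hc
      bal := hbal
      n3 := le_rfl
      o1 := o1
      o2 := o2
      o3 := ho23
      oa := hoa
      oJ := hoa.trans haJ
      z02 := z02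
      z03 := z03
      z12 := z12
      z23 := z23
      dG := fun k y l => (Wb.ev (Pool.V1E.fr4 k) (hf k)).ball.degG y l
      pG := fun k y l => (Wb.ev (Pool.V1E.fr4 k) (hf k)).ball.depG y l
      dH := fun k s l => (Wb.ev (Pool.V1E.fr4 k) (hf k)).ball.degH s l
      pH := fun k s l => (Wb.ev (Pool.V1E.fr4 k) (hf k)).ball.depH s l
      dt := (W.evs 0 k0).dH
      pt := (W.evs 0 k0).pH
      ch1 := (Wb.ev 0 m0).ball.mono le_rfl (fun _ => le_rfl) le_rfl (he _ m0)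
      ch2 := (Wb.ev 3 hN).ball.mono le_rfl (fun _ => le_rfl) le_rfl (he _ hN)
      ch3 := (Wb.ev 1 m1).ball.mono le_rfl (fun _ => le_rfl) le_rfl (he _ m1)
      thin := ?_
      ro := (W.row 0 k0 1 hN1 (h12.trans h23) p ((add_le_add le_rfl
        (hk _ hN1)).trans hp0) ?_).mono le_rfl (by positivity) (hU _ hN1)
      hT := fun j hj y => ((W.evs 1 hN1).rgh j (by omega) (hR j hj)).2.1 y
      hTH := fun j hj s => ((W.evs 1 hN1).rgh j (by omega) (hR j hj)).2.2 s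
      cl0 := fun ω hω l hl => (Wb.ev 2 m2).cls ω hω l (by omega)
      cl1 := fun ω hω l hl => (Wb.ev 0 m0).cls ω hω l (by omega)
      own0 := fun ω hω l hl τ hτ => hown 2 (by norm_num) ω hω l (by omega) τ hτ
      own1 := fun ω hω l hl τ hτ => hown 0 (by norm_num) ω hω l hl τ hτ
      vel2 := fun ω hω l hl => hvel 3 (by norm_num) ω ω hω hω rfl l hl
      n0 := fun j hj => Pool.V1E.nat_le ?_
      n1d := fun j hj => Pool.V1E.nat_le ?_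
      n1f := fun j hj => Pool.V1E.nat_le ?_
      n2a := fun j hj => Pool.V1E.nat_le ?_
      n2b := fun j hj => Pool.V1E.nat_le ?_
      n2c := fun j hj => Pool.V1E.nat_le ?_
      n3a := fun j hj => Pool.V1E.nat_le ?_
      n3b := fun j hj => Pool.V1E.nat_le ?_
      n3c := fun j hj => Pool.V1E.nat_le ?_
      u0 := Pool.V1E.nat_le ?_
      u1 := Pool.V1E.nat_le ?_
      u1' := Pool.V1E.nat_le ?_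
      u2 := Pool.V1E.nat_le ?_
      u2' := Pool.V1E.nat_le ?_
      u3 := Pool.V1E.nat_le ?_
      u4 := Pool.V1E.nat_le ?_
      u5 := Pool.V1E.nat_le ?_
      m1 := Pool.V1E.nat_le ?_
      m1' := Pool.V1E.nat_le ?_
      m2 := Pool.V1E.nat_le ?_
      m2' := Pool.V1E.nat_le ?_
      m3 := Pool.V1E.nat_le ?_
      mp := Pool.V1E.nat_le ?_
      QM := QM
      q0M := q0M
      qeM := qeM }
  · -- the thin chain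
    have h4 := (W.evs 1 hN1).thin.mono le_rfl (fun _ => le_rfl) le_rfl
      (he _ m1)
    have h6 : ⌊o 1 * J⌋₊ + (⌊a * J⌋₊ - ⌊o 1 * J⌋₊) = ⌊a * J⌋₊ := by omega
    rw [h6] at h4
    exact h4
  · -- the side of the deep ball
    have h4 := (hgD (r + 1) le_rfl).1
    have h5 := hk _ hN1
    linarith
  · try simp only [Pool.V1E.fr4_0, Pool.V1E.fr4_1, Pool.V1E.fr4_2, Pool.V1E.fr4_3, Pool.V1E.gX_3]
    have h4 := (hgN 2 (by norm_num) j (by omega)).2.2.1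
    have h5 := hnn 2 (by norm_num) j hj
    push_cast
    linarith [h5.1, h5.2]
  · try simp only [Pool.V1E.fr4_0, Pool.V1E.fr4_1, Pool.V1E.fr4_2, Pool.V1E.fr4_3, Pool.V1E.gX_3]
    have h4 := (hgN 0 (by norm_num) j (by omega)).2.2.2
    have h5 := hnn 0 (by norm_num) j hj
    rw [Nat.cast_add]
    linarith [h5.1, h5.2]
  · try simp only [Pool.V1E.fr4_0, Pool.V1E.fr4_1, Pool.V1E.fr4_2, Pool.V1E.fr4_3, Pool.V1E.gX_3]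
    have h4 := (hgN 0 (by norm_num) j (by omega)).2.2.2
    have h5 := (hgN 0 (by norm_num) j (by omega)).1
    rw [Nat.cast_add]
    linarith
  · try simp only [Pool.V1E.fr4_0, Pool.V1E.fr4_1, Pool.V1E.fr4_2, Pool.V1E.fr4_3, Pool.V1E.gX_3]
    have h4 := (hgN 3 (by norm_num) j (by omega)).2.2.2
    have h5 := hnn 3 (by norm_num) j hj
    push_cast
    linarith [h5.1, h5.2]
  · try simp only [Pool.V1E.fr4_0, Pool.V1E.fr4_1, Pool.V1E.fr4_2, Pool.V1E.fr4_3, Pool.V1E.gX_3]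
    have h4 := (hgN 3 (by norm_num) j (by omega)).2.2.1
    have h5 := hnn 3 (by norm_num) j hj
    push_cast
    linarith [h5.1, h5.2]
  · try simp only [Pool.V1E.fr4_0, Pool.V1E.fr4_1, Pool.V1E.fr4_2, Pool.V1E.fr4_3, Pool.V1E.gX_3]
    have h4 := (hgN 3 (by norm_num) j (by omega)).2.2.2
    have h6 := (hgN 2 (by norm_num) j (by omega)).1
    have h5 := hnn 3 (by norm_num) j hj
    have h7 := hnn 2 (by norm_num) j hj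
    rw [Nat.cast_add, Nat.cast_add, c02]
    linarith [h5.1, h5.2, h7.1, h7.2]
  · try simp only [Pool.V1E.fr4_0, Pool.V1E.fr4_1, Pool.V1E.fr4_2, Pool.V1E.fr4_3, Pool.V1E.gX_3]
    have h4 := (hgN 1 (by norm_num) j (by omega)).2.2.2
    have h6 := (hgN 2 (by norm_num) j (by omega)).1
    have h5 := hnn 1 (by norm_num) j hj
    have h7 := hnn 2 (by norm_num) j hj
    rw [Nat.cast_add, Nat.cast_add, c03]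
    linarith [h5.1, h5.2, h7.1, h7.2]
  · try simp only [Pool.V1E.fr4_0, Pool.V1E.fr4_1, Pool.V1E.fr4_2, Pool.V1E.fr4_3, Pool.V1E.gX_3]
    have h4 := (hgN 1 (by norm_num) j (by omega)).2.2.2
    have h5 := hnn 1 (by norm_num) j hj
    rw [Nat.cast_add, Nat.cast_add, c13]
    linarith [h5.1, h5.2]
  · try simp only [Pool.V1E.fr4_0, Pool.V1E.fr4_1, Pool.V1E.fr4_2, Pool.V1E.fr4_3, Pool.V1E.gX_3]
    have h4 := (hgN 1 (by norm_num) j (by omega)).2.2.1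
    have h6 := ((W.t_num hN1 (show j < r + 1 by omega)).1 (hR j hj)).2
    rw [Nat.cast_add, Nat.cast_add, ca3]
    linarith
  · try simp only [Pool.V1E.fr4_0, Pool.V1E.fr4_1, Pool.V1E.fr4_2, Pool.V1E.fr4_3, Pool.V1E.gX_3]
    have h4 := (hgN 0 (by norm_num) r (by omega)).2.2.2
    rw [Nat.cast_add]
    linarith
  · try simp only [Pool.V1E.fr4_0, Pool.V1E.fr4_1, Pool.V1E.fr4_2, Pool.V1E.fr4_3, Pool.V1E.gX_3]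
    have h4 := (hgN 0 (by norm_num) r (by omega)).1
    rw [Nat.cast_add]
    linarith
  · try simp only [Pool.V1E.fr4_0, Pool.V1E.fr4_1, Pool.V1E.fr4_2, Pool.V1E.fr4_3, Pool.V1E.gX_3]
    have h4 := (hgN 0 (by norm_num) r (by omega)).2.2.1
    rw [Nat.cast_add]
    linarith
  · try simp only [Pool.V1E.fr4_0, Pool.V1E.fr4_1, Pool.V1E.fr4_2, Pool.V1E.fr4_3, Pool.V1E.gX_3]
    have h4 := (hgN 3 (by norm_num) r (by omega)).2.2.1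
    rw [Nat.cast_add, Nat.cast_add]
    linarith
  · try simp only [Pool.V1E.fr4_0, Pool.V1E.fr4_1, Pool.V1E.fr4_2, Pool.V1E.fr4_3, Pool.V1E.gX_3]
    have h4 := (hgN 3 (by norm_num) r (by omega)).2.2.2
    have h5 := (hgN 3 (by norm_num) r (by omega)).1
    rw [Nat.cast_add]
    linarith
  · try simp only [Pool.V1E.fr4_0, Pool.V1E.fr4_1, Pool.V1E.fr4_2, Pool.V1E.fr4_3, Pool.V1E.gX_3]
    have h4 := (hgN 3 (by norm_num) r (by omega)).2.2.2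
    have h5 := (hgN 1 (by norm_num) r (by omega)).2.2.1
    rw [Nat.cast_add, Nat.cast_add, c23]
    linarith
  · try simp only [Pool.V1E.fr4_0, Pool.V1E.fr4_1, Pool.V1E.fr4_2, Pool.V1E.fr4_3, Pool.V1E.gX_3]
    have h4 := (hgN 1 (by norm_num) r (by omega)).2.2.2
    have h5 := (hgD r (by omega)).1
    rw [Nat.cast_add, Nat.cast_add, ca3]
    linarith
  · try simp only [Pool.V1E.fr4_0, Pool.V1E.fr4_1, Pool.V1E.fr4_2, Pool.V1E.fr4_3, Pool.V1E.gX_3]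
    by_cases hRr : R r
    · have h4 := ((W.evs 1 hN1).rgh r (by omega) hRr).1
      rw [← h4, Nat.cast_add]
      linarith
    · have h4 := ((W.t_num hN1 (show r < r + 1 by omega)).2 hRr).1
      have h5 := (hgD r (by omega)).2
      have h6 := hbe hRr
      rw [Nat.cast_add]
      linarith
  · try simp only [Pool.V1E.fr4_0, Pool.V1E.fr4_1, Pool.V1E.fr4_2, Pool.V1E.fr4_3, Pool.V1E.gX_3]
    have h4 := (hgN 0 (by norm_num) (r + 1) le_rfl).1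
    rw [Nat.cast_add]
    linarith
  · try simp only [Pool.V1E.fr4_0, Pool.V1E.fr4_1, Pool.V1E.fr4_2, Pool.V1E.fr4_3, Pool.V1E.gX_3]
    have h4 := (hgN 0 (by norm_num) (r + 1) le_rfl).2.2.1
    rw [Nat.cast_add]
    linarith
  · try simp only [Pool.V1E.fr4_0, Pool.V1E.fr4_1, Pool.V1E.fr4_2, Pool.V1E.fr4_3, Pool.V1E.gX_3]
    have h4 := (hgN 3 (by norm_num) (r + 1) le_rfl).2.2.1
    rw [Nat.cast_add, Nat.cast_add]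
    linarith
  · try simp only [Pool.V1E.fr4_0, Pool.V1E.fr4_1, Pool.V1E.fr4_2, Pool.V1E.fr4_3, Pool.V1E.gX_3]
    have h4 := (hgN 3 (by norm_num) (r + 1) le_rfl).1
    rw [Nat.cast_add, Nat.cast_add]
    linarith
  · try simp only [Pool.V1E.fr4_0, Pool.V1E.fr4_1, Pool.V1E.fr4_2, Pool.V1E.fr4_3, Pool.V1E.gX_3]
    have h4 := (hgN 1 (by norm_num) (r + 1) le_rfl).2.2.1
    rw [Nat.cast_add, Nat.cast_add, Nat.cast_add, c13, cMQ]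
    linarith
  · try simp only [Pool.V1E.fr4_0, Pool.V1E.fr4_1, Pool.V1E.fr4_2, Pool.V1E.fr4_3, Pool.V1E.gX_3]
    rw [Nat.cast_add, Nat.cast_add, Nat.cast_add, ca1, cMQ]
    linarith

/-- **The data of the target `N - C (u - H₁ᵤ)`**, numbers as multiples of `J`. -/
theorem winf_nv2 {F : Pool.KA.Fam m J} {c : ℕ → Fin m} {r D Dr N N₂ M : ℕ} {R : ℕ → Prop}
    {C₀ a Eb ηm : ℝ} {o ε p' η σ : ℕ → ℝ} {lv be b : ℕ → ℕ → ℝ} {κ κ' : ℝ} {z : ℕ → ℕ → ℕ}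
    {B : F.Ω → Prop} {gc gT g₀ : ℕ → ℕ → ℕ}
    {G : ℕ → Pool.GEN.PtT F → ℕ → MvPolynomial (Option (Fin m)) ℝ}
    {H : ℕ → Pool.GEN.LnT F → ℕ → MvPolynomial (Option (Fin m)) ℝ}
    {T : ℕ → Pool.GEN.PtT F → ℕ → MvPolynomial (Option (Fin m)) ℝ}
    {TH : ℕ → Pool.GEN.LnT F → ℕ → MvPolynomial (Option (Fin m)) ℝ}
    {Gt : ℕ → Pool.GEN.PtT F → MvPolynomial (Option (Fin m)) ℝ}
    {Ht : ℕ → Pool.GEN.LnT F → MvPolynomial (Option (Fin m)) ℝ}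
    (W : Pool.W.D2R.Wins F c (r + 1) D Dr N M R C₀ a Eb ηm o ε p' η σ lv be b κ z B gc gT g₀ G H T TH Gt Ht)
    (Wb : Pool.W.D2R.WinB F c (r + 1) D Dr N₂ M C₀ a Eb ηm o η σ lv b κ' z B g₀ G H) (hN1 : 1 ≤ N)
    (hN : 3 ≤ N₂) {x : ℕ} {s : ℕ → ℕ} {qe : Fin r → ℕ} {ξ mb pr : ℝ}
    (hs : ∀ l < r, s l = ⌊lv 0 l * J⌋₊) (hsr : s r = ⌊lv 0 (r + 1) * J⌋₊)
    (hown : ∀ i < 4, ∀ ω, B ω → ∀ l ≤ r + 1, ∀ τ ∈ Set.Icc (0 : ℝ) 1,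
      |(Pool.GEN.dv ⌊o i * J⌋₊ (fun s _ => H i s l) (c l) (Pool.KSAT.slam F ⌊o i * J⌋₊ ω)).eval τ| ≤
        2 ^ (⌊C₀ * (ηm * J)⌋₊ + 1) / 2 ^ g₀ i l)
    (hvel : ∀ i < 4, ∀ ω ν, B ω → B ν → Pool.PB.ptr F J ω = Pool.PB.ptr F J ν → ∀ l ≤ r + 1,
      |Pool.GEN.bd F ν (some (c l)) - Pool.D2R.dd (G i (Pool.PB.ptr F J ω) l) (Pool.GEN.bt F ω) (Pool.GEN.bd F ν)| ≤
        2 ^ (⌊C₀ * (ηm * J)⌋₊ + 1) * 2 ^ ⌊o i * J⌋₊ / 2 ^ g₀ i l)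
    (hc : Set.InjOn c (Set.Iio (r + 2))) (hR : ∀ l < r, R l)
    (hbe : ¬ R r → lv 1 r + (a - o 1) ≤ be 1 r + ξ)
    (hx : (C₀ * ηm + 2 * ξ + ηm) * J + 30 ≤ x)
    (ha : a ≤ 1) (h01 : o 2 ≤ o 0) (h12 : o 0 ≤ o 3) (h23 : o 3 ≤ o 1)
    (z02 : ∃ q ≤ M, z 2 q = ⌊o 3 * J⌋₊ - ⌊o 2 * J⌋₊)
    (z03 : ∃ q ≤ M, z 2 q = ⌊o 1 * J⌋₊ - ⌊o 2 * J⌋₊)
    (z12 : ∃ q ≤ M, z 0 q = ⌊o 3 * J⌋₊ - ⌊o 0 * J⌋₊)
    (z23 : ∃ q ≤ M, z 3 q = ⌊o 1 * J⌋₊ - ⌊o 3 * J⌋₊)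
    (hξ : 0 ≤ ξ) (hmb : 0 ≤ mb) (hpr : 0 ≤ pr)
    (hn : ∀ k ≤ 3, ∀ j < r, |lv k j - o k - (lv 0 j - o 0)| ≤ ξ)
    (hu2 : lv 0 r + (o 3 - o 0) ≤ lv 3 r + ξ)
    (hu3 : lv 3 r + (o 1 - o 3) ≤ lv 1 r + ξ)
    (h2 : lv 0 (r + 1) + mb ≤ lv 3 (r + 1) + ξ)
    (h3 : lv 0 (r + 1) + (o 1 - o 0) + (mb - (o 3 - o 0)) ≤
      lv 1 (r + 1) + ξ)
    (hp0 : pr + C₀ * ηm ≤ p' 0)
    (hp1 : 2 ≤ (lv 1 (r + 1) + (a - o 1) - (pr + C₀ * ηm + ηm)) * J)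
    (hp : lv 0 (r + 1) + (a - o 0) + (mb - (o 3 - o 0)) ≤ pr + ξ)
    (hQM : 2 ≤ (mb - (o 3 - o 0)) * J)
    (hq : 3 ≤ (o 0 - o 2 - (mb + (o 3 - o 0))) * J)
    (qeM : ∀ i, ⌊mb * J⌋₊ + (⌊o 3 * J⌋₊ - ⌊o 0 * J⌋₊) ≤ qe i) :
    Pool.W.V1E.NvP F c r D 3 M ⌊a * J⌋₊ ⌊mb * J⌋₊ (⌊o 0 * J⌋₊ - ⌊o 2 * J⌋₊)
      (⌊o 3 * J⌋₊ - ⌊o 0 * J⌋₊) x ⌊pr * J⌋₊ ⌊(Eb + 2 * ηm) * J⌋₊ ⌊lv 0 r * J⌋₊ s qe
      (fun k => ⌊o (Pool.V1E.fr4 k) * J⌋₊) (fun k => z (Pool.V1E.fr4 k)) (fun k l => ⌊b (Pool.V1E.fr4 k) l * J⌋₊)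
      (Pool.V1E.gX gc) (Pool.V1E.gX gT) (fun k => g₀ (Pool.V1E.fr4 k)) B (fun k => G (Pool.V1E.fr4 k))
      (Pool.V1E.tX F c G T) (fun k => H (Pool.V1E.fr4 k)) (fun k => TH (Pool.V1E.fr4 k)) (Ht 0) := by
  have hJ : (0 : ℝ) ≤ J := Nat.cast_nonneg J
  have hC0 : 0 ≤ C₀ := by linarith [W.C1]
  have hηm0 : 0 ≤ ηm := (W.hη 0 (by omega)).1.trans (W.hη 0 (by omega)).2
  have hηJ : 0 ≤ ηm * J := mul_nonneg hηm0 hJ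
  have hξJ : 0 ≤ ξ * J := mul_nonneg hξ hJ
  have hCη : 0 ≤ C₀ * ηm * J := mul_nonneg (mul_nonneg hC0 hηm0) hJ
  have ho0 : ∀ k ≤ 3, 0 ≤ o k * J := fun k hk => mul_nonneg (Wb.ho k (hk.trans hN)).1 hJ
  have ha0 : 0 ≤ a * J := mul_nonneg ((Wb.ho 0 (Nat.zero_le _)).1.trans
    (Wb.ho 0 (Nat.zero_le _)).2) hJ
  have hlv : ∀ k ≤ 3, ∀ l, l ≤ r + 1 → 0 ≤ lv k l * J := fun k hk l hl =>
    (Nat.cast_nonneg (g₀ k l)).trans (Wb.g_num (hk.trans hN) hl).2.2.2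
  have fo := fun k (hk : k ≤ 3) => Pool.V1E.flo (ho0 k hk)
  have f0 := fo 0 (by norm_num)
  have f1 := fo 1 (by norm_num)
  have f2 := fo 2 (by norm_num)
  have f3 := fo 3 (by norm_num)
  have fa := Pool.V1E.flo ha0
  have fm := Pool.V1E.flo (mul_nonneg hmb hJ)
  have fp := Pool.V1E.flo (mul_nonneg hpr hJ)
  have fl01 : ⌊o 2 * J⌋₊ ≤ ⌊o 0 * J⌋₊ :=
    Nat.floor_le_floor (mul_le_mul_of_nonneg_right h01 hJ)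
  have fl12 : ⌊o 0 * J⌋₊ ≤ ⌊o 3 * J⌋₊ :=
    Nat.floor_le_floor (mul_le_mul_of_nonneg_right h12 hJ)
  have c12 : ((⌊o 3 * J⌋₊ - ⌊o 0 * J⌋₊ : ℕ) : ℝ) =
      (⌊o 3 * J⌋₊ : ℝ) - (⌊o 0 * J⌋₊ : ℝ) := Nat.cast_sub fl12
  have c01 : ((⌊o 0 * J⌋₊ - ⌊o 2 * J⌋₊ : ℕ) : ℝ) =
      (⌊o 0 * J⌋₊ : ℝ) - (⌊o 2 * J⌋₊ : ℝ) := Nat.cast_sub fl01
  have mulJ : ∀ {x y : ℝ}, x ≤ y → x * J ≤ y * J := fun h => mul_le_mul_of_nonneg_right h hJ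
  have fu : (⌊C₀ * (ηm * J)⌋₊ : ℝ) ≤ C₀ * (ηm * J) := Nat.floor_le (mul_nonneg hC0 hηJ)
  have hxx : ⌊C₀ * (ηm * J)⌋₊ + 1 ≤ x := Pool.V1E.nat_le (by
    push_cast
    linarith)
  have hpx : (2 : ℝ) ^ (⌊C₀ * (ηm * J)⌋₊ + 1) ≤ 2 ^ x := pow_le_pow_right₀ (by norm_num) hxx
  have g0r := Pool.V1E.flo (hlv 0 (by norm_num) r (by omega))
  have g0n := Pool.V1E.flo (hlv 0 (by norm_num) (r + 1) le_rfl)
  refine Pool.W.V1E.winf_nv W Wb hN1 hN (X := ξ * J + 8)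
    (fun i hi ω hω l hl τ hτ => (hown i hi ω hω l hl τ hτ).trans
      (div_le_div_of_nonneg_right hpx (by positivity)))
    (fun i hi ω ν hω hν hpt l hl => (hvel i hi ω ν hω hν hpt l hl).trans
      (div_le_div_of_nonneg_right (mul_le_mul_of_nonneg_right hpx (by positivity))
        (by positivity)))
    hc hR (fun h => ?_) ?_ ha h12 h23 (by omega)
    (by omega) z02 z03 z12 z23 (by linarith) ?_ ?_ ?_ ?_ ?_ ?_ ?_ ?_ ?_ ?_ ?_ ?_ ?_ ?_ qeM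
  · have e1 := mulJ (hbe h)
    linarith [fa.1, f1.2]
  · linarith
  · linarith
  · intro k hk j hj
    have e1 := Pool.V1E.flo (hlv 0 (by norm_num) j (by omega))
    have e2 := mulJ (hn k hk j hj)
    rw [← abs_of_nonneg hJ, ← abs_mul] at e2
    rw [abs_of_nonneg hJ] at e2
    have e3 := abs_le.1 e2
    have e4 := fo k hk
    have e5 := fo 0 (by norm_num)
    rw [hs j hj, abs_le]
    constructor <;> linarith [e3.1, e3.2, e1.1, e1.2, e4.1, e4.2, e5.1, e5.2]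
  · have e1 := Pool.V1E.flo (hlv 0 (by norm_num) r (by omega))
    linarith [e1.1]
  · have e1 := Pool.V1E.flo (hlv 0 (by norm_num) r (by omega))
    linarith [e1.2]
  · have e1 := Pool.V1E.flo (hlv 0 (by norm_num) r (by omega))
    have e2 := mulJ hu2
    rw [c12]
    linarith [e1.1, f0.2, f3.1]
  · have e2 := mulJ hu3
    linarith [f3.2, f1.1]
  · have e1 := Pool.V1E.flo (hlv 0 (by norm_num) (r + 1) le_rfl)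
    rw [hsr]
    linarith [e1.1]
  · have e1 := Pool.V1E.flo (hlv 0 (by norm_num) (r + 1) le_rfl)
    have e2 := mulJ h2
    rw [hsr]
    linarith [e1.1, fm.1]
  · have e1 := Pool.V1E.flo (hlv 0 (by norm_num) (r + 1) le_rfl)
    have e2 := mulJ h3
    rw [hsr, c12]
    linarith [e1.1, fm.1, f0.1, f0.2, f3.1, f3.2, f1.1, f1.2]
  · have e2 := mulJ hp0
    linarith [fp.1]
  · linarith [fp.1, fa.1, fa.2, f1.1, f1.2]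
  · have e1 := Pool.V1E.flo (hlv 0 (by norm_num) (r + 1) le_rfl)
    have e2 := mulJ hp
    rw [hsr, c12]
    linarith [e1.1, fm.1, f0.1, f0.2, f3.1, f3.2, fa.1, fa.2, fp.1, fp.2]
  · refine Pool.V1E.nat_le ?_
    rw [c12]
    linarith [fm.1, fm.2, f0.1, f0.2, f3.1, f3.2]
  · refine Pool.V1E.nat_le ?_
    rw [Nat.cast_add, c12, c01]
    linarith [fm.1, fm.2, f0.1, f0.2, f3.1, f3.2, f2.1, f2.2]

/-- **The data of the target `N - C (u - H₁ᵤ)` from `WG`**: the windows `o 0` (of the target), `o 1`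
(deep), `o 2` (the frame), `o 3` (the ball). -/
theorem WG.nvp {c : ℕ → Fin m} {r D Dr N N₂ : ℕ} {R : ℕ → Prop} {C a Eb ε₀ η₀ : ℝ}
    {Pt : ℝ → ℝ → ℝ} {o : ℕ → ℝ} {lv be : ℕ → ℕ → ℝ} {F : Pool.KA.Fam m J} {b : ℕ → ℕ → ℝ} {κ : ℝ}
    {z : ℕ → ℕ → ℕ} {B : F.Ω → Prop} {gc gT g₀ : ℕ → ℕ → ℕ}
    {G : ℕ → Pool.GEN.PtT F → ℕ → MvPolynomial (Option (Fin m)) ℝ}
    {H : ℕ → Pool.GEN.LnT F → ℕ → MvPolynomial (Option (Fin m)) ℝ}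
    {T : ℕ → Pool.GEN.PtT F → ℕ → MvPolynomial (Option (Fin m)) ℝ}
    {TH : ℕ → Pool.GEN.LnT F → ℕ → MvPolynomial (Option (Fin m)) ℝ}
    {Gt : ℕ → Pool.GEN.PtT F → MvPolynomial (Option (Fin m)) ℝ}
    {Ht : ℕ → Pool.GEN.LnT F → MvPolynomial (Option (Fin m)) ℝ}
    (W : Pool.W.V1E.WG c (r + 1) D Dr N N₂ R C a Eb ε₀ η₀ Pt o lv be F b κ z B gc gT g₀ G H T TH Gt Ht)
    (hN1 : 1 ≤ N) (hN : 3 ≤ N₂) {x : ℕ} {s : ℕ → ℕ} {qe : Fin r → ℕ} {ξ mb pr : ℝ}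
    (hs : ∀ l < r, s l = ⌊lv 0 l * J⌋₊) (hsr : s r = ⌊lv 0 (r + 1) * J⌋₊)
    (hc : Set.InjOn c (Set.Iio (r + 2))) (hR : ∀ l < r, R l)
    (hbe : ¬ R r → lv 1 r + (a - o 1) ≤ be 1 r + ξ)
    (hx : (C * η₀ + 2 * ξ + η₀) * J + 30 ≤ x)
    (ha : a ≤ 1) (h01 : o 2 ≤ o 0) (h12 : o 0 + η₀ ≤ o 3) (h23 : o 3 + η₀ ≤ o 1)
    (hξ : 0 ≤ ξ) (hmb : 0 ≤ mb) (hpr : 0 ≤ pr)
    (hn : ∀ k ≤ 3, ∀ j < r, |lv k j - o k - (lv 0 j - o 0)| ≤ ξ)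
    (hu2 : lv 0 r + (o 3 - o 0) ≤ lv 3 r + ξ)
    (hu3 : lv 3 r + (o 1 - o 3) ≤ lv 1 r + ξ)
    (h2 : lv 0 (r + 1) + mb ≤ lv 3 (r + 1) + ξ)
    (h3 : lv 0 (r + 1) + (o 1 - o 0) + (mb - (o 3 - o 0)) ≤ lv 1 (r + 1) + ξ)
    (hp0 : pr + 3 * (C * η₀) ≤ Pt a (o 0))
    (hp1 : 2 ≤ (lv 1 (r + 1) + (a - o 1) - (pr + C * η₀ + η₀)) * J)
    (hp : lv 0 (r + 1) + (a - o 0) + (mb - (o 3 - o 0)) ≤ pr + ξ)
    (hQM : 2 ≤ (mb - (o 3 - o 0)) * J)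
    (hq : 3 ≤ (o 0 - o 2 - (mb + (o 3 - o 0))) * J)
    (qeM : ∀ i, ⌊mb * J⌋₊ + (⌊o 3 * J⌋₊ - ⌊o 0 * J⌋₊) ≤ qe i) :
    Pool.W.V1E.NvP F c r D 3 N₂ ⌊a * J⌋₊ ⌊mb * J⌋₊ (⌊o 0 * J⌋₊ - ⌊o 2 * J⌋₊)
      (⌊o 3 * J⌋₊ - ⌊o 0 * J⌋₊) x ⌊pr * J⌋₊ ⌊(Eb + 2 * η₀) * J⌋₊ ⌊lv 0 r * J⌋₊ s qe
      (fun k => ⌊o (Pool.V1E.fr4 k) * J⌋₊) (fun k => z (Pool.V1E.fr4 k)) (fun k l => ⌊b (Pool.V1E.fr4 k) l * J⌋₊)
      (Pool.V1E.gX gc) (Pool.V1E.gX gT) (fun k => g₀ (Pool.V1E.fr4 k)) B (fun k => G (Pool.V1E.fr4 k))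
      (Pool.V1E.tX F c G T) (fun k => H (Pool.V1E.fr4 k)) (fun k => TH (Pool.V1E.fr4 k)) (Ht 0) := by
  have hη0 : 0 ≤ η₀ := (W.win.hη 0 (by omega)).1
  exact Pool.W.V1E.winf_nv2 W.win W.wb hN1 hN hs hsr (fun i hi => W.own i (by omega))
    (fun i hi => W.vel i (by omega)) hc hR hbe hx ha h01 (by linarith) (by linarith)
    ⟨3, by omega, W.zz 2 (by omega) 3 (by omega) (by linarith)⟩
    ⟨1, by omega, W.zz 2 (by omega) 1 (by omega) (by linarith)⟩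
    ⟨3, by omega, W.zz 0 (by omega) 3 (by omega) (by linarith)⟩
    ⟨1, by omega, W.zz 3 (by omega) 1 (by omega) (by linarith)⟩
    hξ hmb hpr hn hu2 hu3 h2 h3 (by linarith) hp1 hp hQM hq qeM

end Pool.W.V1E
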