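import Pool.Agent.H73.D2.Tmg
import Pool.Agent.H31.W.H69.NE.Nv
import Pool.Agent.H31.W.H73.D2.Tmf
import Pool.Agent.H31.W1.H80.GEN.Chn

/-!
# The target `N - P(p, u)` for a closed polynomial `P` of the frame and `u`: letters

`NwC`: the data of `P = Cp` (closed, its derivative in the direction `u = c r` is near the derivatives of
the charts of `N = c (r + 1)`). `NwD`: `NvP` and `NwC`. `nfw`: the polynomial `N - P` of a ball, `nW`:
the chart with `u` on its chart, `nwp`: the own path, `nwy`, `nwv`: value and velocity, `nwT`: the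
closed gradient. `NvP.frd`: the frame.
-/

set_option autoImplicit false

namespace Pool.W.V1E

open Pool.V1E

open Finset Real MvPolynomial
open Pool.KA Pool.KSAT Pool.PB Pool.GEN Pool.D2R Pool.D2G30 Pool.ISO Pool.CHT Pool.CHX
open Pool.PB.Trl (rt rt_mem t_rt)
open Pool.K2S (Sub)


/-- **The data of the target `N - P(p, u)`.** -/
structure NwD {m J : ℕ} (F : Pool.KA.Fam m J) (c : ℕ → Fin m) (r D n M ar MB q₀ Q x p e su : ℕ)
    (s : ℕ → ℕ) (qe : Fin r → ℕ) (o : ℕ → ℕ) (z g gc gT g₀ : ℕ → ℕ → ℕ) (B : F.Ω → Prop)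
    (G T : ℕ → Pool.GEN.PtT F → ℕ → MvPolynomial (Option (Fin m)) ℝ)
    (H TH : ℕ → Pool.GEN.LnT F → ℕ → MvPolynomial (Option (Fin m)) ℝ)
    (Ht CL : Pool.GEN.LnT F → MvPolynomial (Option (Fin m)) ℝ)
    (Cp : Pool.GEN.PtT F → MvPolynomial (Option (Fin m)) ℝ) : Prop extends
    Pool.W.V1E.NvP F c r D n M ar MB q₀ Q x p e su s qe o z g gc gT g₀ B G T H TH Ht,
    Pool.V1E.NwC F c r D MB Q x su (s r) o g₀ B G Ht CL Cp


/-- A larger degree. -/
theorem NvP.deg {m J : ℕ} {F : Pool.KA.Fam m J} {c : ℕ → Fin m} {r D D' n M ar MB q₀ Q x p e su : ℕ}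
    {s : ℕ → ℕ} {qe : Fin r → ℕ} {o : ℕ → ℕ} {z g gc gT g₀ : ℕ → ℕ → ℕ} {B : F.Ω → Prop}
    {G T : ℕ → Pool.GEN.PtT F → ℕ → MvPolynomial (Option (Fin m)) ℝ}
    {H TH : ℕ → Pool.GEN.LnT F → ℕ → MvPolynomial (Option (Fin m)) ℝ}
    {Ht : Pool.GEN.LnT F → MvPolynomial (Option (Fin m)) ℝ}
    (W : Pool.W.V1E.NvP F c r D n M ar MB q₀ Q x p e su s qe o z g gc gT g₀ B G T H TH Ht) (hD : D ≤ D') :
    Pool.W.V1E.NvP F c r D' n M ar MB q₀ Q x p e su s qe o z g gc gT g₀ B G T H TH Ht :=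
  { W with
    dG := fun k y l => (W.dG k y l).trans hD
    dH := fun k s l => (W.dH k s l).trans hD
    dt := fun s => (W.dt s).trans hD
    ch1 := W.ch1.mono le_rfl (fun _ => hD) le_rfl le_rfl
    ch2 := W.ch2.mono le_rfl (fun _ => hD) le_rfl le_rfl
    ch3 := W.ch3.mono le_rfl (fun _ => hD) le_rfl le_rfl
    thin := W.thin.mono le_rfl (fun _ => hD) le_rfl le_rfl }

section nvp

variable {m J : ℕ} {F : Pool.KA.Fam m J} {c : ℕ → Fin m} {r D n M ar MB q₀ Q x p e su : ℕ}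
  {s : ℕ → ℕ} {qe : Fin r → ℕ} {o : ℕ → ℕ} {z g gc gT g₀ : ℕ → ℕ → ℕ} {B : F.Ω → Prop}
  {G T : ℕ → Pool.GEN.PtT F → ℕ → MvPolynomial (Option (Fin m)) ℝ}
  {H TH : ℕ → Pool.GEN.LnT F → ℕ → MvPolynomial (Option (Fin m)) ℝ}
  {Ht : Pool.GEN.LnT F → MvPolynomial (Option (Fin m)) ℝ}

theorem NvP.hc1 (W : Pool.W.V1E.NvP F c r D n M ar MB q₀ Q x p e su s qe o z g gc gT g₀ B G T H TH Ht) :
    Set.InjOn c (Set.Iio (r + 1)) := W.hc.mono fun y hy => by
  rw [Set.mem_Iio] at hy ⊢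
  omega

theorem NvP.hcr (W : Pool.W.V1E.NvP F c r D n M ar MB q₀ Q x p e su s qe o z g gc gT g₀ B G T H TH Ht) :
    Set.InjOn c (Set.Iio r) := W.hc.mono fun y hy => by
  rw [Set.mem_Iio] at hy ⊢
  omega

/-- **The frame.** -/
theorem NvP.frd (W : Pool.W.V1E.NvP F c r D n M ar MB q₀ Q x p e su s qe o z g gc gT g₀ B G T H TH Ht)
    {D' x' : ℕ} (hD : D ≤ D') (hx : 2 * x + 2 ≤ x') :
    Pool.V1E.FrD F c r D' MB q₀ Q x' s qe o (g₀ 0) (g₀ 2) B (G 0) (G 2) (H 0) where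
  hc := W.hcr
  o1 := W.o1
  o2 := W.o2
  oJ := W.o3.trans W.oJ
  dG0 := fun y l => (W.dG 0 y l).trans hD
  pG0 := W.pG 0
  dG2 := fun y l => (W.dG 2 y l).trans hD
  pG2 := W.pG 2
  dH0 := fun y l => (W.dH 0 y l).trans hD
  cl0 := W.cl0
  own0 := fun ω hω l hl τ hτ => (W.own0 ω hω l hl τ hτ).trans
    (div_le_div_of_nonneg_right (pow_le_pow_right₀ (by norm_num) (by omega)) (by positivity))
  box0 := fun ω hω l hl b hb => by
    obtain ⟨q, hq, hz⟩ := W.z02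
    have h1 := Pool.W.V1E.shf_b W.bal (Nat.zero_le n) (show 2 ≤ n by have := W.n3; omega) hq
      (by have := W.o1; have := W.o2; omega) hz W.ch2 hω (show l ≤ r + 1 by omega) hb
    refine h1.trans (Pool.V1E.p2_le' ?_)
    have := W.n2c l hl
    rcases le_total (g 0 l + (o 2 - o 0)) (g₀ 2 l) with h | h
    · rw [min_eq_left h]
      omega
    · rw [min_eq_right h]
      omega
  n0 := fun j hj => by have := W.n0 j hj; omega
  n2a := fun j hj => by have := W.n2a j hj; omega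
  n2b := fun j hj => by have := W.n2b j hj; omega
  QM := W.QM
  q0M := W.q0M
  qeM := W.qeM

end nvp

/-! ### The letters -/

section letters

variable {m : ℕ}


variable {J : ℕ} (F : Pool.KA.Fam m J) (c : ℕ → Fin m) (s : ℕ → ℕ) (r w q₀ : ℕ)
  (H₀ H₁ : Pool.GEN.LnT F → ℕ → MvPolynomial (Option (Fin m)) ℝ)
  (Ht CL : Pool.GEN.LnT F → MvPolynomial (Option (Fin m)) ℝ)
  (Cp : Pool.GEN.PtT F → MvPolynomial (Option (Fin m)) ℝ)


end letters

section alg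

variable {m : ℕ} {c : ℕ → Fin m} {r D : ℕ} {P : ℕ → MvPolynomial (Option (Fin m)) ℝ}
  {K : MvPolynomial (Option (Fin m)) ℝ}


end alg

end Pool.W.V1E
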