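import Pool.Agent.H73.D2.Tms
import Pool.Agent.H31.W.H3.D2G.RecG
import Pool.Agent.H3.W.Bas
import Pool.Agent.H31.W1.H2.GEN.ChT

/-!
# The numbers of the hyperplanes at one scale

`RecG.nhNN`, `RecG.nhNF`: the numbers of `nhN_cls`, `nhF_cls` from the record of a window, the deeper
window `t + (1 + ρ) q` in the chain.
-/

set_option autoImplicit false

namespace Pool.W.PKG

open Pool.PKG

open Finset Real
open Pool.Agent.H49.Ent Pool.Agent.H32.Dense Pool.STK Pool.KA Pool.KSAT Pool.K2S Pool.PB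
open Pool.GEN Pool.S6C Pool.STAT Pool.CHT Pool.GRW Pool.ONE Pool.STA
open Pool.LBT (LSys ThrOf)
open Pool.LEV (Law)
open Pool.ALL (RateOf)
open Pool.ISO (PtD lvN WinD)
open Pool.V1E (vF vF_ge)
open Pool.NHN (NhNN)
open Pool.NHZ (NhNF)

section

variable {m : ℕ} {S : Pool.PB.PCl m} {al : ℝ} {g₀ : ℝ → ℝ} {P : List (Fin m) × Fin m → ℝ → ℝ → ℝ}
  {θ : ℝ} {P₂ : ℕ → List (Fin m) × Fin m → ℝ → ℝ → ℝ} {θ₂ Eb e₂ : ℕ → ℝ}
  {c : ℕ → Fin m} {Pt : ℝ → ℝ → ℝ} {rt : ℝ → ℝ} {h K₀ g : ℝ} {L T : ℕ → ℝ → ℝ → ℝ}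
  {Sl : ℕ → ℝ} {κ : ℕ → Pool.PKG.Kg} {G : Set ℝ} {S₀ N : ℕ} {A V : ℕ → ℝ} {S₂ N' : ℕ} {V' : ℕ → ℝ}
  {K ε q t : ℝ}
  (R : Pool.W.PKG.RecG S al g₀ P θ P₂ θ₂ Eb e₂ c Pt rt h K₀ g L T Sl κ G S₀ N A V S₂ N' V' K ε q t)
include R

/-- The numbers at the deeper window. -/
theorem RecG.nh_num {i r : ℕ} (hi1 : 1 ≤ i) (hi : i < m) (hri : r ≤ i) (hκ : ∀ l < r, κ l = .one)
    {j : ℕ} (hj : j < N') {ρ v₀ k₁ : ℝ} (hV' : V' j = 1 + ρ) (hv : 0 < v₀) (hv1 : v₀ ≤ 1 / 2)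
    (hρ0 : 0 < ρ) (hρ1 : ρ ≤ 1 / 2) (hε0 : 0 ≤ ε) (hε : 2 * ε ≤ v₀) (hk₁ : 0 ≤ k₁)
    (hK : k₁ + 6 ≤ K) : ∃ aq : ℚ, t + q + ρ * q ≤ aq ∧ (aq : ℝ) ≤ 1 ∧ e₂ i < θ₂ i * aq ∧
      ∀ l < r, Pool.CHT.bet (P₂ i) c l aq aq + v₀ * q ≤ 1 ∧
        Pool.CHT.bet (P₂ i) c l aq aq + v₀ * q + (t + q + ρ * q) < L l t t + q + (ρ + 3 * v₀) * q + aq ∧
        t ≤ L l t t ∧
        |L l t t - t - (L l (t - k₁ * q) (t - k₁ * q) - (t - k₁ * q))| ≤ v₀ * q ∧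
        |L l t t - t - (L l (t + q + ρ * q) (t + q + ρ * q) - (t + q + ρ * q))| ≤ v₀ * q ∧
        L l t t + Eb i + 3 * K * q < 1 := by
  have hq := R.q0
  have W := R.tg i hi1 hi
  have hvq : 0 < v₀ * q := mul_pos hv hq
  have hvq1 : v₀ * q ≤ q / 2 := by
    have := mul_le_mul_of_nonneg_right hv1 hq.le
    linarith
  have hεq : 0 ≤ ε * q := mul_nonneg hε0 hq.le
  have hεvq : 2 * (ε * q) ≤ v₀ * q := by
    have := mul_le_mul_of_nonneg_right hε hq.le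
    linarith
  have hρq : 0 < ρ * q := mul_pos hρ0 hq
  have hρq1 : ρ * q ≤ q / 2 := by
    have := mul_le_mul_of_nonneg_right hρ1 hq.le
    linarith
  have hk₁q : 0 ≤ k₁ * q := mul_nonneg hk₁ hq.le
  have hKq : k₁ * q + 6 * q ≤ K * q := by
    have := mul_le_mul_of_nonneg_right hK hq.le
    linarith
  have ht0 := R.t0
  have ht1 := R.t1
  have e4' : t + V' j * q = t + q + ρ * q := by rw [hV']; ring
  obtain ⟨d, hd, hrat⟩ := W.ratc j hj (ε * q + v₀ * q / 4) (by positivity)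
  obtain ⟨aq, ha1, ha2⟩ : ∃ x : ℚ, t + q + ρ * q < x ∧ (x : ℝ) < t + q + ρ * q + min d q :=
    exists_rat_btwn (by
      have : 0 < min d q := lt_min hd hq
      linarith)
  have m1 := min_le_left d q
  have m2 := min_le_right d q
  rw [e4'] at hrat
  have hb := hrat aq ha1.le (by linarith)
  have hx4 : |t + q + ρ * q - t| ≤ K * q := by
    rw [abs_le]
    constructor <;> linarith
  have hxa : |(aq : ℝ) - t| ≤ K * q := by
    rw [abs_le]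
    constructor <;> linarith
  have hx0 : |t - k₁ * q - t| ≤ K * q := by
    rw [abs_le]
    constructor <;> linarith
  have htt : |t - t| ≤ K * q := by
    rw [sub_self, abs_zero]
    linarith
  have hdL : ∀ l < r, ∀ x : ℝ, |x - t| ≤ K * q → |L l x x - L l t t - (x - t)| ≤ ε * q := by
    intro l hl x hx
    have h1 := R.dL l (by omega) x hx
    have h2 := R.kd l (by omega)
    rw [hκ l hl] at h2
    have h3 : Sl l = 1 := h2
    rw [h3, one_mul] at h1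
    exact h1
  refine ⟨aq, ha1.le, by linarith, W.eθ _ hxa, fun l hl => ?_⟩
  have h1 := hb l (by omega)
  have h2 := W.room l (by omega) _ hx4
  have h3 := abs_le.1 (hdL l hl _ hx4)
  have h4 := abs_le.1 (hdL l hl _ hx0)
  have hEb := W.Eb0
  have h5 := W.room l (by omega) t htt
  refine ⟨by linarith, by linarith [h3.2], ?_, ?_, ?_, by linarith⟩
  · rw [R.lv_lt (l := l) (by omega)]
    exact R.thr.low _ _ _ (by linarith) le_rfl (by linarith)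
  · rw [abs_le]
    constructor <;> linarith [h4.1, h4.2]
  · rw [abs_le]
    constructor <;> linarith [h3.1, h3.2]


/-- **The numbers of `nhN_cls`.** -/
theorem RecG.nhNN {r : ℕ} (hr : r + 1 < m)
    (hκ : ∀ l < r, κ l = .one)
    {j d : ℕ} (hj : j < N') {C δ C' ρ v₀ X k₁ : ℝ} {vw : ℕ → ℝ} (hV' : V' j = 1 + ρ)
    (hd : 4 ≤ d) (hvw : vw d = 1 + ρ) (hC : 1 ≤ C) (hC' : 1 ≤ C') (hδ : 0 < δ) (hδ1 : δ ≤ 1)
    (hv : 0 < v₀) (hvX : v₀ < X) (hρ0 : 0 < ρ) (hρ1 : ρ ≤ 1 / 2) (hρv : (C + 2) * v₀ < ρ)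
    (hs : C' * (X + (ρ + 3 * v₀)) < δ) (hε0 : 0 ≤ ε) (hε : 2 * ε ≤ v₀)
    (hk₁ : 0 ≤ k₁) (hK : k₁ + 6 ≤ K) : ∃ aq : ℚ,
    Pool.NHN.NhNN r d (P₂ (r + 1)) c (θ₂ (r + 1)) C (Eb (r + 1)) (v₀ * q) (v₀ * q) (X * q) δ C'
      (fun k => t + Pool.V1E.vF k₁ vw k * q)
      (fun k l => Pool.ISO.lvN P c (r + 1) (L (r + 1)) l (t + Pool.V1E.vF k₁ vw k * q) (t + Pool.V1E.vF k₁ vw k * q)) aq
      (e₂ (r + 1)) (v₀ * q) ((ρ + 3 * v₀) * q) := by
  have hq := R.q0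
  have W := R.tg (r + 1) (by omega) hr
  have hv1 : v₀ ≤ 1 / 2 := by
    have h1 : C' * (X + (ρ + 3 * v₀)) ≤ 1 := by linarith
    have h2 : X + (ρ + 3 * v₀) ≤ C' * (X + (ρ + 3 * v₀)) :=
      le_mul_of_one_le_left (by linarith) hC'
    linarith
  obtain ⟨aq, n1, n2, n3, n4⟩ := R.nh_num (i := r + 1) (by omega) hr (Nat.le_succ r) hκ hj
    hV' hv hv1 hρ0 hρ1 hε0 hε hk₁ hK
  have hlf : ∀ l < r, ∀ y : ℝ, Pool.ISO.lvN P c (r + 1) (L (r + 1)) l y y = L l y y := fun l hl y => by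
    rw [← R.lv_at hr (by omega)]
  have e0 : t + Pool.V1E.vF k₁ vw 0 * q = t := by simp [Pool.V1E.vF]
  have e2 : t + Pool.V1E.vF k₁ vw 2 * q = t - k₁ * q := by simp [Pool.V1E.vF]; ring
  have e3 : t + Pool.V1E.vF k₁ vw 3 * q = t + q := by simp [Pool.V1E.vF]
  have e4 : t + Pool.V1E.vF k₁ vw d * q = t + q + ρ * q := by rw [Pool.V1E.vF_ge hd, hvw]; ring
  obtain ⟨Y, hY⟩ : ∃ Y : ℝ, Y = C' * (X + (ρ + 3 * v₀)) := ⟨_, rfl⟩
  have hYq : Y * q < δ * q := by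
    rw [hY]
    exact mul_lt_mul_of_pos_right hs hq
  have hYe : C' * (X * q + (ρ + 3 * v₀) * q) = Y * q := by rw [hY]; ring
  have hδq : δ * q ≤ q := by
    have := mul_le_mul_of_nonneg_right hδ1 hq.le
    linarith
  have hvq : 0 < v₀ * q := mul_pos hv hq
  have hvq1 : v₀ * q ≤ q / 2 := by
    have := mul_le_mul_of_nonneg_right hv1 hq.le
    linarith
  have hρq : 0 < ρ * q := mul_pos hρ0 hq
  have hk₁q : 0 ≤ k₁ * q := mul_nonneg hk₁ hq.le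
  have hKq : k₁ * q + 6 * q ≤ K * q := by
    have := mul_le_mul_of_nonneg_right hK hq.le
    linarith
  have ht0 := R.t0
  have hEb := W.Eb0
  refine ⟨aq, ⟨hC, hvq.le, hvq.le, ?_, hEb.le, by positivity, ?_, ?_, ?_, hδ, hδ1,
    fun l hl => ?_, ?_, n2, n3, hvq, fun l hl => ?_, fun l hl => ?_, fun l hl => ?_,
    fun l hl => ?_, fun l hl => ?_, ?_, ?_, ?_, ?_, fun l hl => ?_⟩⟩
  · exact mul_lt_mul_of_pos_right hvX hq
  · simp only [e2]; linarith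
  · simp only [e0, e2]; linarith
  · simp only [e0, e3]; linarith
  · simp only [e0, hlf l hl]
    linarith [(n4 l hl).2.2.1]
  · simp only [e4]; exact n1
  · exact (n4 l hl).1
  · simp only [e0, e3, e4, hlf l hl]
    linarith [(n4 l hl).2.1]
  · simp only [e0, e2, hlf l hl]
    exact (abs_le.1 (n4 l hl).2.2.2.1).2
  · simp only [e0, e2, hlf l hl]
    linarith [(abs_le.1 (n4 l hl).2.2.2.1).1]
  · simp only [e0, e4, hlf l hl]
    exact (abs_le.1 (n4 l hl).2.2.2.2.1).2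
  · simp only [e2, e4]
    linarith
  · simp only [e3, e4]
    have := mul_lt_mul_of_pos_right hρv hq
    linarith
  · simp only [e0, e3, hYe]
    linarith
  · rw [hYe]
    linarith [W.Ebe]
  · simp only [e0, e3, hYe, hlf l hl]
    linarith [(n4 l hl).2.2.2.2.2]

end

end Pool.W.PKG
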