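import Pool.Agent.H73.D2.Tmt
import Pool.Agent.H31.W.H3.D2G.RecG
import Pool.Agent.H31.W.H92.D2.Him
import Pool.Agent.H3.W.Bas
import Pool.Agent.H31.W1.H2.GEN.ChT
import Pool.Agent.H31.W1.H91.D2.TlcA

/-!
# The time line at one scale

`hnN_num`: the numbers `HnN` at the windows of the end, positions to the precision `kf q`; `HnN.toF`: the
numbers `HfN`. `RecG.tl_scale`: `TlW` and the numbers at one scale of the record from `TlAt`.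
-/

set_option autoImplicit false

namespace Pool.W.V1E

open Pool.V1E

open Finset Real
open Pool.LA91 (StG lagG lstG epT slT)


end Pool.W.V1E

namespace Pool.W.PKG

open Pool.PKG

open Finset Real
open Pool.Agent.H49.Ent Pool.Agent.H32.Dense Pool.STK Pool.KA Pool.KSAT Pool.K2S Pool.PB
open Pool.GEN Pool.S6C Pool.STAT Pool.CHT Pool.GRW Pool.ONE Pool.STA
open Pool.LBT (LSys ThrOf)
open Pool.LEV (Law)
open Pool.ALL (RateOf)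
open Pool.ISO (PtD lvN WinD)
open Pool.V1E (vF vF_ge TlW HnN HfN hnN_num stg_ex)
open Pool.LA91 (TlAt StG lagG lstG epT slT)

/-- **The time line at one scale.** -/
theorem RecG.tl_scale {m : ℕ} {S : Pool.PB.PCl m} {al : ℝ} {g₀ : ℝ → ℝ}
    {P : List (Fin m) × Fin m → ℝ → ℝ → ℝ} {θ : ℝ}
    {P₂ : ℕ → List (Fin m) × Fin m → ℝ → ℝ → ℝ} {θ₂ Eb e₂ : ℕ → ℝ}
    {c : ℕ → Fin m} {Pt : ℝ → ℝ → ℝ} {rt : ℝ → ℝ} {h₀ K₀ g : ℝ} {L T : ℕ → ℝ → ℝ → ℝ}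
    {Sl : ℕ → ℝ} {κ : ℕ → Pool.PKG.Kg} {G : Set ℝ} {S₀ N : ℕ} {A V : ℕ → ℝ} {S₂ N' : ℕ} {V' : ℕ → ℝ}
    {K ε q t : ℝ}
    (R : Pool.W.PKG.RecG S al g₀ P θ P₂ θ₂ Eb e₂ c Pt rt h₀ K₀ g L T Sl κ G S₀ N A V S₂ N' V' K ε q t)
    {i r : ℕ} (hi1 : 1 ≤ i) (hi : i < m) (hri : r ≤ i) (hκ : ∀ l < r, κ l = .one)
    {CM CT k : ℕ} {s kf δ C' h X k₁ κT x : ℝ} {σ : ℚ} {vw : ℕ → ℝ} (hG : t - k₁ * q ∈ G)
    (hs : 1 ≤ s) (hsk : s ≤ kf) (hCM : s < CM) (hC' : 1 ≤ C') (hδ1 : δ ≤ 1)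
    (hσ : 0 < σ) (hσ1 : σ ≤ 1) (hκT : 0 < κT) (hκδ : κT < δ) (hh : 0 ≤ h) (hX : 0 ≤ X)
    (h1 : C' * X < δ) (h2 : 2 * h ≤ Pool.LA91.slT r σ κT) (hh1 : h ≤ 1 / 2) (hε0 : 0 ≤ ε) (hεh : ε ≤ h)
    (hε1 : 4 * ε ≤ Pool.LA91.epT r σ κT) (hk₁ : k₁ = CT + 7 * r + 13)
    (hCT : 2 * kf + 7 * r + 18 ≤ CT) (hK : k₁ + kf + 6 ≤ K)
    (hk1 : q ≤ 2 * (1 / 2) ^ k) (hk2 : (1 / 2) ^ k ≤ q)
    (hx1 : t + ((kf + 1) - CT - (7 * r + 11) / 2) * q ≤ x)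
    (hx2 : x ≤ t - (CT / 2 + 7 * r + 13) * q)
    (hTl : Pool.W.LA91.TlAt S c r (fun i w => L i w w) G x CT σ κT k) :
    ∃ (qf : ℕ → Fin r → ℕ) (nt : ℕ → ℝ) (P₁ : Fin r → ℝ) (fr : ℕ → ℝ) (hT : ℝ),
    (∀ (J : ℕ) (i : Fin r), ⌊s * q * J⌋₊ + (⌊(t + q) * J⌋₊ - ⌊t * J⌋₊) ≤ qf J i) ∧
    Pool.W.V1E.TlW S c r nt P₁ P₁ (t + Pool.V1E.vF k₁ vw 2 * q) (t + Pool.V1E.vF k₁ vw 0 * q) (t + Pool.V1E.vF k₁ vw 3 * q)
      (t + (kf + 1) * q) fr hT (κT * (1 / 2) ^ k) ∧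
    ∀ χ : ℝ, χ = X * q →
      Pool.V1E.HnN r CM (Eb i) (h * q) χ (s * q) (kf * q) (h * q) δ C' (fun k => t + Pool.V1E.vF k₁ vw k * q)
        (fun k l => Pool.ISO.lvN P c i (L i) l (t + Pool.V1E.vF k₁ vw k * q) (t + Pool.V1E.vF k₁ vw k * q)) qf nt P₁ P₁
        (t + (kf + 1) * q) fr hT (κT * (1 / 2) ^ k) := by
  have hq := R.q0
  have W := R.tg i hi1 hi
  obtain ⟨ρ, hρ⟩ : ∃ ρ : ℝ, ρ = (1 / 2) ^ k := ⟨_, rfl⟩
  have hρ0 : 0 < ρ := by rw [hρ]; positivity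
  have hk1' := hk1
  have hk2' := hk2
  rw [← hρ] at hk1' hk2'
  have hσ0 : (0 : ℝ) < σ := by exact_mod_cast hσ
  have hσ1' : (σ : ℝ) ≤ 1 := by exact_mod_cast hσ1
  have hr0 : (0 : ℝ) ≤ r := Nat.cast_nonneg r
  have hCT0 : (0 : ℝ) ≤ CT := Nat.cast_nonneg CT
  -- products
  have hsq : q ≤ s * q := le_mul_of_one_le_left hq.le hs
  have hskq : s * q ≤ kf * q := mul_le_mul_of_nonneg_right hsk hq.le
  have hrq : 0 ≤ (r : ℝ) * q := mul_nonneg hr0 hq.le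
  have hk1q : k₁ * q = CT * q + 7 * (r * q) + 13 * q := by rw [hk₁]; ring
  have hKq : k₁ * q + kf * q + 6 * q ≤ K * q := by
    have := mul_le_mul_of_nonneg_right hK hq.le
    linarith
  have hCTq : 2 * (kf * q) + 7 * (r * q) + 18 * q ≤ CT * q := by
    have := mul_le_mul_of_nonneg_right hCT hq.le
    linarith
  have hCTρ1 : CT * ρ ≤ CT * q := mul_le_mul_of_nonneg_left hk2' hCT0
  have hCTρ2 : CT * q ≤ 2 * (CT * ρ) := by
    have := mul_le_mul_of_nonneg_left hk1' hCT0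
    linarith
  have hrρ1 : (r : ℝ) * ρ ≤ r * q := mul_le_mul_of_nonneg_left hk2' hr0
  have hrρ2 : (r : ℝ) * q ≤ 2 * (r * ρ) := by
    have := mul_le_mul_of_nonneg_left hk1' hr0
    linarith
  have hsρ : (kf + 1) * q ≤ 2 * ((kf + 1) * ρ) := by
    have := mul_le_mul_of_nonneg_left hk1' (show 0 ≤ kf + 1 by linarith)
    linarith
  -- the depths
  obtain ⟨P₁, hP₁, hP₂⟩ := Pool.V1E.stg_ex (d := r) (sn := fun i w => L i w w) (g := x)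
    (x := (kf + 1) * q) (C := CT) hσ hρ (by nlinarith) (by
      have h1 : σ * ρ ≤ 1 * ρ := mul_le_mul_of_nonneg_right hσ1' hρ0.le
      have h2 : (3 * (r : ℝ) + 1) * (σ * ρ) ≤ (3 * r + 1) * (1 * ρ) :=
        mul_le_mul_of_nonneg_left h1 (by positivity)
      have h3 := mul_le_mul_of_nonneg_right hCT hρ0.le
      have h4 : 0 ≤ (r : ℝ) * ρ := mul_nonneg hr0 hρ0.le
      linarith)
  have hlf : ∀ l < r, ∀ y : ℝ, L l y y = Pool.ISO.lvN P c i (L i) l y y := fun l hl y => by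
    rw [← R.lv_at hi (by omega)]
  have e0 : t + Pool.V1E.vF k₁ vw 0 * q = t := by simp [Pool.V1E.vF]
  have e2 : t + Pool.V1E.vF k₁ vw 2 * q = t - k₁ * q := by simp [Pool.V1E.vF]; ring
  have e3 : t + Pool.V1E.vF k₁ vw 3 * q = t + q := by simp [Pool.V1E.vF]
  have ht0 := R.t0
  have ht1 := R.t1
  refine ⟨fun J i => ⌊(P₁ i - (L i x x - x)) * J⌋₊ + 1, fun i => L i x x - x,
    fun i => (P₁ i : ℝ), fun i => L i (t + Pool.V1E.vF k₁ vw 2 * q) (t + Pool.V1E.vF k₁ vw 2 * q) -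
      Pool.LA91.slT r σ κT * (1 / 2) ^ k, Pool.LA91.epT r σ κT * (1 / 2) ^ k, fun J i => ?_, ?_, fun χ hχ => ?_⟩
  · have hJ : (0 : ℝ) ≤ J := Nat.cast_nonneg J
    have h1 := hP₂ i
    have h2 := mul_le_mul_of_nonneg_right h1 hJ
    have h3' := mul_le_mul_of_nonneg_right hskq hJ
    have f1 := Nat.floor_le (show 0 ≤ s * q * J by positivity)
    have f2 := Nat.floor_le (show 0 ≤ (t + q) * J from mul_nonneg (by linarith) hJ)
    have f3 := Nat.lt_floor_add_one (t * J)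
    have f4 := Nat.lt_floor_add_one ((P₁ i - (L i x x - x)) * J)
    have hle : ⌊t * J⌋₊ ≤ ⌊(t + q) * J⌋₊ :=
      Nat.floor_le_floor (mul_le_mul_of_nonneg_right (by linarith) hJ)
    have h3 : ((⌊s * q * J⌋₊ + (⌊(t + q) * J⌋₊ - ⌊t * J⌋₊) : ℕ) : ℝ) <
        ((⌊(P₁ i - (L i x x - x)) * J⌋₊ + 1 + 1 : ℕ) : ℝ) := by
      push_cast [Nat.cast_sub hle]
      linarith
    have h4 : ⌊s * q * J⌋₊ + (⌊(t + q) * J⌋₊ - ⌊t * J⌋₊) <
        ⌊(P₁ i - (L i x x - x)) * J⌋₊ + 1 + 1 := by exact_mod_cast h3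
    show _ ≤ ⌊(P₁ i - (L i x x - x)) * J⌋₊ + 1
    omega
  · refine Pool.W.V1E.TlW.of_at hTl hP₁ hP₁ ?_ ?_ ?_ ?_ ?_ ?_
    · rw [e2]
      exact hG
    · rw [e2, ← hρ]
      linarith
    · rw [e2, e0]
      unfold Pool.LA91.lagG
      rw [← hρ]
      linarith
    · rw [e0, e3]
      linarith
    · rw [e3]
      linarith
    · unfold Pool.LA91.lstG
      rw [← hρ]
      linarith
  · refine Pool.V1E.hnN_num (lf := fun l y => Pool.ISO.lvN P c i (L i) l y y) (sn := fun l y => L l y y)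
      (fun l hl y => hlf l hl y) hχ hs hsk hCM hC' hδ1 hσ hκT hκδ hh hX h1 h2 hh1 hε0 hεh
      hε1 hq W.Eb0.le hk₁ hCT hK ht0 ht1 (fun l hl y hy => ?_) (fun l hl y hy => ?_)
      (fun l hl => ?_) hk1 hk2 ?_ hP₁ hP₂
    · have h1 := R.dL l (by omega) y hy
      have h2 := R.kd l (by omega)
      rw [hκ l hl] at h2
      have h3 : Sl l = 1 := h2
      rw [h3, one_mul, hlf l hl, hlf l hl] at h1
      exact h1
    · have h1 := W.room l (by omega) y hy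
      rw [hlf l hl] at h1
      exact h1
    · rw [← hlf l hl, R.lv_lt (l := l) (by omega)]
      exact R.thr.low _ _ _ (by linarith) le_rfl (by linarith)
    · rw [abs_le]
      constructor <;> linarith

end Pool.W.PKG
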