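import Pool.Agent.H73.D2.Tmw
import Pool.Agent.H31.W.H3.D2G.RecH
import Pool.Agent.H31.W.H73.D2.Tml
import Pool.Agent.H31.W.H73.D2.Tms
import Pool.Agent.H31.W.H73.D2.Tmt
import Pool.Agent.H3.W.Bas
import Pool.Agent.H31.W1.H91.D2.TlcA
import Pool.Agent.H31.W1.H91.FR.QpG

/-!
# The class theorems of the ends, under a hypothesis on the class

`CelZ`: as `CelQH`, with one hypothesis more on the class, `Z lam`, the amount `lam` chosen after `S₂`.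
`VelUZ`, `SvNZ`: as `VelU`, `SvN`, with this hypothesis; `celZ_u`, `celZ_n1`: the class theorems.
-/

set_option autoImplicit false

namespace Pool.W.PKG

open Pool.PKG

open Finset Real
open Pool.Agent.H49.Ent Pool.Agent.H32.Dense Pool.STK Pool.KA Pool.KSAT Pool.K2S Pool.PB
open Pool.GEN Pool.S6C Pool.STAT Pool.CHT Pool.GRW Pool.ONE Pool.STA
open Pool.LBT (LSys ThrOf)
open Pool.LEV (Law)
open Pool.ALL (RateOf)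
open Pool.ISO (PtD lvN WinD)
open Pool.V1E (vF vF_ge TlW HnN HfN VfW x10f_fin SlH VfN XiN x10n_fin)
open Pool.LA91 (TlAt epT slT FaQ sumQ)


/-- **The class theorem of a cell** under the hypothesis `Z lam` on the class. -/
def CelZ {ι Λ : Type} (n i : ℕ) (h : ℝ) (Sl : ℕ → ℝ) (κ : ℕ → Pool.PKG.Kg) (Q : Pool.PKG.PropG n ι)
    (Z : Pool.PKG.PropZ n Λ) : Prop :=
  ∀ al : ℝ, 0 < al → ∀ K₀ : ℝ, 0 < K₀ → ∀ del : ℝ, 0 < del → ∀ S₀ : ℕ, 1 ≤ S₀ →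
    ∃ (K : ℝ) (N : ℕ) (A V : ℕ → ℝ), 1 ≤ K ∧ (∀ k < N, -K ≤ V k ∧ V k ≤ A k ∧ A k ≤ K) ∧
    ∀ S₂ : ℕ, S₀ ≤ S₂ → ∃ (lam : Λ) (K' : ℝ) (N' : ℕ) (V' : ℕ → ℝ), K ≤ K' ∧
      (∀ k < N', -K' ≤ V' k ∧ V' k ≤ K') ∧
      ∃ ε : ℝ, 0 < ε ∧ ∀ (S : Pool.PB.PCl n) (g₀ : ℝ → ℝ) (P : List (Fin n) × Fin n → ℝ → ℝ → ℝ)
      (θ : ℝ) (P₂ : ℕ → List (Fin n) × Fin n → ℝ → ℝ → ℝ) (θ₂ Eb e₂ : ℕ → ℝ) (c : ℕ → Fin n)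
      (Pt : ℝ → ℝ → ℝ) (r : ℝ → ℝ) (L T : ℕ → ℝ → ℝ → ℝ) (G : Set ℝ) (g : ℝ),
      IsClosed G → g ∈ G → (∀ l < n, HasDerivAt (fun x => L l x x) (Sl l) g) →
      Z lam S P θ c Pt r L T κ G g →
      ∃ (p : ℕ → ι) (M : ℕ) (B₀ B₁ : ℕ → ℝ),
      (∀ j < M, B₀ j < B₁ j) ∧ ∀ k₀ : ℕ → ℕ,
      (∀ j < M, Q (p j) (k₀ j) S P θ c Pt r L T κ G g) →
      ∃ q₁ : ℝ, 0 < q₁ ∧ ∀ (q t : ℝ) (x : ℕ → ℝ),
      q < q₁ → (∀ j < M, x j ∈ G ∧ t + B₀ j * q ≤ x j ∧ x j ≤ t + B₁ j * q ∧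
        Q (p j) (k₀ j) S P θ c Pt r L T κ G (x j)) →
      Pool.W.PKG.RecG S al g₀ P θ P₂ θ₂ Eb e₂ c Pt r h K₀ g L T Sl κ G S₀ N A V S₂ N' V' K' ε q t →
      L i (t + q) (t + q) ≤ L i (t + q) t + del * q

/-- Without the hypothesis on the class. -/
theorem CelZ.h {ι Λ : Type} {n i : ℕ} {h : ℝ} {Sl : ℕ → ℝ} {κ : ℕ → Pool.PKG.Kg} {Q : Pool.PKG.PropG n ι}
    {Z : Pool.PKG.PropZ n Λ} (H : Pool.W.PKG.CelZ n i h Sl κ Q Z)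
    (hZ : ∀ lam S P θ c Pt r L T κ G g, Z lam S P θ c Pt r L T κ G g) :
    Pool.W.PKG.CelQH n i h Sl κ Q := by
  intro al hal K₀ hK₀ del hdel S₀ hS₀
  obtain ⟨K, N, A, V, h1, h2, H⟩ := H al hal K₀ hK₀ del hdel S₀ hS₀
  refine ⟨K, N, A, V, h1, h2, fun S₂ hS₂ => ?_⟩
  obtain ⟨lam, K', N', V', h3, h4, ε, hε, H⟩ := H S₂ hS₂
  exact ⟨K', N', V', h3, h4, ε, hε, fun S g₀ P θ P₂ θ₂ Eb e₂ c Pt r L T G g hG hg hsl =>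
    H S g₀ P θ P₂ θ₂ Eb e₂ c Pt r L T G g hG hg hsl (hZ _ _ _ _ _ _ _ _ _ _ _ _)⟩


end Pool.W.PKG
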