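import Pool.Agent.H73.D2.Tmh
import Pool.Agent.H31.W.H69.NE.Nvw
import Pool.Agent.H31.W.H73.D2.Tmg
import Pool.Agent.H31.W1.H80.GEN.Chn

/-!
# Vectors of the frame in the windows, for `NvP`

`nvp_nrm`, `nvp_dd`: the norms over the thin boxes, the gradients of the charts of `u` and of the row
label of `N`.
-/

set_option autoImplicit false

namespace Pool.W.V1E

open Pool.V1E

open Finset Real MvPolynomial
open Pool.KA Pool.KSAT Pool.PB Pool.GEN Pool.D2R Pool.D2G30 Pool.ISO Pool.CHT Pool.CHX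
open Pool.PB.Trl (rt rt_mem t_rt)

/-- **Vectors of the frame in the windows.** -/
theorem nvp_nrm (D r : ℕ) : ∃ C : ℕ, ∀ {m J : ℕ} {F : Pool.KA.Fam m J} {c : ℕ → Fin m}
    {n M ar MB q₀ Q x p e su : ℕ} {s : ℕ → ℕ} {qe : Fin r → ℕ} {o : ℕ → ℕ}
    {z g gc gT g₀ : ℕ → ℕ → ℕ} {B : F.Ω → Prop}
    {G T : ℕ → Pool.GEN.PtT F → ℕ → MvPolynomial (Option (Fin m)) ℝ}
    {H TH : ℕ → Pool.GEN.LnT F → ℕ → MvPolynomial (Option (Fin m)) ℝ}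
    {Ht : Pool.GEN.LnT F → MvPolynomial (Option (Fin m)) ℝ},
    Pool.W.V1E.NvP F c r D n M ar MB q₀ Q x p e su s qe o z g gc gT g₀ B G T H TH Ht → ∀ ω, B ω →
    ∀ V : Option (Fin m) → ℝ, V none = 0 →
    (∀ j < r, |V (some (c j)) - Pool.D2R.dd (G 0 (Pool.PB.ptr F J ω) j) (Pool.GEN.bt F ω) V| ≤ 1 / 2 ^ s j) →
    Pool.D2R.nrm c (G 2 (Pool.PB.ptr F J ω)) (g₀ 2) (o 2) r (Pool.GEN.bt F ω) V ≤ 2 ^ (C * (x + 1)) * 2 ^ Q ∧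
    Pool.D2R.nrm c (G 3 (Pool.PB.ptr F J ω)) (g₀ 3) (o 3) r (Pool.GEN.bt F ω) V ≤ 2 ^ (C * (x + 1)) * 2 ^ (o 3 - o 1) ∧
    Pool.D2R.nrm c (TH 3 (Pool.KSAT.slam F (o 3) ω)) (gT 3) ar r (Pool.GEN.bt F ω) V ≤
      2 ^ (C * (x + 1)) * 2 ^ (ar - o 1) ∧
    |Pool.D2R.dd (TH 3 (Pool.KSAT.slam F (o 3) ω) r) (Pool.GEN.bt F ω) V - Pool.D2R.dd (G 3 (Pool.PB.ptr F J ω) r) (Pool.GEN.bt F ω) V| ≤
      2 ^ (C * (x + 1)) * 2 ^ (o 3 - o 1) / 2 ^ g₀ 3 r := by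
  obtain ⟨C₁, hnw⟩ := Pool.W.V1E.nrm_win D r (r + 1) (Nat.le_succ r)
  obtain ⟨C₂, hC₂⟩ := pow_unbounded_of_one_lt ((r : ℝ) + 1) (one_lt_two (α := ℝ))
  obtain ⟨Cb, hCb, hba⟩ := Pool.D2R.box_all r D D
  obtain ⟨C₃, hC₃⟩ := pow_unbounded_of_one_lt Cb (one_lt_two (α := ℝ))
  refine ⟨C₁ + C₂ + C₃ + 5, ?_⟩
  intro m J F c n M ar MB q₀ Q x p e su s qe o z g gc gT g₀ B G T H TH Ht W ω hω V hV0 hV
  obtain ⟨q02, hq02, hz02⟩ := W.z02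
  obtain ⟨q03, hq03, hz03⟩ := W.z03
  have hn3 := W.n3
  have ho1 := W.o1
  have ho2 := W.o2
  have ho3 := W.o3
  have hoa := W.oa
  have e21 : o 2 - o 1 = Q := by omega
  have hN2 := hnw W.hc1 W.bal (show 2 ≤ n by omega) hq02 (by omega) hz02 (W.dG 0) (W.pG 0) W.ch2
    W.n2c (fun j hj => by have := W.n2a j hj; omega) ω hω V hV0 hV
  have hN3 := hnw W.hc1 W.bal (show 3 ≤ n by omega) hq03 (by omega) hz03 (W.dG 0) (W.pG 0) W.ch3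
    W.n3a W.n3b ω hω V hV0 hV
  rw [e21] at hN2
  obtain ⟨Y₁, hY₁⟩ : ∃ Y₁ : ℝ, Y₁ = 2 ^ (C₁ * (x + 1)) := ⟨_, rfl⟩
  rw [← hY₁] at hN2 hN3
  have hY10 : 0 < Y₁ := by rw [hY₁]; positivity
  obtain ⟨Y, hY⟩ : ∃ Y : ℝ, Y = 2 ^ ((C₁ + C₂ + C₃ + 5) * (x + 1)) := ⟨_, rfl⟩
  rw [← hY]
  have hYb : ∀ {k : ℕ}, k ≤ (C₂ + C₃ + 5) * (x + 1) → 2 ^ k * Y₁ ≤ Y := by
    intro k hk
    rw [hY, hY₁, ← pow_add]
    refine pow_le_pow_right₀ (by norm_num) ?_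
    calc k + C₁ * (x + 1) ≤ (C₂ + C₃ + 5) * (x + 1) + C₁ * (x + 1) := by omega
      _ = _ := by ring
  have hY1Y : Y₁ ≤ Y := by
    have := hYb (k := 0) (Nat.zero_le _)
    rwa [pow_zero, one_mul] at this
  have hp2x : (1 : ℝ) ≤ 2 ^ x := one_le_pow₀ (by norm_num)
  obtain ⟨N, hN⟩ : ∃ N : ℝ, N = Pool.D2R.nrm c (G 3 (Pool.PB.ptr F J ω)) (g₀ 3) (o 3) r (Pool.GEN.bt F ω) V := ⟨_, rfl⟩
  have hN0 : 0 ≤ N := by
    rw [hN]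
    exact Pool.D2R.nrm_nonneg _ _ _ _ _ _ _
  have hNb : N ≤ Y₁ * 2 ^ (o 3 - o 1) := by
    rw [hN]
    exact hN3
  have ha1 : (2 : ℝ) ^ (ar - o 3) * 2 ^ (o 3 - o 1) = 2 ^ (ar - o 1) := by
    rw [← pow_add]
    congr 1
    omega
  -- the components
  have hcomp : ∀ l < r, |V (some (c l)) - Pool.D2R.dd (G 3 (Pool.PB.ptr F J ω) l) (Pool.GEN.bt F ω) V| ≤ N / 2 ^ g₀ 3 l :=
    fun l hl => by
      rw [hN]
      exact Pool.D2R.nrm_comp _ _ _ _ _ _ _ hl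
  have hgT : ∀ l < r, (2 : ℝ) ^ gT 3 l ≤ 2 ^ g₀ 3 l * 2 ^ (ar - o 3 + x) := by
    intro l hl
    rw [← pow_add]
    exact pow_le_pow_right₀ (by norm_num) (by have := W.n3c l hl; omega)
  -- the thin boxes of the line
  have hNT : Pool.D2R.nrm c (TH 3 (Pool.KSAT.slam F (o 3) ω)) (gT 3) ar r (Pool.GEN.bt F ω) V ≤
      (r + 1) * (2 * 2 ^ (2 * x) * 2 ^ (ar - o 3) * N) := by
    refine Pool.D2R.nrm_le (by rw [hV0, abs_zero]; positivity) fun l hl => ?_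
    rw [W.hTH l hl]
    have h1 := (W.ro.dif ω hω l (by omega)).1 V
    rw [Pool.D2R.dd_sub] at h1
    have h1' : |Pool.D2R.dd (Pool.GEN.Hno (c l) (fun s => H 3 s l) (Pool.KSAT.slam F (o 3) ω)) (Pool.GEN.bt F ω) V -
        Pool.D2R.dd (G 3 (Pool.PB.ptr F J ω) l) (Pool.GEN.bt F ω) V| ≤ 2 ^ x / 2 ^ g₀ 3 l * N :=
      h1.trans (mul_le_mul_of_nonneg_left (by rw [hN]; exact Pool.D2R.nrm_mono hl.le _ _) (by positivity))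
    have h2 := hcomp l hl
    have e1 : V (some (c l)) - Pool.D2R.dd (Pool.GEN.Hno (c l) (fun s => H 3 s l) (Pool.KSAT.slam F (o 3) ω)) (Pool.GEN.bt F ω) V =
        (V (some (c l)) - Pool.D2R.dd (G 3 (Pool.PB.ptr F J ω) l) (Pool.GEN.bt F ω) V) -
        (Pool.D2R.dd (Pool.GEN.Hno (c l) (fun s => H 3 s l) (Pool.KSAT.slam F (o 3) ω)) (Pool.GEN.bt F ω) V -
          Pool.D2R.dd (G 3 (Pool.PB.ptr F J ω) l) (Pool.GEN.bt F ω) V) := by ring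
    rw [e1]
    refine (abs_sub _ _).trans ((add_le_add h2 h1').trans ?_)
    rw [le_div_iff₀ (by positivity)]
    have e2 : (N / 2 ^ g₀ 3 l + 2 ^ x / 2 ^ g₀ 3 l * N) * 2 ^ gT 3 l =
        (1 + 2 ^ x) * N / 2 ^ g₀ 3 l * 2 ^ gT 3 l := by ring
    rw [e2]
    refine (mul_le_mul_of_nonneg_left (hgT l hl) (by positivity)).trans ?_
    have e3 : (1 + 2 ^ x) * N / 2 ^ g₀ 3 l * (2 ^ g₀ 3 l * 2 ^ (ar - o 3 + x)) =
        (1 + 2 ^ x) * 2 ^ x * (2 ^ (ar - o 3) * N) := by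
      rw [pow_add]
      field_simp
    have e4 : 2 * 2 ^ (2 * x) * 2 ^ (ar - o 3) * N =
        (2 ^ x + 2 ^ x) * 2 ^ x * (2 ^ (ar - o 3) * N) := by
      rw [two_mul x, pow_add]
      ring
    rw [e3, e4]
    refine mul_le_mul_of_nonneg_right (mul_le_mul_of_nonneg_right (by linarith) (by positivity))
      (by positivity)
  -- the thin boxes of the point
  have hNP : Pool.D2R.nrm c (T 3 (Pool.PB.ptr F J ω)) (gT 3) ar r (Pool.GEN.bt F ω) V ≤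
      (r + 1) * (2 ^ x * 2 ^ (ar - o 3) * N) := by
    refine Pool.D2R.nrm_le (by rw [hV0, abs_zero]; positivity) fun l hl => ?_
    rw [W.hT l hl, Pool.D2R.dd_Gno]
    refine (hcomp l hl).trans ?_
    rw [div_le_div_iff₀ (by positivity) (by positivity)]
    calc N * 2 ^ gT 3 l ≤ N * (2 ^ g₀ 3 l * 2 ^ (ar - o 3 + x)) :=
          mul_le_mul_of_nonneg_left (hgT l hl) hN0
      _ = _ := by
          rw [pow_add]
          ring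
  have hmul : (r + 1 : ℝ) * (2 ^ x * 2 ^ (ar - o 3) * N) ≤
      2 ^ (C₂ + x) * Y₁ * 2 ^ (ar - o 1) := by
    rw [← ha1, pow_add]
    calc (r + 1 : ℝ) * (2 ^ x * 2 ^ (ar - o 3) * N) ≤
        2 ^ C₂ * (2 ^ x * 2 ^ (ar - o 3) * (Y₁ * 2 ^ (o 3 - o 1))) :=
          mul_le_mul hC₂.le (mul_le_mul_of_nonneg_left hNb (by positivity)) (by positivity)
            (by positivity)
      _ = _ := by ring
  refine ⟨hN2.trans (mul_le_mul_of_nonneg_right hY1Y (by positivity)),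
    hN3.trans (mul_le_mul_of_nonneg_right hY1Y (by positivity)), hNT.trans ?_, ?_⟩
  · have e1 : (r + 1 : ℝ) * (2 * 2 ^ (2 * x) * 2 ^ (ar - o 3) * N) =
        2 * 2 ^ x * ((r + 1 : ℝ) * (2 ^ x * 2 ^ (ar - o 3) * N)) := by
      rw [two_mul x, pow_add]
      ring
    rw [e1]
    refine (mul_le_mul_of_nonneg_left hmul (by positivity)).trans ?_
    have e2 : 2 * 2 ^ x * (2 ^ (C₂ + x) * Y₁ * 2 ^ (ar - o 1)) =
        2 ^ (1 + x + (C₂ + x)) * Y₁ * 2 ^ (ar - o 1) := by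
      simp only [pow_add, pow_one]
      ring
    rw [e2]
    exact mul_le_mul_of_nonneg_right (hYb (by nlinarith)) (by positivity)
  · -- the thin chart of `u`
    have hgc : (2 : ℝ) ^ (ar - o 3) * 2 ^ g₀ 3 r ≤ 2 ^ x * 2 ^ gc 3 r := by
      rw [← pow_add, ← pow_add]
      exact pow_le_pow_right₀ (by norm_num) (by have := W.u4; omega)
    have hbox : ∀ b, Pool.GEN.NBx c (T 3 (Pool.PB.ptr F J ω)) (gT 3) ar (F.t ω) r b →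
        |eval b (TH 3 (Pool.KSAT.slam F (o 3) ω) r - Pool.GEN.Gno (c r) J J (fun y => G 3 y r) (Pool.PB.ptr F J ω))| ≤
          2 ^ (x + 1) / 2 ^ gc 3 r := by
      intro b hb
      have h1 := W.thin.agr ω hω r (Nat.lt_succ_self r) b hb
      have h2 := W.bal.inc 3 hn3 ω hω (r + 1) le_rfl (Pool.V1E.up (c r) b (eval b (T 3 (Pool.PB.ptr F J ω) r)))
        (Pool.V1E.box_up W.hc1 (W.thin.depG _) hb (by rw [sub_self, abs_zero]; positivity)) r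
        (Nat.lt_succ_self r)
      rw [Pool.V1E.up_self, Pool.V1E.eval_up W.hc1 (Pool.D2R.depC_Gno (c r) (fun y => G 3 y r) (Pool.PB.ptr F J ω)
        (W.pG 3 _ r))] at h2
      rw [map_sub]
      have h3 : (1 : ℝ) / 2 ^ gT 3 r ≤ 2 ^ x / 2 ^ gc 3 r := Pool.V1E.p2_le (by have := W.u5; omega)
      have e1 : eval b (TH 3 (Pool.KSAT.slam F (o 3) ω) r) -
          eval b (Pool.GEN.Gno (c r) J J (fun y => G 3 y r) (Pool.PB.ptr F J ω)) =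
          (eval b (T 3 (Pool.PB.ptr F J ω) r) - eval b (Pool.GEN.Gno (c r) J J (fun y => G 3 y r) (Pool.PB.ptr F J ω))) -
          (eval b (T 3 (Pool.PB.ptr F J ω) r) - eval b (TH 3 (Pool.KSAT.slam F (o 3) ω) r)) := by ring
      rw [e1]
      refine (abs_sub _ _).trans ((add_le_add h2 (h1.trans h3)).trans (le_of_eq ?_))
      rw [pow_succ]
      ring
    have hdep : Pool.GEN.DepC c r (TH 3 (Pool.KSAT.slam F (o 3) ω) r -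
        Pool.GEN.Gno (c r) J J (fun y => G 3 y r) (Pool.PB.ptr F J ω)) := fun b b' h0 h1 => by
      rw [map_sub, map_sub, W.thin.depH _ r b b' h0 h1,
        Pool.D2R.depC_Gno (c r) (fun y => G 3 y r) (Pool.PB.ptr F J ω) (W.pG 3 _ r) b b' h0 h1]
    have h1 := (hba (c := c) (ψ := T 3 (Pool.PB.ptr F J ω)) (Q := TH 3 (Pool.KSAT.slam F (o 3) ω) r -
      Pool.GEN.Gno (c r) J J (fun y => G 3 y r) (Pool.PB.ptr F J ω)) (g := gT 3) (a := ar)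
      (M := 2 ^ (x + 1) / 2 ^ gc 3 r) (x := Pool.GEN.bt F ω) W.hcr (W.thin.degG _) (W.thin.depG _) hdep
      ((totalDegree_sub _ _).trans (max_le (W.thin.degH _ r) (Pool.D2R.deg_Gno (c r) (fun y => G 3 y r)
        (Pool.PB.ptr F J ω) (W.dG 3 _ r)))) (by positivity) (fun b hb => hbox b hb)
      (fun l hl => W.thin.pos ω hω l (by omega))).1 V
    rw [Pool.D2R.dd_sub, Pool.D2R.dd_Gno] at h1
    refine h1.trans ((mul_le_mul_of_nonneg_left (hNP.trans hmul) (by positivity)).trans ?_)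
    rw [le_div_iff₀ (by positivity)]
    have e1 : Cb * (2 ^ (x + 1) / 2 ^ gc 3 r) * (2 ^ (C₂ + x) * Y₁ * 2 ^ (ar - o 1)) *
        2 ^ g₀ 3 r = Cb * 2 ^ (x + 1) * 2 ^ (C₂ + x) * Y₁ *
        (2 ^ (ar - o 3) * 2 ^ g₀ 3 r / 2 ^ gc 3 r) * 2 ^ (o 3 - o 1) := by
      rw [← ha1]
      ring
    rw [e1]
    refine mul_le_mul_of_nonneg_right ?_ (by positivity)
    have h2 : (2 : ℝ) ^ (ar - o 3) * 2 ^ g₀ 3 r / 2 ^ gc 3 r ≤ 2 ^ x := by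
      rw [div_le_iff₀ (by positivity)]
      exact hgc
    calc Cb * 2 ^ (x + 1) * 2 ^ (C₂ + x) * Y₁ * (2 ^ (ar - o 3) * 2 ^ g₀ 3 r / 2 ^ gc 3 r) ≤
        2 ^ C₃ * 2 ^ (x + 1) * 2 ^ (C₂ + x) * Y₁ * 2 ^ x := by
          refine mul_le_mul (mul_le_mul_of_nonneg_right (mul_le_mul_of_nonneg_right
            (mul_le_mul_of_nonneg_right hC₃.le (by positivity)) (by positivity)) hY10.le) h2
            (by positivity) (by positivity)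
      _ = 2 ^ (C₃ + (x + 1) + (C₂ + x) + x) * Y₁ := by
          simp only [pow_add, pow_one]
          ring
      _ ≤ Y := hYb (by nlinarith)

/-- **The gradients**: the charts of `u`, and the row label of `N` in the directions natural for the
thin chart of `u`. -/
theorem nvp_dd (D r : ℕ) : ∃ C : ℕ, ∀ {m J : ℕ} {F : Pool.KA.Fam m J} {c : ℕ → Fin m}
    {n M ar MB q₀ Q x p e su : ℕ} {s : ℕ → ℕ} {qe : Fin r → ℕ} {o : ℕ → ℕ}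
    {z g gc gT g₀ : ℕ → ℕ → ℕ} {B : F.Ω → Prop}
    {G T : ℕ → Pool.GEN.PtT F → ℕ → MvPolynomial (Option (Fin m)) ℝ}
    {H TH : ℕ → Pool.GEN.LnT F → ℕ → MvPolynomial (Option (Fin m)) ℝ}
    {Ht : Pool.GEN.LnT F → MvPolynomial (Option (Fin m)) ℝ},
    Pool.W.V1E.NvP F c r D n M ar MB q₀ Q x p e su s qe o z g gc gT g₀ B G T H TH Ht → ∀ ω, B ω →
    ∀ V : Option (Fin m) → ℝ, V none = 0 →
    (∀ j < r, |V (some (c j)) - Pool.D2R.dd (G 0 (Pool.PB.ptr F J ω) j) (Pool.GEN.bt F ω) V| ≤ 1 / 2 ^ s j) →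
    Pool.D2R.nrm c (G 2 (Pool.PB.ptr F J ω)) (g₀ 2) (o 2) r (Pool.GEN.bt F ω) V ≤ 2 ^ (C * (x + 1)) * 2 ^ Q ∧
    |Pool.D2R.dd (G 1 (Pool.PB.ptr F J ω) r) (Pool.GEN.bt F ω) V - Pool.D2R.dd (G 2 (Pool.PB.ptr F J ω) r) (Pool.GEN.bt F ω) V| ≤
      2 ^ (C * (x + 1)) / 2 ^ su ∧
    |Pool.D2R.dd (TH 3 (Pool.KSAT.slam F (o 3) ω) r) (Pool.GEN.bt F ω) V - Pool.D2R.dd (G 2 (Pool.PB.ptr F J ω) r) (Pool.GEN.bt F ω) V| ≤
      2 ^ (C * (x + 1)) * 2 ^ Q / 2 ^ g₀ 2 r ∧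
    |Pool.D2R.dd (Ht (Pool.KSAT.slam F (o 1) ω)) (Pool.GEN.bt F ω)
        (Pool.V1E.up (c r) V (Pool.D2R.dd (TH 3 (Pool.KSAT.slam F (o 3) ω) r) (Pool.GEN.bt F ω) V)) -
      Pool.D2R.dd (G 2 (Pool.PB.ptr F J ω) (r + 1)) (Pool.GEN.bt F ω)
        (Pool.V1E.up (c r) V (Pool.D2R.dd (TH 3 (Pool.KSAT.slam F (o 3) ω) r) (Pool.GEN.bt F ω) V))| ≤
      2 ^ (C * (x + 1)) / 2 ^ (s r + (MB - Q)) := by
  obtain ⟨C₁, hnn⟩ := Pool.W.V1E.nvp_nrm D r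
  obtain ⟨C₂, hbd⟩ := Pool.W.D2R.bale_dd D (r + 1)
  refine ⟨2 * C₁ + 2 * C₂ + 8, ?_⟩
  intro m J F c n M ar MB q₀ Q x p e su s qe o z g gc gT g₀ B G T H TH Ht W ω hω V hV0 hV
  obtain ⟨n2, n3, nT, nu⟩ := hnn W ω hω V hV0 hV
  have hn3 := W.n3
  have ho1 := W.o1
  have ho2 := W.o2
  have ho3 := W.o3
  have hoa := W.oa
  have h3J := W.oJ
  have hQM := W.QM
  obtain ⟨q12, hq12, hz12⟩ := W.z12
  obtain ⟨q23, hq23, hz23⟩ := W.z23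
  obtain ⟨Y₁, hY₁⟩ : ∃ Y₁ : ℝ, Y₁ = 2 ^ (C₁ * (x + 1)) := ⟨_, rfl⟩
  rw [← hY₁] at n2 n3 nT nu
  have hY10 : 0 < Y₁ := by rw [hY₁]; positivity
  obtain ⟨Y, hY⟩ : ∃ Y : ℝ, Y = 2 ^ ((2 * C₁ + 2 * C₂ + 8) * (x + 1)) := ⟨_, rfl⟩
  rw [← hY]
  have hYb : ∀ {k : ℕ}, k ≤ (2 * C₂ + 8) * (x + 1) → 2 ^ k * Y₁ ≤ Y := by
    intro k hk
    rw [hY, hY₁, ← pow_add]
    refine pow_le_pow_right₀ (by norm_num) ?_
    calc k + C₁ * (x + 1) ≤ (2 * C₂ + 8) * (x + 1) + 2 * (C₁ * (x + 1)) := by omega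
      _ = _ := by ring
  have hY1Y : Y₁ ≤ Y := by
    have := hYb (k := 0) (Nat.zero_le _)
    rwa [pow_zero, one_mul] at this
  have hU0 : (0 : ℝ) ≤ 2 ^ x := by positivity
  have hx1 : (1 : ℝ) ≤ 2 ^ x := one_le_pow₀ (by norm_num)
  -- the charts of `u` of the windows `o 1`, `o 2`
  have k12 := hbd W.hc1 W.bal hU0 (show 1 ≤ n by omega) (show 2 ≤ n by omega) hq12 (by omega) hz12
    (W.dG 1) (W.pG 1) W.ch2 ω hω r (Nat.le_succ r) V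
  have k23 := hbd W.hc1 W.bal hU0 (show 2 ≤ n by omega) (show 3 ≤ n by omega) hq23 (by omega) hz23
    (W.dG 2) (W.pG 2) W.ch3 ω hω r (Nat.le_succ r) V
  have e21 : o 2 - o 1 = Q := by omega
  rw [e21] at k12
  have hp1 : (2 : ℝ) ^ Q / 2 ^ min (g 1 r + Q) (g₀ 2 r) ≤ 2 ^ x / 2 ^ su := by
    refine Pool.V1E.p2_le' ?_
    have := W.u1
    have := W.u2
    rcases le_total (g 1 r + Q) (g₀ 2 r) with h | h
    · rw [min_eq_left h]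
      omega
    · rw [min_eq_right h]
      omega
  have hp2 : (2 : ℝ) ^ (o 3 - o 1) / 2 ^ min (g 2 r + (o 3 - o 2)) (g₀ 3 r) ≤
      2 ^ (x + Q) / 2 ^ g₀ 2 r := by
    refine Pool.V1E.p2_le' ?_
    have := W.u2'
    have := W.u3
    rcases le_total (g 2 r + (o 3 - o 2)) (g₀ 3 r) with h | h
    · rw [min_eq_left h]
      omega
    · rw [min_eq_right h]
      omega
  have hp3 : (2 : ℝ) ^ (o 3 - o 1) / 2 ^ g₀ 3 r ≤ 2 ^ (x + Q) / 2 ^ g₀ 2 r := by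
    refine Pool.V1E.p2_le' ?_
    have := W.u3
    omega
  have f12 : |Pool.D2R.dd (G 1 (Pool.PB.ptr F J ω) r) (Pool.GEN.bt F ω) V - Pool.D2R.dd (G 2 (Pool.PB.ptr F J ω) r) (Pool.GEN.bt F ω) V| ≤
      Y / 2 ^ su := by
    refine k12.trans ((mul_le_mul_of_nonneg_left n2 (by positivity)).trans ?_)
    calc 2 ^ C₂ * 2 ^ x / 2 ^ min (g 1 r + Q) (g₀ 2 r) * (Y₁ * 2 ^ Q) =
        2 ^ C₂ * 2 ^ x * Y₁ * (2 ^ Q / 2 ^ min (g 1 r + Q) (g₀ 2 r)) := by ring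
      _ ≤ 2 ^ C₂ * 2 ^ x * Y₁ * (2 ^ x / 2 ^ su) := mul_le_mul_of_nonneg_left hp1 (by positivity)
      _ = 2 ^ (C₂ + x + x) * Y₁ / 2 ^ su := by
          simp only [pow_add]
          ring
      _ ≤ _ := div_le_div_of_nonneg_right (hYb (by nlinarith)) (by positivity)
  have f23 : |Pool.D2R.dd (G 2 (Pool.PB.ptr F J ω) r) (Pool.GEN.bt F ω) V - Pool.D2R.dd (G 3 (Pool.PB.ptr F J ω) r) (Pool.GEN.bt F ω) V| ≤
      2 ^ (C₂ + x + x) * Y₁ * 2 ^ Q / 2 ^ g₀ 2 r := by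
    refine k23.trans ((mul_le_mul_of_nonneg_left n3 (by positivity)).trans ?_)
    calc 2 ^ C₂ * 2 ^ x / 2 ^ min (g 2 r + (o 3 - o 2)) (g₀ 3 r) * (Y₁ * 2 ^ (o 3 - o 1)) =
        2 ^ C₂ * 2 ^ x * Y₁ * (2 ^ (o 3 - o 1) / 2 ^ min (g 2 r + (o 3 - o 2)) (g₀ 3 r)) := by ring
      _ ≤ 2 ^ C₂ * 2 ^ x * Y₁ * (2 ^ (x + Q) / 2 ^ g₀ 2 r) :=
          mul_le_mul_of_nonneg_left hp2 (by positivity)
      _ = _ := by
          simp only [pow_add]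
          ring
  have fT2 : |Pool.D2R.dd (TH 3 (Pool.KSAT.slam F (o 3) ω) r) (Pool.GEN.bt F ω) V - Pool.D2R.dd (G 2 (Pool.PB.ptr F J ω) r) (Pool.GEN.bt F ω) V| ≤
      Y * 2 ^ Q / 2 ^ g₀ 2 r := by
    have e1 : Pool.D2R.dd (TH 3 (Pool.KSAT.slam F (o 3) ω) r) (Pool.GEN.bt F ω) V - Pool.D2R.dd (G 2 (Pool.PB.ptr F J ω) r) (Pool.GEN.bt F ω) V =
        (Pool.D2R.dd (TH 3 (Pool.KSAT.slam F (o 3) ω) r) (Pool.GEN.bt F ω) V - Pool.D2R.dd (G 3 (Pool.PB.ptr F J ω) r) (Pool.GEN.bt F ω) V) -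
        (Pool.D2R.dd (G 2 (Pool.PB.ptr F J ω) r) (Pool.GEN.bt F ω) V - Pool.D2R.dd (G 3 (Pool.PB.ptr F J ω) r) (Pool.GEN.bt F ω) V) := by ring
    rw [e1]
    have h1 : Y₁ * 2 ^ (o 3 - o 1) / 2 ^ g₀ 3 r ≤ 2 ^ x * Y₁ * 2 ^ Q / 2 ^ g₀ 2 r := by
      calc Y₁ * 2 ^ (o 3 - o 1) / 2 ^ g₀ 3 r = Y₁ * (2 ^ (o 3 - o 1) / 2 ^ g₀ 3 r) := by ring
        _ ≤ Y₁ * (2 ^ (x + Q) / 2 ^ g₀ 2 r) := mul_le_mul_of_nonneg_left hp3 hY10.le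
        _ = _ := by
            rw [pow_add]
            ring
    refine (abs_sub _ _).trans ((add_le_add (nu.trans h1) f23).trans ?_)
    have h2 : 2 ^ x * Y₁ + 2 ^ (C₂ + x + x) * Y₁ ≤ Y := by
      have h3 : (2 : ℝ) ^ x ≤ 2 ^ (C₂ + x + x) := pow_le_pow_right₀ (by norm_num) (by omega)
      have h4 := hYb (k := C₂ + x + x + 1) (by nlinarith)
      rw [pow_succ] at h4
      nlinarith
    calc 2 ^ x * Y₁ * 2 ^ Q / 2 ^ g₀ 2 r + 2 ^ (C₂ + x + x) * Y₁ * 2 ^ Q / 2 ^ g₀ 2 r =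
        (2 ^ x * Y₁ + 2 ^ (C₂ + x + x) * Y₁) * (2 ^ Q / 2 ^ g₀ 2 r) := by ring
      _ ≤ Y * (2 ^ Q / 2 ^ g₀ 2 r) := mul_le_mul_of_nonneg_right h2 (by positivity)
      _ = _ := by ring
  refine ⟨n2.trans (mul_le_mul_of_nonneg_right hY1Y (by positivity)), f12, fT2, ?_⟩
  -- the row label
  obtain ⟨v, hv⟩ : ∃ v : ℝ, v = Pool.D2R.dd (TH 3 (Pool.KSAT.slam F (o 3) ω) r) (Pool.GEN.bt F ω) V := ⟨_, rfl⟩
  obtain ⟨U, hU⟩ : ∃ U, U = Pool.V1E.up (c r) V v := ⟨_, rfl⟩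
  rw [← hv, ← hU]
  have hUn : U none = V none := by rw [hU, Pool.V1E.up_none]
  have hUl : ∀ l < r, U (some (c l)) = V (some (c l)) := fun l hl => by
    rw [hU]
    exact Pool.V1E.up_ne (fun he => by
      have := W.hc1 (Set.mem_Iio.2 (show l < r + 1 by omega))
        (Set.mem_Iio.2 (Nat.lt_succ_self r)) he
      omega) _ _
  have hUr : U (some (c r)) = v := by rw [hU, Pool.V1E.up_self]
  have hdU : ∀ {R : MvPolynomial (Option (Fin m)) ℝ}, Pool.GEN.DepC c r R →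
      Pool.D2R.dd R (Pool.GEN.bt F ω) U = Pool.D2R.dd R (Pool.GEN.bt F ω) V := fun hR => Pool.D2R.dd_congr hR _ hUn hUl
  have hnS : ∀ (ψ : ℕ → MvPolynomial (Option (Fin m)) ℝ) (g' : ℕ → ℕ) (a : ℕ),
      (∀ l, Pool.GEN.DepC c l (ψ l)) → Pool.D2R.nrm c ψ g' a (r + 1) (Pool.GEN.bt F ω) U =
        Pool.D2R.nrm c ψ g' a r (Pool.GEN.bt F ω) V + 2 ^ g' r * |v - Pool.D2R.dd (ψ r) (Pool.GEN.bt F ω) V| := by
    intro ψ g' a hψ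
    rw [← Pool.V1E.nrm_congr hψ hUn hUl]
    unfold Pool.D2R.nrm
    rw [Finset.sum_range_succ, add_assoc, hUr, hdU (hψ r)]
  have hNT : Pool.D2R.nrm c (TH 3 (Pool.KSAT.slam F (o 3) ω)) (gT 3) ar (r + 1) (Pool.GEN.bt F ω) U ≤
      Y₁ * 2 ^ (ar - o 1) := by
    rw [hnS _ _ _ (W.thin.depH _), hv, sub_self, abs_zero, mul_zero, add_zero]
    exact nT
  have hN3 : Pool.D2R.nrm c (G 3 (Pool.PB.ptr F J ω)) (g₀ 3) (o 3) (r + 1) (Pool.GEN.bt F ω) U ≤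
      2 * Y₁ * 2 ^ (o 3 - o 1) := by
    rw [hnS _ _ _ (W.pG 3 _), hv]
    have h1 : 2 ^ g₀ 3 r * |Pool.D2R.dd (TH 3 (Pool.KSAT.slam F (o 3) ω) r) (Pool.GEN.bt F ω) V -
        Pool.D2R.dd (G 3 (Pool.PB.ptr F J ω) r) (Pool.GEN.bt F ω) V| ≤ Y₁ * 2 ^ (o 3 - o 1) := by
      rw [le_div_iff₀ (by positivity)] at nu
      linarith
    linarith
  have har : o 3 + (ar - o 3) = ar := by omega
  have d1 : |Pool.D2R.dd (Ht (Pool.KSAT.slam F (o 1) ω)) (Pool.GEN.bt F ω) U -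
      Pool.D2R.dd (Pool.GEN.Hno (c (r + 1)) (fun s => H 3 s (r + 1)) (Pool.KSAT.slam F (o 3) ω)) (Pool.GEN.bt F ω) U| ≤
      2 ^ x / 2 ^ p * (Y₁ * 2 ^ (ar - o 1)) := by
    have h1 := W.ro.win ω hω (Pool.PB.Trl.rt F (o 3) ω) (Pool.PB.Trl.rt_mem F (o 3) ω) U
    rw [Pool.D2R.ptw_rt F h3J, Pool.D2R.dd_sub, har] at h1
    exact h1.trans (mul_le_mul_of_nonneg_left hNT (by positivity))
  have d2 : |Pool.D2R.dd (Pool.GEN.Hno (c (r + 1)) (fun s => H 3 s (r + 1)) (Pool.KSAT.slam F (o 3) ω)) (Pool.GEN.bt F ω) U -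
      Pool.D2R.dd (G 3 (Pool.PB.ptr F J ω) (r + 1)) (Pool.GEN.bt F ω) U| ≤
      2 ^ x / 2 ^ g₀ 3 (r + 1) * (2 * Y₁ * 2 ^ (o 3 - o 1)) := by
    have h1 := (W.ro.dif ω hω (r + 1) le_rfl).1 U
    rw [Pool.D2R.dd_sub] at h1
    exact h1.trans (mul_le_mul_of_nonneg_left hN3 (by positivity))
  have d3 : |Pool.D2R.dd (G 2 (Pool.PB.ptr F J ω) (r + 1)) (Pool.GEN.bt F ω) U -
      Pool.D2R.dd (G 3 (Pool.PB.ptr F J ω) (r + 1)) (Pool.GEN.bt F ω) U| ≤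
      2 ^ C₂ * 2 ^ x / 2 ^ min (g 2 (r + 1) + (o 3 - o 2)) (g₀ 3 (r + 1)) *
        (2 * Y₁ * 2 ^ (o 3 - o 1)) := by
    have h1 := hbd W.hc1 W.bal hU0 (show 2 ≤ n by omega) (show 3 ≤ n by omega) hq23 (by omega) hz23
      (W.dG 2) (W.pG 2) W.ch3 ω hω (r + 1) le_rfl U
    exact h1.trans (mul_le_mul_of_nonneg_left hN3 (by positivity))
  have g1 : (2 : ℝ) ^ (ar - o 1) / 2 ^ p ≤ 2 ^ x / 2 ^ (s r + (MB - Q)) := by
    refine Pool.V1E.p2_le' ?_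
    have := W.mp
    omega
  have g2 : (2 : ℝ) ^ (o 3 - o 1) / 2 ^ g₀ 3 (r + 1) ≤ 2 ^ x / 2 ^ (s r + (MB - Q)) := by
    refine Pool.V1E.p2_le' ?_
    have := W.m3
    omega
  have g3 : (2 : ℝ) ^ (o 3 - o 1) / 2 ^ min (g 2 (r + 1) + (o 3 - o 2)) (g₀ 3 (r + 1)) ≤
      2 ^ x / 2 ^ (s r + (MB - Q)) := by
    refine Pool.V1E.p2_le' ?_
    have := W.m3
    have := W.m2'
    rcases le_total (g 2 (r + 1) + (o 3 - o 2)) (g₀ 3 (r + 1)) with h | h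
    · rw [min_eq_left h]
      omega
    · rw [min_eq_right h]
      omega
  obtain ⟨ι, hι⟩ : ∃ ι : ℝ, ι = 1 / 2 ^ (s r + (MB - Q)) := ⟨_, rfl⟩
  have hι0 : 0 < ι := by rw [hι]; positivity
  have hxι : (2 : ℝ) ^ x / 2 ^ (s r + (MB - Q)) = 2 ^ x * ι := by rw [hι]; ring
  rw [hxι] at g1 g2 g3
  have d1' : |Pool.D2R.dd (Ht (Pool.KSAT.slam F (o 1) ω)) (Pool.GEN.bt F ω) U -
      Pool.D2R.dd (Pool.GEN.Hno (c (r + 1)) (fun s => H 3 s (r + 1)) (Pool.KSAT.slam F (o 3) ω)) (Pool.GEN.bt F ω) U| ≤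
      2 ^ (C₂ + x + x + 1) * Y₁ * ι := by
    refine d1.trans ?_
    calc 2 ^ x / 2 ^ p * (Y₁ * 2 ^ (ar - o 1)) = 2 ^ x * Y₁ * (2 ^ (ar - o 1) / 2 ^ p) := by ring
      _ ≤ 2 ^ x * Y₁ * (2 ^ x * ι) := mul_le_mul_of_nonneg_left g1 (by positivity)
      _ = 2 ^ (x + x) * (Y₁ * ι) := by rw [pow_add]; ring
      _ ≤ 2 ^ (C₂ + x + x + 1) * (Y₁ * ι) := mul_le_mul_of_nonneg_right
          (pow_le_pow_right₀ (by norm_num) (by omega)) (by positivity)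
      _ = _ := by ring
  have d2' : |Pool.D2R.dd (Pool.GEN.Hno (c (r + 1)) (fun s => H 3 s (r + 1)) (Pool.KSAT.slam F (o 3) ω)) (Pool.GEN.bt F ω) U -
      Pool.D2R.dd (G 3 (Pool.PB.ptr F J ω) (r + 1)) (Pool.GEN.bt F ω) U| ≤ 2 ^ (C₂ + x + x + 1) * Y₁ * ι := by
    refine d2.trans ?_
    calc 2 ^ x / 2 ^ g₀ 3 (r + 1) * (2 * Y₁ * 2 ^ (o 3 - o 1)) =
        2 * 2 ^ x * Y₁ * (2 ^ (o 3 - o 1) / 2 ^ g₀ 3 (r + 1)) := by ring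
      _ ≤ 2 * 2 ^ x * Y₁ * (2 ^ x * ι) := mul_le_mul_of_nonneg_left g2 (by positivity)
      _ = 2 ^ (x + x + 1) * (Y₁ * ι) := by rw [pow_succ, pow_add]; ring
      _ ≤ 2 ^ (C₂ + x + x + 1) * (Y₁ * ι) := mul_le_mul_of_nonneg_right
          (pow_le_pow_right₀ (by norm_num) (by omega)) (by positivity)
      _ = _ := by ring
  have d3' : |Pool.D2R.dd (G 2 (Pool.PB.ptr F J ω) (r + 1)) (Pool.GEN.bt F ω) U -
      Pool.D2R.dd (G 3 (Pool.PB.ptr F J ω) (r + 1)) (Pool.GEN.bt F ω) U| ≤ 2 ^ (C₂ + x + x + 1) * Y₁ * ι := by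
    refine d3.trans ?_
    calc 2 ^ C₂ * 2 ^ x / 2 ^ min (g 2 (r + 1) + (o 3 - o 2)) (g₀ 3 (r + 1)) *
        (2 * Y₁ * 2 ^ (o 3 - o 1)) = 2 * 2 ^ C₂ * 2 ^ x * Y₁ * (2 ^ (o 3 - o 1) /
          2 ^ min (g 2 (r + 1) + (o 3 - o 2)) (g₀ 3 (r + 1))) := by ring
      _ ≤ 2 * 2 ^ C₂ * 2 ^ x * Y₁ * (2 ^ x * ι) := mul_le_mul_of_nonneg_left g3 (by positivity)
      _ = _ := by
          simp only [pow_add, pow_one]
          ring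
  have e0 : Pool.D2R.dd (Ht (Pool.KSAT.slam F (o 1) ω)) (Pool.GEN.bt F ω) U - Pool.D2R.dd (G 2 (Pool.PB.ptr F J ω) (r + 1)) (Pool.GEN.bt F ω) U =
      (Pool.D2R.dd (Ht (Pool.KSAT.slam F (o 1) ω)) (Pool.GEN.bt F ω) U -
        Pool.D2R.dd (Pool.GEN.Hno (c (r + 1)) (fun s => H 3 s (r + 1)) (Pool.KSAT.slam F (o 3) ω)) (Pool.GEN.bt F ω) U) +
      (Pool.D2R.dd (Pool.GEN.Hno (c (r + 1)) (fun s => H 3 s (r + 1)) (Pool.KSAT.slam F (o 3) ω)) (Pool.GEN.bt F ω) U -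
        Pool.D2R.dd (G 3 (Pool.PB.ptr F J ω) (r + 1)) (Pool.GEN.bt F ω) U) -
      (Pool.D2R.dd (G 2 (Pool.PB.ptr F J ω) (r + 1)) (Pool.GEN.bt F ω) U -
        Pool.D2R.dd (G 3 (Pool.PB.ptr F J ω) (r + 1)) (Pool.GEN.bt F ω) U) := by ring
  rw [e0]
  refine (abs_sub _ _).trans ((add_le_add ((abs_add_le _ _).trans (add_le_add d1' d2')) d3').trans
    ?_)
  have h4 := hYb (k := C₂ + x + x + 3) (by nlinarith)
  have e1 : (2 : ℝ) ^ (C₂ + x + x + 3) = 4 * 2 ^ (C₂ + x + x + 1) := by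
    rw [show C₂ + x + x + 3 = C₂ + x + x + 1 + 2 by ring, pow_add _ _ 2]
    ring
  rw [e1] at h4
  have e2 : Y / 2 ^ (s r + (MB - Q)) = Y * ι := by rw [hι]; ring
  rw [e2]
  have h5 : 2 ^ (C₂ + x + x + 1) * Y₁ * ι + 2 ^ (C₂ + x + x + 1) * Y₁ * ι +
      2 ^ (C₂ + x + x + 1) * Y₁ * ι ≤ 4 * 2 ^ (C₂ + x + x + 1) * Y₁ * ι := by
    have : 0 ≤ 2 ^ (C₂ + x + x + 1) * Y₁ * ι := by positivity
    linarith
  exact h5.trans (mul_le_mul_of_nonneg_right h4 hι0.le)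

end Pool.W.V1E
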