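import Pool.Agent.H73.D2.Tmi
import Pool.Agent.H31.W.H73.D2.Tmg
import Pool.Agent.H31.W1.H80.GEN.Chn

/-!
# The target `N - P(p, u)`: own path, position

`nw_d1`: the derivative in the direction `u` on larger boxes of the first window. `NwD.val`,
`NwD.der`, `NwD.pos`, `nw_own`: the fields of `TgD`.
-/

set_option autoImplicit false

namespace Pool.W.V1E

open Pool.V1E

open Finset Real MvPolynomial
open Pool.KA Pool.KSAT Pool.PB Pool.GEN Pool.D2R Pool.D2G30 Pool.ISO Pool.CHT Pool.CHX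
open Pool.PB.Trl (rt rt_mem t_rt)

/-- **The derivative in the direction `u`** on larger boxes of the first window. -/
theorem nw_d1 (D r : ℕ) : ∃ C : ℕ, ∀ {m J : ℕ} {F : Pool.KA.Fam m J} {c : ℕ → Fin m}
    {n M ar MB q₀ Q x p e su : ℕ} {s : ℕ → ℕ} {qe : Fin r → ℕ} {o : ℕ → ℕ}
    {z g gc gT g₀ : ℕ → ℕ → ℕ} {B : F.Ω → Prop}
    {G T : ℕ → Pool.GEN.PtT F → ℕ → MvPolynomial (Option (Fin m)) ℝ}
    {H TH : ℕ → Pool.GEN.LnT F → ℕ → MvPolynomial (Option (Fin m)) ℝ}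
    {Ht CL : Pool.GEN.LnT F → MvPolynomial (Option (Fin m)) ℝ}
    {Cp : Pool.GEN.PtT F → MvPolynomial (Option (Fin m)) ℝ},
    Pool.W.V1E.NwD F c r D n M ar MB q₀ Q x p e su s qe o z g gc gT g₀ B G T H TH Ht CL Cp → ∀ ω, B ω →
    ∀ (k : ℕ) (b : Option (Fin m) → ℝ), |b none - F.t ω| ≤ 1 / 2 ^ o 1 →
    (∀ l ≤ r, |b (some (c l)) - eval b (G 1 (Pool.PB.ptr F J ω) l)| ≤ 2 ^ k / 2 ^ g₀ 1 l) →
    |eval b (pderiv (some (c r)) (Pool.V1E.nfw r (G 1 (Pool.PB.ptr F J ω)) (Cp (Pool.PB.ptr F J ω))))| ≤ 2 ^ (C * (k + 1)) * (2 ^ (su + x) / 2 ^ s r) := by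
  obtain ⟨c₀, D₁, hD₁, hdil⟩ := Pool.CHT.nbx_dil (r + 2) (fun _ => D)
  refine ⟨c₀ + D₁, ?_⟩
  intro m J F c n M ar MB q₀ Q x p e su s qe o z g gc gT g₀ B G T H TH Ht CL Cp W ω hω k b hb0 hb
  refine (hdil (c := c) (i := r + 1) (G := G 1 (Pool.PB.ptr F J ω)) (g := g₀ 1) (a := o 1) (t := F.t ω)
    (M := 2 ^ (su + x) / 2 ^ s r) k (Nat.lt_succ_self _) W.hc1
    (fun l => W.dG 1 _ l) (W.pG 1 _)
    (Pool.D2R.depC_pderiv (Pool.V1E.dep_nfw (W.pG 1 _) (W.pCp _)) _)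
    ((Pool.V1E.pd_deg _ _).trans (Pool.V1E.deg_nfw (W.dG 1 _) (W.dCp _))) (by positivity)
    (fun b hb => by
      rw [Pool.V1E.pd_nfw]
      exact W.hC1 ω hω b hb) b hb0 (fun l hl => hb l (by omega))).trans ?_
  refine mul_le_mul_of_nonneg_right (pow_le_pow_right₀ (by norm_num) ?_) (by positivity)
  nlinarith

section fields

variable {m J : ℕ} {F : Pool.KA.Fam m J} {c : ℕ → Fin m} {r D n M ar MB q₀ Q x p e su : ℕ}
  {s : ℕ → ℕ} {qe : Fin r → ℕ} {o : ℕ → ℕ} {z g gc gT g₀ : ℕ → ℕ → ℕ} {B : F.Ω → Prop}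
  {G T : ℕ → Pool.GEN.PtT F → ℕ → MvPolynomial (Option (Fin m)) ℝ}
  {H TH : ℕ → Pool.GEN.LnT F → ℕ → MvPolynomial (Option (Fin m)) ℝ}
  {Ht CL : Pool.GEN.LnT F → MvPolynomial (Option (Fin m)) ℝ}
  {Cp : Pool.GEN.PtT F → MvPolynomial (Option (Fin m)) ℝ}

/-- The own line on the charts of the first window. -/
theorem NwD.onc (W : Pool.W.V1E.NwD F c r D n M ar MB q₀ Q x p e su s qe o z g gc gT g₀ B G T H TH Ht CL Cp)
    {ω : F.Ω} (hω : B ω) {τ : ℝ} (hτ : τ ∈ Set.Icc (0 : ℝ) 1) {l : ℕ} (hl : l ≤ r + 1) :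
    |Pool.D2R.ptw F (o 1) ω τ (some (c l)) - eval (Pool.D2R.ptw F (o 1) ω τ) (G 1 (Pool.PB.ptr F J ω) l)| ≤
      2 ^ x / 2 ^ g₀ 1 l := by
  have h1 := W.own1 ω hω l hl τ hτ
  unfold Pool.GEN.dv at h1
  rw [Polynomial.eval_sub, Pool.D2G30.eval_aev] at h1
  rw [W.cl1 ω hω l hl]
  exact h1

/-- The closed chart of the point and of the line. -/
theorem NwD.clA (W : Pool.W.V1E.NwD F c r D n M ar MB q₀ Q x p e su s qe o z g gc gT g₀ B G T H TH Ht CL Cp)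
    {ω : F.Ω} (hω : B ω) : Pool.V1E.nW c r (G 1 (Pool.PB.ptr F J ω)) (Cp (Pool.PB.ptr F J ω)) =
      Pool.V1E.nW c r (H 1 (Pool.KSAT.slam F (o 1) ω)) (CL (Pool.KSAT.slam F (o 1) ω)) := by
  unfold Pool.V1E.nW Pool.V1E.nfw
  rw [W.cl1 ω hω r (Nat.le_succ r), W.cl1 ω hω (r + 1) le_rfl, W.clC ω hω]

/-- The value. -/
theorem NwD.val (W : Pool.W.V1E.NwD F c r D n M ar MB q₀ Q x p e su s qe o z g gc gT g₀ B G T H TH Ht CL Cp)
    {ω : F.Ω} (hω : B ω) :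
    (Pool.V1E.nwp F c r (o 1) CL (Pool.KSAT.slam F (o 1) ω)).eval (Pool.PB.Trl.rt F (o 1) ω) = Pool.V1E.nwy F c r Cp ω := by
  have h1J : o 1 ≤ J := by have := W.oJ; have := W.o3; have := W.o2; omega
  have e : (fun o' => (Pool.GEN.lc (o 1) (Pool.KSAT.slam F (o 1) ω) o').eval (Pool.PB.Trl.rt F (o 1) ω)) = Pool.GEN.bt F ω :=
    funext fun o' => Pool.GEN.eval_lc F h1J ω o'
  unfold Pool.V1E.nwp Pool.V1E.nwy
  rw [Polynomial.eval_sub, Pool.D2G30.eval_aev, e, Pool.GEN.eval_lc F h1J, W.clC ω hω]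
  rfl

/-- The derivative of the own path. -/
theorem NwD.der (W : Pool.W.V1E.NwD F c r D n M ar MB q₀ Q x p e su s qe o z g gc gT g₀ B G T H TH Ht CL Cp)
    {ω : F.Ω} (hω : B ω) :
    (Polynomial.derivative (Pool.V1E.nwp F c r (o 1) CL (Pool.KSAT.slam F (o 1) ω))).eval (Pool.PB.Trl.rt F (o 1) ω) =
      1 / 2 ^ o 1 * Pool.V1E.nwv F c r Cp ω := by
  have h1J : o 1 ≤ J := by have := W.oJ; have := W.o3; have := W.o2; omega
  unfold Pool.V1E.nwp Pool.V1E.nwv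
  rw [Polynomial.derivative_sub, Polynomial.eval_sub, Pool.D2R.dd_own h1J, Pool.GEN.der_lc, Polynomial.eval_C,
    W.clC ω hω]
  show _ = 1 / 2 ^ o 1 * (Pool.GEN.bd F ω (some (c (r + 1))) - _)
  ring

/-- **The position.** -/
theorem NwD.pos (W : Pool.W.V1E.NwD F c r D n M ar MB q₀ Q x p e su s qe o z g gc gT g₀ B G T H TH Ht CL Cp)
    {ω : F.Ω} (hω : B ω) : |Pool.V1E.nwy F c r Cp ω -
      eval (Pool.GEN.bt F ω) (Pool.V1E.nW c r (G 2 (Pool.PB.ptr F J ω)) (Cp (Pool.PB.ptr F J ω)))| ≤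
      2 ^ (x + 1) / 2 ^ (s r + MB) := by
  rw [Pool.V1E.eval_nW]
  have hself : Pool.V1E.up (c r) (Pool.GEN.bt F ω) (F.x ω (c r)) = Pool.GEN.bt F ω := Pool.V1E.up_eq rfl
  have h1 := W.ch2.pos ω hω (r + 1) (Nat.lt_succ_self _)
  have h2 := W.ch2.pos ω hω r (by omega)
  have h3 := Pool.V1E.mv_up (k := c r) (R := Pool.V1E.nfw r (G 2 (Pool.PB.ptr F J ω)) (Cp (Pool.PB.ptr F J ω)))
    (b := Pool.GEN.bt F ω) (v := F.x ω (c r)) (v' := eval (Pool.GEN.bt F ω) (G 2 (Pool.PB.ptr F J ω) r))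
    (M := 2 ^ (g₀ 2 r + x) / 2 ^ (s r + MB)) (fun w hw => by
      rw [Pool.V1E.pd_nfw]
      refine W.hC2 ω hω _ (Pool.V1E.box_up W.hc1 (W.pG 2 _) (Pool.W.V1E.bt_box W.ch2 (by omega) hω _)
        (Pool.V1E.uicc_le hw h2 ?_))
      rw [sub_self, abs_zero]
      positivity)
  rw [hself] at h3
  have e1 : Pool.V1E.nwy F c r Cp ω - eval (Pool.V1E.up (c r) (Pool.GEN.bt F ω) (eval (Pool.GEN.bt F ω) (G 2 (Pool.PB.ptr F J ω) r)))
      (Pool.V1E.nfw r (G 2 (Pool.PB.ptr F J ω)) (Cp (Pool.PB.ptr F J ω))) =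
      (F.x ω (c (r + 1)) - eval (Pool.GEN.bt F ω) (G 2 (Pool.PB.ptr F J ω) (r + 1))) +
      (eval (Pool.GEN.bt F ω) (Pool.V1E.nfw r (G 2 (Pool.PB.ptr F J ω)) (Cp (Pool.PB.ptr F J ω))) -
        eval (Pool.V1E.up (c r) (Pool.GEN.bt F ω) (eval (Pool.GEN.bt F ω) (G 2 (Pool.PB.ptr F J ω) r)))
          (Pool.V1E.nfw r (G 2 (Pool.PB.ptr F J ω)) (Cp (Pool.PB.ptr F J ω)))) := by
    rw [Pool.V1E.eval_nfw (Pool.GEN.bt F ω)]
    unfold Pool.V1E.nwy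
    ring
  rw [e1]
  refine (abs_add_le _ _).trans ((add_le_add h1 h3).trans ?_)
  have h4 : (1 : ℝ) / 2 ^ g₀ 2 (r + 1) ≤ 2 ^ x / 2 ^ (s r + MB) := Pool.V1E.p2_le W.m2
  have h5 : 2 ^ (g₀ 2 r + x) / 2 ^ (s r + MB) * |F.x ω (c r) -
      eval (Pool.GEN.bt F ω) (G 2 (Pool.PB.ptr F J ω) r)| ≤ 2 ^ x / 2 ^ (s r + MB) := by
    refine (mul_le_mul_of_nonneg_left h2 (by positivity)).trans (le_of_eq ?_)
    rw [pow_add 2 (g₀ 2 r) x]
    field_simp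
  have e2 : (2 : ℝ) ^ (x + 1) / 2 ^ (s r + MB) = 2 ^ x / 2 ^ (s r + MB) +
      2 ^ x / 2 ^ (s r + MB) := by
    rw [pow_succ]
    ring
  rw [e2]
  exact add_le_add h4 h5

end fields

/-- **The own path.** -/
theorem nw_own (D r : ℕ) : ∃ C : ℕ, ∀ {m J : ℕ} {F : Pool.KA.Fam m J} {c : ℕ → Fin m}
    {n M ar MB q₀ Q x p e su : ℕ} {s : ℕ → ℕ} {qe : Fin r → ℕ} {o : ℕ → ℕ}
    {z g gc gT g₀ : ℕ → ℕ → ℕ} {B : F.Ω → Prop}
    {G T : ℕ → Pool.GEN.PtT F → ℕ → MvPolynomial (Option (Fin m)) ℝ}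
    {H TH : ℕ → Pool.GEN.LnT F → ℕ → MvPolynomial (Option (Fin m)) ℝ}
    {Ht CL : Pool.GEN.LnT F → MvPolynomial (Option (Fin m)) ℝ}
    {Cp : Pool.GEN.PtT F → MvPolynomial (Option (Fin m)) ℝ},
    Pool.W.V1E.NwD F c r D n M ar MB q₀ Q x p e su s qe o z g gc gT g₀ B G T H TH Ht CL Cp → ∀ ω, B ω →
    ∀ τ ∈ Set.Icc (0 : ℝ) 1, |(Pool.V1E.nwp F c r (o 1) CL (Pool.KSAT.slam F (o 1) ω) -
      MvPolynomial.aeval (Pool.GEN.lc (o 1) (Pool.KSAT.slam F (o 1) ω))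
        (Pool.V1E.nW c r (H 1 (Pool.KSAT.slam F (o 1) ω)) (CL (Pool.KSAT.slam F (o 1) ω)))).eval τ| ≤
      2 ^ (C * (x + 1)) / 2 ^ s r := by
  obtain ⟨C₁, hd1⟩ := Pool.W.V1E.nw_d1 D r
  refine ⟨C₁ + 3, ?_⟩
  intro m J F c n M ar MB q₀ Q x p e su s qe o z g gc gT g₀ B G T H TH Ht CL Cp W ω hω τ hτ
  have h1J : o 1 ≤ J := by have := W.oJ; have := W.o3; have := W.o2; omega
  obtain ⟨b, hb⟩ : ∃ b, b = Pool.D2R.ptw F (o 1) ω τ := ⟨_, rfl⟩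
  have hbe : (fun o' => (Pool.GEN.lc (o 1) (Pool.KSAT.slam F (o 1) ω) o').eval τ) = b := by rw [hb]; rfl
  have hbo : ∀ o', (Pool.GEN.lc (o 1) (Pool.KSAT.slam F (o 1) ω) o').eval τ = b o' := fun o' => by rw [hb]; rfl
  have hon : ∀ l ≤ r + 1, |b (some (c l)) - eval b (G 1 (Pool.PB.ptr F J ω) l)| ≤ 2 ^ x / 2 ^ g₀ 1 l :=
    fun l hl => by
      rw [hb]
      exact W.onc hω hτ hl
  have htime : |b none - F.t ω| ≤ 1 / 2 ^ o 1 := by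
    rw [hb]
    exact Pool.V1E.ptw_time h1J ω hτ
  have hself : Pool.V1E.up (c r) b (b (some (c r))) = b := Pool.V1E.up_eq rfl
  have hne : ∀ l < r, c l ≠ c r := fun l hl he => by
    have := W.hc1 (Set.mem_Iio.2 (show l < r + 1 by omega))
      (Set.mem_Iio.2 (Nat.lt_succ_self r)) he
    omega
  have h3 := Pool.V1E.mv_up (k := c r) (R := Pool.V1E.nfw r (G 1 (Pool.PB.ptr F J ω)) (Cp (Pool.PB.ptr F J ω)))
    (b := b) (v := b (some (c r))) (v' := eval b (G 1 (Pool.PB.ptr F J ω) r))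
    (M := 2 ^ (C₁ * (x + 1)) * (2 ^ (su + x) / 2 ^ s r)) (fun w hw => by
      refine hd1 W ω hω x _ (by rw [Pool.V1E.up_none]; exact htime) fun l hl => ?_
      rw [Pool.V1E.hC1e W.hc1 (W.pG 1 _) hl]
      rcases Nat.lt_or_ge l r with h | h
      · rw [Pool.V1E.up_ne (hne l h)]
        exact hon l (by omega)
      · have : l = r := by omega
        subst this
        rw [Pool.V1E.up_self]
        refine Pool.V1E.uicc_le hw (hon l (by omega)) ?_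
        rw [sub_self, abs_zero]
        positivity)
  rw [hself] at h3
  have e1 : (Pool.V1E.nwp F c r (o 1) CL (Pool.KSAT.slam F (o 1) ω) -
      MvPolynomial.aeval (Pool.GEN.lc (o 1) (Pool.KSAT.slam F (o 1) ω))
        (Pool.V1E.nW c r (H 1 (Pool.KSAT.slam F (o 1) ω)) (CL (Pool.KSAT.slam F (o 1) ω)))).eval τ =
      (b (some (c (r + 1))) - eval b (G 1 (Pool.PB.ptr F J ω) (r + 1))) +
      (eval b (Pool.V1E.nfw r (G 1 (Pool.PB.ptr F J ω)) (Cp (Pool.PB.ptr F J ω))) -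
        eval (Pool.V1E.up (c r) b (eval b (G 1 (Pool.PB.ptr F J ω) r)))
          (Pool.V1E.nfw r (G 1 (Pool.PB.ptr F J ω)) (Cp (Pool.PB.ptr F J ω)))) := by
    unfold Pool.V1E.nwp
    rw [Polynomial.eval_sub, Polynomial.eval_sub, Pool.D2G30.eval_aev, Pool.D2G30.eval_aev, hbe,
      hbo, ← W.clA hω, ← W.clC ω hω, Pool.V1E.eval_nW, Pool.V1E.eval_nfw b]
    ring
  rw [e1]
  have h4 := hon (r + 1) le_rfl
  have h5 := hon r (Nat.le_succ r)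
  refine (abs_add_le _ _).trans ((add_le_add h4 (h3.trans (mul_le_mul_of_nonneg_left h5
    (by positivity)))).trans ?_)
  have h6 : (2 : ℝ) ^ x / 2 ^ g₀ 1 (r + 1) ≤ 2 ^ (x + x) / 2 ^ s r := Pool.V1E.p2_le' (by
    have := W.m1'
    omega)
  have h7 : (2 : ℝ) ^ (C₁ * (x + 1)) * (2 ^ (su + x) / 2 ^ s r) * (2 ^ x / 2 ^ g₀ 1 r) ≤
      2 ^ (C₁ * (x + 1) + (x + x + x)) / 2 ^ s r := by
    have h8 : (2 : ℝ) ^ (su + x) / 2 ^ g₀ 1 r ≤ 2 ^ (x + x) := Pool.V1E.p2_div (by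
      have := W.u1'
      omega)
    calc 2 ^ (C₁ * (x + 1)) * (2 ^ (su + x) / 2 ^ s r) * (2 ^ x / 2 ^ g₀ 1 r) =
        2 ^ (C₁ * (x + 1)) * 2 ^ x * (2 ^ (su + x) / 2 ^ g₀ 1 r) / 2 ^ s r := by ring
      _ ≤ 2 ^ (C₁ * (x + 1)) * 2 ^ x * 2 ^ (x + x) / 2 ^ s r :=
          div_le_div_of_nonneg_right (mul_le_mul_of_nonneg_left h8 (by positivity))
            (by positivity)
      _ = _ := by
          simp only [pow_add]
          ring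
  refine (add_le_add h6 h7).trans ?_
  rw [← add_div]
  refine div_le_div_of_nonneg_right ?_ (by positivity)
  have h8 : (2 : ℝ) ^ (x + x) ≤ 2 ^ (C₁ * (x + 1) + (x + x + x)) :=
    pow_le_pow_right₀ (by norm_num) (by omega)
  calc (2 : ℝ) ^ (x + x) + 2 ^ (C₁ * (x + 1) + (x + x + x)) ≤
      2 ^ (C₁ * (x + 1) + (x + x + x)) * 2 := by linarith
    _ = 2 ^ (C₁ * (x + 1) + (x + x + x) + 1) := by rw [pow_succ]
    _ ≤ _ := pow_le_pow_right₀ (by norm_num) (by nlinarith)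

end Pool.W.V1E
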