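import Pool.Agent.H73.D2.Tmm
import Pool.Agent.H31.W.H92.D2.Nwc
import Pool.Agent.H31.W.H92.D2.Nwd
import Pool.Agent.H31.W1.H2.GEN.ChT
import Pool.Agent.H31.W1.H80.GEN.Chn

/-!
# The end in a class for the target `N - P(p, u)`

`x10n_con`: as `x10f_con`, for the windows `WN` and the labels of the tubes `HImN`.
-/

set_option autoImplicit false

namespace Pool.W.V1E

open Pool.V1E

open Finset Real MvPolynomial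
open Pool.Agent.H49.Ent Pool.Agent.H32.Dense Pool.STK Pool.KA Pool.KSAT Pool.K2S Pool.PB Pool.S6C
open Pool.GEN Pool.CHT Pool.CHX Pool.ISO Pool.D2R Pool.D2G30 Pool.END18 Pool.D2Con
open Pool.LBT (ThrOf)
open Pool.LEV (Law)
open Pool.NLB46 (Lab lab_no)

variable {m : ℕ}

/-- `NwE` on smaller events. -/
theorem NwE.sub {J : ℕ} {F : Pool.KA.Fam m J} {c : ℕ → Fin m}
    {r D n M ar MB q₀ Q x p e su : ℕ} {s : ℕ → ℕ} {qe : Fin r → ℕ} {o : ℕ → ℕ}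
    {z g gc gT g₀ : ℕ → ℕ → ℕ} {B B' : F.Ω → Prop}
    {G T : ℕ → Pool.GEN.PtT F → ℕ → MvPolynomial (Option (Fin m)) ℝ}
    {H TH : ℕ → Pool.GEN.LnT F → ℕ → MvPolynomial (Option (Fin m)) ℝ}
    {Ht CL : Pool.GEN.LnT F → MvPolynomial (Option (Fin m)) ℝ}
    {Cp : Pool.GEN.PtT F → MvPolynomial (Option (Fin m)) ℝ}
    (W : Pool.W.V1E.NwE F c r D n M ar MB q₀ Q x p e su s qe o z g gc gT g₀ B G T H TH Ht CL Cp)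
    (hB : Pool.K2S.Sub B' B) :
    Pool.W.V1E.NwE F c r D n M ar MB q₀ Q x p e su s qe o z g gc gT g₀ B' G T H TH Ht CL Cp :=
  { W.toNvP.sub hB, W.toNwC.mono hB le_rfl le_rfl with
    cl2 := fun ω hω => W.cl2 ω (hB ω hω)
    rad0 := W.rad0.sub hB
    z01 := W.z01 }

/-- **The end, in a class**, for the target `N - P(p, u)`. -/
theorem x10n_con (r Dw K D' : ℕ) (hr : 1 ≤ r) (hK : 1 ≤ K)
    (hDK : (Dw + 1) * (Dw + 1) * ((Dw + 1) * (Dw + 1) + 1) ^ r ≤ K)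
    (hD1 : (Dw + 1) ^ (r + 4) ≤ D') :
    ∀ ε : ℝ, 0 < ε → ε ≤ 1 / 2 → ∃ δ C' : ℝ, 0 < δ ∧ δ ≤ 1 / 4 ∧ 1 ≤ C' ∧
    ∀ {m : ℕ} {S : Pool.PB.PCl m} {P₂ : List (Fin m) × Fin m → ℝ → ℝ → ℝ} {θ₂ : ℝ} {c : ℕ → Fin m}
    {Pt : ℝ → ℝ → ℝ} {D Dr N N₂ : ℕ} {R : ℕ → Prop}
    {C a Eb ε₀ η₀ ζ χ mb h e₂ κ K₁ K₂ : ℝ} {o : ℕ → ℝ} {lv be b : ℕ → ℕ → ℝ} {a₂ w₂ : ℚ}
    {Ξ : Pool.V1E.XiN m} {qf : ℕ → Fin r → ℕ}, 1 ≤ N → 3 ≤ N₂ → D ≤ Dw → S.Ne → Pool.LBT.ThrOf (Pool.W.CHT.chsys m θ₂) S P₂ → Pool.CHT.TmH S →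
    Set.InjOn c (Set.Iio (r + 2)) → (∀ l < r, R l) → 1 ≤ C → 0 < η₀ → 0 ≤ Eb → 0 < o 2 →
    3 * (C * η₀) ≤ Pt a (o 0) → η₀ ≤ lv 0 (r + 1) → 0 ≤ lv 1 (r + 1) →
    o 1 + 4 * (C * η₀) ≤ a → a ≤ 1 → (¬ R r → lv 1 r + (a - o 1) ≤ be 1 r + ζ) →
    mb + (o 3 - o 0) < o 0 - o 2 → o 3 - o 0 < mb → η₀ ≤ o 1 - o 3 → 0 ≤ ζ →
    C * η₀ + 2 * (ζ + 3 * (C * η₀)) + η₀ < χ →
    (∀ k ≤ 3, ∀ j < r, |lv k j - o k - (lv 0 j - o 0)| ≤ ζ) →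
    lv 0 r + (o 3 - o 0) ≤ lv 3 r + ζ → lv 3 r + (o 1 - o 3) ≤ lv 1 r + ζ →
    |lv 3 (r + 1) - lv 0 (r + 1) - mb| ≤ ζ →
    lv 0 (r + 1) + (o 1 - o 0) + (mb - (o 3 - o 0)) ≤ lv 1 (r + 1) + ζ →
    lv 0 (r + 1) + (a - o 0) + (mb - (o 3 - o 0)) ≤ Pt a (o 0) + ζ →
    C' * χ < δ * (o 3 - o 0) → o 0 ≤ w₂ → o 3 < a₂ → w₂ ≤ a₂ → a₂ ≤ 1 → e₂ < θ₂ * w₂ →
    0 < h → Pool.CHT.bet P₂ c (r + 1) a₂ w₂ + h ≤ 1 → Eb + 2 * mb + C' * χ ≤ e₂ →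
    (∀ l < r, lv 0 l + (o 3 - o 0) + C' * χ ≤ 1) → lv 0 r + C' * χ ≤ 1 →
    lv 0 (r + 1) + mb ≤ 1 → o 0 + 2 * (o 3 - o 0) + η₀ ≤ 1 →
    Pool.CHT.bet P₂ c (r + 1) a₂ w₂ + h + o 3 + ε * (o 3 - o 0) + C' * χ ≤ lv 0 (r + 1) + mb + a₂ →
    (∀ (J : ℕ) (i : Fin r), ⌊mb * J⌋₊ + (⌊o 3 * J⌋₊ - ⌊o 0 * J⌋₊) ≤ qf J i) → 0 < κ →
    0 < K₁ → 0 ≤ K₂ →
    Pool.W.V1E.WgC S c r D Dw Dr N N₂ R C a Eb ε₀ η₀ χ mb Pt o lv be b κ K₁ Ξ →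
    ¬ Pool.W.V1E.HImN S c r D Dw Dr K D' N N₂ R C a Eb ε₀ η₀ χ mb Pt o lv be κ qf δ K₂ Ξ := by
  intro ε hε hε2
  obtain ⟨C₀, C₁, δ₀, δ₀0, δ₀ε, Q₀, hend⟩ := Pool.W.V1E.nw_end Dw r K D' hr hK hDK hD1 hε
  obtain ⟨D₂, hD₂⟩ : ∃ D₂ : ℕ, D₂ = (Dw + 1) * (Dw + 1) := ⟨_, rfl⟩
  obtain ⟨D₃, hD₃⟩ : ∃ D₃ : ℕ, D₃ = D₂ + r * (K * D₂) + D' := ⟨_, rfl⟩
  rw [← hD₂, ← hD₃] at hend
  obtain ⟨δ, hδ⟩ : ∃ δ : ℝ, δ = min δ₀ (1 / 4) := ⟨_, rfl⟩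
  have δ0 : 0 < δ := by rw [hδ]; exact lt_min δ₀0 (by norm_num)
  have δ4 : δ ≤ 1 / 4 := by rw [hδ]; exact min_le_right _ _
  have δδ₀ : δ ≤ δ₀ := by rw [hδ]; exact min_le_left _ _
  obtain ⟨C', hC'⟩ : ∃ C' : ℝ, C' = 8 * (C₁ + 2 * (K * r) + 4) + 8 := ⟨_, rfl⟩
  have hC₁0 : (0 : ℝ) ≤ C₁ := Nat.cast_nonneg _
  have hKr0 : (0 : ℝ) ≤ K * r := by positivity
  have hC'1 : 1 ≤ C' := by
    rw [hC']
    linarith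
  refine ⟨δ, C', δ0, δ4, hC'1, ?_⟩
  intro m S P₂ θ₂ c Pt D Dr N N₂ R C a Eb ε₀ η₀ ζ χ mb h e₂ κ K₁ K₂ o lv be b a₂ w₂ Ξ qf hN1 hN hDD
    hne hP₂ hS hinj hR hC hη0 hEb ho2 hPt0 hlv0 hlv1 hoa1 ha1 hbe h01 h12 h23 hζ hχ hn hu2 hu3
    h2 h3 hPa hsm h1w h2a hwa ha₂ he₂ hh hb2 hE hrm hru hrm' h1J hlab hqf hκ hK₁ hK₂ hWg hIm
  have hCη : η₀ ≤ C * η₀ := le_mul_of_one_le_left hη0.le hC
  have hCη0 : 0 < C * η₀ := by linarith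
  obtain ⟨X, hX⟩ : ∃ X : ℝ, X = χ := ⟨_, rfl⟩
  have hX0 : 0 < X := by rw [hX]; linarith
  have hηX : η₀ ≤ X := by rw [hX]; linarith
  have hζX : ζ ≤ X := by rw [hX]; linarith
  rw [← hX] at hsm hE hlab hru
  simp only [← hX] at hrm
  have hQ12 : 0 < o 3 - o 0 := by
    by_contra hcon
    push Not at hcon
    have h4 : δ * (o 3 - o 0) ≤ 0 := mul_nonpos_of_nonneg_of_nonpos δ0.le hcon
    have h5 : 0 < C' * X := by positivity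
    linarith
  have hδQ4 : δ * (o 3 - o 0) ≤ (o 3 - o 0) / 4 := by
    have h4 := mul_le_mul_of_nonneg_right δ4 hQ12.le
    linarith
  have hη12 : η₀ ≤ o 3 - o 0 := by
    have h4 : η₀ ≤ C' * X := hηX.trans (le_mul_of_one_le_left hX0.le hC'1)
    linarith
  have h2' := abs_le.1 h2
  have ho0' : ∀ k ≤ 3, 0 < o k := fun k hk => by
    interval_cases k <;> linarith
  have hwin := Pool.W.V1E.wn_con (qf := qf) hN1 hN hDD hinj hR hC hη0 hPt0 hlv1 hoa1 ha1 hbe h01 h12 hη12 h23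
    hζ hχ hn hu2 hu3 (by linarith) h3 hPa hqf hWg
  -- the constants
  have hC'X : C' * X = 8 * C₁ * X + 16 * (K * r) * X + 32 * X + 8 * X := by
    rw [hC']
    ring
  have hC'a : 8 * C₁ * X + 16 * (K * r) * X + 32 * X ≤ C' * X := by
    linarith
  have hKrX : 0 ≤ 16 * (K * r) * X := by positivity
  have hC₁X : 0 ≤ 8 * C₁ * X := by positivity
  -- the events
  have hw₂0 : (0 : ℝ) ≤ w₂ := le_trans (ho0' 0 (by norm_num)).le h1w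
  have hdq : 0 < δ * (o 3 - o 0) / 2 := by positivity
  obtain ⟨δl, hδl, hln⟩ := Pool.W.NLB46.lab_no hP₂ c (r + 1) D₃ a₂ w₂ e₂ h
    (by exact_mod_cast hw₂0) hwa ha₂ he₂ hh hb2
  obtain ⟨τ, hτ, J₁, hall⟩ := (hwin.and (Pool.V1E.bas_big hIm K₁)).and
    ((Pool.V1E.bas_big (Pool.V1E.tmh_cond hS hdq) (K₁ * K₂)).and (Pool.V1E.bas_big hln (K₁ * K₂)))
  obtain ⟨W₀, hW₀⟩ : ∃ W₀ : ℝ, W₀ = 22 * C₁ + 40 * (K * r) + C₀ + Q₀ + 100 := ⟨_, rfl⟩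
  have big : ∀ {x y : ℝ}, 0 < x → ∃ J₀ : ℕ, ∀ J : ℕ, J₀ ≤ J → y ≤ x * J := by
    intro x y hx
    refine ⟨⌈y / x⌉₊, fun J hJ => ?_⟩
    have h1 : y / x ≤ J := (Nat.le_ceil _).trans (by exact_mod_cast hJ)
    rw [div_le_iff₀ hx] at h1
    linarith
  obtain ⟨J₂, hJ₂⟩ := big (x := η₀) (y := W₀) hη0
  obtain ⟨J₃, hJ₃⟩ := big (x := (a₂ : ℝ) - o 3) (y := 2) (by linarith)
  obtain ⟨J₄, hJ₄⟩ := big (x := δl) (y := Real.log 2) hδl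
  obtain ⟨J, hJ, F, A, hA⟩ := hne τ hτ (max J₁ (max J₂ (max J₃ J₄)))
  obtain ⟨⟨w1, w2⟩, w3, w4⟩ := hall J ((le_max_left _ _).trans hJ) F A hA
  have j2 := hJ₂ J ((le_max_left _ _).trans ((le_max_right _ _).trans hJ))
  have j3 := hJ₃ J ((le_max_left _ _).trans ((le_max_right _ _).trans ((le_max_right _ _).trans hJ)))
  have j4 := hJ₄ J ((le_max_right _ _).trans ((le_max_right _ _).trans ((le_max_right _ _).trans hJ)))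
  have hJ0 : (0 : ℝ) ≤ J := Nat.cast_nonneg J
  have mulJ : ∀ {x y : ℝ}, x ≤ y → x * J ≤ y * J := fun h => mul_le_mul_of_nonneg_right h hJ0
  have hC₀0 : (0 : ℝ) ≤ C₀ := Nat.cast_nonneg _
  have hQ₀0 : (0 : ℝ) ≤ Q₀ := Nat.cast_nonneg _
  have ho0 : ∀ k ≤ 3, 0 ≤ o k * J := fun k hk =>
    mul_nonneg (ho0' k hk).le hJ0
  have fo := fun k hk => Pool.V1E.flo (ho0 k hk)
  have f0 := fo 2 (by norm_num)
  have f1 := fo 0 (by norm_num)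
  have f2 := fo 3 (by norm_num)
  have f3 := fo 1 (by norm_num)
  have l01 : ⌊o 2 * J⌋₊ ≤ ⌊o 0 * J⌋₊ := Nat.floor_le_floor (mulJ (by linarith))
  have l12 : ⌊o 0 * J⌋₊ ≤ ⌊o 3 * J⌋₊ := Nat.floor_le_floor (mulJ (by linarith))
  obtain ⟨B, z, gc, gT, g₀, G, H, T, TH, Gt, Ht, CL, Cp, hB, hPB, W, hΞ⟩ := w1
  obtain ⟨B₂, V, V', v, v', ξ, np, Pn, hB₂, hPB₂, him⟩ := w2 B hB hPB b z gc gT g₀ G H T TH Gt Ht
    CL Cp W hΞ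
  have hB₂A : Pool.K2S.Sub B₂ A := fun ω hω => hB ω (hB₂ ω hω)
  have hPA : Pool.K2S.Pe F.p A ≤ K₁ * K₂ * Pool.K2S.Pe F.p B₂ := by
    rw [mul_assoc]
    exact hPB.trans (mul_le_mul_of_nonneg_left hPB₂ hK₁.le)
  obtain ⟨hP0, htf⟩ := w3 B₂ hB₂A hPA
  have Wd' := (W.nwe (by linarith) (by linarith)).sub hB₂
  obtain ⟨Q, hQ⟩ : ∃ Q : ℕ, Q = ⌊o 3 * J⌋₊ - ⌊o 0 * J⌋₊ := ⟨_, rfl⟩
  obtain ⟨x, hx⟩ : ∃ x : ℕ, x = ⌊χ * J⌋₊ := ⟨_, rfl⟩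
  obtain ⟨e, he⟩ : ∃ e : ℕ, e = ⌊(Eb + 2 * η₀) * J⌋₊ := ⟨_, rfl⟩
  obtain ⟨MB, hMB⟩ : ∃ MB : ℕ, MB = ⌊mb * J⌋₊ := ⟨_, rfl⟩
  obtain ⟨sr, hsr⟩ : ∃ sr : ℕ, sr = ⌊lv 0 (r + 1) * J⌋₊ := ⟨_, rfl⟩
  have hsre : Pool.V1E.sN (lv 0) J r r = sr := by rw [Pool.V1E.sN_r, hsr]
  rw [← hQ, ← hx, ← he, ← hMB] at Wd'
  rw [← hQ, ← hMB, ← hD₂] at him
  have hQr : (Q : ℝ) = ⌊o 3 * J⌋₊ - ⌊o 0 * J⌋₊ := by rw [hQ, Nat.cast_sub l12]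
  have hQl : (o 3 - o 0) * J - 1 ≤ Q := by rw [hQr]; linarith [f1.2, f2.2, f1.1, f2.1]
  have hQu : (Q : ℝ) ≤ (o 3 - o 0) * J + 1 := by rw [hQr]; linarith [f1.2, f2.2, f1.1, f2.1]
  have hMl : mb * J - 1 ≤ MB := by
    rw [hMB]
    exact (Pool.V1E.flo (mul_nonneg (by linarith) hJ0)).2
  have hMu : (MB : ℝ) ≤ mb * J := by
    rw [hMB]
    exact (Pool.V1E.flo (mul_nonneg (by linarith) hJ0)).1
  have hCJ : η₀ * J ≤ X * J := mulJ hηX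
  have hW0J : W₀ ≤ X * J := j2.trans hCJ
  have hKr40 : 0 ≤ 40 * ((K : ℝ) * r) := by positivity
  have h22 : 0 ≤ 22 * (C₁ : ℝ) := by positivity
  have hxu : (x : ℝ) ≤ X * J := by
    rw [hx, ← hX]
    exact (Pool.V1E.flo (mul_nonneg hX0.le hJ0)).1
  have hC1u : (C₁ : ℝ) * (x + 1) ≤ C₁ * X * J + C₁ := by
    have h4 := mul_le_mul_of_nonneg_left hxu hC₁0
    linarith
  have hsmJ : C' * X * J ≤ δ * (o 3 - o 0) * J := mulJ hsm.le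
  have hC'aJ := mulJ hC'a
  have hδQl : δ * (o 3 - o 0) * J - 1 ≤ δ * Q := by
    have h4 := mul_le_mul_of_nonneg_left hQl δ0.le
    linarith
  have hδ0Q : δ * Q ≤ δ₀ * Q := mul_le_mul_of_nonneg_right δδ₀ (Nat.cast_nonneg _)
  have hKXJ : 0 ≤ 16 * (K * r) * X * J := mul_nonneg hKrX hJ0
  have hC₁XJ : 0 ≤ C₁ * X * J := by positivity
  have hCXJ : 0 ≤ X * J := by positivity
  have c1 : Q₀ ≤ Q := by
    have h4 : (Q₀ : ℝ) ≤ Q := by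
      have h5 := mulJ hη12
      rw [hW₀] at j2
      linarith
    exact_mod_cast h4
  have c2 : (C₁ : ℝ) * (x + 1) ≤ δ₀ * Q := by
    rw [hW₀] at hW0J
    linarith
  have c3 : ⌊o 0 * J⌋₊ + 2 * Q ≤ J := by
    have h4 : ((⌊o 0 * J⌋₊ + 2 * Q : ℕ) : ℝ) ≤ J := by
      push_cast
      have h5 := mulJ h1J
      rw [hW₀] at j2
      linarith [f1.1]
    exact_mod_cast h4
  have c6 : (J : ℝ) * Real.log 2 - δ₀ * Q ≤ Pool.Agent.H49.Ent.CH (Pool.Agent.H49.Ent.cond F.p B₂ True) F.T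
      (fun ω => (F.l ω, F.Z ω)) := by
    refine le_trans ?_ htf
    have h5 := mulJ hη12
    rw [hW₀] at j2
    have h6 : (o 3 - o 0) * J / 2 ≤ Q := by linarith
    have h7 := mul_le_mul_of_nonneg_left h6 δ0.le
    linarith
  obtain ⟨εQ, hεQ⟩ : ∃ k : ℕ, k = ⌈ε * Q⌉₊ := ⟨_, rfl⟩
  have hεQ0 : 0 ≤ ε * (Q : ℝ) := by positivity
  have hεQl : ε * (Q : ℝ) ≤ εQ := by rw [hεQ]; exact Nat.le_ceil _
  have hεQu : (εQ : ℝ) ≤ ε * Q + 1 := by rw [hεQ]; exact (Nat.ceil_lt_add_one hεQ0).le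
  have hεu : ε * (Q : ℝ) ≤ ε * (o 3 - o 0) * J + 1 := by
    have h4 := mul_le_mul_of_nonneg_left hQu hε.le
    linarith
  have hε2u : ε * (o 3 - o 0) * J ≤ (o 3 - o 0) * J / 2 := by
    have h4 := mul_le_mul_of_nonneg_right hε2 (mul_nonneg hQ12.le hJ0)
    linarith
  obtain ⟨sm, hsm'⟩ : ∃ k : ℕ, k = 2 * x * K * r + C₀ + C₁ * (x + 1) := ⟨_, rfl⟩
  have hsmu : (sm : ℝ) ≤ 2 * (K * r) * X * J + (C₁ * X * J + C₁) + C₀ := by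
    rw [hsm']
    push_cast
    have h4 := mul_le_mul_of_nonneg_left hxu hKr0
    linarith
  obtain ⟨p', hp'⟩ : ∃ p' : ℕ, p' = sr + MB - (sm + εQ) := ⟨_, rfl⟩
  have hδJ : δ * (o 3 - o 0) * J ≤ (o 3 - o 0) * J / 4 := by
    have h4 := mulJ hδQ4
    linarith
  have hple : sm + εQ ≤ sr + MB := by
    have h4 : ((sm + εQ : ℕ) : ℝ) ≤ ((sr + MB : ℕ) : ℝ) := by
      push_cast
      have h5 := mulJ h12.le
      have h6 : (0 : ℝ) ≤ sr := Nat.cast_nonneg _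
      rw [hW₀] at hW0J
      linarith
    exact_mod_cast h4
  have hpe : (p' : ℝ) + (sm + εQ) = sr + MB := by
    have : p' + (sm + εQ) = sr + MB := by rw [hp']; omega
    exact_mod_cast this
  obtain ⟨e', he'⟩ : ∃ e' : ℕ, e' = e + C₁ * (x + 1) + (p' - g₀ 0 (r + 1)) + MB + 1 := ⟨_, rfl⟩
  have c8 : e + C₁ * (x + 1) + (p' - g₀ 0 (r + 1)) + 1 ≤ e' := by omega
  have c9 : (p' : ℝ) + (2 * x * K * r + C₀ : ℕ) + ε * Q ≤ Pool.V1E.sN (lv 0) J r r + MB := by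
    rw [hsre]
    have h4 : ((2 * x * K * r + C₀ : ℕ) : ℝ) ≤ sm := by
      rw [hsm']
      exact_mod_cast Nat.le_add_right _ _
    linarith
  have c10 : ((e + C₁ * (x + 1) + (p' - g₀ 0 (r + 1)) : ℕ) : ℝ) + p' +
      (2 * x * K * r + C₀ + C₁ * (x + 1) : ℕ) + ε * Q ≤ e' + Pool.V1E.sN (lv 0) J r r := by
    rw [hsre]
    have h4 : (e' : ℝ) = ((e + C₁ * (x + 1) + (p' - g₀ 0 (r + 1)) : ℕ) : ℝ) + MB + 1 := by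
      rw [he']
      push_cast
      ring
    rw [h4, ← hsm']
    linarith
  obtain ⟨B₃, hB₃, hPB₃, hch, hla⟩ := hend (e' := e') (p' := p') Wd'
    c1 c2 c3 hP0 (him.mono (Pool.Agent.H49.Ent.cond_nonneg F.isLaw.nonneg _ True) δδ₀) c6 c8 c9 c10
  -- the contradiction
  obtain ⟨-, -, g2l, g2u⟩ := W.wg.wb.g_num (k := 3) (l := r + 1) (by omega) le_rfl
  obtain ⟨-, -, g1l, g1u⟩ := W.wg.wb.g_num (k := 0) (l := r + 1) (by omega) le_rfl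
  have hsrl : lv 0 (r + 1) * J - 1 ≤ sr := by
    rw [hsr]
    exact (Pool.V1E.flo (mul_nonneg (by linarith) hJ0)).2
  have hsru : (sr : ℝ) ≤ lv 0 (r + 1) * J := by
    rw [hsr]
    exact (Pool.V1E.flo (mul_nonneg (by linarith) hJ0)).1
  have hδlJ : Real.exp (-(δl * J)) ≤ 1 / 2 := by
    rw [Real.exp_neg, inv_eq_one_div]
    refine one_div_le_one_div_of_le two_pos ?_
    have h4 := Real.exp_le_exp.2 j4
    rwa [Real.exp_log two_pos] at h4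
  refine w4 B₂ hB₂A hPA (⌊o 0 * J⌋₊ + Q + 1) ⌊o 0 * J⌋₊ e' p' (fun _ => D₂) _ _ _ _ _
    (by omega) ?_ ?_ ?_ (fun _ => by omega) ?_ ?_ ?_ B₃ hB₃ ?_ hch hla
  · refine Nat.le_floor ?_
    push_cast
    rw [hQr]
    linarith [f2.1]
  · exact Nat.floor_le_floor (mulJ h1w)
  · refine Nat.le_floor ?_
    have h4 : ((p' - g₀ 0 (r + 1) : ℕ) : ℝ) ≤ mb * J + X * J := by
      have h6 : sr ≤ g₀ 0 (r + 1) + x := by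
        have := Wd'.m1'
        rw [hsre] at this
        exact this
      have h7 : p' - g₀ 0 (r + 1) ≤ MB + x := by omega
      have h8 : ((p' - g₀ 0 (r + 1) : ℕ) : ℝ) ≤ ((MB + x : ℕ) : ℝ) := by exact_mod_cast h7
      push_cast at h8
      linarith
    have h5 : (e : ℝ) ≤ (Eb + 2 * η₀) * J := by
      rw [he]
      exact (Pool.V1E.flo (mul_nonneg (by linarith) hJ0)).1
    rw [he']
    push_cast
    have h7 := mulJ hE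
    have h8 := mulJ hζX
    rw [hW₀] at hW0J
    linarith
  · intro l hl
    rcases Nat.lt_or_ge l r with h | h
    · rw [if_pos h]
      obtain ⟨-, k1, -, -⟩ := W.wg.wb.g_num (k := 2) (l := l) (by omega) (by omega)
      have k2 := mulJ (hrm l h)
      have k3 := mulJ (abs_le.1 (hn 2 (by norm_num) l h)).2
      have k4 : ((⌊o 3 * J⌋₊ - ⌊o 2 * J⌋₊ : ℕ) : ℝ) = ⌊o 3 * J⌋₊ - ⌊o 2 * J⌋₊ :=
        Nat.cast_sub (l01.trans l12)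
      have k5 := mulJ hζX
      have k6 : ((⌊b 2 l * J⌋₊ + (⌊o 3 * J⌋₊ - ⌊o 2 * J⌋₊) : ℕ) : ℝ) ≤ J := by
        push_cast [k4]
        rw [hW₀] at hW0J
        linarith [f2.1, f0.2]
      exact_mod_cast k6
    · rw [if_neg (by omega)]
      obtain ⟨-, -, -, k1⟩ := W.wg.wb.g_num (k := 0) (l := r) (by omega) (by omega)
      have k2 := mulJ hru
      have k3 : ((g₀ 0 r : ℕ) : ℝ) ≤ J := by linarith
      exact_mod_cast k3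
  · have h4 : (p' : ℝ) ≤ J := by
      have h5 := mulJ hrm'
      have h6 : (0 : ℝ) ≤ sm := Nat.cast_nonneg _
      have h7 : (0 : ℝ) ≤ εQ := Nat.cast_nonneg _
      linarith
    exact_mod_cast h4
  · have ha2l : (a₂ : ℝ) * J - 1 ≤ (⌊(a₂ : ℝ) * J⌋₊ : ℝ) := by
      linarith [Nat.lt_floor_add_one ((a₂ : ℝ) * J)]
    have ha0 : ⌊o 0 * J⌋₊ + Q + 1 ≤ ⌊(a₂ : ℝ) * J⌋₊ := by
      refine Nat.le_floor ?_
      push_cast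
      rw [hQr]
      linarith [f2.1]
    rcases le_or_gt 0 ((Pool.CHT.bet P₂ c (r + 1) a₂ w₂ + h) * (J : ℝ)) with h4 | h4
    · have h5 : ((⌊(Pool.CHT.bet P₂ c (r + 1) a₂ w₂ + h) * J⌋₊ + (⌊o 0 * J⌋₊ + Q + 1) : ℕ) : ℝ) ≤
          ((p' + ⌊(a₂ : ℝ) * J⌋₊ : ℕ) : ℝ) := by
        push_cast
        have h6 := (Pool.V1E.flo h4).1
        have h7 := mulJ hlab
        rw [hQr]
        rw [hW₀] at hW0J
        linarith [f2.1]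
      exact_mod_cast h5
    · rw [Nat.floor_of_nonpos h4.le]
      omega
  · refine le_trans (mul_le_mul_of_nonneg_right hδlJ (Pool.K2S.Pe_nonneg F.isLaw B₂)) ?_
    linarith

end Pool.W.V1E
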