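import Pool.Agent.H73.D2.Tmy
import Pool.Agent.H31.W.H3.D2G.RecN
import Pool.Agent.H31.W.H73.D2.Tmx
import Pool.Agent.H3.W.Bas

/-!
# The record of the end of the target `N - P(p, u)`, the deep window and the radius free
-/

set_option autoImplicit false

namespace Pool.W.PKG

open Pool.PKG

open Finset Real
open Pool.Agent.H49.Ent Pool.Agent.H32.Dense Pool.STK Pool.KA Pool.KSAT Pool.K2S Pool.PB
open Pool.GEN Pool.S6C Pool.STAT Pool.CHT Pool.GRW Pool.ONE Pool.STA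
open Pool.LBT (LSys ThrOf)
open Pool.LEV (Law)
open Pool.ALL (RateOf)
open Pool.ISO (PtD lvN WinD)
open Pool.V1E (RecNy vG vG_ge)
open Pool.D2R (BalD)

variable {m : ℕ} {S : Pool.PB.PCl m} {al : ℝ} {g₀ : ℝ → ℝ} {P : List (Fin m) × Fin m → ℝ → ℝ → ℝ}
  {θ : ℝ} {P₂ : ℕ → List (Fin m) × Fin m → ℝ → ℝ → ℝ} {θ₂ Eb e₂ : ℕ → ℝ}
  {c : ℕ → Fin m} {Pt : ℝ → ℝ → ℝ} {rt : ℝ → ℝ} {h K₀ g : ℝ} {L T : ℕ → ℝ → ℝ → ℝ}
  {Sl : ℕ → ℝ} {κ : ℕ → Pool.PKG.Kg} {G : Set ℝ} {S₀ N : ℕ} {A V : ℕ → ℝ} {S₂ N' : ℕ} {V' : ℕ → ℝ}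
  {K ε q t : ℝ}
  (R : Pool.W.PKG.RecG S al g₀ P θ P₂ θ₂ Eb e₂ c Pt rt h K₀ g L T Sl κ G S₀ N A V S₂ N' V' K ε q t)
include R

/-- **The record of the end** of the target `N - P(p, u)` at the place `r + 1`. -/
theorem RecG.recNy {r : ℕ} (hr : r + 1 < m) (hκ : ∀ l < r, κ l = .one) (hκu : κ r ≠ .any)
    (hκt : κ (r + 1) = .stp) {Rg : ℕ → Prop} (hRg : ∀ l ≤ r, Rg l → κ l = .one ∨ κ l = .thin)
    (hRg1 : ∀ l < r, Rg l) (hRgu : κ r = .thin ∨ κ r = .one → Rg r) {N₁ N₂ : ℕ} (hN1 : 1 ≤ N₁)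
    (hN12 : N₁ ≤ N₂) (hN2 : 3 ≤ N₂) {y a k₁ : ℝ} {vw : ℕ → ℝ} (hy : 3 / 2 ≤ y)
    (hya : y + 1 / 2 ≤ a) (hsa : Sl (r + 1) + 1 ≤ a) (hS : S₀ ≤ S₂)
    (hw : ∀ k ≤ N₁, ∃ j < N, A j = a ∧ V j = Pool.V1E.vG y k₁ vw k)
    (hb : ∀ k, N₁ < k → k ≤ N₂ → ∃ j < N', V' j = Pool.V1E.vG y k₁ vw k)
    (hr' : ∃ j < N, A j = 1 ∧ V j = 0) (hε : 0 ≤ ε) (hε1 : ε ≤ 1)
    (hvw : ∀ k, 4 ≤ k → k ≤ N₂ → -K ≤ vw k ∧ vw k ≤ a - 1 / 2)
    (hvwl : ∀ k, 4 ≤ k → k ≤ N₁ → -k₁ ≤ vw k)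
    (hkk : a + 1 ≤ k₁) (hkK : 2 * a + k₁ + 4 ≤ K)
    (hmr : r + 2 = m := by omega) :
    Pool.W.V1E.RecNy S P (P₂ (r + 1)) θ (θ₂ (r + 1)) c r (L (r + 1)) Rg S₂ N₁ N₂ vw (Sl r) (Sl (r + 1)) y a k₁
      K (Eb (r + 1)) (e₂ (r + 1)) ε q t := by
  have W := R.tg (r + 1) (by omega) hr
  have hkd := R.kd (r + 1) hr
  rw [hκt] at hkd
  obtain ⟨s, hs⟩ : ∃ s, s = Sl (r + 1) := ⟨_, rfl⟩
  rw [← hs] at hsa ⊢
  have hs2 : 2 < s := by
    rw [hs]
    exact hkd.1
  have hq := R.q0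
  have hlv : ∀ l ≤ r + 1, ∀ a w : ℝ, Pool.ISO.lvN P c (r + 1) (L (r + 1)) l a w = L l a w :=
    fun l hl a w => by rw [← R.lv_at hr hl]
  have hvF : ∀ k ≤ N₂, -K ≤ Pool.V1E.vG y k₁ vw k ∧ Pool.V1E.vG y k₁ vw k ≤ a - 1 / 2 := by
    intro k hk
    rcases Nat.lt_or_ge k 4 with h4 | h4
    · interval_cases k
      · norm_num [Pool.V1E.vG]
        constructor <;> linarith
      · norm_num [Pool.V1E.vG]
        constructor <;> linarith
      · norm_num [Pool.V1E.vG]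
        constructor <;> linarith
      · norm_num [Pool.V1E.vG]
        constructor <;> linarith
    · rw [Pool.V1E.vG_ge h4]
      exact hvw k h4 hk
  have hvFl : ∀ k ≤ N₁, -k₁ ≤ Pool.V1E.vG y k₁ vw k := by
    intro k hk
    rcases Nat.lt_or_ge k 4 with h4 | h4
    · interval_cases k
      · norm_num [Pool.V1E.vG]
        linarith
      · norm_num [Pool.V1E.vG]
        linarith
      · norm_num [Pool.V1E.vG]
      · norm_num [Pool.V1E.vG]
        linarith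
    · rw [Pool.V1E.vG_ge h4]
      exact hvwl k h4 hk
  have hK0 : 0 ≤ K := by linarith
  have hKq : 0 ≤ K * q := mul_nonneg hK0 hq.le
  have hkq : k₁ * q + 2 * (a * q) + 4 * q ≤ K * q := by
    have := mul_le_mul_of_nonneg_right hkK hq.le
    linarith
  have hs2q : 2 * q < s * q := mul_lt_mul_of_pos_right hs2 hq
  have hyq : 3 / 2 * q ≤ y * q := mul_le_mul_of_nonneg_right hy hq.le
  have hyaq : y * q + q / 2 ≤ a * q := by
    have := mul_le_mul_of_nonneg_right hya hq.le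
    linarith
  have hsaq : s * q + q ≤ a * q := by
    have := mul_le_mul_of_nonneg_right hsa hq.le
    linarith
  have hk₁q : a * q + q ≤ k₁ * q := by
    have := mul_le_mul_of_nonneg_right hkk hq.le
    linarith
  have htt : |t - t| ≤ K * q := by
    rw [sub_self, abs_zero]
    exact hKq
  have ht0 := R.t0
  have ht1 := R.t1
  have hεq : 0 ≤ ε * q := mul_nonneg hε hq.le
  have hε1q : ε * q ≤ q := by
    have := mul_le_mul_of_nonneg_right hε1 hq.le
    linarith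
  obtain ⟨jw, hjw⟩ : ∃ j : ℕ → ℕ, ∀ k ≤ N₁, j k < N ∧ A (j k) = a ∧ V (j k) = Pool.V1E.vG y k₁ vw k := by
    choose! j hj using hw
    exact ⟨j, hj⟩
  refine ⟨R.ne, R.thr, R.th0, W.thr₂, R.tmh, R.inj.mono fun x hx => ?_, R.lawL _ hr, W.Eb0.le, hq,
    hε, ⟨hy, hya, hsa⟩, hkk, hkK, ht0, ht1, hN1, hN12, hN2, fun k hk => ?_, fun k hk hk' => ?_,
    fun k hk hk' => (hvw k hk hk').2, hvwl, hRg1, fun l hl x hx => ?_, fun x hx => ?_,
    fun x hx => ?_, fun l hl x hx => ?_, W.eθ, W.Ebe, fun hRr => ?_, ?_, fun k hk => ?_,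
    fun e he => ?_⟩
  · rw [Set.mem_Iio] at hx ⊢
    omega
  · obtain ⟨k1, k2, k3⟩ := hjw k hk
    obtain ⟨h1, h2⟩ := hvF k (hk.trans hN12)
    have h3 := R.winD (i := r + 1) (by omega) hr k1 (by rw [k3]; exact h1)
      (by rw [k2, k3]; linarith) (by rw [k2]; linarith) (ε' := 3 * ε * q) le_rfl hε (Rg := Rg)
      (fun l hl hRl => hRg l (by omega) hRl)
    rw [k2, k3] at h3
    exact h3
  · obtain ⟨j, hj, hjV⟩ := hb k hk hk'
    obtain ⟨h1, h2⟩ := hvF k hk'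
    have h3 := R.balD_at (i := r + 1) (by omega) hr hS hj (x := a) (by rw [hjV]; linarith)
      (by rw [hjV]; linarith) (by
        rw [hjV, abs_le]
        constructor <;> linarith)
    rw [hjV] at h3
    exact h3
  · have h1 := R.dL l (by omega) x hx
    have h2 := R.kd l (by omega)
    rw [hκ l hl] at h2
    have h3 : Sl l = 1 := h2
    rw [h3, one_mul] at h1
    rw [hlv l (by omega), hlv l (by omega)]
    exact h1
  · have h1 := R.dL r (by omega) x hx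
    rw [hlv r (by omega), hlv r (by omega)]
    exact h1
  · rw [hs]
    exact R.dL (r + 1) hr x hx
  · have h1 := W.room l hl x hx
    rw [hlv l hl]
    exact h1
  · -- the level of `u` at the deep ball
    have hx1 : |t + y * q - t| ≤ K * q := by
      rw [add_sub_cancel_left, abs_of_pos (by linarith)]
      linarith
    have hx2 : |t + a * q - t| ≤ K * q := by
      rw [add_sub_cancel_left, abs_of_pos (by linarith)]
      linarith
    have h1 := abs_le.1 (R.dL r (by omega) _ hx1)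
    have h2 := abs_le.1 (R.dL r (by omega) _ hx2)
    have h3 := abs_le.1 (R.dT r (by omega) _ hx1)
    have h4 := R.kd r (by omega)
    have e1 : Pool.ISO.lvN P c (r + 1) (L (r + 1)) r (t + y * q) (t + y * q) =
        L r (t + y * q) (t + y * q) := hlv r (by omega) _ _
    rw [e1, ← R.lv_lt (l := r) (by omega)]
    have e2 : t + y * q - t = y * q := by ring
    have e3 : t + a * q - t = a * q := by ring
    rw [e2] at h1 h3
    rw [e3] at h2
    rcases hk : κ r with _ | _ | _ | _ | _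
    · exact absurd (hRgu (Or.inr hk)) hRr
    · exact absurd (hRgu (Or.inl hk)) hRr
    · rw [hk] at h4
      have h5 := h4.2 (t + a * q) (t + y * q) (by linarith) (by linarith) (by linarith)
      have h6 : 2 * (a * q - y * q) ≤ Sl r * (a * q - y * q) :=
        mul_le_mul_of_nonneg_right h4.1 (by linarith)
      have e4 : Sl r * (a * q - y * q) = Sl r * (a * q) - Sl r * (y * q) := by ring
      linarith [h1.1, h1.2, h2.1, h2.2]
    · rw [hk] at h4
      have h5 := h4.2 (t + a * q) (t + y * q) (by linarith) (by linarith) (by linarith)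
      obtain ⟨k1, k2, k3⟩ := hjw 1 hN1
      have h6 := (R.TL _ k1 r (by omega)).1
      rw [k2, k3] at h6
      have e4 : Pool.V1E.vG y k₁ vw 1 = y := by norm_num [Pool.V1E.vG]
      rw [e4] at h6
      linarith [h1.1, h1.2, h3.1, h3.2]
    · exact absurd hk hκu
  · have h1 := hkd.2 (t + a * q) t (by linarith) (by linarith) (by linarith)
    obtain ⟨k1, k2, k3⟩ := hjw 0 (by omega)
    have h2 := (R.TL _ k1 (r + 1) hr).1
    have h3 := abs_le.1 (R.dT (r + 1) hr t htt)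
    have e1 : Pool.V1E.vG y k₁ vw 0 = 0 := by norm_num [Pool.V1E.vG]
    rw [k2, k3, e1] at h2
    simp only [zero_mul, add_zero] at h2
    linarith [h3.1]
  · obtain ⟨h1, h2⟩ := hvF k (hk.trans hN12)
    have h3 := mul_le_mul_of_nonneg_right h1 hq.le
    have h4 := mul_le_mul_of_nonneg_right h2 hq.le
    have h5 : 0 ≤ t + Pool.V1E.vG y k₁ vw k * q := by linarith
    exact ⟨R.low_at hr h5 le_rfl (by linarith), R.low_at hr h5 (by linarith) (by linarith)⟩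
  · obtain ⟨j, hj, hjA, hjV⟩ := hr'
    obtain ⟨d, hd, h1⟩ := W.ratN hj e he
    refine ⟨d, hd, fun a' w' k1 k2 k3 k4 k5 => ?_⟩
    rw [hjA, hjV, one_mul, zero_mul, add_zero] at h1
    exact h1 a' w' k1 k2 k3 k4 k5

end Pool.W.PKG
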