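import Pool.Agent.H73.D2.Tnc
import Pool.Agent.H31.W.H73.D2.Tnb
import Pool.Agent.H31.W1.H80.GEN.Chn

/-!
# The target `N - P(p, u)` without the row label: the velocity and the box
-/

set_option autoImplicit false

namespace Pool.W.V1E

open Pool.V1E

open Finset Real MvPolynomial
open Pool.KA Pool.KSAT Pool.PB Pool.GEN Pool.D2R Pool.D2G30 Pool.ISO Pool.CHT Pool.CHX
open Pool.PB.Trl (rt rt_mem t_rt)

/-- **The gradient with `u` on its chart.** -/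
theorem nu_h (D r : ℕ) : ∃ C : ℝ, 1 ≤ C ∧ ∀ {m J : ℕ} {F : Pool.KA.Fam m J} {c : ℕ → Fin m}
    {n M ar MB q₀ Q x p e su : ℕ} {s : ℕ → ℕ} {qe : Fin r → ℕ} {o : ℕ → ℕ}
    {z g gc gT g₀ : ℕ → ℕ → ℕ} {B : F.Ω → Prop}
    {G T : ℕ → Pool.GEN.PtT F → ℕ → MvPolynomial (Option (Fin m)) ℝ}
    {H TH : ℕ → Pool.GEN.LnT F → ℕ → MvPolynomial (Option (Fin m)) ℝ}
    {Ht CL : Pool.GEN.LnT F → MvPolynomial (Option (Fin m)) ℝ}
    {Cp : Pool.GEN.PtT F → MvPolynomial (Option (Fin m)) ℝ},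
    Pool.W.V1E.NwDU F c r D n M ar MB q₀ Q x p e su s qe o z g gc gT g₀ B G T H TH Ht CL Cp → ∀ ω, B ω →
    ∀ V : Option (Fin m) → ℝ,
    |Pool.D2R.dd (Pool.V1E.nfw r (G 2 (Pool.PB.ptr F J ω)) (Cp (Pool.PB.ptr F J ω))) (Pool.GEN.bt F ω)
        (Pool.V1E.up (c r) V (Pool.D2R.dd (G 2 (Pool.PB.ptr F J ω) r) (Pool.GEN.bt F ω) V)) -
      Pool.D2R.dd (Pool.V1E.nW c r (G 2 (Pool.PB.ptr F J ω)) (Cp (Pool.PB.ptr F J ω))) (Pool.GEN.bt F ω) V| ≤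
      C * (2 ^ x / 2 ^ (s r + MB)) * Pool.D2R.nrm c (G 2 (Pool.PB.ptr F J ω)) (g₀ 2) (o 2) r (Pool.GEN.bt F ω) V := by
  obtain ⟨Cb, hCb, hba⟩ := Pool.D2R.box_all r D (D * (D + 1))
  refine ⟨Cb, hCb, ?_⟩
  intro m J F c n M ar MB q₀ Q x p e su s qe o z g gc gT g₀ B G T H TH Ht CL Cp W ω hω V
  obtain ⟨f, hf⟩ : ∃ f, f = Pool.V1E.nfw r (G 2 (Pool.PB.ptr F J ω)) (Cp (Pool.PB.ptr F J ω)) :=
    ⟨_, rfl⟩
  obtain ⟨κ, hκ⟩ : ∃ κ : ℝ, κ = F.x ω (c r) - eval (Pool.GEN.bt F ω) (G 2 (Pool.PB.ptr F J ω) r) := ⟨_, rfl⟩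
  obtain ⟨R, hR⟩ : ∃ R, R = Pool.V1E.sb (c r) (G 2 (Pool.PB.ptr F J ω) r + C κ) f - Pool.V1E.sb (c r) (G 2 (Pool.PB.ptr F J ω) r) f :=
    ⟨_, rfl⟩
  have hfd : Pool.GEN.DepC c (r + 1) f := by
    rw [hf]
    exact Pool.V1E.dep_nfw (W.pG 2 _) (W.pCp _)
  have hfD : f.totalDegree ≤ D := by
    rw [hf]
    exact Pool.V1E.deg_nfw (W.dG 2 _) (W.dCp _)
  have hGκd : Pool.GEN.DepC c r (G 2 (Pool.PB.ptr F J ω) r + C κ) := fun b b' h0 h1 => by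
    rw [map_add, map_add, W.pG 2 _ r b b' h0 h1, eval_C, eval_C]
  have hGκD : (G 2 (Pool.PB.ptr F J ω) r + C κ).totalDegree ≤ D :=
    (totalDegree_add _ _).trans (max_le (W.dG 2 _ r) (by rw [totalDegree_C]; exact Nat.zero_le _))
  have hκ1 : |κ| ≤ 1 / 2 ^ g₀ 2 r := by
    rw [hκ]
    exact W.ch2.pos ω hω r (by omega)
  have hRe : ∀ b, Pool.GEN.NBx c (G 2 (Pool.PB.ptr F J ω)) (g₀ 2) (o 2) (F.t ω) r b →
      |eval b R| ≤ 2 ^ x / 2 ^ (s r + MB) := by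
    intro b hb
    rw [hR, map_sub, Pool.V1E.eval_sb, Pool.V1E.eval_sb, map_add, eval_C]
    refine (Pool.V1E.mv_up (M := 2 ^ (g₀ 2 r + x) / 2 ^ (s r + MB)) (fun w hw => ?_)).trans ?_
    · rw [hf, Pool.V1E.pd_nfw]
      refine W.hC2 ω hω _ (Pool.V1E.box_up W.hc1 (W.pG 2 _) hb (Pool.V1E.uicc_le hw ?_ ?_))
      · rw [add_sub_cancel_left]
        exact hκ1
      · rw [sub_self, abs_zero]
        positivity
    · rw [add_sub_cancel_left]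
      refine (mul_le_mul_of_nonneg_left hκ1 (by positivity)).trans (le_of_eq ?_)
      rw [pow_add 2 (g₀ 2 r) x]
      field_simp
  have h1 := (hba (c := c) (ψ := G 2 (Pool.PB.ptr F J ω)) (Q := R) (g := g₀ 2) (a := o 2)
    (M := 2 ^ x / 2 ^ (s r + MB)) (x := Pool.GEN.bt F ω) W.hcr (W.dG 2 _) (W.pG 2 _) (by
      intro b b' h0 h1
      rw [hR, map_sub, map_sub, Pool.V1E.dep_sb W.hc1 hGκd hfd b b' h0 h1,
        Pool.V1E.dep_sb W.hc1 (W.pG 2 _ r) hfd b b' h0 h1]) (by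
      rw [hR]
      exact (totalDegree_sub _ _).trans (max_le (Pool.V1E.deg_sb hGκD hfD) (Pool.V1E.deg_sb (W.dG 2 _ r) hfD)))
    (by positivity) hRe (fun l hl => W.ch2.pos ω hω l (by omega))).1 V
  have e1 : Pool.D2R.dd R (Pool.GEN.bt F ω) V = Pool.D2R.dd f (Pool.GEN.bt F ω) (Pool.V1E.up (c r) V (Pool.D2R.dd (G 2 (Pool.PB.ptr F J ω) r) (Pool.GEN.bt F ω) V)) -
      Pool.D2R.dd (Pool.V1E.nW c r (G 2 (Pool.PB.ptr F J ω)) (Cp (Pool.PB.ptr F J ω))) (Pool.GEN.bt F ω) V := by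
    rw [hR, Pool.D2R.dd_sub, Pool.V1E.dd_sb, Pool.V1E.dd_padd', Pool.V1E.dd_C, add_zero, map_add, eval_C, hκ, add_sub_cancel,
      Pool.V1E.up_eq (Pool.V1E.bt_some' ω (c r)), hf]
    rfl
  rw [e1, hf] at h1
  exact h1

/-- **The velocity.** -/
theorem nu_vel (D r : ℕ) : ∃ C : ℕ, ∀ {m J : ℕ} {F : Pool.KA.Fam m J} {c : ℕ → Fin m}
    {n M ar MB q₀ Q x p e su : ℕ} {s : ℕ → ℕ} {qe : Fin r → ℕ} {o : ℕ → ℕ}
    {z g gc gT g₀ : ℕ → ℕ → ℕ} {B : F.Ω → Prop}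
    {G T : ℕ → Pool.GEN.PtT F → ℕ → MvPolynomial (Option (Fin m)) ℝ}
    {H TH : ℕ → Pool.GEN.LnT F → ℕ → MvPolynomial (Option (Fin m)) ℝ}
    {Ht CL : Pool.GEN.LnT F → MvPolynomial (Option (Fin m)) ℝ}
    {Cp : Pool.GEN.PtT F → MvPolynomial (Option (Fin m)) ℝ},
    Pool.W.V1E.NwDU F c r D n M ar MB q₀ Q x p e su s qe o z g gc gT g₀ B G T H TH Ht CL Cp → ∀ ω, B ω →
    |Pool.V1E.nwv F c r Cp ω - Pool.D2R.dd (Pool.V1E.nW c r (G 2 (Pool.PB.ptr F J ω)) (Cp (Pool.PB.ptr F J ω)))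
      (Pool.GEN.bt F ω) (Pool.GEN.bd F ω)| ≤ 2 ^ (C * (x + 1)) * 2 ^ o 2 / 2 ^ (s r + MB) := by
  obtain ⟨C₁, hC₁, hh⟩ := Pool.W.V1E.nu_h D r
  obtain ⟨C₂, hC₂⟩ := pow_unbounded_of_one_lt (C₁ * (r + 1)) (one_lt_two (α := ℝ))
  refine ⟨C₂ + 4, ?_⟩
  intro m J F c n M ar MB q₀ Q x p e su s qe o z g gc gT g₀ B G T H TH Ht CL Cp W ω hω
  obtain ⟨f, hf⟩ : ∃ f, f = Pool.V1E.nfw r (G 2 (Pool.PB.ptr F J ω)) (Cp (Pool.PB.ptr F J ω)) :=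
    ⟨_, rfl⟩
  have h1 := hh W ω hω (Pool.GEN.bd F ω)
  rw [← hf] at h1
  have hx1 : (1 : ℝ) ≤ 2 ^ x := one_le_pow₀ (by norm_num)
  have hn : Pool.D2R.nrm c (G 2 (Pool.PB.ptr F J ω)) (g₀ 2) (o 2) r (Pool.GEN.bt F ω) (Pool.GEN.bd F ω) ≤
      (r + 1) * (2 ^ x * 2 ^ o 2) := by
    refine Pool.D2R.nrm_le ?_ fun l hl => W.vel2 ω hω l (by omega)
    show |(1 : ℝ)| ≤ _
    rw [abs_one, mul_div_assoc, div_self (by positivity), mul_one]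
    exact hx1
  have h2 := Pool.V1E.dd_up f (c r) (Pool.GEN.bt F ω) (Pool.GEN.bd F ω) (Pool.D2R.dd (G 2 (Pool.PB.ptr F J ω) r) (Pool.GEN.bt F ω) (Pool.GEN.bd F ω))
  have h3 := W.hC2 ω hω (Pool.GEN.bt F ω) (Pool.W.V1E.bt_box W.ch2 (by omega) hω _)
  rw [← Pool.V1E.pd_nfw, ← hf] at h3
  have e1 : Pool.V1E.nwv F c r Cp ω - Pool.D2R.dd (Pool.V1E.nW c r (G 2 (Pool.PB.ptr F J ω)) (Cp (Pool.PB.ptr F J ω))) (Pool.GEN.bt F ω) (Pool.GEN.bd F ω) =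
      (Pool.GEN.bd F ω (some (c (r + 1))) - Pool.D2R.dd (G 2 (Pool.PB.ptr F J ω) (r + 1)) (Pool.GEN.bt F ω) (Pool.GEN.bd F ω)) +
      (Pool.D2R.dd f (Pool.GEN.bt F ω) (Pool.GEN.bd F ω) - Pool.D2R.dd f (Pool.GEN.bt F ω) (Pool.V1E.up (c r) (Pool.GEN.bd F ω)
        (Pool.D2R.dd (G 2 (Pool.PB.ptr F J ω) r) (Pool.GEN.bt F ω) (Pool.GEN.bd F ω)))) +
      (Pool.D2R.dd f (Pool.GEN.bt F ω) (Pool.V1E.up (c r) (Pool.GEN.bd F ω) (Pool.D2R.dd (G 2 (Pool.PB.ptr F J ω) r) (Pool.GEN.bt F ω) (Pool.GEN.bd F ω))) -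
        Pool.D2R.dd (Pool.V1E.nW c r (G 2 (Pool.PB.ptr F J ω)) (Cp (Pool.PB.ptr F J ω))) (Pool.GEN.bt F ω)
          (Pool.GEN.bd F ω)) := by
    have e2 : Pool.D2R.dd f (Pool.GEN.bt F ω) (Pool.GEN.bd F ω) = Pool.D2R.dd (G 2 (Pool.PB.ptr F J ω) (r + 1)) (Pool.GEN.bt F ω) (Pool.GEN.bd F ω) -
        Pool.D2R.dd (Cp (Pool.PB.ptr F J ω)) (Pool.GEN.bt F ω) (Pool.GEN.bd F ω) := by
      rw [hf, Pool.V1E.dd_nfw]
    rw [e2]
    unfold Pool.V1E.nwv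
    ring
  rw [e1, h2]
  obtain ⟨ι, hι⟩ : ∃ ι : ℝ, ι = 2 ^ o 2 / 2 ^ (s r + MB) := ⟨_, rfl⟩
  have hι0 : 0 < ι := by rw [hι]; positivity
  have f1 : |Pool.GEN.bd F ω (some (c (r + 1))) - Pool.D2R.dd (G 2 (Pool.PB.ptr F J ω) (r + 1)) (Pool.GEN.bt F ω) (Pool.GEN.bd F ω)| ≤
      2 ^ (x + x) * ι := by
    refine (W.vel2 ω hω (r + 1) le_rfl).trans ?_
    have h4 : (2 : ℝ) ^ x / 2 ^ g₀ 2 (r + 1) ≤ 2 ^ (x + x) / 2 ^ (s r + MB) :=
      Pool.V1E.p2_le' (by have := W.m2; omega)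
    calc 2 ^ x * 2 ^ o 2 / 2 ^ g₀ 2 (r + 1) = 2 ^ x / 2 ^ g₀ 2 (r + 1) * 2 ^ o 2 := by ring
      _ ≤ 2 ^ (x + x) / 2 ^ (s r + MB) * 2 ^ o 2 :=
          mul_le_mul_of_nonneg_right h4 (by positivity)
      _ = _ := by rw [hι]; ring
  have f2 : |eval (Pool.GEN.bt F ω) (pderiv (some (c r)) f) * (Pool.GEN.bd F ω (some (c r)) -
      Pool.D2R.dd (G 2 (Pool.PB.ptr F J ω) r) (Pool.GEN.bt F ω) (Pool.GEN.bd F ω))| ≤ 2 ^ (x + x) * ι := by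
    rw [abs_mul]
    refine (mul_le_mul h3 (W.vel2 ω hω r (Nat.le_succ r)) (abs_nonneg _)
      (by positivity)).trans (le_of_eq ?_)
    rw [hι, pow_add 2 (g₀ 2 r) x, pow_add 2 x x]
    field_simp
  have f3 : |Pool.D2R.dd f (Pool.GEN.bt F ω) (Pool.V1E.up (c r) (Pool.GEN.bd F ω) (Pool.D2R.dd (G 2 (Pool.PB.ptr F J ω) r) (Pool.GEN.bt F ω) (Pool.GEN.bd F ω))) -
        Pool.D2R.dd (Pool.V1E.nW c r (G 2 (Pool.PB.ptr F J ω)) (Cp (Pool.PB.ptr F J ω))) (Pool.GEN.bt F ω)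
          (Pool.GEN.bd F ω)| ≤ 2 ^ (C₂ + x + x) * ι := by
    refine h1.trans ((mul_le_mul_of_nonneg_left hn (by positivity)).trans ?_)
    calc C₁ * (2 ^ x / 2 ^ (s r + MB)) * ((r + 1) * (2 ^ x * 2 ^ o 2)) =
        C₁ * (r + 1) * (2 ^ x * 2 ^ x * ι) := by
          rw [hι]
          ring
      _ ≤ 2 ^ C₂ * (2 ^ x * 2 ^ x * ι) := mul_le_mul_of_nonneg_right hC₂.le (by positivity)
      _ = _ := by
          simp only [pow_add]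
          ring
  refine (abs_add_le _ _).trans ((add_le_add ((abs_add_le _ _).trans (add_le_add f1 f2)) f3).trans
    ?_)
  have h5 : (2 : ℝ) ^ (x + x) ≤ 2 ^ (C₂ + x + x) := pow_le_pow_right₀ (by norm_num) (by omega)
  have h6 : (2 : ℝ) ^ (x + x) * ι ≤ 2 ^ (C₂ + x + x) * ι := mul_le_mul_of_nonneg_right h5 hι0.le
  have h7 : (2 : ℝ) ^ (C₂ + x + x) * 4 ≤ 2 ^ ((C₂ + 4) * (x + 1)) := by
    rw [show (4 : ℝ) = 2 ^ 2 by norm_num, ← pow_add]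
    exact pow_le_pow_right₀ (by norm_num) (by nlinarith)
  have h8 := mul_le_mul_of_nonneg_right h7 hι0.le
  have e3 : (2 : ℝ) ^ ((C₂ + 4) * (x + 1)) * 2 ^ o 2 / 2 ^ (s r + MB) =
      2 ^ ((C₂ + 4) * (x + 1)) * ι := by rw [hι]; ring
  rw [e3]
  have h9 : 0 ≤ (2 : ℝ) ^ (C₂ + x + x) * ι := by positivity
  linarith

/-- **The box.** -/
theorem nu_box (D r : ℕ) : ∃ C : ℕ, ∀ {m J : ℕ} {F : Pool.KA.Fam m J} {c : ℕ → Fin m}
    {n M ar MB q₀ Q x p e su : ℕ} {s : ℕ → ℕ} {qe : Fin r → ℕ} {o : ℕ → ℕ}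
    {z g gc gT g₀ : ℕ → ℕ → ℕ} {B : F.Ω → Prop}
    {G T : ℕ → Pool.GEN.PtT F → ℕ → MvPolynomial (Option (Fin m)) ℝ}
    {H TH : ℕ → Pool.GEN.LnT F → ℕ → MvPolynomial (Option (Fin m)) ℝ}
    {Ht CL : Pool.GEN.LnT F → MvPolynomial (Option (Fin m)) ℝ}
    {Cp : Pool.GEN.PtT F → MvPolynomial (Option (Fin m)) ℝ},
    Pool.W.V1E.NwDU F c r D n M ar MB q₀ Q x p e su s qe o z g gc gT g₀ B G T H TH Ht CL Cp → ∀ ω, B ω →
    ∃ κ : ℝ, |κ| ≤ 2 ^ (C * (x + 1)) / 2 ^ s r ∧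
    ∀ b, Pool.GEN.NBx c (G 2 (Pool.PB.ptr F J ω)) (g₀ 2) (o 2) (F.t ω) r b →
      |eval b (Pool.V1E.nW c r (G 1 (Pool.PB.ptr F J ω)) (Cp (Pool.PB.ptr F J ω))) + κ -
        eval b (Pool.V1E.nW c r (G 2 (Pool.PB.ptr F J ω)) (Cp (Pool.PB.ptr F J ω)))| ≤
        2 ^ (C * (x + 1)) / 2 ^ (s r + Q) := by
  obtain ⟨C₁, hd1⟩ := Pool.W.V1E.nu_d1 D r
  obtain ⟨C₂, hsb⟩ := Pool.V1E.sub_box D (D * (D + 1)) r
  refine ⟨6 * C₁ + 4 * C₂ + 12, ?_⟩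
  intro m J F c n M ar MB q₀ Q x p e su s qe o z g gc gT g₀ B G T H TH Ht CL Cp W ω hω
  have hn3 := W.n3
  have ho1 := W.o1
  have ho2 := W.o2
  obtain ⟨q12, hq12, hz12⟩ := W.z12
  have e21 : o 2 - o 1 = Q := by omega
  obtain ⟨f, hf⟩ : ∃ f, f = Pool.V1E.nfw r (G 1 (Pool.PB.ptr F J ω)) (Cp (Pool.PB.ptr F J ω)) :=
    ⟨_, rfl⟩
  obtain ⟨κu, hκu⟩ : ∃ κ : ℝ, κ = F.x ω (c r) - eval (Pool.GEN.bt F ω) (G 1 (Pool.PB.ptr F J ω) r) := ⟨_, rfl⟩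
  obtain ⟨κN, hκN⟩ : ∃ κ : ℝ, κ = F.x ω (c (r + 1)) -
    eval (Pool.GEN.bt F ω) (G 1 (Pool.PB.ptr F J ω) (r + 1)) := ⟨_, rfl⟩
  obtain ⟨E, hE⟩ : ∃ E, E = Pool.V1E.sb (c r) (G 1 (Pool.PB.ptr F J ω) r + C κu) f -
    Pool.V1E.sb (c r) (G 1 (Pool.PB.ptr F J ω) r) f := ⟨_, rfl⟩
  have hfd : Pool.GEN.DepC c (r + 1) f := by
    rw [hf]
    exact Pool.V1E.dep_nfw (W.pG 1 _) (W.pCp _)
  have hfD : f.totalDegree ≤ D := by
    rw [hf]
    exact Pool.V1E.deg_nfw (W.dG 1 _) (W.dCp _)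
  have hGκd : Pool.GEN.DepC c r (G 1 (Pool.PB.ptr F J ω) r + C κu) := fun b b' h0 h1 => by
    rw [map_add, map_add, W.pG 1 _ r b b' h0 h1, eval_C, eval_C]
  have hGκD : (G 1 (Pool.PB.ptr F J ω) r + C κu).totalDegree ≤ D :=
    (totalDegree_add _ _).trans (max_le (W.dG 1 _ r) (by rw [totalDegree_C]; exact Nat.zero_le _))
  have hκu1 : |κu| ≤ 1 / 2 ^ g₀ 1 r := by
    rw [hκu]
    exact W.ch1.pos ω hω r (by omega)
  have hκN1 : |κN| ≤ 1 / 2 ^ g₀ 1 (r + 1) := by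
    rw [hκN]
    exact W.ch1.pos ω hω (r + 1) (by omega)
  have hEe : ∀ b, eval b E = eval (Pool.V1E.up (c r) b (eval b (G 1 (Pool.PB.ptr F J ω) r) + κu)) f -
      eval (Pool.V1E.up (c r) b (eval b (G 1 (Pool.PB.ptr F J ω) r))) f := fun b => by
    rw [hE, map_sub, Pool.V1E.eval_sb, Pool.V1E.eval_sb, map_add, eval_C]
  have hus : (2 : ℝ) ^ (su + x) / 2 ^ s r * (1 / 2 ^ g₀ 1 r) ≤ 2 ^ (x + x) / 2 ^ s r := by
    have h8 : (2 : ℝ) ^ (su + x) / 2 ^ g₀ 1 r ≤ 2 ^ (x + x) := Pool.V1E.p2_div (by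
      have := W.u1'
      omega)
    calc (2 : ℝ) ^ (su + x) / 2 ^ s r * (1 / 2 ^ g₀ 1 r) =
        2 ^ (su + x) / 2 ^ g₀ 1 r / 2 ^ s r := by ring
      _ ≤ _ := div_le_div_of_nonneg_right h8 (by positivity)
  have hEb : ∀ b, Pool.GEN.NBx c (G 1 (Pool.PB.ptr F J ω)) (g₀ 1) (o 1) (F.t ω) r b →
      |eval b E| ≤ 2 ^ (x + x) / 2 ^ s r := by
    intro b hb
    rw [hEe]
    refine (Pool.V1E.mv_up (M := 2 ^ (su + x) / 2 ^ s r) (fun w hw => ?_)).trans ?_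
    · rw [hf, Pool.V1E.pd_nfw]
      refine W.hC1 ω hω _ (Pool.V1E.box_up W.hc1 (W.pG 1 _) hb (Pool.V1E.uicc_le hw ?_ ?_))
      · rw [add_sub_cancel_left]
        exact hκu1
      · rw [sub_self, abs_zero]
        positivity
    · rw [add_sub_cancel_left]
      exact (mul_le_mul_of_nonneg_left hκu1 (by positivity)).trans hus
  have hEd : Pool.GEN.DepC c r E := fun b b' h0 h1 => by
    rw [hE, map_sub, map_sub, Pool.V1E.dep_sb W.hc1 hGκd hfd b b' h0 h1,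
      Pool.V1E.dep_sb W.hc1 (W.pG 1 _ r) hfd b b' h0 h1]
  have hED : E.totalDegree ≤ D * (D + 1) := by
    rw [hE]
    exact (totalDegree_sub _ _).trans (max_le (Pool.V1E.deg_sb hGκD hfD) (Pool.V1E.deg_sb (W.dG 1 _ r) hfD))
  obtain ⟨Y, hY⟩ : ∃ Y : ℝ, Y = 2 ^ ((6 * C₁ + 4 * C₂ + 12) * (x + 1)) := ⟨_, rfl⟩
  rw [← hY]
  have hYk : ∀ {k : ℕ}, k ≤ (6 * C₁ + 4 * C₂ + 12) * (x + 1) → (2 : ℝ) ^ k ≤ Y := by
    intro k hk
    rw [hY]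
    exact pow_le_pow_right₀ (by norm_num) hk
  refine ⟨κN + eval (Pool.GEN.bt F ω) E, ?_, ?_⟩
  · -- the constant
    have h1 := hEb (Pool.GEN.bt F ω) (Pool.W.V1E.bt_box W.ch1 (by omega) hω _)
    have h2 : (1 : ℝ) / 2 ^ g₀ 1 (r + 1) ≤ 2 ^ x / 2 ^ s r := Pool.V1E.p2_le W.m1'
    refine (abs_add_le _ _).trans ((add_le_add (hκN1.trans h2) h1).trans ?_)
    rw [← add_div]
    refine div_le_div_of_nonneg_right ?_ (by positivity)
    have h3 : (2 : ℝ) ^ x ≤ 2 ^ (x + x) := pow_le_pow_right₀ (by norm_num) (by omega)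
    have h4 := hYk (k := x + x + 1) (by nlinarith)
    rw [pow_succ] at h4
    linarith
  · intro b hb
    obtain ⟨v, hv⟩ : ∃ v, v = eval b (G 2 (Pool.PB.ptr F J ω) r) := ⟨_, rfl⟩
    -- the heights over the first window
    have hsh : ∀ l < r, |eval b (G 1 (Pool.PB.ptr F J ω) l) + (F.x ω (c l) -
        eval (Pool.GEN.bt F ω) (G 1 (Pool.PB.ptr F J ω) l)) - eval b (G 2 (Pool.PB.ptr F J ω) l)| ≤
        2 ^ (3 * x + 2) / 2 ^ (g₀ 1 l + Q) := by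
      intro l hl
      have h1 := Pool.W.V1E.shf_b W.bal (show 1 ≤ n by omega) (show 2 ≤ n by omega) hq12 (by omega) hz12
        W.ch2 hω (show l ≤ r + 1 by omega) (hb.mono le_rfl hl.le)
      rw [e21] at h1
      refine h1.trans (Pool.V1E.p2_le' ?_)
      have := W.n1d l hl
      have := W.n1f l hl
      have := W.n2b l hl
      rcases le_total (g 1 l + Q) (g₀ 2 l) with h | h
      · rw [min_eq_left h]
        omega
      · rw [min_eq_right h]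
        omega
    have hg2 : ∀ l < r, (1 : ℝ) / 2 ^ g₀ 2 l ≤ 2 ^ (2 * x) / 2 ^ (g₀ 1 l + Q) := fun l hl =>
      Pool.V1E.p2_le (by
        have := W.n1d l hl
        have := W.n2b l hl
        omega)
    have hht : ∀ l < r, |(b (some (c l)) - eval b (G 1 (Pool.PB.ptr F J ω) l)) -
        (Pool.GEN.bt F ω (some (c l)) - eval (Pool.GEN.bt F ω) (G 1 (Pool.PB.ptr F J ω) l))| ≤
        2 ^ (3 * x + 3) / 2 ^ (g₀ 1 l + Q) := by
      intro l hl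
      have h1 := hsh l hl
      have h2 := (hb.2 l hl).trans (hg2 l hl)
      have e1 : (b (some (c l)) - eval b (G 1 (Pool.PB.ptr F J ω) l)) -
          (Pool.GEN.bt F ω (some (c l)) - eval (Pool.GEN.bt F ω) (G 1 (Pool.PB.ptr F J ω) l)) =
          (b (some (c l)) - eval b (G 2 (Pool.PB.ptr F J ω) l)) - (eval b (G 1 (Pool.PB.ptr F J ω) l) +
            (F.x ω (c l) - eval (Pool.GEN.bt F ω) (G 1 (Pool.PB.ptr F J ω) l)) -
            eval b (G 2 (Pool.PB.ptr F J ω) l)) := by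
        rw [Pool.V1E.bt_some']
        ring
      rw [e1]
      refine (abs_sub _ _).trans ((add_le_add h2 h1).trans ?_)
      rw [← add_div]
      refine div_le_div_of_nonneg_right ?_ (by positivity)
      have h3 : (2 : ℝ) ^ (2 * x) ≤ 2 ^ (3 * x + 2) := pow_le_pow_right₀ (by norm_num) (by omega)
      calc (2 : ℝ) ^ (2 * x) + 2 ^ (3 * x + 2) ≤ 2 ^ (3 * x + 2) * 2 := by linarith
        _ = _ := by rw [← pow_succ]
    have htime : |b none - F.t ω| ≤ 1 / 2 ^ (o 1 + Q) := by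
      rw [← ho2]
      exact hb.1
    -- the oscillation
    have hosc := hsb (c := c) (a := o 1) (Q := Q) (x := 3 * x + 3) (t := F.t ω)
      (M := 2 ^ (x + x) / 2 ^ s r) (G := G 1 (Pool.PB.ptr F J ω)) (g := g₀ 1) (R := E) (b₀ := Pool.GEN.bt F ω)
      (b := b) W.hcr (W.dG 1 _) (W.pG 1 _) hEd hED (by positivity) hEb rfl (fun l hl =>
        (W.ch1.pos ω hω l (by omega)).trans (div_le_div_of_nonneg_right
          (one_le_pow₀ (by norm_num)) (by positivity))) htime hht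
    -- the chart of `u`
    have hu := Pool.W.V1E.shf_b W.bal (show 1 ≤ n by omega) (show 2 ≤ n by omega) hq12 (by omega) hz12
      W.ch2 hω (show r ≤ r + 1 by omega) hb
    rw [← hv, ← hκu, e21] at hu
    have hu1 : |eval b (G 1 (Pool.PB.ptr F J ω) r) + κu - v| ≤ 2 ^ (2 * x + 2) / 2 ^ (su + Q) := by
      refine hu.trans (Pool.V1E.p2_le' ?_)
      have := W.u1
      have := W.u2
      rcases le_total (g 1 r + Q) (g₀ 2 r) with h | h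
      · rw [min_eq_left h]
        omega
      · rw [min_eq_right h]
        omega
    have hu2 : |v - eval b (G 1 (Pool.PB.ptr F J ω) r)| ≤ 2 ^ (3 * x + 4) / 2 ^ g₀ 1 r := by
      have h1 : |eval b (G 1 (Pool.PB.ptr F J ω) r) + κu - v| ≤ 2 ^ (3 * x + 3) / 2 ^ g₀ 1 r :=
        hu1.trans (Pool.V1E.p2_le' (by have := W.u0; omega))
      have h2 : |κu| ≤ 2 ^ (3 * x + 3) / 2 ^ g₀ 1 r := hκu1.trans
        (div_le_div_of_nonneg_right (one_le_pow₀ (by norm_num)) (by positivity))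
      have e1 : v - eval b (G 1 (Pool.PB.ptr F J ω) r) =
          κu - (eval b (G 1 (Pool.PB.ptr F J ω) r) + κu - v) := by ring
      rw [e1]
      refine (abs_sub _ _).trans ((add_le_add h2 h1).trans (le_of_eq ?_))
      rw [pow_succ 2 (3 * x + 3)]
      ring
    have hne : ∀ l < r, c l ≠ c r := fun l hl he => by
      have := W.hc1 (Set.mem_Iio.2 (show l < r + 1 by omega))
        (Set.mem_Iio.2 (Nat.lt_succ_self r)) he
      omega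
    have hpos : ∀ l < r, |b (some (c l)) - eval b (G 1 (Pool.PB.ptr F J ω) l)| ≤
        2 ^ (3 * x + 4) / 2 ^ g₀ 1 l := by
      intro l hl
      have h1 := hht l hl
      have h2 := W.ch1.pos ω hω l (by omega)
      have h3 : (2 : ℝ) ^ (3 * x + 3) / 2 ^ (g₀ 1 l + Q) ≤ 2 ^ (3 * x + 3) / 2 ^ g₀ 1 l :=
        Pool.V1E.p2_le' (by omega)
      have h4 : (1 : ℝ) / 2 ^ g₀ 1 l ≤ 2 ^ (3 * x + 3) / 2 ^ g₀ 1 l :=
        div_le_div_of_nonneg_right (one_le_pow₀ (by norm_num)) (by positivity)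
      have e1 : b (some (c l)) - eval b (G 1 (Pool.PB.ptr F J ω) l) =
          ((b (some (c l)) - eval b (G 1 (Pool.PB.ptr F J ω) l)) -
          (Pool.GEN.bt F ω (some (c l)) - eval (Pool.GEN.bt F ω) (G 1 (Pool.PB.ptr F J ω) l))) +
          (F.x ω (c l) - eval (Pool.GEN.bt F ω) (G 1 (Pool.PB.ptr F J ω) l)) := by
        rw [Pool.V1E.bt_some']
        ring
      rw [e1]
      refine (abs_add_le _ _).trans ((add_le_add (h1.trans h3) (h2.trans h4)).trans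
        (le_of_eq ?_))
      rw [pow_succ 2 (3 * x + 3)]
      ring
    have htime1 : |b none - F.t ω| ≤ 1 / 2 ^ o 1 := htime.trans
      (one_div_le_one_div_of_le (by positivity) (pow_le_pow_right₀ (by norm_num) (by omega)))
    have hd2 : |eval (Pool.V1E.up (c r) b (eval b (G 1 (Pool.PB.ptr F J ω) r) + κu)) f -
        eval (Pool.V1E.up (c r) b v) f| ≤ 2 ^ (C₁ * (3 * x + 4 + 1)) * (2 ^ (su + x) / 2 ^ s r) *
          (2 ^ (2 * x + 2) / 2 ^ (su + Q)) := by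
      refine (Pool.V1E.mv_up (M := 2 ^ (C₁ * (3 * x + 4 + 1)) * (2 ^ (su + x) / 2 ^ s r))
        (fun w hw => ?_)).trans (mul_le_mul_of_nonneg_left hu1 (by positivity))
      rw [hf]
      refine hd1 W ω hω (3 * x + 4) _ (by rw [Pool.V1E.up_none]; exact htime1) fun l hl => ?_
      rw [Pool.V1E.hC1e W.hc1 (W.pG 1 _) hl]
      rcases Nat.lt_or_ge l r with h | h
      · rw [Pool.V1E.up_ne (hne l h)]
        exact hpos l h
      · have : l = r := by omega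
        subst this
        rw [Pool.V1E.up_self]
        refine Pool.V1E.uicc_le hw ?_ hu2
        rw [add_sub_cancel_left]
        exact hκu1.trans (div_le_div_of_nonneg_right (one_le_pow₀ (by norm_num)) (by positivity))
    -- the charts of `N`
    have hN := Pool.W.V1E.shf_b W.bal (show 1 ≤ n by omega) (show 2 ≤ n by omega) hq12 (by omega) hz12
      W.ch2 hω (le_refl (r + 1)) (Pool.V1E.box_up (v := v) W.hc1 (W.pG 2 _) hb (by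
        rw [hv, sub_self, abs_zero]
        positivity))
    rw [← hκN, e21] at hN
    have hN1 : (2 : ℝ) ^ (x + 2) / 2 ^ min (g 1 (r + 1) + Q) (g₀ 2 (r + 1)) ≤
        2 ^ (2 * x + 2) / 2 ^ (s r + Q) := by
      refine Pool.V1E.p2_le' ?_
      have := W.m1
      have := W.m2
      have := W.QM
      rcases le_total (g 1 (r + 1) + Q) (g₀ 2 (r + 1)) with h | h
      · rw [min_eq_left h]
        omega
      · rw [min_eq_right h]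
        omega
    have e1 : eval b (Pool.V1E.nW c r (G 1 (Pool.PB.ptr F J ω)) (Cp (Pool.PB.ptr F J ω))) + (κN + eval (Pool.GEN.bt F ω) E) -
        eval b (Pool.V1E.nW c r (G 2 (Pool.PB.ptr F J ω)) (Cp (Pool.PB.ptr F J ω))) =
        -(eval b E - eval (Pool.GEN.bt F ω) E) + (eval (Pool.V1E.up (c r) b (eval b (G 1 (Pool.PB.ptr F J ω) r) + κu)) f -
          eval (Pool.V1E.up (c r) b v) f) + (eval (Pool.V1E.up (c r) b v) (G 1 (Pool.PB.ptr F J ω) (r + 1)) + κN -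
          eval (Pool.V1E.up (c r) b v) (G 2 (Pool.PB.ptr F J ω) (r + 1))) := by
      have k1 : eval (Pool.V1E.up (c r) b v) f = eval (Pool.V1E.up (c r) b v) (G 1 (Pool.PB.ptr F J ω) (r + 1)) -
          eval (Pool.V1E.up (c r) b v) (Cp (Pool.PB.ptr F J ω)) := by
        rw [hf, Pool.V1E.eval_nfw]
      rw [Pool.V1E.eval_nW, Pool.V1E.eval_nW, ← hv, ← hf, Pool.V1E.eval_nfw, hEe b, k1]
      ring
    rw [e1]
    rw [← abs_neg] at hosc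
    refine (abs_add_le _ _).trans ((add_le_add ((abs_add_le _ _).trans (add_le_add hosc hd2))
      (hN.trans hN1)).trans ?_)
    obtain ⟨ι, hι⟩ : ∃ ι : ℝ, ι = 1 / 2 ^ (s r + Q) := ⟨_, rfl⟩
    have hι0 : 0 < ι := by rw [hι]; positivity
    have g1 : 2 ^ (C₂ * (3 * x + 3 + 1)) * (2 ^ (x + x) / 2 ^ s r) / 2 ^ Q =
        2 ^ (C₂ * (3 * x + 4) + (x + x)) * ι := by
      rw [hι, pow_add 2 (s r) Q, pow_add 2 (C₂ * (3 * x + 4)) (x + x)]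
      field_simp
    have g2 : 2 ^ (C₁ * (3 * x + 4 + 1)) * (2 ^ (su + x) / 2 ^ s r) *
          (2 ^ (2 * x + 2) / 2 ^ (su + Q)) = 2 ^ (C₁ * (3 * x + 5) + (3 * x + 2)) * ι := by
      rw [hι, pow_add 2 (s r) Q, pow_add 2 su Q, pow_add 2 su x,
        pow_add 2 (C₁ * (3 * x + 5)) (3 * x + 2), show 3 * x + 2 = x + (2 * x + 2) by ring,
        pow_add 2 x (2 * x + 2)]
      field_simp
    have g3 : (2 : ℝ) ^ (2 * x + 2) / 2 ^ (s r + Q) = 2 ^ (2 * x + 2) * ι := by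
      rw [hι]
      ring
    have g4 : Y / 2 ^ (s r + Q) = Y * ι := by rw [hι]; ring
    rw [g1, g2, g3, g4, ← add_mul, ← add_mul]
    refine mul_le_mul_of_nonneg_right ?_ hι0.le
    obtain ⟨K, hK⟩ : ∃ K, K = C₁ * (3 * x + 5) + C₂ * (3 * x + 4) + 3 * x + 2 := ⟨_, rfl⟩
    have a1 : (2 : ℝ) ^ (C₂ * (3 * x + 4) + (x + x)) ≤ 2 ^ K :=
      pow_le_pow_right₀ (by norm_num) (by rw [hK]; omega)
    have a2 : (2 : ℝ) ^ (C₁ * (3 * x + 5) + (3 * x + 2)) ≤ 2 ^ K :=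
      pow_le_pow_right₀ (by norm_num) (by rw [hK]; omega)
    have a3 : (2 : ℝ) ^ (2 * x + 2) ≤ 2 ^ K :=
      pow_le_pow_right₀ (by norm_num) (by rw [hK]; omega)
    have a4 : (2 : ℝ) ^ (K + 2) ≤ Y := hYk (by
      rw [hK]
      have t1 : C₁ * (3 * x + 5) ≤ 4 * C₁ * (x + 1) + C₁ * 2 := by nlinarith
      have t2 : C₂ * (3 * x + 4) ≤ 4 * C₂ * (x + 1) := by nlinarith
      nlinarith)
    rw [pow_add] at a4
    have a5 : (0 : ℝ) < 2 ^ K := by positivity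
    linarith

end Pool.W.V1E
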