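import Pool.Agent.H73.D2.Tnd
import Pool.Agent.H31.W.H73.D2.Tnc

/-!
# The target `N - P(p, u)` without the row label: `TgD` and the deterministic part of `TL`

`ClU`: a closed gradient of the target (any construction). `nu_tgd`, `nu_tld`: `TgD` and `TLd` with it.
-/

set_option autoImplicit false

namespace Pool.W.V1E

open Pool.V1E

open Finset Real MvPolynomial
open Pool.KA Pool.KSAT Pool.PB Pool.GEN Pool.D2R Pool.D2G30 Pool.ISO Pool.CHT Pool.CHX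
open Pool.PB.Trl (rt rt_mem t_rt)
open Pool.K2S (Sub)


/-- **The target `N - P(p, u)`.** -/
theorem nu_tgd (D r CT : ℕ) : ∃ C : ℕ, ∀ {m J : ℕ} {F : Pool.KA.Fam m J} {c : ℕ → Fin m}
    {n M ar MB q₀ Q x p e su : ℕ} {s : ℕ → ℕ} {qe : Fin r → ℕ} {o : ℕ → ℕ}
    {z g gc gT g₀ : ℕ → ℕ → ℕ} {B : F.Ω → Prop}
    {G T : ℕ → Pool.GEN.PtT F → ℕ → MvPolynomial (Option (Fin m)) ℝ}
    {H TH : ℕ → Pool.GEN.LnT F → ℕ → MvPolynomial (Option (Fin m)) ℝ}
    {Ht CL : Pool.GEN.LnT F → MvPolynomial (Option (Fin m)) ℝ}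
    {Cp : Pool.GEN.PtT F → MvPolynomial (Option (Fin m)) ℝ},
    Pool.W.V1E.NwDU F c r D n M ar MB q₀ Q x p e su s qe o z g gc gT g₀ B G T H TH Ht CL Cp →
    Pool.V1E.ClU F c s r D CT MB Q x o B G Cp → ∃ Θ : Pool.GEN.LnT F → Fin r → Polynomial ℝ,
    Pool.V1E.TgD F c r ((D + 1) * (D + 1)) ((D + 1) ^ (r + 4)) MB Q (C * (x + 1)) s o (g₀ 2) B (G 0) (G 2)
      (Pool.V1E.nwy F c r Cp) (Pool.V1E.nwv F c r Cp) (Pool.V1E.nwp F c r (o 1) CL)
      (fun y => Pool.V1E.nW c r (G 1 y) (Cp y)) (fun y => Pool.V1E.nW c r (G 2 y) (Cp y))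
      (fun L => Pool.V1E.nW c r (H 1 L) (CL L)) Θ := by
  obtain ⟨C₁, hown⟩ := Pool.W.V1E.nu_own D r
  obtain ⟨C₂, hvel⟩ := Pool.W.V1E.nu_vel D r
  obtain ⟨C₃, hbox⟩ := Pool.W.V1E.nu_box D r
  refine ⟨C₁ + C₂ + C₃ + CT + 1, ?_⟩
  intro m J F c n M ar MB q₀ Q x p e su s qe o z g gc gT g₀ B G T H TH Ht CL Cp W WT
  obtain ⟨Θ, hΘ1, hΘ2⟩ := WT
  refine ⟨Θ, ?_⟩
  obtain ⟨N, hN⟩ : ∃ N, N = (C₁ + C₂ + C₃ + CT + 1) * (x + 1) := ⟨_, rfl⟩
  rw [← hN]
  have hpw : ∀ {a : ℕ}, a ≤ N → (2 : ℝ) ^ a ≤ 2 ^ N := fun h =>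
    pow_le_pow_right₀ (by norm_num) h
  have hC : ∀ {k : ℕ}, k ≤ C₁ + C₂ + C₃ + CT + 1 → k * (x + 1) ≤ N := fun h => by
    rw [hN]
    exact Nat.mul_le_mul_right _ h
  exact
    { dnp := by
        intro L
        unfold Pool.V1E.nwp
        have h1 : (MvPolynomial.aeval (Pool.GEN.lc (o 1) L) (CL L)).natDegree ≤ D := by
          have := Pool.V1E.natDegree_aev (K := 1) (D := D) (CL L) (Pool.GEN.lc (o 1) L) (Pool.GEN.natDegree_lc _ _) (W.dCL L)
          rwa [mul_one] at this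
        have h4 : D + 1 ≤ (D + 1) ^ (r + 4) := by
          calc D + 1 = (D + 1) ^ 1 := (pow_one _).symm
            _ ≤ _ := Nat.pow_le_pow_right (by omega) (by omega)
        refine (Polynomial.natDegree_sub_le _ _).trans (max_le ((Pool.GEN.natDegree_lc _ _ _).trans ?_)
          (h1.trans ?_)) <;> omega
      vnp := fun ω hω => W.val hω
      wnp := fun ω hω => W.der hω
      dA1 := fun y => Pool.V1E.deg_nW (W.dG 1 y) (W.dCp y)
      pA1 := fun y => Pool.V1E.dep_nW W.hc1 (W.pG 1 y) (W.pCp y)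
      dA2 := fun y => Pool.V1E.deg_nW (W.dG 2 y) (W.dCp y)
      pA2 := fun y => Pool.V1E.dep_nW W.hc1 (W.pG 2 y) (W.pCp y)
      dR1 := fun L => Pool.V1E.deg_nW (W.dH 1 L) (W.dCL L)
      cl1 := fun ω hω => W.clA hω
      box1 := fun ω hω => by
        obtain ⟨κ, h1, h2⟩ := hbox W ω hω
        refine ⟨κ, h1.trans (div_le_div_of_nonneg_right (hpw (hC (by omega))) (by positivity)),
          fun b hb => (h2 b hb).trans (div_le_div_of_nonneg_right (hpw (hC (by omega)))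
            (by positivity))⟩
      own1 := fun ω hω τ hτ => (hown W ω hω τ hτ).trans
        (div_le_div_of_nonneg_right (hpw (hC (by omega))) (by positivity))
      pos2 := fun ω hω => (W.pos hω).trans (div_le_div_of_nonneg_right (hpw (by
        rw [hN]
        nlinarith)) (by positivity))
      vel2 := fun ω hω => (hvel W ω hω).trans (div_le_div_of_nonneg_right
        (mul_le_mul_of_nonneg_right (hpw (hC (by omega))) (by positivity)) (by positivity))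
      dT := hΘ1
      clo := fun ω hω i => (hΘ2 ω hω i).trans
        (div_le_div_of_nonneg_right (hpw (hC (by omega))) (by positivity)) }

/-- **The deterministic part of `TL` for the target `N - P(p, u)`.** -/
theorem nu_tld (D r CT K : ℕ) (hK : 1 ≤ K)
    (hK' : (D + 1) * (D + 1) * ((D + 1) * (D + 1) + 1) ^ r ≤ K) : ∃ C : ℕ,
    ∀ {m J : ℕ} {F : Pool.KA.Fam m J} {c : ℕ → Fin m}
    {n M ar MB q₀ Q x p e su : ℕ} {s : ℕ → ℕ} {qe : Fin r → ℕ} {o : ℕ → ℕ}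
    {z g gc gT g₀ : ℕ → ℕ → ℕ} {B : F.Ω → Prop}
    {G T : ℕ → Pool.GEN.PtT F → ℕ → MvPolynomial (Option (Fin m)) ℝ}
    {H TH : ℕ → Pool.GEN.LnT F → ℕ → MvPolynomial (Option (Fin m)) ℝ}
    {Ht CL : Pool.GEN.LnT F → MvPolynomial (Option (Fin m)) ℝ}
    {Cp : Pool.GEN.PtT F → MvPolynomial (Option (Fin m)) ℝ},
    Pool.W.V1E.NwDU F c r D n M ar MB q₀ Q x p e su s qe o z g gc gT g₀ B G T H TH Ht CL Cp →
    Pool.V1E.ClU F c s r D CT MB Q x o B G Cp → ∃ Θ : Pool.GEN.LnT F → Fin r → Polynomial ℝ,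
    ∀ {V V' : Type} (v : F.Ω → V) (v' : F.Ω → V') (vL : Pool.GEN.LnT F → V) (D' : ℕ),
    (D + 1) ^ (r + 4) ≤ D' →
    Pool.V1E.TLd K r D' Q MB (2 ^ (J - o 1)) (2 ^ (C * (x + 1))) B (Pool.KSAT.slam F (o 1)) (Pool.V1E.twF F (o 1))
      (Pool.V1E.kzF F c s r (o 1) Q v v' (G 0) (fun y => Pool.V1E.nW c r (G 1 y) (Cp y))
        (fun y => Pool.V1E.nW c r (G 2 y) (Cp y)))
      (Pool.V1E.kaF F c s r (o 1) Q v (G 0) (fun y => Pool.V1E.nW c r (G 1 y) (Cp y)))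
      (fun ω => Pool.V1E.eL c s r (o 1) qe (Pool.V1E.frH F r q₀ (H 0) (Pool.KSAT.slam F (o 1) ω)) (Pool.KSAT.slam F (o 1) ω))
      (Pool.V1E.Xe r qe) (Pool.V1E.Pfz c s r Q J ((D + 1) * (D + 1))) (Pool.V1E.Pgz c s r (o 1) Q J ((D + 1) * (D + 1)))
      (Pool.V1E.ctF F c s r (o 1) q₀ Q qe (H 0) (fun L => Pool.V1E.nW c r (H 1 L) (CL L)) vL)
      (Pool.V1E.scF F c s r (o 1) q₀ Q qe (G 0) (H 0))
      (fun L => Pool.V1E.xL c s r (o 1) Q (Pool.V1E.frH F r q₀ (H 0) L) L)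
      (Pool.V1E.nT F s r (o 1) (Pool.V1E.nwp F c r (o 1) CL) (fun L => Pool.V1E.nW c r (H 1 L) (CL L)))
      Θ := by
  obtain ⟨C₁, htg⟩ := Pool.W.V1E.nu_tgd D r CT
  obtain ⟨C₂, hdet⟩ := Pool.V1E.tg_det ((D + 1) * (D + 1)) ((D + 1) ^ (r + 4)) r K hK hK'
  refine ⟨C₂ * (C₁ + 3), ?_⟩
  intro m J F c n M ar MB q₀ Q x p e su s qe o z g gc gT g₀ B G T H TH Ht CL Cp W WT
  obtain ⟨Θ, T⟩ := htg W WT
  refine ⟨Θ, ?_⟩
  intro V V' v v' vL D' hD'
  have hx : C₁ * (x + 1) ≤ (C₁ + 2) * (x + 1) := Nat.mul_le_mul_right _ (by omega)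
  have Fr := W.frd (D' := (D + 1) * (D + 1)) (x' := (C₁ + 2) * (x + 1)) (by nlinarith)
    (by nlinarith)
  have T' : Pool.V1E.TgD F c r ((D + 1) * (D + 1)) ((D + 1) ^ (r + 4)) MB Q ((C₁ + 2) * (x + 1)) s o (g₀ 2)
      B (G 0) (G 2) (Pool.V1E.nwy F c r Cp) (Pool.V1E.nwv F c r Cp) (Pool.V1E.nwp F c r (o 1) CL)
      (fun y => Pool.V1E.nW c r (G 1 y) (Cp y)) (fun y => Pool.V1E.nW c r (G 2 y) (Cp y))
      (fun L => Pool.V1E.nW c r (H 1 L) (CL L)) Θ :=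
    { dnp := T.dnp
      vnp := T.vnp
      wnp := T.wnp
      dA1 := T.dA1
      pA1 := T.pA1
      dA2 := T.dA2
      pA2 := T.pA2
      dR1 := T.dR1
      cl1 := T.cl1
      box1 := fun ω hω => by
        obtain ⟨κ, h1, h2⟩ := T.box1 ω hω
        exact ⟨κ, h1.trans (div_le_div_of_nonneg_right (pow_le_pow_right₀ (by norm_num) hx)
          (by positivity)), fun b hb => (h2 b hb).trans (div_le_div_of_nonneg_right
          (pow_le_pow_right₀ (by norm_num) hx) (by positivity))⟩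
      own1 := fun ω hω τ hτ => (T.own1 ω hω τ hτ).trans
        (div_le_div_of_nonneg_right (pow_le_pow_right₀ (by norm_num) hx) (by positivity))
      pos2 := fun ω hω => (T.pos2 ω hω).trans
        (div_le_div_of_nonneg_right (pow_le_pow_right₀ (by norm_num) hx) (by positivity))
      vel2 := fun ω hω => (T.vel2 ω hω).trans (div_le_div_of_nonneg_right
        (mul_le_mul_of_nonneg_right (pow_le_pow_right₀ (by norm_num) hx) (by positivity))
        (by positivity))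
      dT := T.dT
      clo := fun ω hω i => (T.clo ω hω i).trans
        (div_le_div_of_nonneg_right (pow_le_pow_right₀ (by norm_num) hx) (by positivity)) }
  have hD1 : (D + 1) * (D + 1) ≤ D' := by
    refine le_trans ?_ hD'
    calc (D + 1) * (D + 1) = (D + 1) ^ 2 := by ring
      _ ≤ _ := Nat.pow_le_pow_right (by omega) (by omega)
  have h1 := hdet Fr T' v v' vL D' hD1 hD'
  refine h1.mono ?_
  refine pow_le_pow_right₀ (by norm_num) ?_
  nlinarith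

end Pool.W.V1E
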