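import Pool.Agent.H73.D2.Tni
import Pool.Agent.H31.W.H73.D2.Tng
import Pool.Agent.H31.W.H73.D2.Tnh
import Pool.Agent.H31.W.H92.D2.Him
import Pool.Agent.H31.W1.H23.D2.Bln
import Pool.Agent.H31.W1.H80.GEN.Chn
import Pool.Agent.H31.W1.H91.D2.Tlc4

/-!
# The labels of the tubes for the target `N - P(p, u)` without the row label, in a class

`him_nu`: `HImNU` from the entropy fields, the spanning, the dead velocity and a closed gradient.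
-/

set_option autoImplicit false

namespace Pool.W.V1E

open Pool.V1E

open Finset Real MvPolynomial
open Pool.KA Pool.KSAT Pool.PB Pool.GEN Pool.D2R Pool.D2G30 Pool.ISO Pool.CHT Pool.CHX
open Pool.PB.Trl (rt rt_mem t_rt)
open Pool.Agent.H49.Ent Pool.Agent.H32.Dense Pool.STK Pool.K2S Pool.LA91 Pool.OWN68
open Pool.UNJ (ceI)
open Pool.S6C Pool.RCD Pool.D2Con

/-- **The labels of the tubes** for the target `N - P(p, u)`. -/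
theorem him_nu (Dw r CT K D' CM : ℕ) (hr : 1 ≤ r) (hK : 1 ≤ K)
    (hDK : (Dw + 1) * (Dw + 1) * ((Dw + 1) * (Dw + 1) + 1) ^ r ≤ K)
    (hD' : (Dw + 1) ^ (r + 4) ≤ D') {ε : ℝ} (hε : 0 < ε) :
    ∃ δ C' : ℝ, 0 < δ ∧ δ ≤ 1 ∧ 1 ≤ C' ∧ ∀ {m D Dr N N₂ : ℕ} {S : Pool.PB.PCl m} {c : ℕ → Fin m}
    {R : ℕ → Prop} {C a Eb ε₀ η₀ χ mb kk ζ : ℝ} {Pt : ℝ → ℝ → ℝ} {o : ℕ → ℝ} {lv be : ℕ → ℕ → ℝ}
    {κ κ₂ K₂ : ℝ} {Ξ : Pool.V1E.XiN m} {qf : ℕ → Fin r → ℕ} {nt : ℕ → ℝ} {P₁ P₂ : Fin r → ℝ} {oo : ℝ} {fr : ℕ → ℝ}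
    {hT κT : ℝ},
    (∀ J F B g₀ G H Ht CL Cp, Ξ J F B g₀ G H Ht CL Cp →
      Pool.V1E.XiCl c r Dw CT χ mb o lv J F B g₀ G H Ht CL Cp) →
    (∀ ψ : ℝ, 0 < ψ → Pool.S6C.Bas S (fun J F A => 0 < Pool.K2S.Pe F.p A ∧ (J : ℝ) * Real.log 2 - ψ * J ≤
      Pool.Agent.H49.Ent.CH (Pool.Agent.H49.Ent.cond F.p A True) F.T (fun ω => (F.l ω, F.Z ω)))) →
    Pool.W.V1E.TlW S c r nt P₁ P₂ (o 2) (o 0) (o 3) oo fr hT κT →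
    Pool.W.V1E.NhNU S c r D Dw Dr N N₂ R C a Eb ε₀ η₀ χ mb Pt o lv be κ₂ qf δ →
    Pool.W.V1E.VfNU S c r D Dw Dr N N₂ R C a Eb ε₀ η₀ χ mb kk Pt o lv be κ qf δ K₂ Ξ →
    0 < K₂ → 0 ≤ κ → κ * K₂ ≤ κ₂ →
    Pool.V1E.HnN r CM Eb η₀ χ mb kk ζ δ C' o lv qf nt P₁ P₂ oo fr hT κT →
    Pool.W.V1E.HImNU S c r D Dw Dr K D' N N₂ R C a Eb ε₀ η₀ χ mb Pt o lv be κ qf ε K₂ Ξ := by
  obtain ⟨C₁, δ, δ0, δε, δ1, Q₀, him⟩ := Pool.W.V1E.nu_imc Dw r CT K D' CM hr hK hDK hD' hε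
  obtain ⟨C₃, hts⟩ := Pool.V1E.fr_tls ((Dw + 1) * (Dw + 1)) r
  obtain ⟨C₄, hC₄⟩ : ∃ C₄ : ℕ, C₄ = C₁ + C₃ + 8 := ⟨_, rfl⟩
  refine ⟨δ, C₄, δ0, δ1, by
    rw [hC₄]
    push_cast
    linarith [(Nat.cast_nonneg C₁ : (0 : ℝ) ≤ C₁), (Nat.cast_nonneg C₃ : (0 : ℝ) ≤ C₃)], ?_⟩
  intro m D Dr N N₂ S c R C a Eb ε₀ η₀ χ mb kk ζ Pt o lv be κ κ₂ K₂ Ξ qf nt P₁ P₂ oo fr hT κT hXi htm
    hTl hNh hVf hK₂ hκ0 hκ₂ Nn
  obtain ⟨k₁, hk₁, hVf⟩ := hVf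
  obtain ⟨k₂, hk₂, hTl⟩ := hTl
  obtain ⟨C₅, hTl⟩ := hTl Dw
  have Nq0 := Nn.q0
  have Nqe0 := Nn.qe0
  have No00 := Nn.o00
  have Nsm := Nn.sm
  obtain ⟨k₄, hk₄⟩ : ∃ k₄ : ℝ, k₄ = 6 * C₄ + Q₀ + 8 := ⟨_, rfl⟩
  obtain ⟨J₁, hJ₁⟩ := Pool.V1E.lin_lt Nn.κT1 1
  obtain ⟨J₂, hJ₂⟩ := Pool.V1E.lin_lt (show (0 : ℝ) < hT / 2 by linarith [Nn.hT0]) 4
  obtain ⟨J₃, hJ₃⟩ := Pool.V1E.lin_fam (A := fun l => Eb + 3 * η₀ + ζ + lv 2 l + (o 3 - o 2) + kk)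
    (B := fun _ => 1) Nn.top0 (C₅ + 3)
  obtain ⟨J₄, hJ₄⟩ := Pool.V1E.lin_lt Nq0 k₄
  obtain ⟨J₅, hJ₅⟩ := Pool.V1E.lin_fam (n := r) (A := fun i => if hi : i < r then
    P₁ ⟨i, hi⟩ - nt i + C₄ * χ else 0) (B := fun i => o 0 - o 2) (fun i hi => by
      show (if hi : i < r then P₁ ⟨i, hi⟩ - nt i + C₄ * χ else 0) < _
      rw [dif_pos hi]
      exact Nqe0 ⟨i, hi⟩) k₄
  obtain ⟨J₆, hJ₆⟩ := Pool.V1E.lin_lt No00 k₄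
  obtain ⟨J₇, hJ₇⟩ := Pool.V1E.lin_lt Nsm k₄
  obtain ⟨J₈, hJ₈⟩ := Pool.V1E.lin_lt (show (0 : ℝ) < o 3 - o 0 by linarith [Nn.o12]) (Q₀ + 1)
  obtain ⟨J₉, hJ₉⟩ := Pool.V1E.lin_lt Nn.mb1 CM
  refine Pool.S6C.Bas.mono (max (max (max J₁ J₂) (max J₃ J₄)) (max (max J₅ J₆) (max (max J₇ J₈) J₉)))
    ((hVf.and (Pool.V1E.bas_big hTl K₂)).and ((Pool.V1E.bas_big hNh K₂).and (htm 1 one_pos))) ?_
  rintro J hJ F A ⟨⟨hVf, hTl⟩, hNh, hA, -⟩ b z gc gT g₀ G H T TH Gt Ht CL Cp W hΞ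
  obtain ⟨B, hBA, hPB, hVf⟩ := hVf b z gc gT g₀ G H T TH Gt Ht CL Cp W hΞ
  have hB0 : 0 < Pool.K2S.Pe F.p B := by
    by_contra hcon
    push Not at hcon
    have h4 : K₂ * Pool.K2S.Pe F.p B ≤ 0 := mul_nonpos_of_nonneg_of_nonpos hK₂.le hcon
    linarith
  have hTl := hTl B hBA hPB
  have hκ2 : 0 ≤ κ₂ := le_trans (mul_nonneg hκ0 hK₂.le) hκ₂
  have WB := W.res (κ₁ := 1 / K₂) (κ₂ := κ₂) hBA (by
    rw [one_div_mul_eq_div, div_le_iff₀ hK₂, mul_comm]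
    exact hPB) hκ2 (by
    rw [mul_one_div, le_div_iff₀ hK₂]
    exact hκ₂)
  obtain ⟨k₃, hk₃⟩ : ∃ k₃ : ℝ, k₃ = min k₁ k₂ := ⟨_, rfl⟩
  have hk30 : 0 ≤ k₃ := by rw [hk₃]; exact (lt_min hk₁ hk₂).le
  have hk31 : k₃ ≤ k₁ := by rw [hk₃]; exact min_le_left _ _
  have hk32 : k₃ ≤ k₂ := by rw [hk₃]; exact min_le_right _ _
  obtain ⟨V₀, v₀, hv₀⟩ := Pool.V1E.mx_any (fun J F => Pool.PB.ptr F J) (Pool.RCD.vg (o 0)) hk30 hB0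
  obtain ⟨V', v', hv'⟩ := Pool.V1E.mx_any (fun J F => Pool.PB.ptr F J) (Pool.RCD.vg (o 3)) hk₂.le hB0
  have hNhB := hNh B hBA hPB b z gc gT g₀ G H T TH Gt Ht CL Cp WB
  have j1 := hJ₁ J (by omega)
  have j2 := hJ₂ J (by omega)
  have j3 := hJ₃ J (by omega)
  have j4 := hJ₄ J (by omega)
  have j5 := hJ₅ J (by omega)
  have j6 := hJ₆ J (by omega)
  have j7 := hJ₇ J (by omega)
  have j8 := hJ₈ J (by omega)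
  have j9 := hJ₉ J (by omega)
  clear hJ₁ hJ₂ hJ₃ hJ₄ hJ₅ hJ₆ hJ₇ hJ₈ hJ₉
  have hJ0 : (0 : ℝ) ≤ J := Nat.cast_nonneg J
  have mulJ : ∀ {x y : ℝ}, x ≤ y → x * J ≤ y * J := fun h => mul_le_mul_of_nonneg_right h hJ0
  have hql : Pool.STK.IsLaw (Pool.Agent.H49.Ent.cond F.p B True) := Pool.K2S.isLaw_cond F.isLaw hB0
  have hqB : ∀ ω, 0 < Pool.Agent.H49.Ent.cond F.p B True ω → B ω := fun ω hω =>
    of_eq_true ((Pool.Agent.H49.Ent.cond_pos_iff F.isLaw.nonneg B True ω).1 hω).2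
  have hη := Nn.η0
  have hζ := Nn.ζ0
  have hχ := Nn.χ0
  have hmb := Nn.mb0
  have hmk := Nn.mbk
  have hkk : 0 ≤ kk := hmb.trans hmk
  have hE := Nn.E0
  have ho0' := Nn.o0
  have ho01 := Nn.o01
  have ho12 := Nn.o12
  have f0 := Pool.V1E.flo (mul_nonneg ho0' hJ0)
  have f1 := Pool.V1E.flo (mul_nonneg (ho0'.trans ho01) hJ0)
  have f2 := Pool.V1E.flo (mul_nonneg ((ho0'.trans ho01).trans ho12.le) hJ0)
  have l01 : ⌊o 2 * J⌋₊ ≤ ⌊o 0 * J⌋₊ := Nat.floor_le_floor (mulJ ho01)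
  have l12 : ⌊o 0 * J⌋₊ ≤ ⌊o 3 * J⌋₊ := Nat.floor_le_floor (mulJ ho12.le)
  have fm := Pool.V1E.flo (mul_nonneg hmb hJ0)
  have fk := Pool.V1E.flo (mul_nonneg hkk hJ0)
  have fe := Pool.V1E.flo (mul_nonneg (by linarith : (0 : ℝ) ≤ Eb + η₀ + η₀) hJ0)
  have fx := Pool.V1E.flo (mul_nonneg hχ hJ0)
  have fs : ∀ l < r, ((⌊lv 0 l * J⌋₊ : ℕ) : ℝ) ≤ lv 0 l * J ∧ lv 0 l * J - 1 ≤ ⌊lv 0 l * J⌋₊ :=
    fun l hl => Pool.V1E.flo (mul_nonneg (Nn.l0 l hl) hJ0)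
  have hn3 := W.n3
  have hg := fun l (hl : l < r) => WB.wg.wb.g_num (k := 2) (l := l) (by omega)
    (show l ≤ r + 1 by omega)
  obtain ⟨Q, hQ⟩ : ∃ Q : ℕ, Q = ⌊o 3 * J⌋₊ - ⌊o 0 * J⌋₊ := ⟨_, rfl⟩
  obtain ⟨q₀, hq₀⟩ : ∃ q₀ : ℕ, q₀ = ⌊o 0 * J⌋₊ - ⌊o 2 * J⌋₊ := ⟨_, rfl⟩
  obtain ⟨x, hx⟩ : ∃ x : ℕ, x = ⌊χ * J⌋₊ := ⟨_, rfl⟩
  obtain ⟨e, he⟩ : ∃ e : ℕ, e = ⌊(Eb + η₀ + η₀) * J⌋₊ := ⟨_, rfl⟩
  obtain ⟨MB, hMB⟩ : ∃ MB : ℕ, MB = ⌊mb * J⌋₊ := ⟨_, rfl⟩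
  obtain ⟨k, hk⟩ : ∃ k : ℕ, k = ⌊kk * J⌋₊ := ⟨_, rfl⟩
  obtain ⟨s, hs⟩ : ∃ s : ℕ → ℕ, s = Pool.V1E.sN (lv 0) J r := ⟨_, rfl⟩
  have Wn := WB.nw
  have hCl := (hXi _ _ _ _ _ _ _ _ _ hΞ).sub hBA
  rw [← hs, ← hQ, ← hq₀, ← hMB, ← hx] at Wn
  rw [← hs, ← hQ, ← hMB, ← hx] at hCl
  simp only [← hs, ← hQ, ← hq₀, ← hMB, ← hk] at hVf hNhB ⊢
  rw [← he] at fe
  rw [← hx] at fx
  rw [← hMB] at fm
  rw [← hk] at fk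
  have hsl : ∀ l < r, (s l : ℝ) ≤ lv 0 l * J ∧ lv 0 l * J - 1 ≤ s l := fun l hl => by
    rw [hs, Pool.V1E.sN_lt hl]
    exact fs l hl
  have hQr : (Q : ℝ) = ⌊o 3 * J⌋₊ - ⌊o 0 * J⌋₊ := by rw [hQ, Nat.cast_sub l12]
  have hQl : (o 3 - o 0) * J - 1 ≤ Q := by rw [hQr]; linarith [f1.2, f2.2, f1.1, f2.1]
  have hQu : (Q : ℝ) ≤ (o 3 - o 0) * J + 1 := by rw [hQr]; linarith [f1.2, f2.2, f1.1, f2.1]
  have hqr : (q₀ : ℝ) = ⌊o 0 * J⌋₊ - ⌊o 2 * J⌋₊ := by rw [hq₀, Nat.cast_sub l01]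
  have hql' : (o 0 - o 2) * J - 1 ≤ q₀ := by rw [hqr]; linarith [f1.2, f0.2, f1.1, f0.1]
  have hQ₀ : Q₀ ≤ Q := by
    have h4 : (Q₀ : ℝ) ≤ Q := by linarith
    exact_mod_cast h4
  -- the loss
  obtain ⟨Λ, hΛ⟩ : ∃ Λ : ℕ, Λ = C₄ * (x + 1) := ⟨_, rfl⟩
  have hL : (Λ : ℝ) ≤ C₄ * χ * J + C₄ := by
    rw [hΛ]
    push_cast
    have h4 := mul_le_mul_of_nonneg_left fx.1 (Nat.cast_nonneg C₄ : (0 : ℝ) ≤ C₄)
    linarith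
  have hC₄0 : (0 : ℝ) ≤ C₄ := Nat.cast_nonneg _
  have hQ₀0 : (0 : ℝ) ≤ Q₀ := Nat.cast_nonneg _
  have hΛ3 : C₃ + (2 * x + 2) + (2 * x + 2) ≤ Λ := by
    rw [hΛ]
    have h4 : (C₃ + 8) * (x + 1) ≤ C₄ * (x + 1) := Nat.mul_le_mul_right _ (by omega)
    have h5 : (C₃ + 8) * (x + 1) = C₃ * x + C₃ + 8 * x + 8 := by ring
    omega
  have hδQ : (Λ : ℝ) ≤ δ * Q := by
    have h4 := mul_le_mul_of_nonneg_left hQl δ0.le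
    rw [hk₄] at j7
    linarith
  have hCu : (C₁ : ℝ) * ((x : ℝ) + 1) ≤ δ * Q := by
    have h4 : C₁ * (x + 1) ≤ Λ := by
      rw [hΛ]
      exact Nat.mul_le_mul_right _ (by omega)
    have h5 : ((C₁ * (x + 1) : ℕ) : ℝ) ≤ Λ := by exact_mod_cast h4
    push_cast at h5
    linarith
  have hM : MB ≤ CM * Q := by
    have h4 : (MB : ℝ) ≤ CM * Q := by
      have h5 := mul_le_mul_of_nonneg_left hQl (Nat.cast_nonneg CM : (0 : ℝ) ≤ CM)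
      linarith [fm.1]
    exact_mod_cast h4
  have hMk : MB ≤ k := by
    rw [hMB, hk]
    exact Nat.floor_le_floor (mulJ hmk)
  have hTJ : 4 ≤ hT / 2 * J := by linarith
  -- the records
  obtain ⟨v, hv⟩ : ∃ v : F.Ω → F.ζ × V₀, v = fun ω => (F.Z ω, v₀ ω) := ⟨_, rfl⟩
  have hvm : Pool.LA91.Mx (fun J F => Pool.PB.ptr F J) (Pool.RCD.vg (o 0)) k₃ F B v := by
    rw [hv]
    exact Pool.V1E.mx_Z hB0 hv₀
  obtain ⟨vL, hvL⟩ := hvm.1.2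
  have hvL' : ∀ ω, B ω → v ω = vL (Pool.KSAT.slam F ⌊o 0 * J⌋₊ ω) := hvL
  have hvZ : ∀ ω ω', v ω = v ω' → F.Z ω = F.Z ω' := by
    rw [hv]
    intro ω ω' h
    exact (Prod.ext_iff.1 h).1
  -- the numbers of the charts
  have hgl : ∀ l < r, lv 2 l * J - η₀ * J ≤ (g₀ 2 l : ℝ) ∧ (g₀ 2 l : ℝ) ≤ lv 2 l * J :=
    fun l hl => ⟨(hg l hl).2.2.1, (hg l hl).2.2.2⟩
  have hlv : ∀ i < r, lv 0 i * J ≤ (lv 2 i - o 2 + o 0 + ζ) * J := fun i hi =>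
    mulJ (by linarith [(abs_le.1 (Nn.lv1 i hi)).1])
  have hnat : ∀ l < r, ∀ i < r, C₅ + e + g₀ 2 l + (s i + Q + k) ≤ J + g₀ 2 i := by
    intro l hl i hi
    have h4 : ((C₅ + e + g₀ 2 l + (s i + Q + k) : ℕ) : ℝ) ≤ ((J + g₀ 2 i : ℕ) : ℝ) := by
      push_cast
      have h5 := j3 l hl
      have h6 := hlv i hi
      have h7 := (hsl i hi).1
      have h8 := (hgl l hl).2
      have h9 := (hgl i hi).1
      linarith [fe.1, fk.1]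
    exact_mod_cast h4
  obtain ⟨M, hMd⟩ : ∃ M, M = (range r).sup (g₀ 2) := ⟨_, rfl⟩
  have hgM : ∀ i < r, g₀ 2 i ≤ M := fun i hi => by
    rw [hMd]
    exact Finset.le_sup (f := g₀ 2) (Finset.mem_range.2 hi)
  have hMe : ∀ i < r, C₅ + e + M + (s i + Q + k) ≤ J + g₀ 2 i := fun i hi => by
    have h4 : M ≤ J + g₀ 2 i - (C₅ + e + (s i + Q + k)) := by
      rw [hMd]
      refine Finset.sup_le fun l hl => ?_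
      have := hnat l (Finset.mem_range.1 hl) i hi
      omega
    have := hnat i hi i hi
    omega
  have hMJ : e + M + C₅ ≤ J := by
    have h4 : M ≤ J - (C₅ + e) := by
      rw [hMd]
      refine Finset.sup_le fun l hl => ?_
      have := hnat l (Finset.mem_range.1 hl) l (Finset.mem_range.1 hl)
      have h5 : ((C₅ + e + g₀ 2 l : ℕ) : ℝ) ≤ J := by
        push_cast
        have h5 := j3 l (Finset.mem_range.1 hl)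
        have h8 := (hgl l (Finset.mem_range.1 hl)).2
        have h9 : 0 ≤ (η₀ + ζ + (o 3 - o 2) + kk) * J := by
          refine mul_nonneg ?_ hJ0
          linarith
        linarith [fe.1]
      have h6 : C₅ + e + g₀ 2 l ≤ J := by exact_mod_cast h5
      omega
    have h5 : C₅ + e ≤ J := by
      have := hnat 0 (by omega) 0 (by omega)
      omega
    omega
  have hnt : ∀ i < r, |(s i : ℝ) - (nt i + o 0) * J| ≤ hT / 2 * J + 1 := fun i hi => by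
    have h4 := abs_le.1 (Nn.nt1 i hi)
    have h5 := hsl i hi
    have h6 := mulJ h4.1
    have h7 := mulJ h4.2
    rw [abs_le]
    constructor <;> linarith [h5.1, h5.2]
  have hTM : Pool.LA91.TlM J r C₅ (hT * J) nt P₁ P₂ (o 0) (o 3) oo s (g₀ 2) e M Q k (qf J) := by
    refine ⟨fun i hi => (hnt i hi).trans (by linarith), ?_, ?_, fun i => ?_, fun i => ?_,
      fun i => ?_, fun i => ?_, hgM, hMJ, hMe⟩
    · rw [abs_le]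
      constructor <;> linarith
    · have h4 := mulJ Nn.oo1
      linarith [fk.1]
    · have h4 := abs_le.1 (Nn.qf1 J i)
      have h5 := abs_le.1 (hnt i i.2)
      rw [abs_le]
      constructor <;> linarith [h4.1, h4.2, h5.1, h5.2, f1.1, f1.2]
    · have h4 := (abs_le.1 (Nn.qf1 J i)).1
      have h5 := mulJ (Nn.P1 i)
      have h6 : 0 ≤ mb * J := mul_nonneg hmb hJ0
      linarith
    · have h4 := mulJ (Nn.P2 i)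
      have h5 := (abs_le.1 (hnt i i.2)).2
      linarith [fk.1, f1.2]
    · have h4 := (abs_le.1 (Nn.qf1 J i)).2
      have h5 := (abs_le.1 (hnt i i.2)).2
      have h6 := mulJ (Nn.P12 i)
      linarith [f1.2]
  -- the records and the paths
  have hball := (WB.wg.wb.ev 2 (by omega)).ball
  rw [← he] at hball
  have hTI : Pool.W.LA91.TlI F B c r Dw e M (g₀ 2) ⌊o 2 * J⌋₊ ⌊o 0 * J⌋₊ ⌊o 3 * J⌋₊ v vL v' (G 2)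
      (fun y => Pool.V1E.nW c r (G 0 y) (Cp y)) (fun y => Pool.V1E.nW c r (G 3 y) (Cp y)) (H 2)
      (fun L => Pool.V1E.nW c r (H 0 L) (CL L))
      (fun L => Pool.V1E.nW c r (H 3 L) (CL (Pool.D2R.co (⌊o 3 * J⌋₊ - ⌊o 0 * J⌋₊) L))) := by
    refine ⟨(Pool.W.V1E.chok_take hball (show r ≤ r + 1 + 1 by omega)).mono le_rfl (fun _ => WB.DD) le_rfl
      le_rfl, fun ω hω l hl => Wn.cl0 ω hω l hl, fun ω hω => Wn.clA hω, fun ω hω => ?_, hvL',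
      fun ω ω' _ _ h => hvZ ω ω' h⟩
    have h2J : ⌊o 3 * J⌋₊ ≤ J := by
      have h5 : ((⌊o 3 * J⌋₊ : ℕ) : ℝ) ≤ J := by
        have h6 := mulJ Nn.o31
        linarith [f2.1]
      exact_mod_cast h5
    have h1 := Pool.D2R.co_slam F (w := ⌊o 0 * J⌋₊) (a := ⌊o 3 * J⌋₊) l12 h2J ω
    have hc1 := (WB.wg.wb.ev 3 hn3).cls ω hω
    have hC := Wn.clC ω hω
    show Pool.V1E.nW c r (G 3 (Pool.PB.ptr F J ω)) (Cp (Pool.PB.ptr F J ω)) = Pool.V1E.nW c r (H 3 (Pool.KSAT.slam F ⌊o 3 * J⌋₊ ω))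
      (CL (Pool.D2R.co (⌊o 3 * J⌋₊ - ⌊o 0 * J⌋₊) (Pool.KSAT.slam F ⌊o 3 * J⌋₊ ω)))
    have hC' : Cp (Pool.PB.ptr F J ω) = CL (Pool.KSAT.slam F ⌊o 0 * J⌋₊ ω) := hC
    unfold Pool.V1E.nW Pool.V1E.nfw
    rw [h1, hc1 r (by omega), hc1 (r + 1) (by omega), hC']
  have hqs : Q + k + (C₃ + (2 * x + 2) + (2 * x + 2)) ≤ q₀ := by
    have h4 : ((Q + k + Λ : ℕ) : ℝ) ≤ q₀ := by
      push_cast
      rw [hk₄] at j4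
      linarith [fk.1]
    have h5 : Q + k + Λ ≤ q₀ := by exact_mod_cast h4
    omega
  have hqes : ∀ i, qf J i + (C₃ + (2 * x + 2) + (2 * x + 2)) ≤ q₀ := fun i => by
    have h4 : ((qf J i + Λ : ℕ) : ℝ) ≤ q₀ := by
      push_cast
      have h5 := j5 i i.2
      rw [dif_pos i.2, hk₄] at h5
      have h6 := (abs_le.1 (Nn.qf1 J i)).2
      have h7 : ((⟨(i : ℕ), i.2⟩ : Fin r)) = i := rfl
      rw [h7] at h5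
      linarith
    have h5 : qf J i + Λ ≤ q₀ := by exact_mod_cast h4
    omega
  have hJs : ⌊o 2 * J⌋₊ + (C₃ + (2 * x + 2)) ≤ J := by
    have h4 : ((⌊o 2 * J⌋₊ + Λ : ℕ) : ℝ) ≤ J := by
      push_cast
      rw [hk₄] at j6
      linarith [f0.1]
    have h5 : ⌊o 2 * J⌋₊ + Λ ≤ J := by exact_mod_cast h4
    omega
  have hTS : Pool.LA91.TlS F B c s r ⌊o 0 * J⌋₊ Q k (qf J) (G 2)
      (2 ^ (C₃ + (2 * x + 2) + (2 * x + 2)) / 2 ^ q₀) := hts Wn.frd hqs hqes hJs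
  have hO := hTl s (g₀ 2) e M Q k (qf J) _ _ v vL v' (G 2) (fun y => Pool.V1E.nW c r (G 0 y) (Cp y))
    (fun y => Pool.V1E.nW c r (G 3 y) (Cp y)) (H 2) (fun L => Pool.V1E.nW c r (H 0 L) (CL L))
    (fun L => Pool.V1E.nW c r (H 3 L) (CL (Pool.D2R.co (⌊o 3 * J⌋₊ - ⌊o 0 * J⌋₊) L))) _ (hvm.le' hk32) hv' hTM
    (fun l hl => by
      have h4 := mulJ (Nn.fr1 l hl)
      linarith [(hgl l hl).1]) hTI hTS
  have hO' : Pool.LA91.TlO F (Pool.Agent.H49.Ent.cond F.p B True) c s r ⌊o 2 * J⌋₊ ⌊o 0 * J⌋₊ Q k (qf J)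
      v vL v' (G 2) (fun y => Pool.V1E.nW c r (G 0 y) (Cp y)) (fun y => Pool.V1E.nW c r (G 3 y) (Cp y)) (H 2)
      (fun L => Pool.V1E.nW c r (H 0 L) (CL L)) (δ * Q) := by
    have h4 : κT * J ≤ δ * Q := by
      have h5 := mul_le_mul_of_nonneg_left hQl δ0.le
      linarith
    refine ⟨?_, hO.afew.trans h4, hO.fr.trans (by linarith), hO.frT.trans (by linarith), ?_⟩
    · linarith [hO.Tfull]
    · linarith [hO.full]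
  have hJQ : ⌊o 0 * J⌋₊ + Q ≤ J := by
    have h4 : (⌊o 3 * J⌋₊ : ℕ) ≤ J := by
      have h5 : ((⌊o 3 * J⌋₊ : ℕ) : ℝ) ≤ J := by
        have h6 := mulJ Nn.o31
        linarith [f2.1]
      exact_mod_cast h5
    omega
  obtain ⟨P, hP⟩ := him Wn hCl hQ₀ hql hqB hCu hM hMk hJQ hvL' hO' (hNhB _ _ v v' hvm.1 hv'.1)
    (hVf _ v vL (hvm.le' hk31) hvL' hvZ)
  exact ⟨B, _, _, v, v', _, _, P, hBA, hPB, hP⟩

end Pool.W.V1E
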