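import Pool.Agent.H73.D2.Tnj
import Pool.Agent.H31.W.H73.D2.Tnf
import Pool.Agent.H31.W.H73.D2.Tnh
import Pool.Agent.H31.W1.H2.GEN.ChT
import Pool.Agent.H31.W1.H80.GEN.Chn

/-!
# The end for the target `N - P(p, u)` without the row label, in a class

`x10u_con`: the contradiction from the windows `WNU`, a closed gradient and the labels of the tubes
`HImNU`.
-/

set_option autoImplicit false

namespace Pool.W.V1E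

open Pool.V1E

open Finset Real MvPolynomial
open Pool.Agent.H49.Ent Pool.Agent.H32.Dense Pool.STK Pool.KA Pool.KSAT Pool.K2S Pool.PB Pool.S6C
open Pool.GEN Pool.CHT Pool.CHX Pool.ISO Pool.D2R Pool.D2G30 Pool.END18 Pool.D2Con
open Pool.LBT (ThrOf)
open Pool.LEV (Law)
open Pool.NLB46 (Lab lab_no)

variable {m : ℕ}

/-- **The end, in a class**, for the target `N - P(p, u)`. -/
theorem x10u_con (r Dw CT K D' : ℕ) (hr : 1 ≤ r) (hK : 1 ≤ K)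
    (hDK : (Dw + 1) * (Dw + 1) * ((Dw + 1) * (Dw + 1) + 1) ^ r ≤ K)
    (hD1 : (Dw + 1) ^ (r + 4) ≤ D') :
    ∀ ε : ℝ, 0 < ε → ε ≤ 1 / 2 → ∃ δ C' : ℝ, 0 < δ ∧ δ ≤ 1 / 4 ∧ 1 ≤ C' ∧
    ∀ {m : ℕ} {S : Pool.PB.PCl m} {P₂ : List (Fin m) × Fin m → ℝ → ℝ → ℝ} {θ₂ : ℝ} {c : ℕ → Fin m}
    {Pt : ℝ → ℝ → ℝ} {D Dr N N₂ : ℕ} {R : ℕ → Prop}
    {C a Eb ε₀ η₀ ζ χ mb h e₂ κ K₁ K₂ : ℝ} {o : ℕ → ℝ} {lv be b : ℕ → ℕ → ℝ} {a₂ w₂ : ℚ}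
    {Ξ : Pool.V1E.XiN m} {qf : ℕ → Fin r → ℕ},
    (∀ J F B g₀ G H Ht CL Cp, Ξ J F B g₀ G H Ht CL Cp →
      Pool.V1E.XiCl c r Dw CT χ mb o lv J F B g₀ G H Ht CL Cp) → 1 ≤ N → 3 ≤ N₂ → D ≤ Dw → S.Ne → Pool.LBT.ThrOf (Pool.W.CHT.chsys m θ₂) S P₂ → Pool.CHT.TmH S →
    Set.InjOn c (Set.Iio (r + 2)) → (∀ l < r, R l) → 1 ≤ C → 0 < η₀ → 0 ≤ Eb → 0 < o 2 →
    3 * (C * η₀) ≤ Pt a (o 0) → η₀ ≤ lv 0 (r + 1) → 0 ≤ lv 1 (r + 1) →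
    o 1 + 4 * (C * η₀) ≤ a → a ≤ 1 → (¬ R r → lv 1 r + (a - o 1) ≤ be 1 r + ζ) →
    mb + (o 3 - o 0) < o 0 - o 2 → o 3 - o 0 < mb → η₀ ≤ o 1 - o 3 → 0 ≤ ζ →
    C * η₀ + 2 * (ζ + 3 * (C * η₀)) + η₀ < χ →
    (∀ k ≤ 3, ∀ j < r, |lv k j - o k - (lv 0 j - o 0)| ≤ ζ) →
    lv 0 r + (o 3 - o 0) ≤ lv 3 r + ζ → lv 3 r + (o 1 - o 3) ≤ lv 1 r + ζ →
    |lv 3 (r + 1) - lv 0 (r + 1) - mb| ≤ ζ →
    lv 0 (r + 1) + (o 1 - o 0) + (mb - (o 3 - o 0)) ≤ lv 1 (r + 1) + ζ →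
    lv 0 (r + 1) + (a - o 0) + (mb - (o 3 - o 0)) ≤ Pt a (o 0) + ζ →
    C' * χ < δ * (o 3 - o 0) → o 0 ≤ w₂ → o 3 < a₂ → w₂ ≤ a₂ → a₂ ≤ 1 → e₂ < θ₂ * w₂ →
    0 < h → Pool.CHT.bet P₂ c (r + 1) a₂ w₂ + h ≤ 1 → Eb + 2 * mb + C' * χ ≤ e₂ →
    (∀ l < r, lv 0 l + (o 3 - o 0) + C' * χ ≤ 1) → lv 0 r + C' * χ ≤ 1 →
    lv 0 (r + 1) + mb ≤ 1 → o 0 + 2 * (o 3 - o 0) + η₀ ≤ 1 →
    Pool.CHT.bet P₂ c (r + 1) a₂ w₂ + h + o 3 + ε * (o 3 - o 0) + C' * χ ≤ lv 0 (r + 1) + mb + a₂ →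
    (∀ (J : ℕ) (i : Fin r), ⌊mb * J⌋₊ + (⌊o 3 * J⌋₊ - ⌊o 0 * J⌋₊) ≤ qf J i) → 0 < κ →
    0 < K₁ → 0 ≤ K₂ →
    Pool.W.V1E.WgCU S c r D Dw Dr N N₂ R C a Eb ε₀ η₀ χ mb Pt o lv be b κ K₁ Ξ →
    ¬ Pool.W.V1E.HImNU S c r D Dw Dr K D' N N₂ R C a Eb ε₀ η₀ χ mb Pt o lv be κ qf δ K₂ Ξ := by
  intro ε hε hε2
  obtain ⟨C₀, C₁, δ₀, δ₀0, δ₀ε, Q₀, hend⟩ := Pool.W.V1E.nu_end Dw r CT K D' hr hK hDK hD1 hε
  obtain ⟨D₂, hD₂⟩ : ∃ D₂ : ℕ, D₂ = (Dw + 1) * (Dw + 1) := ⟨_, rfl⟩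
  obtain ⟨D₃, hD₃⟩ : ∃ D₃ : ℕ, D₃ = D₂ + r * (K * D₂) + D' := ⟨_, rfl⟩
  rw [← hD₂, ← hD₃] at hend
  obtain ⟨δ, hδ⟩ : ∃ δ : ℝ, δ = min δ₀ (1 / 4) := ⟨_, rfl⟩
  have δ0 : 0 < δ := by rw [hδ]; exact lt_min δ₀0 (by norm_num)
  have δ4 : δ ≤ 1 / 4 := by rw [hδ]; exact min_le_right _ _
  have δδ₀ : δ ≤ δ₀ := by rw [hδ]; exact min_le_left _ _
  obtain ⟨C', hC'⟩ : ∃ C' : ℝ, C' = 8 * (C₁ + 2 * (K * r) + 4) + 8 := ⟨_, rfl⟩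
  have hC₁0 : (0 : ℝ) ≤ C₁ := Nat.cast_nonneg _
  have hKr0 : (0 : ℝ) ≤ K * r := by positivity
  have hC'1 : 1 ≤ C' := by
    rw [hC']
    linarith
  refine ⟨δ, C', δ0, δ4, hC'1, ?_⟩
  intro m S P₂ θ₂ c Pt D Dr N N₂ R C a Eb ε₀ η₀ ζ χ mb h e₂ κ K₁ K₂ o lv be b a₂ w₂ Ξ qf hXi hN1 hN hDD
    hne hP₂ hS hinj hR hC hη0 hEb ho2 hPt0 hlv0 hlv1 hoa1 ha1 hbe h01 h12 h23 hζ hχ hn hu2 hu3
    h2 h3 hPa hsm h1w h2a hwa ha₂ he₂ hh hb2 hE hrm hru hrm' h1J hlab hqf hκ hK₁ hK₂ hWg hIm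
  have hCη : η₀ ≤ C * η₀ := le_mul_of_one_le_left hη0.le hC
  have hCη0 : 0 < C * η₀ := by linarith
  obtain ⟨X, hX⟩ : ∃ X : ℝ, X = χ := ⟨_, rfl⟩
  have hX0 : 0 < X := by rw [hX]; linarith
  have hηX : η₀ ≤ X := by rw [hX]; linarith
  have hζX : ζ ≤ X := by rw [hX]; linarith
  rw [← hX] at hsm hE hlab hru
  simp only [← hX] at hrm
  have hQ12 : 0 < o 3 - o 0 := by
    by_contra hcon
    push Not at hcon
    have h4 : δ * (o 3 - o 0) ≤ 0 := mul_nonpos_of_nonneg_of_nonpos δ0.le hcon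
    have h5 : 0 < C' * X := by positivity
    linarith
  have hδQ4 : δ * (o 3 - o 0) ≤ (o 3 - o 0) / 4 := by
    have h4 := mul_le_mul_of_nonneg_right δ4 hQ12.le
    linarith
  have hη12 : η₀ ≤ o 3 - o 0 := by
    have h4 : η₀ ≤ C' * X := hηX.trans (le_mul_of_one_le_left hX0.le hC'1)
    linarith
  have h2' := abs_le.1 h2
  have ho0' : ∀ k ≤ 3, 0 < o k := fun k hk => by
    interval_cases k <;> linarith
  have hwin := Pool.W.V1E.wnU_con (qf := qf) hN1 hN hDD hinj hR hC hη0 hPt0 hlv1 hoa1 ha1 hbe h01 h12 hη12 h23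
    hζ hχ hn hu2 hu3 (by linarith) h3 hPa hqf hWg
  -- the constants
  have hC'X : C' * X = 8 * C₁ * X + 16 * (K * r) * X + 32 * X + 8 * X := by
    rw [hC']
    ring
  have hC'a : 8 * C₁ * X + 16 * (K * r) * X + 32 * X ≤ C' * X := by
    linarith
  have hKrX : 0 ≤ 16 * (K * r) * X := by positivity
  have hC₁X : 0 ≤ 8 * C₁ * X := by positivity
  -- the events
  have hw₂0 : (0 : ℝ) ≤ w₂ := le_trans (ho0' 0 (by norm_num)).le h1w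
  have hdq : 0 < δ * (o 3 - o 0) / 2 := by positivity
  obtain ⟨δl, hδl, hln⟩ := Pool.W.NLB46.lab_no hP₂ c (r + 1) D₃ a₂ w₂ e₂ h
    (by exact_mod_cast hw₂0) hwa ha₂ he₂ hh hb2
  obtain ⟨τ, hτ, J₁, hall⟩ := (hwin.and (Pool.V1E.bas_big hIm K₁)).and
    ((Pool.V1E.bas_big (Pool.V1E.tmh_cond hS hdq) (K₁ * K₂)).and (Pool.V1E.bas_big hln (K₁ * K₂)))
  obtain ⟨W₀, hW₀⟩ : ∃ W₀ : ℝ, W₀ = 22 * C₁ + 40 * (K * r) + C₀ + Q₀ + 100 := ⟨_, rfl⟩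
  have big : ∀ {x y : ℝ}, 0 < x → ∃ J₀ : ℕ, ∀ J : ℕ, J₀ ≤ J → y ≤ x * J := by
    intro x y hx
    refine ⟨⌈y / x⌉₊, fun J hJ => ?_⟩
    have h1 : y / x ≤ J := (Nat.le_ceil _).trans (by exact_mod_cast hJ)
    rw [div_le_iff₀ hx] at h1
    linarith
  obtain ⟨J₂, hJ₂⟩ := big (x := η₀) (y := W₀) hη0
  obtain ⟨J₃, hJ₃⟩ := big (x := (a₂ : ℝ) - o 3) (y := 2) (by linarith)
  obtain ⟨J₄, hJ₄⟩ := big (x := δl) (y := Real.log 2) hδl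
  obtain ⟨J, hJ, F, A, hA⟩ := hne τ hτ (max J₁ (max J₂ (max J₃ J₄)))
  obtain ⟨⟨w1, w2⟩, w3, w4⟩ := hall J ((le_max_left _ _).trans hJ) F A hA
  have j2 := hJ₂ J ((le_max_left _ _).trans ((le_max_right _ _).trans hJ))
  have j3 := hJ₃ J ((le_max_left _ _).trans ((le_max_right _ _).trans ((le_max_right _ _).trans hJ)))
  have j4 := hJ₄ J ((le_max_right _ _).trans ((le_max_right _ _).trans ((le_max_right _ _).trans hJ)))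
  have hJ0 : (0 : ℝ) ≤ J := Nat.cast_nonneg J
  have mulJ : ∀ {x y : ℝ}, x ≤ y → x * J ≤ y * J := fun h => mul_le_mul_of_nonneg_right h hJ0
  have hC₀0 : (0 : ℝ) ≤ C₀ := Nat.cast_nonneg _
  have hQ₀0 : (0 : ℝ) ≤ Q₀ := Nat.cast_nonneg _
  have ho0 : ∀ k ≤ 3, 0 ≤ o k * J := fun k hk =>
    mul_nonneg (ho0' k hk).le hJ0
  have fo := fun k hk => Pool.V1E.flo (ho0 k hk)
  have f0 := fo 2 (by norm_num)
  have f1 := fo 0 (by norm_num)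
  have f2 := fo 3 (by norm_num)
  have f3 := fo 1 (by norm_num)
  have l01 : ⌊o 2 * J⌋₊ ≤ ⌊o 0 * J⌋₊ := Nat.floor_le_floor (mulJ (by linarith))
  have l12 : ⌊o 0 * J⌋₊ ≤ ⌊o 3 * J⌋₊ := Nat.floor_le_floor (mulJ (by linarith))
  obtain ⟨B, z, gc, gT, g₀, G, H, T, TH, Gt, Ht, CL, Cp, hB, hPB, W, hΞ⟩ := w1
  obtain ⟨B₂, V, V', v, v', ξ, np, Pn, hB₂, hPB₂, him⟩ := w2 B hB hPB b z gc gT g₀ G H T TH Gt Ht
    CL Cp W hΞ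
  have hB₂A : Pool.K2S.Sub B₂ A := fun ω hω => hB ω (hB₂ ω hω)
  have hPA : Pool.K2S.Pe F.p A ≤ K₁ * K₂ * Pool.K2S.Pe F.p B₂ := by
    rw [mul_assoc]
    exact hPB.trans (mul_le_mul_of_nonneg_left hPB₂ hK₁.le)
  obtain ⟨hP0, htf⟩ := w3 B₂ hB₂A hPA
  have Wd' := (W.nwe (by linarith) (by linarith)).sub hB₂
  have hCl := (hXi _ _ _ _ _ _ _ _ _ hΞ).sub hB₂
  obtain ⟨Q, hQ⟩ : ∃ Q : ℕ, Q = ⌊o 3 * J⌋₊ - ⌊o 0 * J⌋₊ := ⟨_, rfl⟩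
  obtain ⟨x, hx⟩ : ∃ x : ℕ, x = ⌊χ * J⌋₊ := ⟨_, rfl⟩
  obtain ⟨e, he⟩ : ∃ e : ℕ, e = ⌊(Eb + 2 * η₀) * J⌋₊ := ⟨_, rfl⟩
  obtain ⟨MB, hMB⟩ : ∃ MB : ℕ, MB = ⌊mb * J⌋₊ := ⟨_, rfl⟩
  obtain ⟨sr, hsr⟩ : ∃ sr : ℕ, sr = ⌊lv 0 (r + 1) * J⌋₊ := ⟨_, rfl⟩
  have hsre : Pool.V1E.sN (lv 0) J r r = sr := by rw [Pool.V1E.sN_r, hsr]
  rw [← hQ, ← hx, ← he, ← hMB] at Wd'
  rw [← hQ, ← hx, ← hMB] at hCl
  rw [← hQ, ← hMB, ← hD₂] at him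
  have hQr : (Q : ℝ) = ⌊o 3 * J⌋₊ - ⌊o 0 * J⌋₊ := by rw [hQ, Nat.cast_sub l12]
  have hQl : (o 3 - o 0) * J - 1 ≤ Q := by rw [hQr]; linarith [f1.2, f2.2, f1.1, f2.1]
  have hQu : (Q : ℝ) ≤ (o 3 - o 0) * J + 1 := by rw [hQr]; linarith [f1.2, f2.2, f1.1, f2.1]
  have hMl : mb * J - 1 ≤ MB := by
    rw [hMB]
    exact (Pool.V1E.flo (mul_nonneg (by linarith) hJ0)).2
  have hMu : (MB : ℝ) ≤ mb * J := by
    rw [hMB]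
    exact (Pool.V1E.flo (mul_nonneg (by linarith) hJ0)).1
  have hCJ : η₀ * J ≤ X * J := mulJ hηX
  have hW0J : W₀ ≤ X * J := j2.trans hCJ
  have hKr40 : 0 ≤ 40 * ((K : ℝ) * r) := by positivity
  have h22 : 0 ≤ 22 * (C₁ : ℝ) := by positivity
  have hxu : (x : ℝ) ≤ X * J := by
    rw [hx, ← hX]
    exact (Pool.V1E.flo (mul_nonneg hX0.le hJ0)).1
  have hC1u : (C₁ : ℝ) * (x + 1) ≤ C₁ * X * J + C₁ := by
    have h4 := mul_le_mul_of_nonneg_left hxu hC₁0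
    linarith
  have hsmJ : C' * X * J ≤ δ * (o 3 - o 0) * J := mulJ hsm.le
  have hC'aJ := mulJ hC'a
  have hδQl : δ * (o 3 - o 0) * J - 1 ≤ δ * Q := by
    have h4 := mul_le_mul_of_nonneg_left hQl δ0.le
    linarith
  have hδ0Q : δ * Q ≤ δ₀ * Q := mul_le_mul_of_nonneg_right δδ₀ (Nat.cast_nonneg _)
  have hKXJ : 0 ≤ 16 * (K * r) * X * J := mul_nonneg hKrX hJ0
  have hC₁XJ : 0 ≤ C₁ * X * J := by positivity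
  have hCXJ : 0 ≤ X * J := by positivity
  have c1 : Q₀ ≤ Q := by
    have h4 : (Q₀ : ℝ) ≤ Q := by
      have h5 := mulJ hη12
      rw [hW₀] at j2
      linarith
    exact_mod_cast h4
  have c2 : (C₁ : ℝ) * (x + 1) ≤ δ₀ * Q := by
    rw [hW₀] at hW0J
    linarith
  have c3 : ⌊o 0 * J⌋₊ + 2 * Q ≤ J := by
    have h4 : ((⌊o 0 * J⌋₊ + 2 * Q : ℕ) : ℝ) ≤ J := by
      push_cast
      have h5 := mulJ h1J
      rw [hW₀] at j2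
      linarith [f1.1]
    exact_mod_cast h4
  have c6 : (J : ℝ) * Real.log 2 - δ₀ * Q ≤ Pool.Agent.H49.Ent.CH (Pool.Agent.H49.Ent.cond F.p B₂ True) F.T
      (fun ω => (F.l ω, F.Z ω)) := by
    refine le_trans ?_ htf
    have h5 := mulJ hη12
    rw [hW₀] at j2
    have h6 : (o 3 - o 0) * J / 2 ≤ Q := by linarith
    have h7 := mul_le_mul_of_nonneg_left h6 δ0.le
    linarith
  obtain ⟨εQ, hεQ⟩ : ∃ k : ℕ, k = ⌈ε * Q⌉₊ := ⟨_, rfl⟩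
  have hεQ0 : 0 ≤ ε * (Q : ℝ) := by positivity
  have hεQl : ε * (Q : ℝ) ≤ εQ := by rw [hεQ]; exact Nat.le_ceil _
  have hεQu : (εQ : ℝ) ≤ ε * Q + 1 := by rw [hεQ]; exact (Nat.ceil_lt_add_one hεQ0).le
  have hεu : ε * (Q : ℝ) ≤ ε * (o 3 - o 0) * J + 1 := by
    have h4 := mul_le_mul_of_nonneg_left hQu hε.le
    linarith
  have hε2u : ε * (o 3 - o 0) * J ≤ (o 3 - o 0) * J / 2 := by
    have h4 := mul_le_mul_of_nonneg_right hε2 (mul_nonneg hQ12.le hJ0)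
    linarith
  obtain ⟨sm, hsm'⟩ : ∃ k : ℕ, k = 2 * x * K * r + C₀ + C₁ * (x + 1) := ⟨_, rfl⟩
  have hsmu : (sm : ℝ) ≤ 2 * (K * r) * X * J + (C₁ * X * J + C₁) + C₀ := by
    rw [hsm']
    push_cast
    have h4 := mul_le_mul_of_nonneg_left hxu hKr0
    linarith
  obtain ⟨p', hp'⟩ : ∃ p' : ℕ, p' = sr + MB - (sm + εQ) := ⟨_, rfl⟩
  have hδJ : δ * (o 3 - o 0) * J ≤ (o 3 - o 0) * J / 4 := by
    have h4 := mulJ hδQ4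
    linarith
  have hple : sm + εQ ≤ sr + MB := by
    have h4 : ((sm + εQ : ℕ) : ℝ) ≤ ((sr + MB : ℕ) : ℝ) := by
      push_cast
      have h5 := mulJ h12.le
      have h6 : (0 : ℝ) ≤ sr := Nat.cast_nonneg _
      rw [hW₀] at hW0J
      linarith
    exact_mod_cast h4
  have hpe : (p' : ℝ) + (sm + εQ) = sr + MB := by
    have : p' + (sm + εQ) = sr + MB := by rw [hp']; omega
    exact_mod_cast this
  obtain ⟨e', he'⟩ : ∃ e' : ℕ, e' = e + C₁ * (x + 1) + (p' - g₀ 0 (r + 1)) + MB + 1 := ⟨_, rfl⟩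
  have c8 : e + C₁ * (x + 1) + (p' - g₀ 0 (r + 1)) + 1 ≤ e' := by omega
  have c9 : (p' : ℝ) + (2 * x * K * r + C₀ : ℕ) + ε * Q ≤ Pool.V1E.sN (lv 0) J r r + MB := by
    rw [hsre]
    have h4 : ((2 * x * K * r + C₀ : ℕ) : ℝ) ≤ sm := by
      rw [hsm']
      exact_mod_cast Nat.le_add_right _ _
    linarith
  have c10 : ((e + C₁ * (x + 1) + (p' - g₀ 0 (r + 1)) : ℕ) : ℝ) + p' +
      (2 * x * K * r + C₀ + C₁ * (x + 1) : ℕ) + ε * Q ≤ e' + Pool.V1E.sN (lv 0) J r r := by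
    rw [hsre]
    have h4 : (e' : ℝ) = ((e + C₁ * (x + 1) + (p' - g₀ 0 (r + 1)) : ℕ) : ℝ) + MB + 1 := by
      rw [he']
      push_cast
      ring
    rw [h4, ← hsm']
    linarith
  obtain ⟨B₃, hB₃, hPB₃, hch, hla⟩ := hend (e' := e') (p' := p') Wd' hCl
    c1 c2 c3 hP0 (him.mono (Pool.Agent.H49.Ent.cond_nonneg F.isLaw.nonneg _ True) δδ₀) c6 c8 c9 c10
  -- the contradiction
  obtain ⟨-, -, g2l, g2u⟩ := W.wg.wb.g_num (k := 3) (l := r + 1) (by omega) le_rfl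
  obtain ⟨-, -, g1l, g1u⟩ := W.wg.wb.g_num (k := 0) (l := r + 1) (by omega) le_rfl
  have hsrl : lv 0 (r + 1) * J - 1 ≤ sr := by
    rw [hsr]
    exact (Pool.V1E.flo (mul_nonneg (by linarith) hJ0)).2
  have hsru : (sr : ℝ) ≤ lv 0 (r + 1) * J := by
    rw [hsr]
    exact (Pool.V1E.flo (mul_nonneg (by linarith) hJ0)).1
  have hδlJ : Real.exp (-(δl * J)) ≤ 1 / 2 := by
    rw [Real.exp_neg, inv_eq_one_div]
    refine one_div_le_one_div_of_le two_pos ?_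
    have h4 := Real.exp_le_exp.2 j4
    rwa [Real.exp_log two_pos] at h4
  refine w4 B₂ hB₂A hPA (⌊o 0 * J⌋₊ + Q + 1) ⌊o 0 * J⌋₊ e' p' (fun _ => D₂) _ _ _ _ _
    (by omega) ?_ ?_ ?_ (fun _ => by omega) ?_ ?_ ?_ B₃ hB₃ ?_ hch hla
  · refine Nat.le_floor ?_
    push_cast
    rw [hQr]
    linarith [f2.1]
  · exact Nat.floor_le_floor (mulJ h1w)
  · refine Nat.le_floor ?_
    have h4 : ((p' - g₀ 0 (r + 1) : ℕ) : ℝ) ≤ mb * J + X * J := by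
      have h6 : sr ≤ g₀ 0 (r + 1) + x := by
        have := Wd'.m1'
        rw [hsre] at this
        exact this
      have h7 : p' - g₀ 0 (r + 1) ≤ MB + x := by omega
      have h8 : ((p' - g₀ 0 (r + 1) : ℕ) : ℝ) ≤ ((MB + x : ℕ) : ℝ) := by exact_mod_cast h7
      push_cast at h8
      linarith
    have h5 : (e : ℝ) ≤ (Eb + 2 * η₀) * J := by
      rw [he]
      exact (Pool.V1E.flo (mul_nonneg (by linarith) hJ0)).1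
    rw [he']
    push_cast
    have h7 := mulJ hE
    have h8 := mulJ hζX
    rw [hW₀] at hW0J
    linarith
  · intro l hl
    rcases Nat.lt_or_ge l r with h | h
    · rw [if_pos h]
      obtain ⟨-, k1, -, -⟩ := W.wg.wb.g_num (k := 2) (l := l) (by omega) (by omega)
      have k2 := mulJ (hrm l h)
      have k3 := mulJ (abs_le.1 (hn 2 (by norm_num) l h)).2
      have k4 : ((⌊o 3 * J⌋₊ - ⌊o 2 * J⌋₊ : ℕ) : ℝ) = ⌊o 3 * J⌋₊ - ⌊o 2 * J⌋₊ :=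
        Nat.cast_sub (l01.trans l12)
      have k5 := mulJ hζX
      have k6 : ((⌊b 2 l * J⌋₊ + (⌊o 3 * J⌋₊ - ⌊o 2 * J⌋₊) : ℕ) : ℝ) ≤ J := by
        push_cast [k4]
        rw [hW₀] at hW0J
        linarith [f2.1, f0.2]
      exact_mod_cast k6
    · rw [if_neg (by omega)]
      obtain ⟨-, -, -, k1⟩ := W.wg.wb.g_num (k := 0) (l := r) (by omega) (by omega)
      have k2 := mulJ hru
      have k3 : ((g₀ 0 r : ℕ) : ℝ) ≤ J := by linarith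
      exact_mod_cast k3
  · have h4 : (p' : ℝ) ≤ J := by
      have h5 := mulJ hrm'
      have h6 : (0 : ℝ) ≤ sm := Nat.cast_nonneg _
      have h7 : (0 : ℝ) ≤ εQ := Nat.cast_nonneg _
      linarith
    exact_mod_cast h4
  · have ha2l : (a₂ : ℝ) * J - 1 ≤ (⌊(a₂ : ℝ) * J⌋₊ : ℝ) := by
      linarith [Nat.lt_floor_add_one ((a₂ : ℝ) * J)]
    have ha0 : ⌊o 0 * J⌋₊ + Q + 1 ≤ ⌊(a₂ : ℝ) * J⌋₊ := by
      refine Nat.le_floor ?_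
      push_cast
      rw [hQr]
      linarith [f2.1]
    rcases le_or_gt 0 ((Pool.CHT.bet P₂ c (r + 1) a₂ w₂ + h) * (J : ℝ)) with h4 | h4
    · have h5 : ((⌊(Pool.CHT.bet P₂ c (r + 1) a₂ w₂ + h) * J⌋₊ + (⌊o 0 * J⌋₊ + Q + 1) : ℕ) : ℝ) ≤
          ((p' + ⌊(a₂ : ℝ) * J⌋₊ : ℕ) : ℝ) := by
        push_cast
        have h6 := (Pool.V1E.flo h4).1
        have h7 := mulJ hlab
        rw [hQr]
        rw [hW₀] at hW0J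
        linarith [f2.1]
      exact_mod_cast h5
    · rw [Nat.floor_of_nonpos h4.le]
      omega
  · refine le_trans (mul_le_mul_of_nonneg_right hδlJ (Pool.K2S.Pe_nonneg F.isLaw B₂)) ?_
    linarith

end Pool.W.V1E
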