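import Pool.Agent.H73.D2.Tnl
import Pool.Agent.H31.W.H73.D2.Tmx
import Pool.Agent.H31.W.H73.D2.Tni
import Pool.Agent.H31.W.H73.D2.Tnj
import Pool.Agent.H31.W.H73.D2.Tnk
import Pool.Agent.H3.W.Bas
import Pool.Agent.H31.W1.H2.GEN.ChT

/-!
# The end for the target `N - P(p, u)` without the row label, at one scale

`x10u_q`, `x10u_fy`: as `x10n_qy`, `x10n_fy`, with a closed gradient.
-/

set_option autoImplicit false

namespace Pool.W.V1E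

open Pool.V1E

open Finset Real MvPolynomial
open Pool.Agent.H49.Ent Pool.Agent.H32.Dense Pool.STK Pool.KA Pool.KSAT Pool.K2S Pool.PB Pool.S6C
open Pool.GEN Pool.CHT Pool.CHX Pool.ISO Pool.D2R Pool.D2G30 Pool.END18 Pool.D2Con
open Pool.LBT (ThrOf)
open Pool.LEV (Law)
open Pool.NHN (NhNN nhNU_cls)

/-- **The end at one scale** for the target `N - P(p, u)`. -/
theorem x10u_q (m r S₂ : ℕ) (hr : 1 ≤ r) (hS₂ : 1 ≤ S₂) (su s : ℝ) (hsu : 1 ≤ su) (hs : 1 < s) :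
    ∃ D : ℕ, 1 ≤ D ∧ ∀ Dr : ℕ, D ≤ Dr → ∃ C : ℝ, 1 ≤ C ∧ ∀ Dw CT K' D' : ℕ, D ≤ Dw → 1 ≤ K' →
    (Dw + 1) * (Dw + 1) * ((Dw + 1) * (Dw + 1) + 1) ^ r ≤ K' → (Dw + 1) ^ (r + 4) ≤ D' →
    ∀ del : ℝ, 0 < del → ∃ δ : ℝ, 0 < δ ∧ δ ≤ 1 / 4 ∧ ∃ X₀ : ℝ, 0 < X₀ ∧
    ∀ h X : ℝ, 0 < h → 10 * (C * h) < X → X ≤ X₀ →
    ∀ {S : Pool.PB.PCl m} {P P₂ : List (Fin m) × Fin m → ℝ → ℝ → ℝ} {θ θ₂ : ℝ} {c : ℕ → Fin m}
    {Pt : ℝ → ℝ → ℝ} {R : ℕ → Prop} {N₁ N₂ : ℕ} {vw : ℕ → ℝ}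
    {y A k₁ K Eb e₂ ε q t κ κ₁ K₂ K₃ : ℝ} {Ξ : Pool.V1E.XiN m}
    {qf : ℕ → Fin r → ℕ},
    (∀ J F B g₀ G H Ht CL Cp, Ξ J F B g₀ G H Ht CL Cp →
      Pool.V1E.XiCl c r Dw CT (X * q) (s * q) (fun k => t + Pool.V1E.vG y k₁ vw k * q)
        (fun k l => Pool.ISO.lvN P c (r + 1) Pt l (t + Pool.V1E.vG y k₁ vw k * q) (t + Pool.V1E.vG y k₁ vw k * q))
        J F B g₀ G H Ht CL Cp) →
    Pool.W.V1E.RecNy S P P₂ θ θ₂ c r Pt R S₂ N₁ N₂ vw su s y A k₁ K Eb e₂ ε q t → 3 * C * ε < h →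
    (∀ (J : ℕ) (i : Fin r), ⌊s * q * J⌋₊ + (⌊(t + q) * J⌋₊ - ⌊t * J⌋₊) ≤ qf J i) →
    0 < κ₁ → 0 < K₃ → κ₁ * K₃ ≤ κ → 0 ≤ K₂ →
    Pool.W.V1E.SlHU S c r D Dw Dr N₁ N₂ R C (t + A * q) Eb (3 * ε * q) (h * q) (X * q) (s * q) Pt
      (fun k => t + Pool.V1E.vG y k₁ vw k * q)
      (fun k l => Pool.ISO.lvN P c (r + 1) Pt l (t + Pool.V1E.vG y k₁ vw k * q) (t + Pool.V1E.vG y k₁ vw k * q))
      (fun k l => Pool.CHT.bet P c l (t + A * q) (t + Pool.V1E.vG y k₁ vw k * q)) κ₁ K₃ Ξ →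
    Pool.W.V1E.HImNU S c r D Dw Dr K' D' N₁ N₂ R C (t + A * q) Eb (3 * ε * q) (h * q) (X * q) (s * q)
      Pt (fun k => t + Pool.V1E.vG y k₁ vw k * q)
      (fun k l => Pool.ISO.lvN P c (r + 1) Pt l (t + Pool.V1E.vG y k₁ vw k * q) (t + Pool.V1E.vG y k₁ vw k * q))
      (fun k l => Pool.CHT.bet P c l (t + A * q) (t + Pool.V1E.vG y k₁ vw k * q)) κ qf δ K₂ Ξ →
    Pt (t + q) (t + q) ≤ Pt (t + q) t + del * q := by
  obtain ⟨D, hD, hw⟩ := Pool.W.V1E.wg_con m (r + 1) S₂ (by omega) hS₂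
  refine ⟨D, hD, fun Dr hDr => ?_⟩
  obtain ⟨C, hC, hw⟩ := hw Dr hDr
  refine ⟨C, hC, fun Dw CT K' D' hDw hK' hDK hD1 del hdel => ?_⟩
  obtain ⟨δ, C', hδ, hδ4, hC', hx⟩ := Pool.W.V1E.x10u_con r Dw CT K' D' hr hK' hDK hD1
    (min (del / 4) (1 / 2)) (lt_min (by linarith) (by norm_num)) (min_le_right _ _)
  have hC0 : 0 < C := by linarith
  have hC'0 : 0 < C' := by linarith
  refine ⟨δ, hδ, hδ4, min (δ / (4 * C')) (min (del / (16 * C')) (min (1 / 4) ((s - 1) / 4))),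
    by have : 0 < s - 1 := by linarith
       positivity, fun h X hh hhX hX0 => ?_⟩
  have a1 : 4 * C' * X ≤ δ := by
    have := hX0.trans (min_le_left _ _)
    rw [le_div_iff₀ (by positivity)] at this
    linarith
  have a2 : 16 * C' * X ≤ del := by
    have := hX0.trans ((min_le_right _ _).trans (min_le_left _ _))
    rw [le_div_iff₀ (by positivity)] at this
    linarith
  have a3 : 4 * X ≤ 1 := by
    have := hX0.trans ((min_le_right _ _).trans ((min_le_right _ _).trans (min_le_left _ _)))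
    linarith
  have a4 : h ≤ C * h := le_mul_of_one_le_left hh.le hC
  have hXp : 0 < X := by
    have : 0 < C * h := by positivity
    linarith
  have a5 : X ≤ C' * X := le_mul_of_one_le_left hXp.le hC'
  intro S P P₂ θ θ₂ c Pt Rr N₁ N₂ vw y A k₁ K Eb e₂ ε q t κ κ₁ K₂ K₃ Ξ qf hXi R hε1 hqf hκ₁ hK₃ hκκ hK₂
    hSl hIm
  by_contra hcon
  push Not at hcon
  have hq := R.q0
  have hε0 := R.ε0
  have hkk := R.kk
  have hkK := R.kK
  obtain ⟨hy1, hyA, hsA⟩ := R.yA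
  have hsq : q < s * q := lt_mul_of_one_lt_left hq hs
  have hyq : 3 / 2 * q ≤ y * q := mul_le_mul_of_nonneg_right hy1 hq.le
  have hyAq : y * q + q / 2 ≤ A * q := by
    have := mul_le_mul_of_nonneg_right hyA hq.le
    linarith
  have hsAq : s * q + q ≤ A * q := by
    have := mul_le_mul_of_nonneg_right hsA hq.le
    linarith
  have hk1q : A * q + q ≤ k₁ * q := by
    have := mul_le_mul_of_nonneg_right hkk hq.le
    linarith
  have hKq : 2 * (A * q) + k₁ * q + 4 * q ≤ K * q := by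
    have := mul_le_mul_of_nonneg_right hkK hq.le
    linarith
  have hsy : s * q + y * q ≤ s * (y * q) + q := by
    have h1 : 0 ≤ (s - 1) * (y - 1) * q :=
      mul_nonneg (mul_nonneg (by linarith) (by linarith)) hq.le
    nlinarith
  have hsuy : su * q + y * q ≤ su * (y * q) + q := by
    have h1 : 0 ≤ (su - 1) * (y - 1) * q :=
      mul_nonneg (mul_nonneg (by linarith) (by linarith)) hq.le
    nlinarith
  have hεq : 0 ≤ ε * q := mul_nonneg hε0 hq.le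
  have hεq3 : 3 * (ε * q) ≤ h * q := by
    have h1 : ε ≤ C * ε := le_mul_of_one_le_left hε0 hC
    have := mul_le_mul_of_nonneg_right (show 3 * ε ≤ h by linarith) hq.le
    linarith
  have hhq : 0 < h * q := mul_pos hh hq
  have b1 : 4 * (C' * (X * q)) ≤ δ * q := by
    have := mul_le_mul_of_nonneg_right a1 hq.le
    linarith
  have b2 : 16 * (C' * (X * q)) ≤ del * q := by
    have := mul_le_mul_of_nonneg_right a2 hq.le
    linarith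
  have b3 : 4 * (X * q) ≤ q := by
    have := mul_le_mul_of_nonneg_right a3 hq.le
    linarith
  have b4 : h * q ≤ C * (h * q) := by
    have := mul_le_mul_of_nonneg_right a4 hq.le
    linarith
  have b5 : X * q ≤ C' * (X * q) := by
    have := mul_le_mul_of_nonneg_right a5 hq.le
    linarith
  have b6 : δ * q ≤ q / 4 := by
    have := mul_le_mul_of_nonneg_right hδ4 hq.le
    linarith
  have b7 : 10 * (C * (h * q)) < X * q := by
    have := mul_lt_mul_of_pos_right hhX hq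
    linarith
  have hdq : 0 < del * q := mul_pos hdel hq
  obtain ⟨o, ho⟩ : ∃ o : ℕ → ℝ, o = fun k => t + Pool.V1E.vG y k₁ vw k * q := ⟨_, rfl⟩
  have hoE : ∀ k, o k = t + Pool.V1E.vG y k₁ vw k * q := fun k => by rw [ho]
  have o2 : o 2 = t - k₁ * q := by rw [hoE 2]; simp [Pool.V1E.vG]; ring
  have o0 : o 0 = t := by rw [hoE 0]; simp [Pool.V1E.vG]
  have o3 : o 3 = t + q := by rw [hoE 3]; simp [Pool.V1E.vG]
  have o1 : o 1 = t + y * q := by rw [hoE 1]; simp [Pool.V1E.vG]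
  obtain ⟨a, ha⟩ : ∃ a : ℝ, a = t + A * q := ⟨_, rfl⟩
  have R1 : ∀ k ≤ N₁, Pool.W.ISO.WinD S P θ c (r + 1) Pt a (o k) S₂ Eb (3 * ε * q) Rr := fun k hk => by
    rw [hoE k, ha]
    exact R.win k hk
  have R2 : ∀ k ≤ N₁, o k ≤ Pt (o k) (o k) ∧ a ≤ Pt a (o k) := fun k hk => by
    rw [hoE k, ha]
    exact R.low k hk
  have R4 : ∀ k, N₁ < k → k ≤ N₂ → Pool.W.D2R.BalD S P θ c (r + 1) Pt a (o k) S₂ Eb := fun k hk hk' => by
    rw [hoE k, ha]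
    exact R.bal k hk hk'
  have R3 := R.stp
  have R5 := R.beu
  have hot : ∀ k, t + Pool.V1E.vG y k₁ vw k * q = o k := fun k => by rw [ho]
  have hot2 : (fun k => t + Pool.V1E.vG y k₁ vw k * q) = o := ho.symm
  rw [hot2] at hIm hSl hXi
  simp only [hot, ← ha] at R3 R5 hIm hSl hXi
  have hlr : ∀ x y : ℝ, Pool.ISO.lvN P c (r + 1) Pt (r + 1) x y = Pt x y := fun x y => by
    unfold Pool.ISO.lvN
    rw [if_neg (lt_irrefl (r + 1))]
  have hlb : ∀ l < r + 1, ∀ x y : ℝ, Pool.ISO.lvN P c (r + 1) Pt l x y = Pool.CHT.bet P c l x y := fun l hl x y => by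
    unfold Pool.ISO.lvN
    rw [if_pos hl]
  have hoM : ∀ k ≤ N₁, t - k₁ * q ≤ o k ∧ o k ≤ t + A * q - q / 2 := by
    intro k hk
    rcases Nat.lt_or_ge k 4 with h4 | h4
    · interval_cases k
      · rw [o0]; constructor <;> linarith
      · rw [o1]; constructor <;> linarith
      · rw [o2]; constructor <;> linarith
      · rw [o3]; constructor <;> linarith
    · have k1 := R.vwl k h4 hk
      have k2 := R.vw2 k h4 (hk.trans R.nn)
      rw [hoE k, Pool.V1E.vG_ge h4]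
      have k3 := mul_le_mul_of_nonneg_right k1 hq.le
      have k4 := mul_le_mul_of_nonneg_right k2 hq.le
      constructor <;> linarith
  have hoN : ∀ k ≤ N₂, o k ≤ t + A * q - q / 2 := by
    intro k hk
    rcases Nat.lt_or_ge k 4 with h4 | h4
    · interval_cases k
      · rw [o0]; linarith
      · rw [o1]; linarith
      · rw [o2]; linarith
      · rw [o3]; linarith
    · have k2 := R.vw2 k h4 hk
      rw [hoE k, Pool.V1E.vG_ge h4]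
      have k4 := mul_le_mul_of_nonneg_right k2 hq.le
      linarith
  have hbM : ∀ k ≤ N₁, |o k - t| ≤ K * q := fun k hk => by
    obtain ⟨k1, k2⟩ := hoM k hk
    rw [abs_le]
    constructor <;> linarith
  have hbx : ∀ k ≤ 3, |o k - t| ≤ K * q := by
    intro k hk
    rw [abs_le]
    interval_cases k
    · rw [o0]; constructor <;> linarith
    · rw [o1]; constructor <;> linarith
    · rw [o2]; constructor <;> linarith
    · rw [o3]; constructor <;> linarith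
  have hax : |a - t| ≤ K * q := by
    rw [abs_le, ha]
    constructor <;> linarith
  have ht0 := R.t0
  have ht1 := R.t1
  have hlt := R.lvr
  have e1 := abs_le.1 (hlt (o 3) (hbx 3 (by norm_num)))
  have e2 := abs_le.1 (hlt (o 1) (hbx 1 (by norm_num)))
  have e3 := abs_le.1 (R.lvu (o 3) (hbx 3 (by norm_num)))
  have e4 := abs_le.1 (R.lvu (o 1) (hbx 1 (by norm_num)))
  have hsuq : q ≤ su * q := le_mul_of_one_le_left hq.le hsu
  rw [o3] at e1 e3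
  rw [o1] at e2 e4
  have hrt := R.room (r + 1) le_rfl (t + q) (by rw [← o3]; exact hbx 3 (by norm_num))
  have hr1 := R.room (r + 1) le_rfl t (by rw [sub_self, abs_zero]; linarith)
  rw [hlr] at hrt hr1
  have hEb0 := R.Eb0
  have R20 := R2 0 (by omega)
  have R21 := R2 1 R.n1
  rw [o0] at R20
  rw [o1] at R21
  -- the windows
  obtain ⟨K₁, b, hK₁, hwg⟩ := hw (S := S) (P := P) (θ := θ) (c := c) (Pt := Pt) (R := Rr) (a := a)
    (Eb := Eb) (ε₀ := 3 * ε * q) (η₀ := h * q) (o := o) N₁ N₂ R.nn R.thr R.th0 R.tmh R.inj R.law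
    hEb0 R1 R4
    (by
      have := mul_lt_mul_of_pos_right hε1 hq
      linarith)
    (fun k hk => by
      obtain ⟨k1, k2⟩ := hoM k hk
      obtain ⟨k3, k4⟩ := R2 k hk
      rw [hlr]
      refine ⟨by linarith, by linarith, by linarith⟩)
    (fun k hk => by linarith [hoN k hk])
    (by linarith)
    (fun k hk l hl => by
      have := R.room l hl (o k) (hbM k hk)
      obtain ⟨k1, k2⟩ := hoM k hk
      linarith)
    (fun k hk l hl => by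
      have k0 := R.room l hl.le a hax
      obtain ⟨k1, k2⟩ := hoM k hk
      rw [hlb l hl] at k0
      have k3 : Pool.CHT.bet P c l a (o k) ≤ Pool.CHT.bet P c l a a := (R.thr.law _).mono_w a (o k) a (by linarith)
        (by linarith) le_rfl (by linarith)
      linarith)
  have hWg := Pool.W.V1E.wgcU_of (b := b) (κ := κ) hK₁.le hK₃ ((mul_pos hκ₁ hK₃).le.trans hκκ) hκκ
    (hwg κ₁ hκ₁) hSl
  -- the rational pair
  obtain ⟨d, hd, hrat⟩ := R.rat (del * q / 8) (by positivity)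
  have hmd : 0 < min d q := lt_min hd hq
  obtain ⟨a₂, ha1, ha2⟩ : ∃ x : ℚ, t + q < x ∧ (x : ℝ) < t + q + min d q :=
    exists_rat_btwn (by linarith)
  obtain ⟨w₂, hw1, hw2⟩ : ∃ x : ℚ, t < x ∧ (x : ℝ) < t + min d q :=
    exists_rat_btwn (by linarith)
  have md1 := min_le_left d q
  have md2 := min_le_right d q
  have hb := hrat a₂ w₂ ha1.le (by linarith) hw1.le (by linarith) (by linarith)
  refine hx (m := m) (S := S) (P₂ := P₂) (θ₂ := θ₂) (c := c) (Pt := Pt) (a := a)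
    (Eb := Eb) (ε₀ := 3 * ε * q) (η₀ := h * q) (χ := X * q) (mb := s * q) (κ := κ) (ζ := h * q)
    (h := del * q / 8) (e₂ := e₂) (K₁ := K₁ * K₃) (K₂ := K₂) (b := b)
    (o := o) (a₂ := a₂) (w₂ := w₂) (qf := qf)
    hXi R.n1 R.n3 hDw R.ne R.thr₂ R.tmh R.inj R.rgh hC hhq hEb0 ?_ ?_ ?_ ?_ ?_ ?_ ?_ ?_ ?_ ?_ hhq.le
    ?_ ?_ ?_ ?_ ?_ ?_ ?_ ?_ ?_ ?_ ?_ ?_ ?_ ?_ ?_ ?_ ?_ ?_ ?_ ?_ ?_ ?_
    ((mul_pos hκ₁ hK₃).trans_le hκκ)
    (mul_pos hK₁ hK₃) hK₂ hWg hIm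
  · rw [o2]; linarith
  · rw [o0]; linarith
  · rw [hlr, o0]; linarith
  · rw [hlr, o1]; linarith
  · rw [o1]; linarith
  · linarith
  · intro hR
    have := R5 hR
    rw [o1]
    linarith
  · rw [o2, o0, o3]; linarith
  · rw [o0, o3]; linarith
  · rw [o1, o3]; linarith
  · linarith
  · intro k hk j hj
    have k0 := abs_le.1 (R.lv j hj (o k) (hbx k hk))
    rw [o0, abs_le]
    constructor <;> linarith
  · rw [o0, o3]
    linarith
  · rw [o1, o3]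
    linarith
  · rw [hlr, hlr, o0, o3, abs_le]
    constructor <;> linarith
  · rw [hlr, hlr, o0, o3, o1]
    linarith
  · rw [hlr, o0, o3]
    linarith
  · rw [o0, o3]
    linarith
  · rw [o0]; exact hw1.le
  · rw [o3]; exact ha1
  · have : (w₂ : ℝ) ≤ a₂ := by linarith
    exact_mod_cast this
  · have : (a₂ : ℝ) ≤ ((1 : ℚ) : ℝ) := by
      push_cast
      linarith
    exact_mod_cast this
  · refine R.e₂θ w₂ ?_
    rw [abs_le]
    constructor <;> linarith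
  · positivity
  · linarith
  · have := R.Ebe
    linarith
  · intro l hl
    have k0 := R.room l (by omega) t (by rw [sub_self, abs_zero]; linarith)
    rw [o0, o3]
    linarith
  · have k0 := R.room r (by omega) t (by rw [sub_self, abs_zero]; linarith)
    rw [o0]
    linarith
  · rw [hlr, o0]
    linarith
  · rw [o0, o3]
    linarith
  · rw [hlr, o0, o3]
    have : min (del / 4) (1 / 2) * (t + q - t) ≤ del / 4 * q := by
      rw [add_sub_cancel_left]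
      exact mul_le_mul_of_nonneg_right (min_le_left _ _) hq.le
    linarith
  · intro J i
    rw [o0, o3]
    exact hqf J i

/-- **The end at one scale** for the target `N - P(p, u)`, from the slope hypothesis, the time line and
the velocity. -/
theorem x10u_fy (m r S₂ CM : ℕ) (hr : 1 ≤ r) (hS₂ : 1 ≤ S₂) (su s : ℝ) (hsu : 1 ≤ su)
    (hs : 1 < s) :
    ∃ D : ℕ, 1 ≤ D ∧ ∀ Dr : ℕ, D ≤ Dr → ∃ C : ℝ, 1 ≤ C ∧ ∀ Dw CT : ℕ, D ≤ Dw →
    ∀ del : ℝ, 0 < del → ∃ δ C' : ℝ, 0 < δ ∧ δ ≤ 1 ∧ 1 ≤ C' ∧ ∃ X₀ : ℝ, 0 < X₀ ∧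
    ∀ h X : ℝ, 0 < h → 10 * (C * h) < X → X ≤ X₀ →
    ∀ {S : Pool.PB.PCl m} {P P₂ : List (Fin m) × Fin m → ℝ → ℝ → ℝ} {θ θ₂ : ℝ} {c : ℕ → Fin m}
    {Pt : ℝ → ℝ → ℝ} {R : ℕ → Prop} {N₁ N₂ d : ℕ} {vw : ℕ → ℝ}
    {y A k₁ K Eb e₂ ε q t kk κ κ₁ K₂ K₃ : ℝ} {Ξ : Pool.V1E.XiN m} {qf : ℕ → Fin r → ℕ}
    {nt : ℕ → ℝ} {P₁ P₃ : Fin r → ℝ} {oo : ℝ} {fr : ℕ → ℝ} {hT κT : ℝ}
    {aq : ℚ} {e₃ h₃ gn : ℝ},
    (∀ J F B g₀ G H Ht CL Cp, Ξ J F B g₀ G H Ht CL Cp →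
      Pool.V1E.XiCl c r Dw CT (X * q) (s * q) (fun k => t + Pool.V1E.vG y k₁ vw k * q)
        (fun k l => Pool.ISO.lvN P c (r + 1) Pt l (t + Pool.V1E.vG y k₁ vw k * q) (t + Pool.V1E.vG y k₁ vw k * q))
        J F B g₀ G H Ht CL Cp) →
    Pool.W.V1E.RecNy S P P₂ θ θ₂ c r Pt R S₂ N₁ N₂ vw su s y A k₁ K Eb e₂ ε q t → 3 * C * ε < h →
    (∀ (J : ℕ) (i : Fin r), ⌊s * q * J⌋₊ + (⌊(t + q) * J⌋₊ - ⌊t * J⌋₊) ≤ qf J i) →
    0 < κ₁ → 0 < K₃ → κ₁ * K₃ ≤ κ → 0 < K₂ → d ≤ N₂ →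
    Pool.W.V1E.SlHU S c r D Dw Dr N₁ N₂ R C (t + A * q) Eb (3 * ε * q) (h * q) (X * q) (s * q) Pt
      (fun k => t + Pool.V1E.vG y k₁ vw k * q)
      (fun k l => Pool.ISO.lvN P c (r + 1) Pt l (t + Pool.V1E.vG y k₁ vw k * q) (t + Pool.V1E.vG y k₁ vw k * q))
      (fun k l => Pool.CHT.bet P c l (t + A * q) (t + Pool.V1E.vG y k₁ vw k * q)) κ₁ K₃ Ξ →
    Pool.W.V1E.VfNU S c r D Dw Dr N₁ N₂ R C (t + A * q) Eb (3 * ε * q) (h * q) (X * q) (s * q) kk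
      Pt (fun k => t + Pool.V1E.vG y k₁ vw k * q)
      (fun k l => Pool.ISO.lvN P c (r + 1) Pt l (t + Pool.V1E.vG y k₁ vw k * q) (t + Pool.V1E.vG y k₁ vw k * q))
      (fun k l => Pool.CHT.bet P c l (t + A * q) (t + Pool.V1E.vG y k₁ vw k * q)) κ qf δ K₂ Ξ →
    Pool.W.V1E.TlW S c r nt P₁ P₃ (t + Pool.V1E.vG y k₁ vw 2 * q) (t + Pool.V1E.vG y k₁ vw 0 * q) (t + Pool.V1E.vG y k₁ vw 3 * q) oo fr
      hT κT →
    Pool.V1E.HnN r CM Eb (h * q) (X * q) (s * q) kk (h * q) δ C' (fun k => t + Pool.V1E.vG y k₁ vw k * q)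
      (fun k l => Pool.ISO.lvN P c (r + 1) Pt l (t + Pool.V1E.vG y k₁ vw k * q) (t + Pool.V1E.vG y k₁ vw k * q)) qf nt P₁ P₃ oo
      fr hT κT →
    Pool.NHN.NhNN r d P₂ c θ₂ C Eb (h * q) (h * q) (X * q) δ C' (fun k => t + Pool.V1E.vG y k₁ vw k * q)
      (fun k l => Pool.ISO.lvN P c (r + 1) Pt l (t + Pool.V1E.vG y k₁ vw k * q) (t + Pool.V1E.vG y k₁ vw k * q)) aq e₃ h₃ gn →
    Pt (t + q) (t + q) ≤ Pt (t + q) t + del * q := by
  obtain ⟨D, hD, hx⟩ := Pool.W.V1E.x10u_q m r S₂ hr hS₂ su s hsu hs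
  refine ⟨D, hD, fun Dr hDr => ?_⟩
  obtain ⟨C, hC, hx⟩ := hx Dr hDr
  refine ⟨C, hC, fun Dw CT hDw del hdel => ?_⟩
  have hK' : 1 ≤ (Dw + 1) * (Dw + 1) * ((Dw + 1) * (Dw + 1) + 1) ^ r :=
    Nat.succ_le_of_lt (by positivity)
  obtain ⟨δ₁, hδ₁, hδ₁4, X₀, hX₀, hx⟩ := hx Dw CT _ _ hDw hK' le_rfl le_rfl del hdel
  obtain ⟨δ, C₁, hδ, hδ1, hC₁, hhi⟩ := Pool.W.V1E.him_nu Dw r CT _ _ CM hr hK' le_rfl le_rfl hδ₁
  obtain ⟨C₂, hC₂, hnh⟩ := Pool.W.NHN.nhNU_cls Dw r hr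
  refine ⟨δ, max C₁ C₂, hδ, hδ1, hC₁.trans (le_max_left _ _), X₀, hX₀, ?_⟩
  intro h X hh hhX hX S P P₂ θ θ₂ c Pt R N₁ N₂ d vw y A k₁ K Eb e₂ ε q t kk κ κ₁ K₂ K₃ Ξ qf nt P₁ P₃ oo
    fr hT κT aq e₃ h₃ gn hXi Rc hε hqf hκ₁ hK₃ hκκ hK₂ hd hSl hVf hTl Hn Nh
  have hκ : 0 < κ := (mul_pos hκ₁ hK₃).trans_le hκκ
  have htm := fun (ψ : ℝ) (hψ : 0 < ψ) => Pool.V1E.tmh_cond Rc.tmh hψ
  exact hx h X hh hhX hX hXi Rc hε hqf hκ₁ hK₃ hκκ hK₂.le hSl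
    (hhi hXi htm hTl (hnh hd Rc.thr₂ htm (Nh.mono (le_max_right _ _))) hVf hK₂ hκ.le le_rfl
      (Hn.mono (le_max_left _ _)))

end Pool.W.V1E
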