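import Pool.Agent.H73.D2.Tnm
import Pool.Agent.H31.W.H73.D2.Tmh
import Pool.Agent.H31.W.H73.D2.Tnc
import Pool.Agent.H31.W1.H80.GEN.Chn

/-!
# The closed gradient of the target `N - P(p, u)` from closed labels of the tubes of `u`

`TuH`: closed polynomials of the window whose derivatives in the directions of the frame are near those
of the thin chart of `u`. `nvp_ddU`: the row label of `N` in the natural directions with a free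
`u`-component. `nwTU`: the closed gradient, `nu_clo`: it is a closed gradient `ClU`.
-/

set_option autoImplicit false

namespace Pool.W.V1E

open Pool.V1E

open Finset Real MvPolynomial
open Pool.KA Pool.KSAT Pool.PB Pool.GEN Pool.D2R Pool.D2G30 Pool.ISO Pool.CHT Pool.CHX
open Pool.PB.Trl (rt rt_mem t_rt)
open Pool.K2S (Sub)


/-- **The row label of `N`** in the natural directions with a free `u`-component. -/
theorem nvp_ddU (D r : ℕ) : ∃ C : ℕ, ∀ {m J : ℕ} {F : Pool.KA.Fam m J} {c : ℕ → Fin m}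
    {n M ar MB q₀ Q x p e su : ℕ} {s : ℕ → ℕ} {qe : Fin r → ℕ} {o : ℕ → ℕ}
    {z g gc gT g₀ : ℕ → ℕ → ℕ} {B : F.Ω → Prop}
    {G T : ℕ → Pool.GEN.PtT F → ℕ → MvPolynomial (Option (Fin m)) ℝ}
    {H TH : ℕ → Pool.GEN.LnT F → ℕ → MvPolynomial (Option (Fin m)) ℝ}
    {Ht : Pool.GEN.LnT F → MvPolynomial (Option (Fin m)) ℝ},
    Pool.W.V1E.NvP F c r D n M ar MB q₀ Q x p e su s qe o z g gc gT g₀ B G T H TH Ht → ∀ ω, B ω →
    ∀ V : Option (Fin m) → ℝ, V none = 0 →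
    (∀ j < r, |V (some (c j)) - Pool.D2R.dd (G 0 (Pool.PB.ptr F J ω) j) (Pool.GEN.bt F ω) V| ≤ 1 / 2 ^ s j) →
    ∀ v : ℝ, |v - Pool.D2R.dd (TH 3 (Pool.KSAT.slam F (o 3) ω) r) (Pool.GEN.bt F ω) V| ≤ 2 ^ x * 2 ^ (ar - o 1) / 2 ^ gT 3 r →
    Pool.D2R.nrm c (G 2 (Pool.PB.ptr F J ω)) (g₀ 2) (o 2) r (Pool.GEN.bt F ω) V ≤ 2 ^ (C * (x + 1)) * 2 ^ Q ∧
    |v - Pool.D2R.dd (G 2 (Pool.PB.ptr F J ω) r) (Pool.GEN.bt F ω) V| ≤ 2 ^ (C * (x + 1)) * 2 ^ Q / 2 ^ g₀ 2 r ∧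
    |Pool.D2R.dd (Ht (Pool.KSAT.slam F (o 1) ω)) (Pool.GEN.bt F ω) (Pool.V1E.up (c r) V v) -
      Pool.D2R.dd (G 2 (Pool.PB.ptr F J ω) (r + 1)) (Pool.GEN.bt F ω) (Pool.V1E.up (c r) V v)| ≤
      2 ^ (C * (x + 1)) / 2 ^ (s r + (MB - Q)) := by
  obtain ⟨C₁, hnn⟩ := Pool.W.V1E.nvp_nrm D r
  obtain ⟨C₂, hbd⟩ := Pool.W.D2R.bale_dd D (r + 1)
  obtain ⟨C₃, hdd⟩ := Pool.W.V1E.nvp_dd D r
  refine ⟨C₁ + C₂ + C₃ + 12, ?_⟩
  intro m J F c n M ar MB q₀ Q x p e su s qe o z g gc gT g₀ B G T H TH Ht W ω hω V hV0 hV v hv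
  obtain ⟨n2, n3, nT, nu⟩ := hnn W ω hω V hV0 hV
  obtain ⟨-, -, kT2, -⟩ := hdd W ω hω V hV0 hV
  have hn3 := W.n3
  have ho1 := W.o1
  have ho2 := W.o2
  have ho3 := W.o3
  have hoa := W.oa
  have h3J := W.oJ
  have hQM := W.QM
  have hu3 := W.u3
  have hu4 := W.u4
  have hu5 := W.u5
  obtain ⟨q23, hq23, hz23⟩ := W.z23
  obtain ⟨Y₁, hY₁⟩ : ∃ Y₁ : ℝ, Y₁ = 2 ^ (C₁ * (x + 1)) := ⟨_, rfl⟩
  rw [← hY₁] at n2 n3 nT nu
  have hY10 : 0 < Y₁ := by rw [hY₁]; positivity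
  obtain ⟨Y, hY⟩ : ∃ Y : ℝ, Y = 2 ^ ((C₁ + C₂ + C₃ + 12) * (x + 1)) := ⟨_, rfl⟩
  rw [← hY]
  have hU0 : (0 : ℝ) ≤ 2 ^ x := by positivity
  have hpw : ∀ {k : ℕ}, k ≤ (C₁ + C₂ + C₃ + 12) * (x + 1) → (2 : ℝ) ^ k ≤ Y := fun hk => by
    rw [hY]
    exact pow_le_pow_right₀ (by norm_num) hk
  obtain ⟨aT, haT⟩ : ∃ aT : ℝ, aT = Pool.D2R.dd (TH 3 (Pool.KSAT.slam F (o 3) ω) r) (Pool.GEN.bt F ω) V := ⟨_, rfl⟩
  rw [← haT] at hv kT2 nu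
  -- the `u`-component in the ball
  have hv3 : 2 ^ g₀ 3 r * |v - aT| ≤ 2 ^ (3 * x) * 2 ^ (o 3 - o 1) := by
    refine (mul_le_mul_of_nonneg_left hv (by positivity)).trans ?_
    have h1 : (2 : ℝ) ^ (g₀ 3 r + (ar - o 1)) / 2 ^ gT 3 r ≤ 2 ^ (2 * x + (o 3 - o 1)) :=
      Pool.V1E.p2_div (by omega)
    calc 2 ^ g₀ 3 r * (2 ^ x * 2 ^ (ar - o 1) / 2 ^ gT 3 r) =
        2 ^ x * (2 ^ (g₀ 3 r + (ar - o 1)) / 2 ^ gT 3 r) := by
          rw [pow_add]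
          ring
      _ ≤ 2 ^ x * 2 ^ (2 * x + (o 3 - o 1)) := mul_le_mul_of_nonneg_left h1 hU0
      _ = _ := by
          rw [← pow_add, ← pow_add]
          congr 1
          ring
  have hv2 : |v - aT| ≤ 2 ^ (4 * x) * 2 ^ Q / 2 ^ g₀ 2 r := by
    refine hv.trans ?_
    rw [← pow_add, ← pow_add]
    exact Pool.V1E.p2_le' (by omega)
  obtain ⟨Y₅, hY₅⟩ : ∃ Y₅ : ℝ, Y₅ = 2 * Y₁ + 2 ^ (3 * x) := ⟨_, rfl⟩
  have hY50 : 0 < Y₅ := by rw [hY₅]; positivity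
  have hY5 : Y₅ ≤ 2 ^ ((C₁ + 5) * (x + 1)) := by
    have h1 : Y₁ ≤ 2 ^ ((C₁ + 3) * (x + 1)) := by
      rw [hY₁]
      exact pow_le_pow_right₀ (by norm_num) (Nat.mul_le_mul_right _ (by omega))
    have h2 : (2 : ℝ) ^ (3 * x) ≤ 2 ^ ((C₁ + 3) * (x + 1)) :=
      pow_le_pow_right₀ (by norm_num) (by nlinarith)
    have h3 : (2 : ℝ) ^ ((C₁ + 3) * (x + 1) + 2) ≤ 2 ^ ((C₁ + 5) * (x + 1)) :=
      pow_le_pow_right₀ (by norm_num) (by nlinarith)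
    rw [pow_add] at h3
    rw [hY₅]
    linarith [show (0 : ℝ) < 2 ^ ((C₁ + 3) * (x + 1)) by positivity]
  refine ⟨n2.trans (mul_le_mul_of_nonneg_right (by
    rw [hY₁]
    exact hpw (by nlinarith)) (by positivity)), ?_, ?_⟩
  · have e1 : v - Pool.D2R.dd (G 2 (Pool.PB.ptr F J ω) r) (Pool.GEN.bt F ω) V =
        (v - aT) + (aT - Pool.D2R.dd (G 2 (Pool.PB.ptr F J ω) r) (Pool.GEN.bt F ω) V) := by ring
    rw [e1]
    refine (abs_add_le _ _).trans ((add_le_add hv2 kT2).trans ?_)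
    rw [← add_div, ← add_mul]
    refine div_le_div_of_nonneg_right (mul_le_mul_of_nonneg_right ?_ (by positivity))
      (by positivity)
    have h1 : (2 : ℝ) ^ (4 * x) ≤ 2 ^ ((C₃ + 4) * (x + 1)) :=
      pow_le_pow_right₀ (by norm_num) (by nlinarith)
    have h2 : (2 : ℝ) ^ (C₃ * (x + 1)) ≤ 2 ^ ((C₃ + 4) * (x + 1)) :=
      pow_le_pow_right₀ (by norm_num) (Nat.mul_le_mul_right _ (by omega))
    have h3 := hpw (k := (C₃ + 4) * (x + 1) + 1) (by nlinarith)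
    rw [pow_succ] at h3
    linarith
  -- the row label
  obtain ⟨U, hU⟩ : ∃ U, U = Pool.V1E.up (c r) V v := ⟨_, rfl⟩
  rw [← hU]
  have hUn : U none = V none := by rw [hU, Pool.V1E.up_none]
  have hUl : ∀ l < r, U (some (c l)) = V (some (c l)) := fun l hl => by
    rw [hU]
    exact Pool.V1E.up_ne (fun he => by
      have := W.hc1 (Set.mem_Iio.2 (show l < r + 1 by omega))
        (Set.mem_Iio.2 (Nat.lt_succ_self r)) he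
      omega) _ _
  have hUr : U (some (c r)) = v := by rw [hU, Pool.V1E.up_self]
  have hdU : ∀ {R : MvPolynomial (Option (Fin m)) ℝ}, Pool.GEN.DepC c r R →
      Pool.D2R.dd R (Pool.GEN.bt F ω) U = Pool.D2R.dd R (Pool.GEN.bt F ω) V := fun hR => Pool.D2R.dd_congr hR _ hUn hUl
  have hnS : ∀ (ψ : ℕ → MvPolynomial (Option (Fin m)) ℝ) (g' : ℕ → ℕ) (a : ℕ),
      (∀ l, Pool.GEN.DepC c l (ψ l)) → Pool.D2R.nrm c ψ g' a (r + 1) (Pool.GEN.bt F ω) U =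
        Pool.D2R.nrm c ψ g' a r (Pool.GEN.bt F ω) V + 2 ^ g' r * |v - Pool.D2R.dd (ψ r) (Pool.GEN.bt F ω) V| := by
    intro ψ g' a hψ
    rw [← Pool.V1E.nrm_congr hψ hUn hUl]
    unfold Pool.D2R.nrm
    rw [Finset.sum_range_succ, add_assoc, hUr, hdU (hψ r)]
  have hNT : Pool.D2R.nrm c (TH 3 (Pool.KSAT.slam F (o 3) ω)) (gT 3) ar (r + 1) (Pool.GEN.bt F ω) U ≤
      Y₅ * 2 ^ (ar - o 1) := by
    rw [hnS _ _ _ (W.thin.depH _), ← haT]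
    have h1 : 2 ^ gT 3 r * |v - aT| ≤ 2 ^ x * 2 ^ (ar - o 1) := by
      rw [le_div_iff₀ (by positivity)] at hv
      linarith
    have h2 : (2 : ℝ) ^ x ≤ 2 ^ (3 * x) := pow_le_pow_right₀ (by norm_num) (by omega)
    have h3 := mul_le_mul_of_nonneg_right h2 (show (0 : ℝ) ≤ 2 ^ (ar - o 1) by positivity)
    have h4 : 0 < Y₁ * 2 ^ (ar - o 1) := by positivity
    rw [hY₅]
    linarith
  have hN3 : Pool.D2R.nrm c (G 3 (Pool.PB.ptr F J ω)) (g₀ 3) (o 3) (r + 1) (Pool.GEN.bt F ω) U ≤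
      Y₅ * 2 ^ (o 3 - o 1) := by
    rw [hnS _ _ _ (W.pG 3 _)]
    have h1 : 2 ^ g₀ 3 r * |aT - Pool.D2R.dd (G 3 (Pool.PB.ptr F J ω) r) (Pool.GEN.bt F ω) V| ≤
        Y₁ * 2 ^ (o 3 - o 1) := by
      rw [le_div_iff₀ (by positivity)] at nu
      linarith
    have h2 : |v - Pool.D2R.dd (G 3 (Pool.PB.ptr F J ω) r) (Pool.GEN.bt F ω) V| ≤ |v - aT| +
        |aT - Pool.D2R.dd (G 3 (Pool.PB.ptr F J ω) r) (Pool.GEN.bt F ω) V| := by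
      have e1 : v - Pool.D2R.dd (G 3 (Pool.PB.ptr F J ω) r) (Pool.GEN.bt F ω) V =
        (v - aT) + (aT - Pool.D2R.dd (G 3 (Pool.PB.ptr F J ω) r) (Pool.GEN.bt F ω) V) := by ring
      rw [e1]
      exact abs_add_le _ _
    have h3 := mul_le_mul_of_nonneg_left h2 (show (0 : ℝ) ≤ 2 ^ g₀ 3 r by positivity)
    rw [hY₅]
    linarith
  have har : o 3 + (ar - o 3) = ar := by omega
  have d1 : |Pool.D2R.dd (Ht (Pool.KSAT.slam F (o 1) ω)) (Pool.GEN.bt F ω) U -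
      Pool.D2R.dd (Pool.GEN.Hno (c (r + 1)) (fun s => H 3 s (r + 1)) (Pool.KSAT.slam F (o 3) ω)) (Pool.GEN.bt F ω) U| ≤
      2 ^ x / 2 ^ p * (Y₅ * 2 ^ (ar - o 1)) := by
    have h1 := W.ro.win ω hω (Pool.PB.Trl.rt F (o 3) ω) (Pool.PB.Trl.rt_mem F (o 3) ω) U
    rw [Pool.D2R.ptw_rt F h3J, Pool.D2R.dd_sub, har] at h1
    exact h1.trans (mul_le_mul_of_nonneg_left hNT (by positivity))
  have d2 : |Pool.D2R.dd (Pool.GEN.Hno (c (r + 1)) (fun s => H 3 s (r + 1)) (Pool.KSAT.slam F (o 3) ω)) (Pool.GEN.bt F ω) U -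
      Pool.D2R.dd (G 3 (Pool.PB.ptr F J ω) (r + 1)) (Pool.GEN.bt F ω) U| ≤
      2 ^ x / 2 ^ g₀ 3 (r + 1) * (Y₅ * 2 ^ (o 3 - o 1)) := by
    have h1 := (W.ro.dif ω hω (r + 1) le_rfl).1 U
    rw [Pool.D2R.dd_sub] at h1
    exact h1.trans (mul_le_mul_of_nonneg_left hN3 (by positivity))
  have d3 : |Pool.D2R.dd (G 2 (Pool.PB.ptr F J ω) (r + 1)) (Pool.GEN.bt F ω) U -
      Pool.D2R.dd (G 3 (Pool.PB.ptr F J ω) (r + 1)) (Pool.GEN.bt F ω) U| ≤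
      2 ^ C₂ * 2 ^ x / 2 ^ min (g 2 (r + 1) + (o 3 - o 2)) (g₀ 3 (r + 1)) *
        (Y₅ * 2 ^ (o 3 - o 1)) := by
    have h1 := hbd W.hc1 W.bal hU0 (show 2 ≤ n by omega) (show 3 ≤ n by omega) hq23 (by omega) hz23
      (W.dG 2) (W.pG 2) W.ch3 ω hω (r + 1) le_rfl U
    exact h1.trans (mul_le_mul_of_nonneg_left hN3 (by positivity))
  have g1 : (2 : ℝ) ^ (ar - o 1) / 2 ^ p ≤ 2 ^ x / 2 ^ (s r + (MB - Q)) := by
    refine Pool.V1E.p2_le' ?_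
    have := W.mp
    omega
  have g2 : (2 : ℝ) ^ (o 3 - o 1) / 2 ^ g₀ 3 (r + 1) ≤ 2 ^ x / 2 ^ (s r + (MB - Q)) := by
    refine Pool.V1E.p2_le' ?_
    have := W.m3
    omega
  have g3 : (2 : ℝ) ^ (o 3 - o 1) / 2 ^ min (g 2 (r + 1) + (o 3 - o 2)) (g₀ 3 (r + 1)) ≤
      2 ^ x / 2 ^ (s r + (MB - Q)) := by
    refine Pool.V1E.p2_le' ?_
    have := W.m3
    have := W.m2'
    rcases le_total (g 2 (r + 1) + (o 3 - o 2)) (g₀ 3 (r + 1)) with h | h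
    · rw [min_eq_left h]
      omega
    · rw [min_eq_right h]
      omega
  obtain ⟨ι, hι⟩ : ∃ ι : ℝ, ι = 1 / 2 ^ (s r + (MB - Q)) := ⟨_, rfl⟩
  have hι0 : 0 < ι := by rw [hι]; positivity
  have hxι : (2 : ℝ) ^ x / 2 ^ (s r + (MB - Q)) = 2 ^ x * ι := by rw [hι]; ring
  rw [hxι] at g1 g2 g3
  have hYι : 0 < Y₅ * ι := by positivity
  have hxx : (2 : ℝ) ^ (x + x) ≤ 2 ^ (C₂ + x + x) :=
    pow_le_pow_right₀ (by norm_num) (by omega)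
  have d1' : |Pool.D2R.dd (Ht (Pool.KSAT.slam F (o 1) ω)) (Pool.GEN.bt F ω) U -
      Pool.D2R.dd (Pool.GEN.Hno (c (r + 1)) (fun s => H 3 s (r + 1)) (Pool.KSAT.slam F (o 3) ω)) (Pool.GEN.bt F ω) U| ≤
      2 ^ (C₂ + x + x) * (Y₅ * ι) := by
    refine d1.trans ?_
    calc 2 ^ x / 2 ^ p * (Y₅ * 2 ^ (ar - o 1)) = 2 ^ x * Y₅ * (2 ^ (ar - o 1) / 2 ^ p) := by ring
      _ ≤ 2 ^ x * Y₅ * (2 ^ x * ι) := mul_le_mul_of_nonneg_left g1 (by positivity)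
      _ = 2 ^ (x + x) * (Y₅ * ι) := by rw [pow_add]; ring
      _ ≤ 2 ^ (C₂ + x + x) * (Y₅ * ι) := mul_le_mul_of_nonneg_right hxx hYι.le
  have d2' : |Pool.D2R.dd (Pool.GEN.Hno (c (r + 1)) (fun s => H 3 s (r + 1)) (Pool.KSAT.slam F (o 3) ω)) (Pool.GEN.bt F ω) U -
      Pool.D2R.dd (G 3 (Pool.PB.ptr F J ω) (r + 1)) (Pool.GEN.bt F ω) U| ≤ 2 ^ (C₂ + x + x) * (Y₅ * ι) := by
    refine d2.trans ?_
    calc 2 ^ x / 2 ^ g₀ 3 (r + 1) * (Y₅ * 2 ^ (o 3 - o 1)) =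
        2 ^ x * Y₅ * (2 ^ (o 3 - o 1) / 2 ^ g₀ 3 (r + 1)) := by ring
      _ ≤ 2 ^ x * Y₅ * (2 ^ x * ι) := mul_le_mul_of_nonneg_left g2 (by positivity)
      _ = 2 ^ (x + x) * (Y₅ * ι) := by rw [pow_add]; ring
      _ ≤ 2 ^ (C₂ + x + x) * (Y₅ * ι) := mul_le_mul_of_nonneg_right hxx hYι.le
  have d3' : |Pool.D2R.dd (G 2 (Pool.PB.ptr F J ω) (r + 1)) (Pool.GEN.bt F ω) U -
      Pool.D2R.dd (G 3 (Pool.PB.ptr F J ω) (r + 1)) (Pool.GEN.bt F ω) U| ≤ 2 ^ (C₂ + x + x) * (Y₅ * ι) := by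
    refine d3.trans ?_
    calc 2 ^ C₂ * 2 ^ x / 2 ^ min (g 2 (r + 1) + (o 3 - o 2)) (g₀ 3 (r + 1)) *
        (Y₅ * 2 ^ (o 3 - o 1)) = 2 ^ C₂ * 2 ^ x * Y₅ * (2 ^ (o 3 - o 1) /
          2 ^ min (g 2 (r + 1) + (o 3 - o 2)) (g₀ 3 (r + 1))) := by ring
      _ ≤ 2 ^ C₂ * 2 ^ x * Y₅ * (2 ^ x * ι) := mul_le_mul_of_nonneg_left g3 (by positivity)
      _ = _ := by
          simp only [pow_add]
          ring
  have e0 : Pool.D2R.dd (Ht (Pool.KSAT.slam F (o 1) ω)) (Pool.GEN.bt F ω) U - Pool.D2R.dd (G 2 (Pool.PB.ptr F J ω) (r + 1)) (Pool.GEN.bt F ω) U =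
      (Pool.D2R.dd (Ht (Pool.KSAT.slam F (o 1) ω)) (Pool.GEN.bt F ω) U -
        Pool.D2R.dd (Pool.GEN.Hno (c (r + 1)) (fun s => H 3 s (r + 1)) (Pool.KSAT.slam F (o 3) ω)) (Pool.GEN.bt F ω) U) +
      (Pool.D2R.dd (Pool.GEN.Hno (c (r + 1)) (fun s => H 3 s (r + 1)) (Pool.KSAT.slam F (o 3) ω)) (Pool.GEN.bt F ω) U -
        Pool.D2R.dd (G 3 (Pool.PB.ptr F J ω) (r + 1)) (Pool.GEN.bt F ω) U) -
      (Pool.D2R.dd (G 2 (Pool.PB.ptr F J ω) (r + 1)) (Pool.GEN.bt F ω) U -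
        Pool.D2R.dd (G 3 (Pool.PB.ptr F J ω) (r + 1)) (Pool.GEN.bt F ω) U) := by ring
  rw [e0]
  refine (abs_sub _ _).trans ((add_le_add ((abs_add_le _ _).trans (add_le_add d1' d2')) d3').trans
    ?_)
  have e2 : Y / 2 ^ (s r + (MB - Q)) = Y * ι := by rw [hι]; ring
  rw [e2]
  have h4 : 2 ^ (C₂ + x + x) * (Y₅ * ι) + 2 ^ (C₂ + x + x) * (Y₅ * ι) +
      2 ^ (C₂ + x + x) * (Y₅ * ι) ≤ (2 ^ (C₂ + x + x + 2) * Y₅) * ι := by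
    rw [pow_add _ _ 2]
    have : 0 < 2 ^ (C₂ + x + x) * (Y₅ * ι) := by positivity
    linarith
  refine h4.trans (mul_le_mul_of_nonneg_right ?_ hι0.le)
  calc (2 : ℝ) ^ (C₂ + x + x + 2) * Y₅ ≤ 2 ^ (C₂ + x + x + 2) * 2 ^ ((C₁ + 5) * (x + 1)) :=
        mul_le_mul_of_nonneg_left hY5 (by positivity)
    _ = 2 ^ (C₂ + x + x + 2 + (C₁ + 5) * (x + 1)) := by rw [← pow_add]
    _ ≤ Y := hpw (by nlinarith)


/-- **The closed gradient** from closed labels of the tubes of `u`. -/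
theorem nu_clo (D r : ℕ) : ∃ C : ℕ, ∀ {m J : ℕ} {F : Pool.KA.Fam m J} {c : ℕ → Fin m}
    {n M ar MB q₀ Q x p e su : ℕ} {s : ℕ → ℕ} {qe : Fin r → ℕ} {o : ℕ → ℕ}
    {z g gc gT g₀ : ℕ → ℕ → ℕ} {B : F.Ω → Prop}
    {G T : ℕ → Pool.GEN.PtT F → ℕ → MvPolynomial (Option (Fin m)) ℝ}
    {H TH : ℕ → Pool.GEN.LnT F → ℕ → MvPolynomial (Option (Fin m)) ℝ}
    {Ht CL : Pool.GEN.LnT F → MvPolynomial (Option (Fin m)) ℝ}
    {Cp : Pool.GEN.PtT F → MvPolynomial (Option (Fin m)) ℝ},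
    Pool.W.V1E.NwDU F c r D n M ar MB q₀ Q x p e su s qe o z g gc gT g₀ B G T H TH Ht CL Cp →
    Pool.V1E.TuH F c s r D ar x o gT B G TH → Pool.V1E.ClU F c s r D C MB Q x o B G Cp := by
  obtain ⟨C₁, hdd⟩ := Pool.W.V1E.nvp_ddU D r
  obtain ⟨C₂, hC₂, hh⟩ := Pool.W.V1E.nu_h D r
  obtain ⟨C₃, hC₃⟩ := pow_unbounded_of_one_lt C₂ (one_lt_two (α := ℝ))
  refine ⟨2 * C₁ + C₃ + 6, ?_⟩
  intro m J F c n M ar MB q₀ Q x p e su s qe o z g gc gT g₀ B G T H TH Ht CL Cp W WU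
  obtain ⟨TU, dTU, pTU, hTU⟩ := WU
  have hpd : ∀ L l, Pool.GEN.DepC c l (Pool.V1E.puU r (H 1) TU L l) := by
    intro L l
    unfold Pool.V1E.puU
    by_cases h : l = r
    · rw [h, Function.update_self]
      exact pTU L
    · rw [Function.update_of_ne h]
      exact W.pH 1 L l
  have hpD : ∀ L l, (Pool.V1E.puU r (H 1) TU L l).totalDegree ≤ D := by
    intro L l
    unfold Pool.V1E.puU
    by_cases h : l = r
    · rw [h, Function.update_self]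
      exact dTU L
    · rw [Function.update_of_ne h]
      exact W.dH 1 L l
  have hpr : ∀ L, Pool.V1E.puU r (H 1) TU L r = TU L := fun L => Function.update_self _ _ _
  refine ⟨Pool.V1E.nwTU F c s r (o 1) q₀ (H 0) (H 1) Ht CL TU, ?_, ?_⟩
  · intro L i
    unfold Pool.V1E.nwTU
    refine (Polynomial.natDegree_C_mul_le _ _).trans ?_
    have hd : ∀ l, (Pool.V1E.frU r (Pool.V1E.frH F r q₀ (H 0) L) (Pool.V1E.puU r (H 1) TU L) l).totalDegree ≤ D :=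
      Pool.V1E.frU_deg (Pool.V1E.trn_deg (W.dH 0 _)) (hpD L)
    have h1 : ∀ o', (Pool.V1E.hL c s (r + 1) (o 1) (Pool.V1E.frU r (Pool.V1E.frH F r q₀ (H 0) L) (Pool.V1E.puU r (H 1) TU L)) L
        o').natDegree ≤ D + 1 := by
      intro o'
      cases o' with
      | none =>
        show (Pool.GEN.lc (o 1) L none).natDegree ≤ D + 1
        exact (Pool.GEN.natDegree_lc _ _ _).trans (by omega)
      | some j =>
        show (Polynomial.C (2 ^ s j) * (Pool.GEN.lc (o 1) L (some (c j)) -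
          MvPolynomial.aeval (Pool.GEN.lc (o 1) L) (Pool.V1E.frU r (Pool.V1E.frH F r q₀ (H 0) L) (Pool.V1E.puU r (H 1) TU L)
            j))).natDegree ≤ _
        refine (Polynomial.natDegree_C_mul_le _ _).trans
          ((Polynomial.natDegree_sub_le _ _).trans
          (max_le ((Pool.GEN.natDegree_lc _ _ _).trans (by omega)) ?_))
        have h1 := Pool.V1E.natDegree_aev (K := 1) (D := D) (Pool.V1E.frU r (Pool.V1E.frH F r q₀ (H 0) L)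
          (Pool.V1E.puU r (H 1) TU L) j) (Pool.GEN.lc (o 1) L) (Pool.GEN.natDegree_lc _ _) (hd j)
        omega
    have h2 : (Ht L - CL L - Pool.V1E.nW c r (H 1 L) (CL L)).totalDegree ≤ (D + 1) * (D + 1) := by
      refine (totalDegree_sub _ _).trans (max_le ((totalDegree_sub _ _).trans (max_le
        ((W.dt L).trans (by nlinarith)) ((W.dCL L).trans (by nlinarith))))
        (Pool.V1E.deg_nW (W.dH 1 L) (W.dCL L)))
    have h3 : (pderiv (some i.castSucc) (Pool.D2G30.pull c s (Pool.V1E.frU r (Pool.V1E.frH F r q₀ (H 0) L)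
        (Pool.V1E.puU r (H 1) TU L)) (r + 1) (Ht L - CL L -
        Pool.V1E.nW c r (H 1 L) (CL L)))).totalDegree ≤ (D + 1) * (D + 1) * (D + 1) ^ (r + 1) :=
      (Pool.V1E.pd_deg _ _).trans (Pool.D2G30.deg_pull hd h2)
    refine (Pool.V1E.natDegree_aev _ _ h1 h3).trans (le_of_eq ?_)
    ring
  intro ω hω i
  have h1J : o 1 ≤ J := by have := W.oJ; have := W.o3; have := W.o2; omega
  have hQM := W.QM
  have Fr := W.toNvP.frd (D' := D) (x' := 2 * x + 2) le_rfl le_rfl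
  have hfr := Fr.fr hω
  obtain ⟨L, hLe⟩ : ∃ L, L = Pool.KSAT.slam F (o 1) ω := ⟨_, rfl⟩
  obtain ⟨P, hP⟩ : ∃ P, P = Pool.V1E.trn r (G 0 (Pool.PB.ptr F J ω)) := ⟨_, rfl⟩
  have hPd : ∀ l, Pool.GEN.DepC c l (P l) := by
    rw [hP]
    exact Pool.V1E.trn_dep (W.pG 0 _)
  have hPe : ∀ l < r, P l = G 0 (Pool.PB.ptr F J ω) l := fun l hl => by
    rw [hP]
    exact Pool.V1E.trn_eq hl
  obtain ⟨V, hV⟩ : ∃ V, V = Pool.V1E.fvec F c s r (G 0) ω i := ⟨_, rfl⟩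
  have hVv : V = Pool.D2G30.vec c s P (Pool.V1E.yp c s r P (Pool.GEN.bt F ω)) (some i) := by
    rw [hV, hP]
    rfl
  have hV0 : V none = 0 := by
    rw [hVv, Pool.D2G30.vec_none, if_neg (by simp)]
  obtain ⟨p0, p1⟩ := Pool.V1E.hp_yp (s := s) W.hcr hPd (Pool.GEN.bt F ω)
  have hVc : ∀ j < r, |V (some (c j)) - Pool.D2R.dd (G 0 (Pool.PB.ptr F J ω) j) (Pool.GEN.bt F ω) V| ≤ 1 / 2 ^ s j := by
    intro j hj
    have h1 := Pool.D2G30.vec_nat (s := s) W.hcr hPd (Pool.V1E.yp c s r P (Pool.GEN.bt F ω)) (some i) hj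
    rw [← hVv, Pool.V1E.dd_pt (hPd j) p0 (fun l hl => p1 l (by omega)), hPe j hj] at h1
    rw [h1]
    split_ifs
    · rw [abs_of_pos (by positivity)]
    · rw [abs_zero]
      positivity
  obtain ⟨w0, w1, w2⟩ := Pool.V1E.vec_ext (s := s) (r := r) W.hc1 hPd (hpd L) (Pool.GEN.bt F ω) i
  obtain ⟨V', hV'⟩ : ∃ V', V' = Pool.D2G30.vec c s (Pool.V1E.frU r P (Pool.V1E.puU r (H 1) TU L)) (Pool.V1E.yp c s (r + 1)
    (Pool.V1E.frU r P (Pool.V1E.puU r (H 1) TU L)) (Pool.GEN.bt F ω)) (some i.castSucc) := ⟨_, rfl⟩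
  rw [← hV', ← hVv] at w0 w1 w2
  rw [hpr] at w2
  -- the closed gradient
  obtain ⟨q0, q1⟩ := Pool.V1E.hp_yp (s := s) W.hc1 (Pool.V1E.frU_dep (r := r) hPd (hpd L)) (Pool.GEN.bt F ω)
  have hRd : Pool.GEN.DepC c (r + 1) (Ht L - CL L - Pool.V1E.nW c r (H 1 L) (CL L)) := by
    intro b b' h0 h1
    rw [map_sub, map_sub, map_sub, map_sub, W.pt L b b' h0 h1, W.pCL L b b' h0 h1,
      Pool.V1E.dep_nW W.hc1 (W.pH 1 L) (W.pCL L) b b' h0 (fun l hl => h1 l (by omega))]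
  have eT : (Pool.V1E.nwTU F c s r (o 1) q₀ (H 0) (H 1) Ht CL TU (Pool.KSAT.slam F (o 1) ω) i).eval
      (Pool.PB.Trl.rt F (o 1) ω) = 2 ^ s r * Pool.D2R.dd (Ht L - CL L - Pool.V1E.nW c r (H 1 L) (CL L)) (Pool.GEN.bt F ω) V' := by
    unfold Pool.V1E.nwTU
    rw [hfr, ← hP, ← hLe, Polynomial.eval_mul, Polynomial.eval_C, Pool.D2G30.eval_aev]
    have e2 : (fun o' => (Pool.V1E.hL c s (r + 1) (o 1) (Pool.V1E.frU r P (Pool.V1E.puU r (H 1) TU L)) L o').eval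
        (Pool.PB.Trl.rt F (o 1) ω)) = Pool.V1E.yp c s (r + 1) (Pool.V1E.frU r P (Pool.V1E.puU r (H 1) TU L)) (Pool.GEN.bt F ω) := by
      rw [hLe]
      exact funext fun o' => Pool.V1E.hL_yp h1J _ ω o'
    rw [e2, Pool.D2G30.pd_pull, ← hV', Pool.V1E.dd_pt hRd q0 q1]
  have hdV : ∀ {R : MvPolynomial (Option (Fin m)) ℝ}, Pool.GEN.DepC c r R →
      Pool.D2R.dd R (Pool.GEN.bt F ω) V' = Pool.D2R.dd R (Pool.GEN.bt F ω) V := fun hR => Pool.D2R.dd_congr hR _ w0 w1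
  obtain ⟨a2, ha2⟩ : ∃ a : ℝ, a = Pool.D2R.dd (G 2 (Pool.PB.ptr F J ω) r) (Pool.GEN.bt F ω) V := ⟨_, rfl⟩
  obtain ⟨aU, haU⟩ : ∃ a : ℝ, a = Pool.D2R.dd (TU L) (Pool.GEN.bt F ω) V := ⟨_, rfl⟩
  have hne : ∀ l < r, c l ≠ c r := fun l hl he => by
    have := W.hc1 (Set.mem_Iio.2 (show l < r + 1 by omega))
      (Set.mem_Iio.2 (Nat.lt_succ_self r)) he
    omega
  have hupup : ∀ v v' : ℝ, Pool.V1E.up (c r) (Pool.V1E.up (c r) V v) v' = Pool.V1E.up (c r) V v' := by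
    intro v v'
    funext o'
    unfold Pool.V1E.up
    split_ifs <;> rfl
  rw [← haU] at w2
  -- the gradient of the row label
  have eH : ∀ {R : MvPolynomial (Option (Fin m)) ℝ}, Pool.GEN.DepC c (r + 1) R →
      Pool.D2R.dd R (Pool.GEN.bt F ω) V' = Pool.D2R.dd R (Pool.GEN.bt F ω) (Pool.V1E.up (c r) V aU) := by
    intro R hR
    refine Pool.D2R.dd_congr hR _ (by rw [w0, Pool.V1E.up_none]) fun l hl => ?_
    rcases Nat.lt_or_ge l r with h | h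
    · rw [w1 l h, Pool.V1E.up_ne (hne l h)]
    · have : l = r := by omega
      subst this
      rw [w2, Pool.V1E.up_self]
  have eR : Pool.D2R.dd (Ht L - CL L - Pool.V1E.nW c r (H 1 L) (CL L)) (Pool.GEN.bt F ω) V' =
      Pool.D2R.dd (Ht L) (Pool.GEN.bt F ω) (Pool.V1E.up (c r) V aU) - Pool.D2R.dd (Cp (Pool.PB.ptr F J ω)) (Pool.GEN.bt F ω) (Pool.V1E.up (c r) V aU) -
        Pool.D2R.dd (Pool.V1E.nW c r (G 1 (Pool.PB.ptr F J ω)) (Cp (Pool.PB.ptr F J ω))) (Pool.GEN.bt F ω) V := by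
    rw [Pool.D2R.dd_sub, Pool.D2R.dd_sub, hdV (Pool.V1E.dep_nW W.hc1 (W.pH 1 L) (W.pCL L)), eH (W.pt L), eH (W.pCL L), hLe,
      ← W.clA hω, ← W.clC ω hω]
  have hU := hTU ω hω V hV0 hVc
  rw [← hLe, ← haU] at hU
  obtain ⟨n2, kU2, kH⟩ := hdd W.toNvP ω hω V hV0 hVc aU hU
  have k4 := hh W ω hω V
  rw [← ha2] at kU2 k4
  rw [← hLe] at kH
  have hC2 := W.hC2 ω hω (Pool.GEN.bt F ω) (Pool.W.V1E.bt_box W.ch2 (by omega) hω _)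
  obtain ⟨K, hK⟩ : ∃ K : ℝ, K = eval (Pool.GEN.bt F ω) (pderiv (some (c r)) (Cp (Pool.PB.ptr F J ω))) := ⟨_, rfl⟩
  rw [← hK] at hC2
  have e4 := Pool.V1E.dd_up (G 2 (Pool.PB.ptr F J ω) (r + 1)) (c r) (Pool.GEN.bt F ω) (Pool.V1E.up (c r) V aU) a2
  rw [hupup, Pool.V1E.up_self] at e4
  have e5 : Pool.D2R.dd (Pool.V1E.nfw r (G 2 (Pool.PB.ptr F J ω)) (Cp (Pool.PB.ptr F J ω))) (Pool.GEN.bt F ω) (Pool.V1E.up (c r) V a2) =
      Pool.D2R.dd (G 2 (Pool.PB.ptr F J ω) (r + 1)) (Pool.GEN.bt F ω) (Pool.V1E.up (c r) V a2) -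
        Pool.D2R.dd (Cp (Pool.PB.ptr F J ω)) (Pool.GEN.bt F ω) (Pool.V1E.up (c r) V a2) := Pool.V1E.dd_nfw _ _
  have e9 := Pool.V1E.dd_up (Cp (Pool.PB.ptr F J ω)) (c r) (Pool.GEN.bt F ω) (Pool.V1E.up (c r) V aU) a2
  rw [hupup, Pool.V1E.up_self, ← hK] at e9
  rw [eT, eR, Pool.D2R.dd_sub, ← hV, ← mul_sub, abs_mul, abs_of_pos (show (0 : ℝ) < 2 ^ s r by positivity)]
  obtain ⟨nA, hnA⟩ : ∃ nA : ℝ, nA = Pool.D2R.dd (Pool.V1E.nW c r (G 2 (Pool.PB.ptr F J ω)) (Cp (Pool.PB.ptr F J ω))) (Pool.GEN.bt F ω) V :=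
    ⟨_, rfl⟩
  rw [← hnA] at k4 ⊢
  have e6 : Pool.D2R.dd (Ht L) (Pool.GEN.bt F ω) (Pool.V1E.up (c r) V aU) - Pool.D2R.dd (Cp (Pool.PB.ptr F J ω)) (Pool.GEN.bt F ω) (Pool.V1E.up (c r) V aU) -
        Pool.D2R.dd (Pool.V1E.nW c r (G 1 (Pool.PB.ptr F J ω)) (Cp (Pool.PB.ptr F J ω))) (Pool.GEN.bt F ω) V - (nA -
        Pool.D2R.dd (Pool.V1E.nW c r (G 1 (Pool.PB.ptr F J ω)) (Cp (Pool.PB.ptr F J ω))) (Pool.GEN.bt F ω) V) =
      (Pool.D2R.dd (Ht L) (Pool.GEN.bt F ω) (Pool.V1E.up (c r) V aU) -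
        Pool.D2R.dd (G 2 (Pool.PB.ptr F J ω) (r + 1)) (Pool.GEN.bt F ω) (Pool.V1E.up (c r) V aU)) +
      (eval (Pool.GEN.bt F ω) (pderiv (some (c r)) (G 2 (Pool.PB.ptr F J ω) (r + 1))) - K) * (aU - a2) +
      (Pool.D2R.dd (Pool.V1E.nfw r (G 2 (Pool.PB.ptr F J ω)) (Cp (Pool.PB.ptr F J ω))) (Pool.GEN.bt F ω)
        (Pool.V1E.up (c r) V a2) - nA) := by
    rw [e5]
    linear_combination e4 - e9
  rw [e6]
  -- the numbers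
  obtain ⟨Y, hY⟩ : ∃ Y : ℝ, Y = 2 ^ (C₁ * (x + 1)) := ⟨_, rfl⟩
  rw [← hY] at n2 kU2 kH
  have hY0 : 0 < Y := by rw [hY]; positivity
  obtain ⟨ι, hι⟩ : ∃ ι : ℝ, ι = 1 / 2 ^ (s r + (MB - Q)) := ⟨_, rfl⟩
  have hι0 : 0 < ι := by rw [hι]; positivity
  have hMB : (2 : ℝ) ^ (s r + MB) = 2 ^ (s r + (MB - Q)) * 2 ^ Q := by
    rw [← pow_add]
    congr 1
    omega
  have hQ0 : (0 : ℝ) < 2 ^ Q := by positivity
  have t3 : |(eval (Pool.GEN.bt F ω) (pderiv (some (c r)) (G 2 (Pool.PB.ptr F J ω) (r + 1))) - K) *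
      (aU - a2)| ≤ 2 ^ x * Y * ι := by
    rw [abs_mul]
    refine (mul_le_mul hC2 kU2 (abs_nonneg _) (by positivity)).trans (le_of_eq ?_)
    rw [hι, hMB, pow_add 2 (g₀ 2 r) x]
    field_simp
  have t4 : |Pool.D2R.dd (Pool.V1E.nfw r (G 2 (Pool.PB.ptr F J ω)) (Cp (Pool.PB.ptr F J ω))) (Pool.GEN.bt F ω)
        (Pool.V1E.up (c r) V a2) - nA| ≤ 2 ^ (C₃ + x) * Y * ι := by
    refine (k4.trans (mul_le_mul_of_nonneg_left n2 (by positivity))).trans ?_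
    have e7 : C₂ * (2 ^ x / 2 ^ (s r + MB)) * (Y * 2 ^ Q) = C₂ * (2 ^ x * Y * ι) := by
      rw [hι, hMB]
      field_simp
    rw [e7, pow_add]
    calc C₂ * (2 ^ x * Y * ι) ≤ 2 ^ C₃ * (2 ^ x * Y * ι) :=
          mul_le_mul_of_nonneg_right hC₃.le (by positivity)
      _ = _ := by ring
  have t2 : |Pool.D2R.dd (Ht L) (Pool.GEN.bt F ω) (Pool.V1E.up (c r) V aU) -
        Pool.D2R.dd (G 2 (Pool.PB.ptr F J ω) (r + 1)) (Pool.GEN.bt F ω) (Pool.V1E.up (c r) V aU)| ≤ Y * ι := by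
    refine kH.trans (le_of_eq ?_)
    rw [hι]
    ring
  have hsum := (abs_add_le _ _).trans (add_le_add ((abs_add_le _ _).trans (add_le_add t2 t3)) t4)
  refine (mul_le_mul_of_nonneg_left hsum (by positivity)).trans ?_
  have e8 : (2 : ℝ) ^ s r * ι = 1 / 2 ^ (MB - Q) := by
    rw [hι, pow_add]
    field_simp
  obtain ⟨K', hK'⟩ : ∃ K', K' = C₃ + x := ⟨_, rfl⟩
  have hpw : ∀ {a b : ℕ}, a ≤ b → (2 : ℝ) ^ a ≤ 2 ^ b := fun h =>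
    pow_le_pow_right₀ (by norm_num) h
  have b2 : (1 : ℝ) ≤ 2 ^ K' := one_le_pow₀ (by norm_num)
  have b3 : (2 : ℝ) ^ x ≤ 2 ^ K' := hpw (by omega)
  have b4 : (2 : ℝ) ^ (C₃ + x) ≤ 2 ^ K' := hpw (by omega)
  have hYι : 0 < Y * ι := by positivity
  have b5 : Y * ι + 2 ^ x * Y * ι + 2 ^ (C₃ + x) * Y * ι ≤ 2 ^ (K' + 2) * (Y * ι) := by
    rw [pow_add 2 K' 2]
    nlinarith [mul_le_mul_of_nonneg_right b2 hYι.le,
      mul_le_mul_of_nonneg_right b3 hYι.le, mul_le_mul_of_nonneg_right b4 hYι.le]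
  refine (mul_le_mul_of_nonneg_left b5 (by positivity)).trans ?_
  have e9 : 2 ^ s r * (2 ^ (K' + 2) * (Y * ι)) = 2 ^ (K' + 2) * Y * (2 ^ s r * ι) := by ring
  rw [e9, e8, mul_one_div]
  refine div_le_div_of_nonneg_right ?_ (by positivity)
  rw [hY, ← pow_add]
  exact hpw (by rw [hK']; nlinarith)

end Pool.W.V1E
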