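import Pool.Agent.H73.D2.Tnn
import Pool.Agent.H31.W.H73.D2.Tnh
import Pool.Agent.H31.W.H73.D2.Tnm

/-!
# The slope hypothesis with a closed gradient, in a class

`wg_nvp`: `NvP` from `WG`, numbers in a class. `HuU`: closed labels of the tubes of `u` in a class.
`slhU_cl`: from `HuU`, the slope hypothesis `SlHU` holds with a closed gradient `XiCl`.
-/

set_option autoImplicit false

namespace Pool.W.V1E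

open Pool.V1E

open Finset Real MvPolynomial
open Pool.KA Pool.KSAT Pool.PB Pool.GEN Pool.D2R Pool.D2G30 Pool.ISO Pool.CHT Pool.CHX
open Pool.PB.Trl (rt rt_mem t_rt)
open Pool.Agent.H49.Ent Pool.Agent.H32.Dense Pool.STK Pool.K2S Pool.LA91 Pool.OWN68
open Pool.UNJ (ceI)
open Pool.S6C Pool.RCD Pool.D2Con
open Pool.LBT (ThrOf)
open Pool.LEV (Law)

variable {m : ℕ}

/-- **`NvP` from `WG`**, for all large `J`. -/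
theorem wg_nvp {c : ℕ → Fin m} {r D Dr N N₂ : ℕ} {R : ℕ → Prop}
    {C a Eb ε₀ η₀ ζ χ mb : ℝ} {Pt : ℝ → ℝ → ℝ} {o : ℕ → ℝ} {lv be : ℕ → ℕ → ℝ}
    (hN1 : 1 ≤ N) (hN : 3 ≤ N₂)
    (hc : Set.InjOn c (Set.Iio (r + 2))) (hR : ∀ l < r, R l) (hC : 1 ≤ C) (hη₀ : 0 < η₀)
    (hPt0 : 3 * (C * η₀) ≤ Pt a (o 0)) (hlv1 : 0 ≤ lv 1 (r + 1))
    (hoa : o 1 + 4 * (C * η₀) ≤ a) (ha : a ≤ 1)
    (hbe : ¬ R r → lv 1 r + (a - o 1) ≤ be 1 r + ζ)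
    (h01 : mb + (o 3 - o 0) < o 0 - o 2) (h12 : o 3 - o 0 < mb) (h12' : η₀ ≤ o 3 - o 0)
    (h23 : η₀ ≤ o 1 - o 3) (hζ : 0 ≤ ζ)
    (hχ : C * η₀ + 2 * (ζ + 3 * (C * η₀)) + η₀ < χ)
    (hn : ∀ k ≤ 3, ∀ j < r, |lv k j - o k - (lv 0 j - o 0)| ≤ ζ)
    (hu2 : lv 0 r + (o 3 - o 0) ≤ lv 3 r + ζ) (hu3 : lv 3 r + (o 1 - o 3) ≤ lv 1 r + ζ)
    (h2 : lv 0 (r + 1) + mb ≤ lv 3 (r + 1) + ζ)
    (h3 : lv 0 (r + 1) + (o 1 - o 0) + (mb - (o 3 - o 0)) ≤ lv 1 (r + 1) + ζ)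
    (hPa : lv 0 (r + 1) + (a - o 0) + (mb - (o 3 - o 0)) ≤ Pt a (o 0) + ζ) :
    ∃ J₀ : ℕ, ∀ J : ℕ, J₀ ≤ J → ∀ (F : Pool.KA.Fam m J) (b : ℕ → ℕ → ℝ) (κ : ℝ) (z : ℕ → ℕ → ℕ)
      (qe : Fin r → ℕ) (B : F.Ω → Prop) (gc gT g₀ : ℕ → ℕ → ℕ)
      (G : ℕ → Pool.GEN.PtT F → ℕ → MvPolynomial (Option (Fin m)) ℝ)
      (H : ℕ → Pool.GEN.LnT F → ℕ → MvPolynomial (Option (Fin m)) ℝ)
      (T : ℕ → Pool.GEN.PtT F → ℕ → MvPolynomial (Option (Fin m)) ℝ)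
      (TH : ℕ → Pool.GEN.LnT F → ℕ → MvPolynomial (Option (Fin m)) ℝ)
      (Gt : ℕ → Pool.GEN.PtT F → MvPolynomial (Option (Fin m)) ℝ)
      (Ht : ℕ → Pool.GEN.LnT F → MvPolynomial (Option (Fin m)) ℝ),
      (∀ i : Fin r, ⌊mb * J⌋₊ + (⌊o 3 * J⌋₊ - ⌊o 0 * J⌋₊) ≤ qe i) →
      Pool.W.V1E.WG c (r + 1) D Dr N N₂ R C a Eb ε₀ η₀ Pt o lv be F b κ z B gc gT g₀ G H T TH Gt Ht →
      Pool.W.V1E.NvP F c r D 3 N₂ ⌊a * J⌋₊ ⌊mb * J⌋₊ (⌊o 0 * J⌋₊ - ⌊o 2 * J⌋₊)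
        (⌊o 3 * J⌋₊ - ⌊o 0 * J⌋₊) ⌊χ * J⌋₊ ⌊Pool.V1E.prF C a η₀ Pt (fun k => lv k (r + 1)) o * J⌋₊
        ⌊(Eb + 2 * η₀) * J⌋₊ ⌊lv 0 r * J⌋₊ (Pool.V1E.sN (lv 0) J r) qe
        (fun k => ⌊o (Pool.V1E.fr4 k) * J⌋₊) (fun k => z (Pool.V1E.fr4 k)) (fun k l => ⌊b (Pool.V1E.fr4 k) l * J⌋₊)
        (Pool.V1E.gX gc) (Pool.V1E.gX gT) (fun k => g₀ (Pool.V1E.fr4 k)) B (fun k => G (Pool.V1E.fr4 k)) (Pool.V1E.tX F c G T)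
        (fun k => H (Pool.V1E.fr4 k)) (fun k => TH (Pool.V1E.fr4 k)) (Ht 0) := by
  have hCη0 : 0 < C * η₀ := by positivity
  obtain ⟨pr, hpr⟩ : ∃ pr : ℝ, pr = Pool.V1E.prF C a η₀ Pt (fun k => lv k (r + 1)) o := ⟨_, rfl⟩
  have hprd : pr = min (Pt a (o 0) - 3 * (C * η₀)) (lv 1 (r + 1) + (a - o 1) - 3 * (C * η₀)) := hpr
  have hpr1 : pr ≤ Pt a (o 0) - 3 * (C * η₀) := by rw [hprd]; exact min_le_left _ _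
  have hpr2 : pr ≤ lv 1 (r + 1) + (a - o 1) - 3 * (C * η₀) := by rw [hprd]; exact min_le_right _ _
  have hpr0 : 0 ≤ pr := by
    rw [hprd]
    exact le_min (by linarith) (by linarith)
  have hprg : lv 0 (r + 1) + (a - o 0) + (mb - (o 3 - o 0)) ≤ pr + (ζ + 3 * (C * η₀)) := by
    rcases min_choice (Pt a (o 0) - 3 * (C * η₀))
      (lv 1 (r + 1) + (a - o 1) - 3 * (C * η₀)) with h4 | h4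
    · rw [hprd, h4]
      linarith
    · rw [hprd, h4]
      linarith
  have big : ∀ {x y : ℝ}, 0 < x → ∃ J₀ : ℕ, ∀ J : ℕ, J₀ ≤ J → y ≤ x * J := by
    intro x y hx
    refine ⟨⌈y / x⌉₊, fun J hJ => ?_⟩
    have h1 : y / x ≤ J := (Nat.le_ceil _).trans (by exact_mod_cast hJ)
    rw [div_le_iff₀ hx] at h1
    linarith
  obtain ⟨J₁, hJ₁⟩ := big (x := lv 1 (r + 1) + (a - o 1) - (pr + C * η₀ + η₀)) (y := 2) (by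
    have : η₀ ≤ C * η₀ := le_mul_of_one_le_left hη₀.le hC
    linarith)
  obtain ⟨J₂, hJ₂⟩ := big (x := mb - (o 3 - o 0)) (y := 2) (by linarith)
  obtain ⟨J₃, hJ₃⟩ := big (x := o 0 - o 2 - (mb + (o 3 - o 0))) (y := 3) (by linarith)
  obtain ⟨J₄, hJ₄⟩ := big (x := χ - (C * η₀ + 2 * (ζ + 3 * (C * η₀)) + η₀)) (y := 31)
    (by linarith)
  refine ⟨max (max J₁ J₂) (max J₃ J₄), ?_⟩
  intro J hJ F b κ z qe B gc gT g₀ G H T TH Gt Ht hqe W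
  have j1 := hJ₁ J (by omega)
  have j2 := hJ₂ J (by omega)
  have j3 := hJ₃ J (by omega)
  have j4 := hJ₄ J (by omega)
  have hJ0 : (0 : ℝ) ≤ J := Nat.cast_nonneg J
  have hP := W.nvp (x := ⌊χ * J⌋₊) (s := Pool.V1E.sN (lv 0) J r) (qe := qe) (ξ := ζ + 3 * (C * η₀))
    (mb := mb) (pr := pr) hN1 hN (fun l hl => Pool.V1E.sN_lt hl) Pool.V1E.sN_r hc hR
    (fun h => by linarith [hbe h])
    (by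
      have h4 := (Pool.V1E.flo (mul_nonneg (by linarith : (0 : ℝ) ≤ χ) hJ0)).2
      linarith)
    ha (by linarith) (by linarith) (by linarith) (by linarith) (by linarith) hpr0
    (fun k hk j hj => by linarith [hn k hk j hj]) (by linarith) (by linarith) (by linarith)
    (by linarith) (by linarith) j1 hprg j2 j3 hqe
  rw [hpr] at hP
  exact hP

/-- **Closed labels of the tubes of `u`**, in a class: on a part of mass at least `1 / K₄` of each event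
with the windows `WG` there are closed polynomials of the window `o 0` whose derivatives in the
directions of the frame are near those of the thin chart of `u` at the deep window. -/
def HuU (S : Pool.PB.PCl m) (c : ℕ → Fin m) (r D Du Dr N N₂ : ℕ) (R : ℕ → Prop) (C a Eb ε₀ η₀ χ : ℝ)
    (Pt : ℝ → ℝ → ℝ) (o : ℕ → ℝ) (lv be : ℕ → ℕ → ℝ) (κ K₄ : ℝ) : Prop :=
  Pool.S6C.Bas S (fun J F B => ∀ (b : ℕ → ℕ → ℝ) (z : ℕ → ℕ → ℕ) (gc gT g₀ : ℕ → ℕ → ℕ)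
    (G : ℕ → Pool.GEN.PtT F → ℕ → MvPolynomial (Option (Fin m)) ℝ)
    (H : ℕ → Pool.GEN.LnT F → ℕ → MvPolynomial (Option (Fin m)) ℝ)
    (T : ℕ → Pool.GEN.PtT F → ℕ → MvPolynomial (Option (Fin m)) ℝ)
    (TH : ℕ → Pool.GEN.LnT F → ℕ → MvPolynomial (Option (Fin m)) ℝ)
    (Gt : ℕ → Pool.GEN.PtT F → MvPolynomial (Option (Fin m)) ℝ)
    (Ht : ℕ → Pool.GEN.LnT F → MvPolynomial (Option (Fin m)) ℝ),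
    Pool.W.V1E.WG c (r + 1) D Dr N N₂ R C a Eb ε₀ η₀ Pt o lv be F b κ z B gc gT g₀ G H T TH Gt Ht →
    ∃ (B₂ : F.Ω → Prop) (TU : Pool.GEN.LnT F → MvPolynomial (Option (Fin m)) ℝ), Pool.K2S.Sub B₂ B ∧
      Pool.K2S.Pe F.p B ≤ K₄ * Pool.K2S.Pe F.p B₂ ∧ (∀ L, (TU L).totalDegree ≤ Du) ∧ (∀ L, Pool.GEN.DepC c r (TU L)) ∧
      ∀ ω, B₂ ω → ∀ V : Option (Fin m) → ℝ, V none = 0 →
      (∀ j < r, |V (some (c j)) - Pool.D2R.dd (G 2 (Pool.PB.ptr F J ω) j) (Pool.GEN.bt F ω) V| ≤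
        1 / 2 ^ ⌊lv 0 j * J⌋₊) →
      |Pool.D2R.dd (TU (Pool.KSAT.slam F ⌊o 0 * J⌋₊ ω)) (Pool.GEN.bt F ω) V - Pool.D2R.dd (TH 1 (Pool.KSAT.slam F ⌊o 1 * J⌋₊ ω) r) (Pool.GEN.bt F ω) V| ≤
        2 ^ ⌊χ * J⌋₊ * 2 ^ (⌊a * J⌋₊ - ⌊o 0 * J⌋₊) / 2 ^ gT 1 r)

/-- **The slope hypothesis with a closed gradient.** -/
theorem slhU_cl (Dw r : ℕ) : ∃ CT : ℕ, ∀ {m : ℕ} {S : Pool.PB.PCl m} {c : ℕ → Fin m} {D Du Dr N N₂ : ℕ}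
    {R : ℕ → Prop} {C a Eb ε₀ η₀ ζ χ mb : ℝ} {Pt : ℝ → ℝ → ℝ} {o : ℕ → ℝ} {lv be : ℕ → ℕ → ℝ}
    {κ κ₁ K₃ K₄ : ℝ} {Ξ : Pool.V1E.XiN m}, 1 ≤ N → 3 ≤ N₂ → D ≤ Dw → Du ≤ Dw →
    Set.InjOn c (Set.Iio (r + 2)) → (∀ l < r, R l) → 1 ≤ C → 0 < η₀ →
    3 * (C * η₀) ≤ Pt a (o 0) → 0 ≤ lv 1 (r + 1) →
    o 1 + 4 * (C * η₀) ≤ a → a ≤ 1 →
    (¬ R r → lv 1 r + (a - o 1) ≤ be 1 r + ζ) →
    mb + (o 3 - o 0) < o 0 - o 2 → o 3 - o 0 < mb → η₀ ≤ o 3 - o 0 →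
    η₀ ≤ o 1 - o 3 → 0 ≤ ζ →
    C * η₀ + 2 * (ζ + 3 * (C * η₀)) + η₀ < χ →
    (∀ k ≤ 3, ∀ j < r, |lv k j - o k - (lv 0 j - o 0)| ≤ ζ) →
    lv 0 r + (o 3 - o 0) ≤ lv 3 r + ζ → lv 3 r + (o 1 - o 3) ≤ lv 1 r + ζ →
    lv 0 (r + 1) + mb ≤ lv 3 (r + 1) + ζ →
    lv 0 (r + 1) + (o 1 - o 0) + (mb - (o 3 - o 0)) ≤ lv 1 (r + 1) + ζ →
    lv 0 (r + 1) + (a - o 0) + (mb - (o 3 - o 0)) ≤ Pt a (o 0) + ζ →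
    0 < K₄ → 0 ≤ κ₁ → κ * K₄ ≤ κ₁ →
    Pool.W.V1E.HuU S c r D Du Dr N N₂ R C a Eb ε₀ η₀ χ Pt o lv be κ K₄ →
    Pool.W.V1E.SlHU S c r D Dw Dr N N₂ R C a Eb ε₀ η₀ χ mb Pt o lv be κ₁ K₃ Ξ →
    Pool.W.V1E.SlHU S c r D Dw Dr N N₂ R C a Eb ε₀ η₀ χ mb Pt o lv be κ (K₄ * K₃)
      (fun J F B g₀ G H Ht CL Cp => Ξ J F B g₀ G H Ht CL Cp ∧
        Pool.V1E.XiCl c r Dw CT χ mb o lv J F B g₀ G H Ht CL Cp) := by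
  obtain ⟨CT, hclo⟩ := Pool.W.V1E.nu_clo Dw r
  refine ⟨CT, ?_⟩
  intro m S c D Du Dr N N₂ R C a Eb ε₀ η₀ ζ χ mb Pt o lv be κ κ₁ K₃ K₄ Ξ hN1 hN hDD hDu hc hR hC
    hη₀ hPt0 hlv1 hoa ha hbe h01 h12 h12' h23 hζ hχ hn hu2 hu3 h2 h3 hPa hK₄ hκ₁ hκ hU hS
  obtain ⟨J₀, hnv⟩ := Pool.W.V1E.wg_nvp (Eb := Eb) (ε₀ := ε₀) (D := D) (Dr := Dr) hN1 hN hc hR hC hη₀
    hPt0 hlv1 hoa ha hbe h01 h12 h12' h23 hζ hχ hn hu2 hu3 h2 h3 hPa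
  refine Pool.S6C.Bas.mono J₀ (hU.and (Pool.V1E.bas_big hS K₄)) ?_
  rintro J hJ F B ⟨w1, w2⟩ b z gc gT g₀ G H T TH Gt Ht W
  obtain ⟨B₂, TU, hB₂, hPB₂, dTU, pTU, hTU⟩ := w1 b z gc gT g₀ G H T TH Gt Ht W
  have W₂ := W.res (κ₁ := 1 / K₄) (κ₂ := κ₁) hB₂ (by
    rw [one_div_mul_eq_div, div_le_iff₀ hK₄, mul_comm]
    exact hPB₂) hκ₁ (by
    rw [mul_one_div, le_div_iff₀ hK₄]
    exact hκ)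
  obtain ⟨B₃, CL, Cp, hB₃, hPB₃, hNw, hΞ⟩ := w2 B₂ hB₂ hPB₂ b z gc gT g₀ G H T TH Gt Ht W₂
  refine ⟨B₃, CL, Cp, fun ω hω => hB₂ ω (hB₃ ω hω), ?_, hNw, hΞ, ?_⟩
  · rw [mul_assoc]
    exact hPB₂.trans (mul_le_mul_of_nonneg_left hPB₃ hK₄.le)
  have hP := ((hnv J hJ F b κ z (fun _ => ⌊mb * J⌋₊ + (⌊o 3 * J⌋₊ - ⌊o 0 * J⌋₊)) B gc gT g₀ G H
    T TH Gt Ht (fun _ => le_rfl) W).sub (B' := B₃) fun ω hω => hB₂ ω (hB₃ ω hω)).deg hDD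
  have hC' : Pool.V1E.NwCU F c r Dw ⌊mb * J⌋₊ (⌊o 3 * J⌋₊ - ⌊o 0 * J⌋₊) ⌊χ * J⌋₊ ⌊lv 0 r * J⌋₊
      (Pool.V1E.sN (lv 0) J r r) (fun k => ⌊o (Pool.V1E.fr4 k) * J⌋₊) (fun k => g₀ (Pool.V1E.fr4 k)) B₃
      (fun k => G (Pool.V1E.fr4 k)) (Ht 0) CL Cp := by
    rw [Pool.V1E.sN_r]
    exact hNw
  refine hclo (⟨hP, hC'⟩ : Pool.W.V1E.NwDU F c r Dw 3 N₂ ⌊a * J⌋₊ ⌊mb * J⌋₊ (⌊o 0 * J⌋₊ - ⌊o 2 * J⌋₊)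
    (⌊o 3 * J⌋₊ - ⌊o 0 * J⌋₊) ⌊χ * J⌋₊ ⌊Pool.V1E.prF C a η₀ Pt (fun k => lv k (r + 1)) o * J⌋₊
    ⌊(Eb + 2 * η₀) * J⌋₊ ⌊lv 0 r * J⌋₊ (Pool.V1E.sN (lv 0) J r) _
    (fun k => ⌊o (Pool.V1E.fr4 k) * J⌋₊) (fun k => z (Pool.V1E.fr4 k)) (fun k l => ⌊b (Pool.V1E.fr4 k) l * J⌋₊)
    (Pool.V1E.gX gc) (Pool.V1E.gX gT) (fun k => g₀ (Pool.V1E.fr4 k)) B₃ (fun k => G (Pool.V1E.fr4 k)) (Pool.V1E.tX F c G T)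
    (fun k => H (Pool.V1E.fr4 k)) (fun k => TH (Pool.V1E.fr4 k)) (Ht 0) CL Cp)
    ⟨TU, fun L => (dTU L).trans hDu, pTU, fun ω hω V hV0 hV => ?_⟩
  refine hTU ω (hB₃ ω hω) V hV0 fun j hj => ?_
  have h4 := hV j hj
  rw [Pool.V1E.sN_lt hj] at h4
  exact h4

/-- A smaller constant of the windows. -/
theorem SlHU.kap {S : Pool.PB.PCl m} {c : ℕ → Fin m} {r D Dw Dr N N₂ : ℕ} {R : ℕ → Prop}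
    {C a Eb ε₀ η₀ χ mb : ℝ} {Pt : ℝ → ℝ → ℝ} {o : ℕ → ℝ} {lv be : ℕ → ℕ → ℝ} {κ κ' K₃ : ℝ}
    {Ξ : Pool.V1E.XiN m} (h : Pool.W.V1E.SlHU S c r D Dw Dr N N₂ R C a Eb ε₀ η₀ χ mb Pt o lv be κ K₃ Ξ)
    (hκ : κ' ≤ κ) (h0 : 0 ≤ κ') :
    Pool.W.V1E.SlHU S c r D Dw Dr N N₂ R C a Eb ε₀ η₀ χ mb Pt o lv be κ' K₃ Ξ := by
  refine Pool.S6C.Bas.mono 0 h ?_
  intro J _ F B w b z gc gT g₀ G H T TH Gt Ht W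
  exact w b z gc gT g₀ G H T TH Gt Ht (W.res (κ₁ := 1) (κ₂ := κ) (fun _ h => h) (by rw [one_mul])
    (h0.trans hκ) (by rw [mul_one]; exact hκ))

end Pool.W.V1E
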