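import Pool.Agent.H73.D2.Tno
import Pool.Agent.H31.W.H73.D2.Tnl
import Pool.Agent.H31.W.H73.D2.Tnn

/-!
# The end for the target `N - P(p, u)` from the slope hypothesis and the labels of the tubes of `u`

`RecNy.slhU`: the slope hypothesis with a closed gradient at one scale. `x10u_fh`: the end at one scale.
-/

set_option autoImplicit false

namespace Pool.W.V1E

open Pool.V1E

open Finset Real MvPolynomial
open Pool.Agent.H49.Ent Pool.Agent.H32.Dense Pool.STK Pool.KA Pool.KSAT Pool.K2S Pool.PB Pool.S6C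
open Pool.GEN Pool.CHT Pool.CHX Pool.ISO Pool.D2R Pool.D2G30 Pool.END18 Pool.D2Con
open Pool.LBT (ThrOf)
open Pool.LEV (Law)
open Pool.NHN (NhNN nhNU_cls)

/-- **The slope hypothesis with a closed gradient** at one scale. -/
theorem recNy_slhU (Dw r : ℕ) : ∃ CT : ℕ, ∀ {m : ℕ} {S : Pool.PB.PCl m}
    {P P₂ : List (Fin m) × Fin m → ℝ → ℝ → ℝ} {θ θ₂ : ℝ} {c : ℕ → Fin m}
    {Pt : ℝ → ℝ → ℝ} {R : ℕ → Prop} {S₂ N₁ N₂ D Du Dr : ℕ} {vw : ℕ → ℝ}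
    {su s y A k₁ K Eb e₂ ε q t C h X κ κ₁ K₃ K₄ : ℝ} {Ξ : Pool.V1E.XiN m},
    Pool.W.V1E.RecNy S P P₂ θ θ₂ c r Pt R S₂ N₁ N₂ vw su s y A k₁ K Eb e₂ ε q t →
    1 ≤ su → 1 < s → 1 ≤ C → 0 < h → 3 * C * ε < h → 10 * (C * h) < X → X ≤ 1 / 4 →
    D ≤ Dw → Du ≤ Dw → 0 < K₄ → 0 ≤ κ₁ → κ * K₄ ≤ κ₁ →
    Pool.W.V1E.HuU S c r D Du Dr N₁ N₂ R C (t + A * q) Eb (3 * ε * q) (h * q) (X * q) Pt
      (fun k => t + Pool.V1E.vG y k₁ vw k * q)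
      (fun k l => Pool.ISO.lvN P c (r + 1) Pt l (t + Pool.V1E.vG y k₁ vw k * q) (t + Pool.V1E.vG y k₁ vw k * q))
      (fun k l => Pool.CHT.bet P c l (t + A * q) (t + Pool.V1E.vG y k₁ vw k * q)) κ K₄ →
    Pool.W.V1E.SlHU S c r D Dw Dr N₁ N₂ R C (t + A * q) Eb (3 * ε * q) (h * q) (X * q) (s * q) Pt
      (fun k => t + Pool.V1E.vG y k₁ vw k * q)
      (fun k l => Pool.ISO.lvN P c (r + 1) Pt l (t + Pool.V1E.vG y k₁ vw k * q) (t + Pool.V1E.vG y k₁ vw k * q))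
      (fun k l => Pool.CHT.bet P c l (t + A * q) (t + Pool.V1E.vG y k₁ vw k * q)) κ₁ K₃ Ξ →
    Pool.W.V1E.SlHU S c r D Dw Dr N₁ N₂ R C (t + A * q) Eb (3 * ε * q) (h * q) (X * q) (s * q) Pt
      (fun k => t + Pool.V1E.vG y k₁ vw k * q)
      (fun k l => Pool.ISO.lvN P c (r + 1) Pt l (t + Pool.V1E.vG y k₁ vw k * q) (t + Pool.V1E.vG y k₁ vw k * q))
      (fun k l => Pool.CHT.bet P c l (t + A * q) (t + Pool.V1E.vG y k₁ vw k * q)) κ (K₄ * K₃)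
      (fun J F B g₀ G H Ht CL Cp => Ξ J F B g₀ G H Ht CL Cp ∧
        Pool.V1E.XiCl c r Dw CT (X * q) (s * q) (fun k => t + Pool.V1E.vG y k₁ vw k * q)
        (fun k l => Pool.ISO.lvN P c (r + 1) Pt l (t + Pool.V1E.vG y k₁ vw k * q) (t + Pool.V1E.vG y k₁ vw k * q))
        J F B g₀ G H Ht CL Cp) := by
  obtain ⟨CT, hcl⟩ := Pool.W.V1E.slhU_cl Dw r
  refine ⟨CT, ?_⟩
  intro m S P P₂ θ θ₂ c Pt Rr S₂ N₁ N₂ D Du Dr vw su s y A k₁ K Eb e₂ ε q t C h X κ κ₁ K₃ K₄ Ξ R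
    hsu hs hC hh hε1 hhX hX4 hDw hDu hK₄ hκ₁ hκ hU hSl
  have hC0 : 0 < C := by linarith
  have a4 : h ≤ C * h := le_mul_of_one_le_left hh.le hC
  have hXp : 0 < X := by
    have : 0 < C * h := by positivity
    linarith
  have hq := R.q0
  have hε0 := R.ε0
  have hkk := R.kk
  have hkK := R.kK
  obtain ⟨hy1, hyA, hsA⟩ := R.yA
  have hsq : q < s * q := lt_mul_of_one_lt_left hq hs
  have hyq : 3 / 2 * q ≤ y * q := mul_le_mul_of_nonneg_right hy1 hq.le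
  have hyAq : y * q + q / 2 ≤ A * q := by
    have := mul_le_mul_of_nonneg_right hyA hq.le
    linarith
  have hsAq : s * q + q ≤ A * q := by
    have := mul_le_mul_of_nonneg_right hsA hq.le
    linarith
  have hk1q : A * q + q ≤ k₁ * q := by
    have := mul_le_mul_of_nonneg_right hkk hq.le
    linarith
  have hKq : 2 * (A * q) + k₁ * q + 4 * q ≤ K * q := by
    have := mul_le_mul_of_nonneg_right hkK hq.le
    linarith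
  have hsy : s * q + y * q ≤ s * (y * q) + q := by
    have h1 : 0 ≤ (s - 1) * (y - 1) * q :=
      mul_nonneg (mul_nonneg (by linarith) (by linarith)) hq.le
    nlinarith
  have hsuy : su * q + y * q ≤ su * (y * q) + q := by
    have h1 : 0 ≤ (su - 1) * (y - 1) * q :=
      mul_nonneg (mul_nonneg (by linarith) (by linarith)) hq.le
    nlinarith
  have hεq : 0 ≤ ε * q := mul_nonneg hε0 hq.le
  have hεq3 : 3 * (ε * q) ≤ h * q := by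
    have h1 : ε ≤ C * ε := le_mul_of_one_le_left hε0 hC
    have := mul_le_mul_of_nonneg_right (show 3 * ε ≤ h by linarith) hq.le
    linarith
  have hhq : 0 < h * q := mul_pos hh hq
  have b3 : 4 * (X * q) ≤ q := by
    have := mul_le_mul_of_nonneg_right hX4 hq.le
    linarith
  have b4 : h * q ≤ C * (h * q) := by
    have := mul_le_mul_of_nonneg_right a4 hq.le
    linarith
  have b7 : 10 * (C * (h * q)) < X * q := by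
    have := mul_lt_mul_of_pos_right hhX hq
    linarith
  obtain ⟨o, ho⟩ : ∃ o : ℕ → ℝ, o = fun k => t + Pool.V1E.vG y k₁ vw k * q := ⟨_, rfl⟩
  have hoE : ∀ k, o k = t + Pool.V1E.vG y k₁ vw k * q := fun k => by rw [ho]
  have o2 : o 2 = t - k₁ * q := by rw [hoE 2]; simp [Pool.V1E.vG]; ring
  have o0 : o 0 = t := by rw [hoE 0]; simp [Pool.V1E.vG]
  have o3 : o 3 = t + q := by rw [hoE 3]; simp [Pool.V1E.vG]
  have o1 : o 1 = t + y * q := by rw [hoE 1]; simp [Pool.V1E.vG]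
  obtain ⟨a, ha⟩ : ∃ a : ℝ, a = t + A * q := ⟨_, rfl⟩
  have R2 : ∀ k ≤ N₁, o k ≤ Pt (o k) (o k) ∧ a ≤ Pt a (o k) := fun k hk => by
    rw [hoE k, ha]
    exact R.low k hk
  have R3 := R.stp
  have R5 := R.beu
  have hot : ∀ k, t + Pool.V1E.vG y k₁ vw k * q = o k := fun k => by rw [ho]
  have hot2 : (fun k => t + Pool.V1E.vG y k₁ vw k * q) = o := ho.symm
  rw [hot2] at hU hSl ⊢
  simp only [hot, ← ha] at R3 R5 hU hSl ⊢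
  have hlr : ∀ x y : ℝ, Pool.ISO.lvN P c (r + 1) Pt (r + 1) x y = Pt x y := fun x y => by
    unfold Pool.ISO.lvN
    rw [if_neg (lt_irrefl (r + 1))]
  have hbx : ∀ k ≤ 3, |o k - t| ≤ K * q := by
    intro k hk
    rw [abs_le]
    interval_cases k
    · rw [o0]; constructor <;> linarith
    · rw [o1]; constructor <;> linarith
    · rw [o2]; constructor <;> linarith
    · rw [o3]; constructor <;> linarith
  have hax : |a - t| ≤ K * q := by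
    rw [abs_le, ha]
    constructor <;> linarith
  have ht0 := R.t0
  have ht1 := R.t1
  have hlt := R.lvr
  have e1 := abs_le.1 (hlt (o 3) (hbx 3 (by norm_num)))
  have e2 := abs_le.1 (hlt (o 1) (hbx 1 (by norm_num)))
  have e3 := abs_le.1 (R.lvu (o 3) (hbx 3 (by norm_num)))
  have e4 := abs_le.1 (R.lvu (o 1) (hbx 1 (by norm_num)))
  have hsuq : q ≤ su * q := le_mul_of_one_le_left hq.le hsu
  rw [o3] at e1 e3
  rw [o1] at e2 e4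
  have R20 := R2 0 (by omega)
  have R21 := R2 1 R.n1
  rw [o0] at R20
  rw [o1] at R21
  refine hcl (m := m) (S := S) (c := c) (Pt := Pt) (a := a)
    (Eb := Eb) (ε₀ := 3 * ε * q) (η₀ := h * q) (χ := X * q) (mb := s * q) (κ := κ) (ζ := h * q)
    (o := o) (κ₁ := κ₁)
    R.n1 R.n3 hDw hDu R.inj R.rgh hC hhq ?_ ?_ ?_ ?_ ?_ ?_ ?_ ?_ ?_ hhq.le
    ?_ ?_ ?_ ?_ ?_ ?_ ?_ hK₄ hκ₁ hκ hU hSl
  · rw [o0]; linarith
  · rw [hlr, o1]; linarith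
  · rw [o1]; linarith
  · linarith
  · intro hR
    have := R5 hR
    rw [o1]
    linarith
  · rw [o2, o0, o3]; linarith
  · rw [o0, o3]; linarith
  · rw [o0, o3]; linarith
  · rw [o1, o3]; linarith
  · linarith
  · intro k hk j hj
    have k0 := abs_le.1 (R.lv j hj (o k) (hbx k hk))
    rw [o0, abs_le]
    constructor <;> linarith
  · rw [o0, o3]
    linarith
  · rw [o1, o3]
    linarith
  · rw [hlr, hlr, o0, o3]
    linarith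
  · rw [hlr, hlr, o0, o3, o1]
    linarith
  · rw [hlr, o0, o3]
    linarith

/-- A stronger property of the windows. -/
theorem VfNU.xi {m : ℕ} {S : Pool.PB.PCl m} {c : ℕ → Fin m} {r D Dw Dr N N₂ : ℕ} {R : ℕ → Prop}
    {C a Eb ε₀ η₀ χ mb kk : ℝ} {Pt : ℝ → ℝ → ℝ} {o : ℕ → ℝ} {lv be : ℕ → ℕ → ℝ} {κ : ℝ}
    {qf : ℕ → Fin r → ℕ} {δ K₂ : ℝ} {Ξ Ξ' : Pool.V1E.XiN m}
    (h : Pool.W.V1E.VfNU S c r D Dw Dr N N₂ R C a Eb ε₀ η₀ χ mb kk Pt o lv be κ qf δ K₂ Ξ)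
    (hX : ∀ J F B g₀ G H Ht CL Cp, Ξ' J F B g₀ G H Ht CL Cp → Ξ J F B g₀ G H Ht CL Cp) :
    Pool.W.V1E.VfNU S c r D Dw Dr N N₂ R C a Eb ε₀ η₀ χ mb kk Pt o lv be κ qf δ K₂ Ξ' := by
  obtain ⟨k₂, hk₂, h⟩ := h
  refine ⟨k₂, hk₂, Pool.S6C.Bas.mono 0 h ?_⟩
  intro J _ F B w b z gc gT g₀ G H T TH Gt Ht CL Cp W hΞ
  exact w b z gc gT g₀ G H T TH Gt Ht CL Cp W (hX _ _ _ _ _ _ _ _ _ hΞ)

/-- **The end at one scale** for the target `N - P(p, u)`, from the slope hypothesis, the labels of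
the tubes of `u`, the time line and the velocity. -/
theorem x10u_fh (m r S₂ CM : ℕ) (hr : 1 ≤ r) (hS₂ : 1 ≤ S₂) (su s : ℝ) (hsu : 1 ≤ su)
    (hs : 1 < s) :
    ∃ D : ℕ, 1 ≤ D ∧ ∀ Dr : ℕ, D ≤ Dr → ∃ C : ℝ, 1 ≤ C ∧ ∀ Dw : ℕ, D ≤ Dw →
    ∀ del : ℝ, 0 < del → ∃ δ C' : ℝ, 0 < δ ∧ δ ≤ 1 ∧ 1 ≤ C' ∧ ∃ X₀ : ℝ, 0 < X₀ ∧
    ∀ h X : ℝ, 0 < h → 10 * (C * h) < X → X ≤ X₀ →
    ∀ {S : Pool.PB.PCl m} {P P₂ : List (Fin m) × Fin m → ℝ → ℝ → ℝ} {θ θ₂ : ℝ} {c : ℕ → Fin m}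
    {Pt : ℝ → ℝ → ℝ} {R : ℕ → Prop} {N₁ N₂ d Du : ℕ} {vw : ℕ → ℝ}
    {y A k₁ K Eb e₂ ε q t kk κ κ₀ κ₁ K₂ K₃ K₄ : ℝ} {Ξ : Pool.V1E.XiN m} {qf : ℕ → Fin r → ℕ}
    {nt : ℕ → ℝ} {P₁ P₃ : Fin r → ℝ} {oo : ℝ} {fr : ℕ → ℝ} {hT κT : ℝ}
    {aq : ℚ} {e₃ h₃ gn : ℝ},
    Pool.W.V1E.RecNy S P P₂ θ θ₂ c r Pt R S₂ N₁ N₂ vw su s y A k₁ K Eb e₂ ε q t → 3 * C * ε < h →
    (∀ (J : ℕ) (i : Fin r), ⌊s * q * J⌋₊ + (⌊(t + q) * J⌋₊ - ⌊t * J⌋₊) ≤ qf J i) →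
    0 < κ₀ → 0 < K₃ → 0 < K₄ → κ₀ * K₄ ≤ κ₁ → κ₁ * K₃ ≤ κ → 0 < K₂ → d ≤ N₂ → Du ≤ Dw →
    Pool.W.V1E.HuU S c r D Du Dr N₁ N₂ R C (t + A * q) Eb (3 * ε * q) (h * q) (X * q) Pt
      (fun k => t + Pool.V1E.vG y k₁ vw k * q)
      (fun k l => Pool.ISO.lvN P c (r + 1) Pt l (t + Pool.V1E.vG y k₁ vw k * q) (t + Pool.V1E.vG y k₁ vw k * q))
      (fun k l => Pool.CHT.bet P c l (t + A * q) (t + Pool.V1E.vG y k₁ vw k * q)) κ₀ K₄ →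
    Pool.W.V1E.SlHU S c r D Dw Dr N₁ N₂ R C (t + A * q) Eb (3 * ε * q) (h * q) (X * q) (s * q) Pt
      (fun k => t + Pool.V1E.vG y k₁ vw k * q)
      (fun k l => Pool.ISO.lvN P c (r + 1) Pt l (t + Pool.V1E.vG y k₁ vw k * q) (t + Pool.V1E.vG y k₁ vw k * q))
      (fun k l => Pool.CHT.bet P c l (t + A * q) (t + Pool.V1E.vG y k₁ vw k * q)) κ₁ K₃ Ξ →
    Pool.W.V1E.VfNU S c r D Dw Dr N₁ N₂ R C (t + A * q) Eb (3 * ε * q) (h * q) (X * q) (s * q) kk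
      Pt (fun k => t + Pool.V1E.vG y k₁ vw k * q)
      (fun k l => Pool.ISO.lvN P c (r + 1) Pt l (t + Pool.V1E.vG y k₁ vw k * q) (t + Pool.V1E.vG y k₁ vw k * q))
      (fun k l => Pool.CHT.bet P c l (t + A * q) (t + Pool.V1E.vG y k₁ vw k * q)) κ qf δ K₂ Ξ →
    Pool.W.V1E.TlW S c r nt P₁ P₃ (t + Pool.V1E.vG y k₁ vw 2 * q) (t + Pool.V1E.vG y k₁ vw 0 * q) (t + Pool.V1E.vG y k₁ vw 3 * q) oo fr
      hT κT →
    Pool.V1E.HnN r CM Eb (h * q) (X * q) (s * q) kk (h * q) δ C' (fun k => t + Pool.V1E.vG y k₁ vw k * q)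
      (fun k l => Pool.ISO.lvN P c (r + 1) Pt l (t + Pool.V1E.vG y k₁ vw k * q) (t + Pool.V1E.vG y k₁ vw k * q)) qf nt P₁ P₃ oo
      fr hT κT →
    Pool.NHN.NhNN r d P₂ c θ₂ C Eb (h * q) (h * q) (X * q) δ C' (fun k => t + Pool.V1E.vG y k₁ vw k * q)
      (fun k l => Pool.ISO.lvN P c (r + 1) Pt l (t + Pool.V1E.vG y k₁ vw k * q) (t + Pool.V1E.vG y k₁ vw k * q)) aq e₃ h₃ gn →
    Pt (t + q) (t + q) ≤ Pt (t + q) t + del * q := by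
  obtain ⟨D, hD, hx⟩ := Pool.W.V1E.x10u_fy m r S₂ CM hr hS₂ su s hsu hs
  refine ⟨D, hD, fun Dr hDr => ?_⟩
  obtain ⟨C, hC, hx⟩ := hx Dr hDr
  refine ⟨C, hC, fun Dw hDw del hdel => ?_⟩
  obtain ⟨CT, hcl⟩ := Pool.W.V1E.recNy_slhU Dw r
  obtain ⟨δ, C', hδ, hδ1, hC', X₀, hX₀, hx⟩ := hx Dw CT hDw del hdel
  refine ⟨δ, C', hδ, hδ1, hC', min X₀ (1 / 4), lt_min hX₀ (by norm_num), ?_⟩
  intro h X hh hhX hX S P P₂ θ θ₂ c Pt R N₁ N₂ d Du vw y A k₁ K Eb e₂ ε q t kk κ κ₀ κ₁ K₂ K₃ K₄ Ξ qf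
    nt P₁ P₃ oo fr hT κT aq e₃ h₃ gn Rc hε hqf hκ₀ hK₃ hK₄ hκ₀₁ hκκ hK₂ hd hDu hU hSl hVf hTl Hn Nh
  have hκ₁ : 0 < κ₁ := (mul_pos hκ₀ hK₄).trans_le hκ₀₁
  have hSl' := hcl Rc hsu hs hC hh hε hhX (hX.trans (min_le_right _ _)) hDw hDu hK₄ hκ₁.le hκ₀₁ hU
    hSl
  refine hx h X hh hhX (hX.trans (min_le_left _ _)) (fun J F B g₀ G H Ht CL Cp h => h.2) Rc hε hqf
    hκ₀ (mul_pos hK₄ hK₃) (κ := κ) ?_ hK₂ hd hSl' (hVf.xi fun J F B g₀ G H Ht CL Cp h => h.1) hTl Hn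
    Nh
  rw [← mul_assoc]
  exact (mul_le_mul_of_nonneg_right hκ₀₁ hK₃.le).trans hκκ

end Pool.W.V1E
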