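import Pool.Agent.H73.D2.Tnp
import Pool.Agent.H31.W.H73.D2.Tmw
import Pool.Agent.H31.W.H73.D2.Tmy
import Pool.Agent.H31.W.H73.D2.Tno
import Pool.Agent.H3.W.Bas
import Pool.Agent.H31.W1.H91.D2.TlcA
import Pool.Agent.H31.W1.H91.FR.QpG

/-!
# The class theorem of the end for `N - P(p, u)` from closed labels of the tubes of `u`

`SvNU`: the slope hypothesis without the row label, and the dead velocity. `HuR`: closed labels of the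
tubes of `u` at all scales of the record. `celZ_nyu`: the class theorem.
-/

set_option autoImplicit false

namespace Pool.W.PKG

open Pool.PKG

open Finset Real
open Pool.Agent.H49.Ent Pool.Agent.H32.Dense Pool.STK Pool.KA Pool.KSAT Pool.K2S Pool.PB
open Pool.GEN Pool.S6C Pool.STAT Pool.CHT Pool.GRW Pool.ONE Pool.STA
open Pool.LBT (LSys ThrOf)
open Pool.LEV (Law)
open Pool.ALL (RateOf)
open Pool.ISO (PtD lvN WinD)
open Pool.V1E (vF vG vG_ge vG_vF TlW HnN SlHU VfNU HuU XiN x10u_fh)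
open Pool.LA91 (TlAt epT slT FaQ sumQ)

/-- **The slope hypothesis and the dead velocity**, under the hypothesis `Z lam` on the class, of the
target `N - P(p, u)`, `N` at the place `r + 1`, `u` at the place `r`, at all scales of the record, in a
subclass with the same record. The deep window is `t + y q`, the radius of the rows `t + a q`. `Ar`, `Vr`: pairs, `Vv`: windows of the
chain, `vs`: windows of balls of the end, `Q`: the property of the windows; `Dw`: the degree of `P`,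
`X q`: the precision of the slopes, `hh q`: the precision of the charts, `k₁ q`: the distance of the
frame, `kf q`: the precision of the positions. -/
def SvNU (m r : ℕ) (y a h : ℝ) (Sl : ℕ → ℝ) (κ : ℕ → Pool.PKG.Kg) {ι Λ : Type} (Q : Pool.PKG.PropG m ι)
    (Z : Pool.PKG.PropZ m Λ) : Prop :=
  ∀ al : ℝ, 0 < al → ∀ K₀ : ℝ, 0 < K₀ → ∀ S₀ : ℕ, 1 ≤ S₀ →
  ∃ (Kr : ℝ) (Nr : ℕ) (Ar Vr : ℕ → ℝ), 1 ≤ Kr ∧ (∀ k < Nr, -Kr ≤ Vr k ∧ Vr k ≤ Ar k ∧ Ar k ≤ Kr) ∧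
  ∀ S₂ : ℕ, S₀ ≤ S₂ → ∀ D : ℕ, 1 ≤ D → ∃ Dr : ℕ, D ≤ Dr ∧ ∀ C : ℝ, 1 ≤ C → ∀ Du : ℕ,
  ∃ Dw : ℕ, D ≤ Dw ∧ Du ≤ Dw ∧
  ∀ δ X₀ : ℝ, 0 < δ → δ ≤ 1 → 0 < X₀ →
  ∃ (lam : Λ) (kf X h₁ : ℝ), Sl (r + 1) ≤ kf ∧ 0 < X ∧ X ≤ X₀ ∧ 0 < h₁ ∧ ∀ hh k₁ : ℝ, 0 < hh → hh ≤ h₁ →
  kf + 8 ≤ k₁ → a + 1 ≤ k₁ →
  ∃ (K₁ : ℝ) (Nv : ℕ) (Vv : ℕ → ℝ) (ns : ℕ) (vs : ℕ → ℝ), (∀ j < Nv, -K₁ ≤ Vv j ∧ Vv j ≤ K₁) ∧
  (∀ j < ns, -K₁ ≤ vs j ∧ vs j ≤ a - 1 / 2) ∧ ∀ K' : ℝ, K₁ ≤ K' →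
  ∃ ε₀ : ℝ, 0 < ε₀ ∧ ∀ ε : ℝ, 0 < ε → ε ≤ ε₀ →
  ∀ (S : Pool.PB.PCl m) (g₀ : ℝ → ℝ) (P : List (Fin m) × Fin m → ℝ → ℝ → ℝ)
    (θ : ℝ) (P₂ : ℕ → List (Fin m) × Fin m → ℝ → ℝ → ℝ) (θ₂ Eb e₂ : ℕ → ℝ) (c : ℕ → Fin m)
    (Pt : ℝ → ℝ → ℝ) (rt : ℝ → ℝ) (L T : ℕ → ℝ → ℝ → ℝ) (G : Set ℝ) (g : ℝ),
    IsClosed G → g ∈ G → (∀ l < m, HasDerivAt (fun x => L l x x) (Sl l) g) →
    Z lam S P θ c Pt rt L T κ G g →
    ∃ (p : ℕ → ι) (M : ℕ) (B₀ B₁ : ℕ → ℝ),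
    (∀ j < M, B₀ j < B₁ j) ∧ ∀ k₀ : ℕ → ℕ, (∀ j < M, Q (p j) (k₀ j) S P θ c Pt rt L T κ G g) →
    ∃ q₁ : ℝ, 0 < q₁ ∧ ∀ (q t : ℝ) (x : ℕ → ℝ),
      q < q₁ → (∀ j < M, x j ∈ G ∧ t + B₀ j * q ≤ x j ∧ x j ≤ t + B₁ j * q ∧
        Q (p j) (k₀ j) S P θ c Pt rt L T κ G (x j)) →
      ∀ (N : ℕ) (A V : ℕ → ℝ) (N' : ℕ) (V' : ℕ → ℝ),
      Pool.W.PKG.RecG S al g₀ P θ P₂ θ₂ Eb e₂ c Pt rt h K₀ g L T Sl κ G S₀ N A V S₂ N' V' K' ε q t →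
      (∀ k < Nr, ∃ j < N, A j = Ar k ∧ V j = Vr k) → (∀ k < Nv, ∃ j < N', V' j = Vv k) →
      ∀ (N₁ N₂ : ℕ) (vw : ℕ → ℝ), 1 ≤ N₁ → N₁ ≤ N₂ → 3 ≤ N₂ →
      (∀ k < ns, ∃ j, N₁ < j ∧ 4 ≤ j ∧ j ≤ N₂ ∧ vw j = vs k) →
      ∃ (S' : Pool.PB.PCl m) (Ξ : Pool.V1E.XiN m),
      (∀ (τ : ℝ) (J : ℕ) (F : Pool.KA.Fam m J) (A : F.Ω → Prop), S'.St τ J F A → S.St τ J F A) ∧
      Pool.W.PKG.RecG S' al g₀ P θ P₂ θ₂ Eb e₂ c Pt rt h K₀ g L T Sl κ G S₀ N A V S₂ N' V' K' ε q t ∧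
      (∃ κ₁ K₃ : ℝ, 0 < κ₁ ∧ 0 < K₃ ∧
        Pool.W.V1E.SlHU S' c r D Dw Dr N₁ N₂ (fun l => κ l = .one ∨ κ l = .thin) C (t + a * q)
          (Eb (r + 1)) (3 * ε * q) (hh * q) (X * q) (Sl (r + 1) * q) (L (r + 1))
          (fun k => t + Pool.V1E.vG y k₁ vw k * q)
          (fun k l => Pool.ISO.lvN P c (r + 1) (L (r + 1)) l (t + Pool.V1E.vG y k₁ vw k * q) (t + Pool.V1E.vG y k₁ vw k * q))
          (fun k l => Pool.CHT.bet P c l (t + a * q) (t + Pool.V1E.vG y k₁ vw k * q)) κ₁ K₃ Ξ) ∧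
      ∀ (κ' : ℝ) (qf : ℕ → Fin r → ℕ) (Pq : Fin r → ℝ), 0 < κ' → κ' ≤ 1 →
        (∀ i, (kf + 1) * q ≤ Pq i) → (∀ (J : ℕ) (i : Fin r), Pq i * J - 2 ≤ qf J i) →
        ∃ K₂ : ℝ, 0 < K₂ ∧
        Pool.W.V1E.VfNU S' c r D Dw Dr N₁ N₂ (fun l => κ l = .one ∨ κ l = .thin) C (t + a * q)
          (Eb (r + 1)) (3 * ε * q) (hh * q) (X * q) (Sl (r + 1) * q) (kf * q) (L (r + 1))
          (fun k => t + Pool.V1E.vG y k₁ vw k * q)
          (fun k l => Pool.ISO.lvN P c (r + 1) (L (r + 1)) l (t + Pool.V1E.vG y k₁ vw k * q) (t + Pool.V1E.vG y k₁ vw k * q))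
          (fun k l => Pool.CHT.bet P c l (t + a * q) (t + Pool.V1E.vG y k₁ vw k * q)) κ' qf δ K₂ Ξ

/-- **Closed labels of the tubes of `u`** at all scales of the record, `u` at the place `r`, `N` at the
place `r + 1`. `Ar`, `Vr`: pairs, `Vv`: windows of the chain, `vs`: windows of balls, `Du`: the degree,
`X q`: the precision. -/
def HuR (m r : ℕ) (y a h : ℝ) (Sl : ℕ → ℝ) (κ : ℕ → Pool.PKG.Kg) : Prop :=
  ∀ al : ℝ, 0 < al → ∀ K₀ : ℝ, 0 < K₀ → ∀ S₀ : ℕ, 1 ≤ S₀ →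
  ∃ (Kr : ℝ) (Nr : ℕ) (Ar Vr : ℕ → ℝ), 1 ≤ Kr ∧ (∀ k < Nr, -Kr ≤ Vr k ∧ Vr k ≤ Ar k ∧ Ar k ≤ Kr) ∧
  ∀ S₂ : ℕ, S₀ ≤ S₂ → ∀ D Dr : ℕ, 1 ≤ D → D ≤ Dr → ∀ C : ℝ, 1 ≤ C → ∃ Du : ℕ,
  ∀ X : ℝ, 0 < X → ∃ h₁ : ℝ, 0 < h₁ ∧ ∀ hh k₁ : ℝ, 0 < hh → hh ≤ h₁ → a + 1 ≤ k₁ →
  ∃ (K₁ : ℝ) (Nv : ℕ) (Vv : ℕ → ℝ) (ns : ℕ) (vs : ℕ → ℝ), (∀ j < Nv, -K₁ ≤ Vv j ∧ Vv j ≤ K₁) ∧
  (∀ j < ns, -K₁ ≤ vs j ∧ vs j ≤ a - 1 / 2) ∧ ∀ K' : ℝ, K₁ ≤ K' →
  ∃ ε₀ : ℝ, 0 < ε₀ ∧ ∀ ε : ℝ, 0 < ε → ε ≤ ε₀ →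
  ∀ (g₀ : ℝ → ℝ) (P : List (Fin m) × Fin m → ℝ → ℝ → ℝ)
    (θ : ℝ) (P₂ : ℕ → List (Fin m) × Fin m → ℝ → ℝ → ℝ) (θ₂ Eb e₂ : ℕ → ℝ) (c : ℕ → Fin m)
    (Pt : ℝ → ℝ → ℝ) (rt : ℝ → ℝ) (L T : ℕ → ℝ → ℝ → ℝ) (G : Set ℝ) (g : ℝ),
    IsClosed G → g ∈ G → (∀ l < m, HasDerivAt (fun x => L l x x) (Sl l) g) →
    ∃ q₁ : ℝ, 0 < q₁ ∧ ∀ q t : ℝ, q < q₁ →
      ∀ (S : Pool.PB.PCl m) (N : ℕ) (A V : ℕ → ℝ) (N' : ℕ) (V' : ℕ → ℝ),
      Pool.W.PKG.RecG S al g₀ P θ P₂ θ₂ Eb e₂ c Pt rt h K₀ g L T Sl κ G S₀ N A V S₂ N' V' K' ε q t →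
      (∀ k < Nr, ∃ j < N, A j = Ar k ∧ V j = Vr k) → (∀ k < Nv, ∃ j < N', V' j = Vv k) →
      ∀ (N₁ N₂ : ℕ) (vw : ℕ → ℝ), 1 ≤ N₁ → N₁ ≤ N₂ → 3 ≤ N₂ →
      (∀ k < ns, ∃ j, N₁ < j ∧ 4 ≤ j ∧ j ≤ N₂ ∧ vw j = vs k) →
      ∃ K₄ : ℝ, 0 < K₄ ∧ ∀ κ' : ℝ, 0 < κ' →
        Pool.W.V1E.HuU S c r D Du Dr N₁ N₂ (fun l => κ l = .one ∨ κ l = .thin) C (t + a * q)
          (Eb (r + 1)) (3 * ε * q) (hh * q) (X * q) (L (r + 1))
          (fun k => t + Pool.V1E.vG y k₁ vw k * q)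
          (fun k l => Pool.ISO.lvN P c (r + 1) (L (r + 1)) l (t + Pool.V1E.vG y k₁ vw k * q) (t + Pool.V1E.vG y k₁ vw k * q))
          (fun k l => Pool.CHT.bet P c l (t + a * q) (t + Pool.V1E.vG y k₁ vw k * q)) κ' K₄


/-- **The class theorem of a steep coordinate** `N` over coordinates of slope one and one more
coordinate `u`, from the slope hypothesis, the closed labels of the tubes of `u` and the velocity. -/
theorem celZ_nyu {m r : ℕ} (hr : 1 ≤ r) (hrm : r + 1 < m) {h : ℝ} {Sl : ℕ → ℝ} {κ : ℕ → Pool.PKG.Kg}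
    (hκ : ∀ l < r, κ l = .one) (hκu : κ r ≠ .any) (hκt : κ (r + 1) = .stp) (hsu : 1 ≤ Sl r)
    (hs : 2 < Sl (r + 1)) {y a : ℝ} (hy : 3 / 2 ≤ y) (hya : y + 1 / 2 ≤ a)
    (hsa : Sl (r + 1) + 1 ≤ a) {ι Λ : Type} {Q : Pool.PKG.PropG m ι}
    {Z : Pool.PKG.PropZ m Λ} (hV : Pool.W.PKG.SvNU m r y a h Sl κ Q Z) (hU : Pool.W.PKG.HuR m r y a h Sl κ)
    (hmr : r + 2 = m := by omega) : Pool.W.PKG.CelZ m (r + 1) h Sl κ (Pool.LA91.sumQ Q Pool.W.LA91.FaQ) Z := by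
  intro al hal K₀ hK₀ del hdel S₀ hS₀
  obtain ⟨KrV, NrV, ArV, VrV, hKrV, hAVV, hV⟩ := hV al hal K₀ hK₀ S₀ hS₀
  obtain ⟨KrU, NrU, ArU, VrU, hKrU, hAVU, hU⟩ := hU al hal K₀ hK₀ S₀ hS₀
  obtain ⟨Kr, hKrd⟩ : ∃ K, K = max KrV KrU := ⟨_, rfl⟩
  have hKr1 : KrV ≤ Kr := by rw [hKrd]; exact le_max_left _ _
  have hKr2 : KrU ≤ Kr := by rw [hKrd]; exact le_max_right _ _
  have hKr : 1 ≤ Kr := hKrV.trans hKr1
  obtain ⟨Nr, hNr⟩ : ∃ N, N = NrV + NrU := ⟨_, rfl⟩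
  obtain ⟨Ar, hAr⟩ : ∃ A, A = Pool.PKG.cmb NrV ArV ArU := ⟨_, rfl⟩
  obtain ⟨Vr, hVr⟩ : ∃ V, V = Pool.PKG.cmb NrV VrV VrU := ⟨_, rfl⟩
  have hAV : ∀ k < Nr, -Kr ≤ Vr k ∧ Vr k ≤ Ar k ∧ Ar k ≤ Kr := by
    intro k hk
    rw [hAr, hVr]
    rcases Nat.lt_or_ge k NrV with h1 | h1
    · rw [Pool.PKG.cmb_l h1, Pool.PKG.cmb_l h1]
      obtain ⟨h2, h3, h4⟩ := hAVV k h1
      exact ⟨by linarith, h3, by linarith⟩
    · obtain ⟨j, rfl⟩ : ∃ j, k = NrV + j := ⟨k - NrV, by omega⟩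
      rw [Pool.PKG.cmb_r, Pool.PKG.cmb_r]
      obtain ⟨h2, h3, h4⟩ := hAVU j (by omega)
      exact ⟨by linarith, h3, by linarith⟩
  obtain ⟨s, hsd⟩ : ∃ s, s = Sl (r + 1) := ⟨_, rfl⟩
  rw [← hsd] at hs hV hsa
  obtain ⟨CM, hCM⟩ := exists_nat_gt s
  have hr0 : (0 : ℝ) ≤ r := Nat.cast_nonneg r
  obtain ⟨A, hA⟩ : ∃ A : ℕ → ℝ, A = fun k => if k < 2 then a else if k = 2 then 1 else
    Ar (k - 3) := ⟨_, rfl⟩
  obtain ⟨V, hVd⟩ : ∃ V : ℕ → ℝ, V = fun k => if k = 0 then 0 else if k = 1 then y else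
    if k = 2 then 0 else Vr (k - 3) := ⟨_, rfl⟩
  have a0 : A 0 = a := by simp [hA]
  have a1 : A 1 = a := by simp [hA]
  have a2 : A 2 = 1 := by simp [hA]
  have a3 : ∀ k, A (3 + k) = Ar k := fun k => by
    simp only [hA]
    rw [if_neg (by omega), if_neg (by omega)]
    congr 1
    omega
  have v0 : V 0 = 0 := by simp [hVd]
  have v1 : V 1 = y := by simp [hVd]
  have v2 : V 2 = 0 := by simp [hVd]
  have v3 : ∀ k, V (3 + k) = Vr k := fun k => by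
    simp only [hVd]
    rw [if_neg (by omega), if_neg (by omega), if_neg (by omega)]
    congr 1
    omega
  refine ⟨max Kr a, 3 + Nr, A, V, le_max_of_le_left hKr, fun k hk => ?_,
    fun S₂ hS₂ => ?_⟩
  · have m1 := le_max_left Kr a
    have m2 := le_max_right Kr a
    rcases Nat.lt_or_ge k 3 with h3 | h3
    · interval_cases k
      · rw [v0, a0]
        exact ⟨by linarith, by linarith, by linarith⟩
      · rw [v1, a1]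
        exact ⟨by linarith, by linarith, by linarith⟩
      · rw [v2, a2]
        exact ⟨by linarith, by linarith, by linarith⟩
    · obtain ⟨j, rfl⟩ : ∃ j, k = 3 + j := ⟨k - 3, by omega⟩
      rw [a3, v3]
      obtain ⟨h4, h5, h6⟩ := hAV j (by omega)
      exact ⟨by linarith, h5, by linarith⟩
  obtain ⟨D, hD, hx⟩ := Pool.W.V1E.x10u_fh m r S₂ CM hr (hS₀.trans hS₂) (Sl r) s hsu (by linarith)
  obtain ⟨Dr, hDr, hV⟩ := hV S₂ hS₂ D hD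
  obtain ⟨C, hC, hx⟩ := hx Dr hDr
  obtain ⟨Du, hU⟩ := hU S₂ hS₂ D Dr hD hDr C hC
  obtain ⟨Dw, hDw, hDu, hV⟩ := hV C hC Du
  obtain ⟨δ, C', hδ, hδ1, hC', X₀, hX₀, hx⟩ := hx Dw hDw del hdel
  have hC0 : 0 < C := by linarith
  have hC'0 : 0 < C' := by linarith
  obtain ⟨lam, kf, X, h₁, hkf, hX0, hXX, hh₁, hV⟩ := hV δ (min X₀ (δ / (4 * C'))) hδ hδ1
    (lt_min hX₀ (by positivity))
  obtain ⟨h₂, hh₂, hU⟩ := hU X hX0
  have hX1 : X ≤ X₀ := hXX.trans (min_le_left _ _)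
  have hX2 : 4 * C' * X ≤ δ := by
    have := hXX.trans (min_le_right _ _)
    rw [le_div_iff₀ (by positivity)] at this
    linarith
  obtain ⟨CT, hCT⟩ := exists_nat_ge (2 * kf + 7 * r + 18 + a)
  have hCT0 : (0 : ℝ) ≤ CT := Nat.cast_nonneg CT
  obtain ⟨k₁, hk₁⟩ : ∃ k₁ : ℝ, k₁ = CT + 7 * r + 13 := ⟨_, rfl⟩
  obtain ⟨κT, hκT0, hκTδ⟩ : ∃ x : ℚ, (0 : ℝ) < x ∧ (x : ℝ) < δ := exists_rat_btwn hδ
  have hep : 0 < Pool.LA91.epT r 1 κT := by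
    unfold Pool.LA91.epT
    push_cast
    positivity
  have hsl : 0 < Pool.LA91.slT r 1 κT := by
    unfold Pool.LA91.slT Pool.LA91.epT
    push_cast
    positivity
  obtain ⟨ρ, hρ⟩ : ∃ ρ : ℝ, ρ = min (1 / 2) (δ / (4 * C')) := ⟨_, rfl⟩
  have hρ0 : 0 < ρ := by rw [hρ]; positivity
  have hρ1 : ρ ≤ 1 / 2 := by rw [hρ]; exact min_le_left _ _
  have hρ2 : 4 * C' * ρ ≤ δ := by
    have : ρ ≤ δ / (4 * C') := by rw [hρ]; exact min_le_right _ _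
    rw [le_div_iff₀ (by positivity)] at this
    linarith
  obtain ⟨v₀, hv₀⟩ : ∃ v₀ : ℝ, v₀ = min (X / (20 * C)) (min (min h₁ h₂) (min (1 / 2) (min (Pool.LA91.slT r 1 κT / 2)
      (min (ρ / (2 * (C + 2))) (δ / (12 * C')))))) := ⟨_, rfl⟩
  have hh12 : 0 < min h₁ h₂ := lt_min hh₁ hh₂
  have hv0 : 0 < v₀ := by rw [hv₀]; positivity
  have hvm : v₀ ≤ X / (20 * C) ∧ v₀ ≤ min h₁ h₂ ∧ v₀ ≤ 1 / 2 ∧ v₀ ≤ Pool.LA91.slT r 1 κT / 2 ∧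
      v₀ ≤ ρ / (2 * (C + 2)) ∧ v₀ ≤ δ / (12 * C') := by
    rw [hv₀]
    exact ⟨min_le_left _ _, (min_le_right _ _).trans (min_le_left _ _),
      (min_le_right _ _).trans ((min_le_right _ _).trans (min_le_left _ _)),
      (min_le_right _ _).trans ((min_le_right _ _).trans ((min_le_right _ _).trans
        (min_le_left _ _))),
      (min_le_right _ _).trans ((min_le_right _ _).trans ((min_le_right _ _).trans
        ((min_le_right _ _).trans (min_le_left _ _)))),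
      (min_le_right _ _).trans ((min_le_right _ _).trans ((min_le_right _ _).trans
        ((min_le_right _ _).trans (min_le_right _ _))))⟩
  obtain ⟨hv1, hv2, hv3, hv4, hv5, hv6⟩ := hvm
  rw [le_div_iff₀ (by positivity)] at hv1 hv5 hv6
  obtain ⟨K₁V, NvV, VvV, nsV, vsV, hVvV, hvsV, hV⟩ := hV v₀ k₁ hv0 (hv2.trans (min_le_left _ _))
    (by linarith) (by linarith)
  obtain ⟨K₁U, NvU, VvU, nsU, vsU, hVvU, hvsU, hU⟩ := hU v₀ k₁ hv0 (hv2.trans (min_le_right _ _))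
    (by linarith)
  obtain ⟨K₁, hK₁d⟩ : ∃ K, K = max K₁V K₁U := ⟨_, rfl⟩
  have hK11 : K₁V ≤ K₁ := by rw [hK₁d]; exact le_max_left _ _
  have hK12 : K₁U ≤ K₁ := by rw [hK₁d]; exact le_max_right _ _
  obtain ⟨Nv, hNv⟩ : ∃ N, N = NvV + NvU := ⟨_, rfl⟩
  obtain ⟨Vv, hVvd⟩ : ∃ V, V = Pool.PKG.cmb NvV VvV VvU := ⟨_, rfl⟩
  obtain ⟨ns, hns⟩ : ∃ N, N = nsV + nsU := ⟨_, rfl⟩
  obtain ⟨vs, hvsd⟩ : ∃ V, V = Pool.PKG.cmb nsV vsV vsU := ⟨_, rfl⟩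
  have hVv : ∀ j < Nv, -K₁ ≤ Vv j ∧ Vv j ≤ K₁ := by
    rw [hNv, hVvd]
    exact Pool.PKG.cmb_all (p := fun v => -K₁ ≤ v ∧ v ≤ K₁)
      (fun k hk => ⟨by linarith [(hVvV k hk).1], by linarith [(hVvV k hk).2]⟩)
      (fun k hk => ⟨by linarith [(hVvU k hk).1], by linarith [(hVvU k hk).2]⟩)
  have hvs : ∀ j < ns, -K₁ ≤ vs j ∧ vs j ≤ a - 1 / 2 := by
    rw [hns, hvsd]
    exact Pool.PKG.cmb_all (p := fun v => -K₁ ≤ v ∧ v ≤ a - 1 / 2)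
      (fun k hk => ⟨by linarith [(hvsV k hk).1], (hvsV k hk).2⟩)
      (fun k hk => ⟨by linarith [(hvsU k hk).1], (hvsU k hk).2⟩)
  obtain ⟨K, hK⟩ : ∃ K : ℝ, K = max (max Kr a) (max K₁ (2 * a + k₁ + kf + 6)) :=
    ⟨_, rfl⟩
  have hKa : max Kr a ≤ K := by rw [hK]; exact le_max_left _ _
  have hKb : K₁ ≤ K := by rw [hK]; exact (le_max_left _ _).trans (le_max_right _ _)
  have hKc : 2 * a + k₁ + kf + 6 ≤ K := by
    rw [hK]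
    exact (le_max_right _ _).trans (le_max_right _ _)
  obtain ⟨ε₀V, hε₀V, hV⟩ := hV K (hK11.trans hKb)
  obtain ⟨ε₀U, hε₀U, hU⟩ := hU K (hK12.trans hKb)
  obtain ⟨ε₀, hε₀d⟩ : ∃ ε, ε = min ε₀V ε₀U := ⟨_, rfl⟩
  have hε₀ : 0 < ε₀ := by rw [hε₀d]; exact lt_min hε₀V hε₀U
  obtain ⟨ε, hε⟩ : ∃ ε : ℝ, ε = min ε₀ (min (v₀ / 2) (min (v₀ / (6 * C)) (Pool.LA91.epT r 1 κT / 4))) :=
    ⟨_, rfl⟩
  have hεp : 0 < ε := by rw [hε]; positivity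
  have hεm : ε ≤ ε₀ ∧ ε ≤ v₀ / 2 ∧ ε ≤ v₀ / (6 * C) ∧ ε ≤ Pool.LA91.epT r 1 κT / 4 := by
    rw [hε]
    exact ⟨min_le_left _ _, (min_le_right _ _).trans (min_le_left _ _),
      (min_le_right _ _).trans ((min_le_right _ _).trans (min_le_left _ _)),
      (min_le_right _ _).trans ((min_le_right _ _).trans (min_le_right _ _))⟩
  obtain ⟨hε1, hε2, hε3, hε4⟩ := hεm
  rw [le_div_iff₀ (by positivity)] at hε3
  have hCε : 0 < C * ε := mul_pos hC0 hεp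
  -- the windows of the chain: the frame, the ball, the deeper window, the windows of the balls
  obtain ⟨V', hV'⟩ : ∃ V' : ℕ → ℝ, V' = fun k => if k = 0 then -k₁ else if k = 1 then 1 else
    if k = 2 then 1 + ρ else if k < 3 + ns then vs (k - 3) else Vv (k - (3 + ns)) := ⟨_, rfl⟩
  have w0 : V' 0 = -k₁ := by simp [hV']
  have w1 : V' 1 = 1 := by simp [hV']
  have w2 : V' 2 = 1 + ρ := by simp [hV']
  have w3 : ∀ k < ns, V' (3 + k) = vs k := fun k hk => by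
    simp only [hV']
    rw [if_neg (by omega), if_neg (by omega), if_neg (by omega), if_pos (by omega)]
    congr 1
    omega
  have w4 : ∀ k, V' (3 + ns + k) = Vv k := fun k => by
    simp only [hV']
    rw [if_neg (by omega), if_neg (by omega), if_neg (by omega), if_neg (by omega)]
    congr 1
    omega
  obtain ⟨vw, hvw⟩ : ∃ vw : ℕ → ℝ, vw = fun k => if k = 4 then 1 + ρ else vs (k - 5) := ⟨_, rfl⟩
  have u4 : vw 4 = 1 + ρ := by simp [hvw]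
  have u5 : ∀ k, vw (5 + k) = vs k := fun k => by
    simp only [hvw]
    rw [if_neg (by omega)]
    congr 1
    omega
  refine ⟨lam, K, 3 + ns + Nv, V', hKa, fun k hk => ?_, ε, hεp, ?_⟩
  · rcases Nat.lt_or_ge k 3 with h3 | h3
    · interval_cases k
      · rw [w0]
        constructor <;> linarith
      · rw [w1]
        constructor <;> linarith
      · rw [w2]
        constructor <;> linarith
    · rcases Nat.lt_or_ge k (3 + ns) with h3' | h3'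
      · obtain ⟨j, rfl⟩ : ∃ j, k = 3 + j := ⟨k - 3, by omega⟩
        rw [w3 j (by omega)]
        obtain ⟨h4, h5⟩ := hvs j (by omega)
        exact ⟨by linarith, by linarith⟩
      · obtain ⟨j, rfl⟩ : ∃ j, k = 3 + ns + j := ⟨k - (3 + ns), by omega⟩
        rw [w4]
        obtain ⟨h4, h5⟩ := hVv j (by omega)
        exact ⟨by linarith, by linarith⟩
  intro S g₀ P θ P₂ θ₂ Eb e₂ c Pt rt L T G g hG hg hder hZ
  obtain ⟨p, M, B₀, B₁, hB, hV⟩ := hV ε hεp (hε1.trans (by rw [hε₀d]; exact min_le_left _ _)) S g₀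
    P θ P₂ θ₂ Eb e₂ c Pt rt L T G g hG hg hder hZ
  obtain ⟨q₂, hq₂, hU⟩ := hU ε hεp (hε1.trans (by rw [hε₀d]; exact min_le_right _ _)) g₀
    P θ P₂ θ₂ Eb e₂ c Pt rt L T G g hG hg hder
  refine ⟨fun j => if j < M then Sum.inl (p j) else Sum.inr (r, CT, 1, κT), M + 1,
    fun j => if j < M then B₀ j else (kf + 1) - CT - (7 * r + 11) / 2,
    fun j => if j < M then B₁ j else -(CT / 2 + 7 * r + 13), fun j hj => ?_, fun k₀ hgk => ?_⟩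
  · by_cases h4 : j < M
    · simp only [h4, if_true]
      exact hB j h4
    · simp only [h4, if_false]
      linarith
  obtain ⟨q₁, hq₁, hV⟩ := hV k₀ fun j hj => by
    have h4 := hgk j (by omega)
    simp only [hj, if_true] at h4
    exact h4
  refine ⟨min (min q₁ q₂) ((1 / 2) ^ k₀ M), lt_min (lt_min hq₁ hq₂) (by positivity),
    fun q t x hq hxj R => ?_⟩
  have hq0 := R.q0
  -- the slope hypothesis and the velocity, in a subclass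
  have hlp : ∀ k < Nr, ∃ j < 3 + Nr, A j = Ar k ∧ V j = Vr k := fun k hk =>
    ⟨3 + k, by omega, a3 k, v3 k⟩
  have hlv : ∀ k < Nv, ∃ j < 3 + ns + Nv, V' j = Vv k := fun k hk =>
    ⟨3 + ns + k, by omega, w4 k⟩
  have hls : ∀ k < ns, ∃ j, 1 < j ∧ 4 ≤ j ∧ j ≤ 4 + ns ∧ vw j = vs k := fun k hk =>
    ⟨5 + k, by omega, by omega, by omega, u5 k⟩
  obtain ⟨S', Ξ, hSS, R, hSl, hVf⟩ := hV q t x
    (hq.trans_le ((min_le_left _ _).trans (min_le_left _ _))) (fun j hj => by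
      obtain ⟨h4, h5, h6, h7⟩ := hxj j (by omega)
      simp only [hj, if_true] at h5 h6 h7
      exact ⟨h4, h5, h6, h7⟩) _ _ _ _ _ R
    (fun k hk => by
      have h4 := hlp k (by omega)
      rwa [hAr, hVr, Pool.PKG.cmb_l hk, Pool.PKG.cmb_l hk] at h4)
    (fun k hk => by
      have h4 := hlv k (by omega)
      rwa [hVvd, Pool.PKG.cmb_l hk] at h4) 1
    (4 + ns) vw le_rfl (by omega) (by omega)
    (fun k hk => by
      have h4 := hls k (by omega)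
      rwa [hvsd, Pool.PKG.cmb_l hk] at h4)
  obtain ⟨K₄, hK₄, hHu⟩ := hU q t (hq.trans_le ((min_le_left _ _).trans (min_le_right _ _))) S'
    _ _ _ _ _ R
    (fun k hk => by
      have h4 := hlp (NrV + k) (by omega)
      rwa [hAr, hVr, Pool.PKG.cmb_r, Pool.PKG.cmb_r] at h4)
    (fun k hk => by
      have h4 := hlv (NvV + k) (by omega)
      rwa [hVvd, Pool.PKG.cmb_r] at h4) 1
    (4 + ns) vw le_rfl (by omega) (by omega)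
    (fun k hk => by
      have h4 := hls (nsV + k) (by omega)
      rwa [hvsd, Pool.PKG.cmb_r] at h4)
  obtain ⟨k, hk0, hk1, hk2⟩ := Pool.PKG.pow_near hq0 (hq.trans_le (min_le_right _ _))
  -- the time line
  obtain ⟨-, hx1, hx2, hxQ⟩ := hxj M (Nat.lt_succ_self M)
  simp only [lt_irrefl, if_false] at hx1 hx2 hxQ
  have hTl := (hxQ.sub hSS).tl (show r < m by omega) hκ (by norm_num) (by norm_num)
    (by exact_mod_cast hκT0) k hk0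
  have hmG : t - k₁ * q ∈ G := by
    have := R.memG.2 0 (by omega)
    rw [w0] at this
    have e : t + -k₁ * q = t - k₁ * q := by ring
    rwa [e] at this
  obtain ⟨qf, nt, P₁, fr, hT, hqf, hTW, hHn⟩ := R.tl_scale (i := r + 1) (by omega) hrm
    (Nat.le_succ r) hκ (CM := CM)
    (s := s) (C' := C') (δ := δ) (h := v₀) (X := X) (κT := κT) (σ := 1)
    (vw := vw) (x := x M) hmG (by linarith) hkf hCM hC' hδ1 (by norm_num) le_rfl hκT0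
    hκTδ hv0.le hX0.le (by nlinarith) (by linarith) hv3 hεp.le (by linarith)
    (by linarith) hk₁ (by linarith) (by linarith) hk1 hk2 (by linarith) (by linarith) hTl
  have hHf := (hHn (X * q) rfl).cng (o' := fun k => t + Pool.V1E.vG y k₁ vw k * q)
    (lv' := fun k l => Pool.ISO.lvN P c (r + 1) (L (r + 1)) l (t + Pool.V1E.vG y k₁ vw k * q)
      (t + Pool.V1E.vG y k₁ vw k * q)) (fun k hk => by simp only [Pool.V1E.vG_vF hk])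
    (fun k hk l => by simp only [Pool.V1E.vG_vF hk])
  rw [← Pool.V1E.vG_vF (y := y) (k := 2) (by norm_num), ← Pool.V1E.vG_vF (y := y) (k := 0) (by norm_num),
    ← Pool.V1E.vG_vF (y := y) (k := 3) (by norm_num)] at hTW
  -- the hyperplanes
  have hCX : 20 * (C * v₀) ≤ X := by linarith
  have hvC : v₀ ≤ C * v₀ := le_mul_of_one_le_left hv0.le hC
  obtain ⟨aq, hNN⟩ := R.nhNN hrm hκ (j := 2) (d := 4) (by omega) (C := C) (δ := δ) (C' := C')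
    (ρ := ρ) (v₀ := v₀) (X := X) (k₁ := k₁) (vw := vw) w2 le_rfl u4 hC hC' hδ hδ1 hv0
    (by linarith) hρ0 hρ1 (by nlinarith) (by nlinarith) hεp.le (by linarith) (by linarith)
    (by linarith)
  replace hNN := hNN.cng (o' := fun k => t + Pool.V1E.vG y k₁ vw k * q)
    (lv' := fun k l => Pool.ISO.lvN P c (r + 1) (L (r + 1)) l (t + Pool.V1E.vG y k₁ vw k * q)
      (t + Pool.V1E.vG y k₁ vw k * q)) (by norm_num) (fun k hk => by simp only [Pool.V1E.vG_vF hk])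
    (fun k hk l => by simp only [Pool.V1E.vG_vF hk])
  -- the record
  have hRf := R.recNy (y := y) (a := a) (k₁ := k₁) (vw := vw) (N₁ := 1) (N₂ := 4 + ns)
    (Rg := fun l => κ l = .one ∨ κ l = .thin) hrm hκ hκu hκt (fun l _ h => h)
    (fun l hl => Or.inl (hκ l hl)) (fun h => h.symm) le_rfl (by omega) (by omega) hy hya (by rw [← hsd]; exact hsa) hS₂
    (fun k hk => by
      interval_cases k
      · exact ⟨0, by omega, a0, by rw [v0]; simp [Pool.V1E.vG]⟩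
      · exact ⟨1, by omega, a1, by rw [v1]; norm_num [Pool.V1E.vG]⟩)
    (fun k hk hk' => by
      rcases Nat.lt_or_ge k 5 with h5 | h5
      · interval_cases k
        · exact ⟨0, by omega, by rw [w0]; simp [Pool.V1E.vG]⟩
        · exact ⟨1, by omega, by rw [w1]; simp [Pool.V1E.vG]⟩
        · exact ⟨2, by omega, by rw [w2, Pool.V1E.vG_ge le_rfl, u4]⟩
      · obtain ⟨j, rfl⟩ : ∃ j, k = 5 + j := ⟨k - 5, by omega⟩
        exact ⟨3 + j, by omega, by rw [w3 j (by omega), Pool.V1E.vG_ge (by omega), u5]⟩)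
    ⟨2, by omega, a2, v2⟩ hεp.le (by linarith)
    (fun k hk hk' => by
      rcases Nat.lt_or_ge k 5 with h5 | h5
      · have : k = 4 := by omega
        rw [this, u4]
        constructor <;> linarith
      · obtain ⟨j, rfl⟩ : ∃ j, k = 5 + j := ⟨k - 5, by omega⟩
        rw [u5]
        obtain ⟨h6, h7⟩ := hvs j (by omega)
        constructor <;> linarith)
    (fun k hk hk' => by omega) (by linarith) (by linarith)
  rw [← hsd] at hRf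
  obtain ⟨κ₁, K₃, hκ₁, hK₃, hSl⟩ := hSl
  obtain ⟨κ₂, hκ₂d⟩ : ∃ κ₂ : ℝ, κ₂ = min κ₁ (1 / K₃) := ⟨_, rfl⟩
  have hκ₂ : 0 < κ₂ := by rw [hκ₂d]; exact lt_min hκ₁ (by positivity)
  have hκ₂1 : κ₂ ≤ κ₁ := by rw [hκ₂d]; exact min_le_left _ _
  have hκ₂3 : κ₂ * K₃ ≤ 1 := by
    have : κ₂ ≤ 1 / K₃ := by rw [hκ₂d]; exact min_le_right _ _
    rwa [le_div_iff₀ hK₃] at this
  obtain ⟨K₂, hK₂, hVf⟩ := hVf (κ₂ * K₃) qf (fun i => P₁ i - nt i) (by positivity) hκ₂3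
    (fun i => by
      have h4 := hHf.P2 i
      have e0 : t + Pool.V1E.vG y k₁ vw 0 * q = t := by simp [Pool.V1E.vG]
      have e3 : t + Pool.V1E.vG y k₁ vw 3 * q = t + q := by simp [Pool.V1E.vG]
      simp only [e0, e3] at h4
      linarith) (fun J i => by
      have := (abs_le.1 (hHf.qf1 J i)).1
      linarith)
  have hHu' := hHu (κ₂ / K₄) (div_pos hκ₂ hK₄)
  exact hx v₀ X hv0 (by linarith) hX1 hRf (by linarith) hqf (div_pos hκ₂ hK₄) hK₃ hK₄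
    (by rw [div_mul_cancel₀ _ hK₄.ne']) le_rfl hK₂
    (by omega) hDu hHu' (hSl.kap hκ₂1 hκ₂.le) hVf hTW hHf hNN

end Pool.W.PKG
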