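import Pool.Agent.H73.D2.Tnq
import Pool.Agent.H31.W.H73.D2.Tml

/-!
# The slope hypothesis with a smaller constant of the windows
-/

set_option autoImplicit false

namespace Pool.W.V1E

open Pool.V1E

open Finset Real MvPolynomial
open Pool.KA Pool.KSAT Pool.PB Pool.GEN Pool.D2R Pool.D2G30 Pool.ISO Pool.CHT Pool.CHX
open Pool.Agent.H49.Ent Pool.Agent.H32.Dense Pool.STK Pool.K2S
open Pool.S6C Pool.RCD Pool.D2Con

variable {m : ℕ}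

/-- A smaller constant of the windows. -/
theorem SlH.kap {S : Pool.PB.PCl m} {c : ℕ → Fin m} {r D Dw Dr N N₂ : ℕ} {R : ℕ → Prop}
    {C a Eb ε₀ η₀ χ mb : ℝ} {Pt : ℝ → ℝ → ℝ} {o : ℕ → ℝ} {lv be : ℕ → ℕ → ℝ} {κ κ' K₃ : ℝ}
    {Ξ : Pool.V1E.XiN m} (h : Pool.W.V1E.SlH S c r D Dw Dr N N₂ R C a Eb ε₀ η₀ χ mb Pt o lv be κ K₃ Ξ)
    (hκ : κ' ≤ κ) (h0 : 0 ≤ κ') :
    Pool.W.V1E.SlH S c r D Dw Dr N N₂ R C a Eb ε₀ η₀ χ mb Pt o lv be κ' K₃ Ξ := by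
  refine Pool.S6C.Bas.mono 0 h ?_
  intro J _ F B w b z gc gT g₀ G H T TH Gt Ht W
  exact w b z gc gT g₀ G H T TH Gt Ht (W.res (κ₁ := 1) (κ₂ := κ) (fun _ h => h) (by rw [one_mul])
    (h0.trans hκ) (by rw [mul_one]; exact hκ))

end Pool.W.V1E
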