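import Pool.Agent.H73.D2.Tnu
import Pool.Agent.H31.W.H73.D2.Tmx
import Pool.Agent.H31.W.H73.D2.Tnn
import Pool.Agent.H31.W.H73.D2.Tns
import Pool.Agent.H31.W.H73.D2.Tnt

/-!
# The slope hypothesis with a closed gradient from closed labels of `N`

`slhN_cl`: in a class. `recNy_slhN`: at one scale.
-/

set_option autoImplicit false

namespace Pool.W.V1E

open Pool.V1E

open Finset Real MvPolynomial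
open Pool.Agent.H49.Ent Pool.Agent.H32.Dense Pool.STK Pool.KA Pool.KSAT Pool.K2S Pool.PB Pool.S6C
open Pool.GEN Pool.CHT Pool.CHX Pool.ISO Pool.D2R Pool.D2G30 Pool.END18 Pool.D2Con
open Pool.LBT (ThrOf)
open Pool.LEV (Law)

/-- **The slope hypothesis with a closed gradient**, from closed labels of `N`. -/
theorem slhN_cl (Dw r : ℕ) : ∃ CT : ℕ, ∀ {m : ℕ} {S : Pool.PB.PCl m} {c : ℕ → Fin m} {D Du Dr N N₂ : ℕ}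
    {R : ℕ → Prop} {C a Eb ε₀ η₀ ζ χ mb : ℝ} {Pt : ℝ → ℝ → ℝ} {o : ℕ → ℝ} {lv be : ℕ → ℕ → ℝ}
    {κ κ₁ K₃ K₄ : ℝ} {Ξ : Pool.V1E.XiN m}, 1 ≤ N → 3 ≤ N₂ → D ≤ Dw → Du ≤ Dw →
    Set.InjOn c (Set.Iio (r + 2)) → (∀ l < r, R l) → 1 ≤ C → 0 < η₀ →
    3 * (C * η₀) ≤ Pt a (o 0) → 0 ≤ lv 1 (r + 1) →
    o 1 + 4 * (C * η₀) ≤ a → a ≤ 1 →
    (¬ R r → lv 1 r + (a - o 1) ≤ be 1 r + ζ) →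
    mb + (o 3 - o 0) < o 0 - o 2 → o 3 - o 0 < mb → η₀ ≤ o 3 - o 0 →
    η₀ ≤ o 1 - o 3 → 0 ≤ ζ →
    C * η₀ + 2 * (ζ + 3 * (C * η₀)) + η₀ < χ →
    (∀ k ≤ 3, ∀ j < r, |lv k j - o k - (lv 0 j - o 0)| ≤ ζ) →
    lv 0 r + (o 3 - o 0) ≤ lv 3 r + ζ → lv 3 r + (o 1 - o 3) ≤ lv 1 r + ζ →
    lv 0 (r + 1) + mb ≤ lv 3 (r + 1) + ζ →
    lv 0 (r + 1) + (o 1 - o 0) + (mb - (o 3 - o 0)) ≤ lv 1 (r + 1) + ζ →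
    lv 0 (r + 1) + (a - o 0) + (mb - (o 3 - o 0)) ≤ Pt a (o 0) + ζ →
    (∀ (J : ℕ) (F : Pool.KA.Fam m J) (B B' : F.Ω → Prop) g₀ G H Ht CL Cp, Pool.K2S.Sub B' B →
      Ξ J F B g₀ G H Ht CL Cp → Ξ J F B' g₀ G H Ht CL Cp) →
    0 < K₃ → 0 ≤ κ₁ → κ * K₃ ≤ κ₁ →
    Pool.W.V1E.SlHU S c r D Dw Dr N N₂ R C a Eb ε₀ η₀ χ mb Pt o lv be κ K₃ Ξ →
    Pool.W.V1E.HnB S c r D Du Dr N N₂ R C a Eb ε₀ η₀ χ mb Pt o lv be κ₁ K₄ Ξ →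
    Pool.W.V1E.SlHU S c r D Dw Dr N N₂ R C a Eb ε₀ η₀ χ mb Pt o lv be κ (K₃ * K₄)
      (fun J F B g₀ G H Ht CL Cp => Ξ J F B g₀ G H Ht CL Cp ∧
        Pool.V1E.XiCl c r Dw CT χ mb o lv J F B g₀ G H Ht CL Cp) := by
  obtain ⟨CT, hclo⟩ := Pool.W.V1E.nu_cloN Dw r
  refine ⟨CT, ?_⟩
  intro m S c D Du Dr N N₂ R C a Eb ε₀ η₀ ζ χ mb Pt o lv be κ κ₁ K₃ K₄ Ξ hN1 hN hDD hDu hc hR hC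
    hη₀ hPt0 hlv1 hoa ha hbe h01 h12 h12' h23 hζ hχ hn hu2 hu3 h2 h3 hPa hXs hK₃ hκ₁ hκ hS hB
  obtain ⟨J₀, hnv⟩ := Pool.W.V1E.wg_nvp (Eb := Eb) (ε₀ := ε₀) (D := D) (Dr := Dr) hN1 hN hc hR hC hη₀
    hPt0 hlv1 hoa ha hbe h01 h12 h12' h23 hζ hχ hn hu2 hu3 h2 h3 hPa
  refine Pool.S6C.Bas.mono J₀ (hS.and (Pool.V1E.bas_big hB K₃)) ?_
  rintro J hJ F B ⟨w1, w2⟩ b z gc gT g₀ G H T TH Gt Ht W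
  obtain ⟨B₂, CL, Cp, hB₂, hPB₂, hNw, hΞ⟩ := w1 b z gc gT g₀ G H T TH Gt Ht W
  have W₂ := W.res (κ₁ := 1 / K₃) (κ₂ := κ₁) hB₂ (by
    rw [one_div_mul_eq_div, div_le_iff₀ hK₃, mul_comm]
    exact hPB₂) hκ₁ (by
    rw [mul_one_div, le_div_iff₀ hK₃]
    exact hκ)
  obtain ⟨B₃, TN, hB₃, hPB₃, dTN, pTN, hT1, hT2⟩ := w2 B₂ hB₂ hPB₂ b z gc gT g₀ G H T TH Gt Ht
    CL Cp W₂ hΞ
  refine ⟨B₃, CL, Cp, fun ω hω => hB₂ ω (hB₃ ω hω), ?_, hNw.mono hB₃ le_rfl le_rfl,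
    hXs _ _ _ _ _ _ _ _ _ _ hB₃ hΞ, ?_⟩
  · rw [mul_assoc]
    exact hPB₂.trans (mul_le_mul_of_nonneg_left hPB₃ hK₃.le)
  have hP := ((hnv J hJ F b κ z (fun _ => ⌊mb * J⌋₊ + (⌊o 3 * J⌋₊ - ⌊o 0 * J⌋₊)) B gc gT g₀ G H
    T TH Gt Ht (fun _ => le_rfl) W).sub (B' := B₃) fun ω hω => hB₂ ω (hB₃ ω hω)).deg hDD
  have hC' : Pool.V1E.NwCU F c r Dw ⌊mb * J⌋₊ (⌊o 3 * J⌋₊ - ⌊o 0 * J⌋₊) ⌊χ * J⌋₊ ⌊lv 0 r * J⌋₊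
      (Pool.V1E.sN (lv 0) J r r) (fun k => ⌊o (Pool.V1E.fr4 k) * J⌋₊) (fun k => g₀ (Pool.V1E.fr4 k)) B₃
      (fun k => G (Pool.V1E.fr4 k)) (Ht 0) CL Cp := by
    rw [Pool.V1E.sN_r]
    exact hNw.mono hB₃ le_rfl le_rfl
  refine hclo (⟨hP, hC'⟩ : Pool.W.V1E.NwDU F c r Dw 3 N₂ ⌊a * J⌋₊ ⌊mb * J⌋₊ (⌊o 0 * J⌋₊ - ⌊o 2 * J⌋₊)
    (⌊o 3 * J⌋₊ - ⌊o 0 * J⌋₊) ⌊χ * J⌋₊ ⌊Pool.V1E.prF C a η₀ Pt (fun k => lv k (r + 1)) o * J⌋₊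
    ⌊(Eb + 2 * η₀) * J⌋₊ ⌊lv 0 r * J⌋₊ (Pool.V1E.sN (lv 0) J r) _
    (fun k => ⌊o (Pool.V1E.fr4 k) * J⌋₊) (fun k => z (Pool.V1E.fr4 k)) (fun k l => ⌊b (Pool.V1E.fr4 k) l * J⌋₊)
    (Pool.V1E.gX gc) (Pool.V1E.gX gT) (fun k => g₀ (Pool.V1E.fr4 k)) B₃ (fun k => G (Pool.V1E.fr4 k)) (Pool.V1E.tX F c G T)
    (fun k => H (Pool.V1E.fr4 k)) (fun k => TH (Pool.V1E.fr4 k)) (Ht 0) CL Cp)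
    ⟨TN, fun L => (dTN L).trans hDu, pTN, fun ω hω => ?_, fun ω hω V hV0 hV v hv => ?_⟩
  · have h4 := hT1 ω hω
    rw [Pool.V1E.sN_r]
    exact h4
  · have h4 := hT2 ω hω V hV0 (fun j hj => by
      have h5 := hV j hj
      rw [Pool.V1E.sN_lt hj] at h5
      exact h5) v hv
    rw [Pool.V1E.sN_r]
    exact h4


end Pool.W.V1E
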