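import Pool.Agent.H73.D2.Tvd
import Pool.Agent.H31.W.H5.PN.Jfq
import Pool.Agent.H3.W.Bas

/-!
# The context of the chain with one more coordinate at the windows of a record

`RecG.fwxu`: as `RecG.fwx` of helper42, with the place `r`, from its first jet at the window
`t + vv q`, known to `(Sl r - 1) C q` digits behind the natural ones.
-/

set_option autoImplicit false

namespace Pool.W.AJW

open Pool.AJW

open Finset Real MvPolynomial
open Pool.Agent.H49.Ent Pool.Agent.H32.Dense Pool.STK Pool.KA Pool.KSAT Pool.K2S Pool.PB Pool.GEN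
open Pool.S6C Pool.RCD Pool.LA91 Pool.OWN68 Pool.CHT


end Pool.W.AJW

namespace Pool.W.PKG

open Pool.PKG

open Finset Real
open Pool.Agent.H49.Ent Pool.Agent.H32.Dense Pool.STK Pool.KA Pool.KSAT Pool.K2S Pool.PB
open Pool.GEN Pool.S6C Pool.STAT Pool.CHT Pool.GRW Pool.ONE Pool.STA
open Pool.LA91 Pool.AJW Pool.NPZ
open Pool.RCD (vg)
open Pool.OWN68 (F1)
open Pool.AJX (LbX FwX)

/-- **The context of the chain with one more coordinate** `c r` at the window `t + vv q` given the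
near jets of the chain at the window `t`, from the first jet of `c r` at the window `t + vv q`. -/
theorem RecG.fwxu (Kc : ℕ) {ε' α vv C : ℝ} (hε' : 0 < ε') (hα : 0 < α) (hvv : vv < 0)
    (hC : 0 < C) : ∃ dd : ℝ, 0 < dd ∧
    ∀ {m : ℕ} {S : Pool.PB.PCl m} {al : ℝ} {g₀ : ℝ → ℝ} {P : List (Fin m) × Fin m → ℝ → ℝ → ℝ}
    {θ : ℝ} {P₂ : ℕ → List (Fin m) × Fin m → ℝ → ℝ → ℝ} {θ₂ Eb e₂ : ℕ → ℝ}
    {c : ℕ → Fin m} {Pt : ℝ → ℝ → ℝ} {rt : ℝ → ℝ} {h K₀ g : ℝ} {L T : ℕ → ℝ → ℝ → ℝ}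
    {Sl : ℕ → ℝ} {κ : ℕ → Pool.PKG.Kg} {G : Set ℝ} {S₀ N : ℕ} {A V : ℕ → ℝ} {S₂ N' : ℕ} {V' : ℕ → ℝ}
    {K' ε q t : ℝ} {S₁ : Pool.PB.PCl m} {r K : ℕ} {X φ lam kf C₀ : ℝ} (_ : Pool.GEN.TmC S₁ C₀)
    (_ : Pool.W.PKG.RecG S al g₀ P θ P₂ θ₂ Eb e₂ c Pt rt h K₀ g L T Sl κ G S₀ N A V S₂ N' V' K' ε q t)
    (_ : ∀ l < r, κ l = .one) (_ : r < m) (_ : Sl r = α)
    (_ : Pool.LA91.ChG S₁ c (r + 1) (fun l x => L l x x) G) (_ : Pool.AJW.JfU r K vv X φ lam kf) (_ : t ∈ G)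
    (_ : ∀ k ≤ r, t + Pool.AJW.jfV r vv X k * q ∈ G) (_ : -vv + 3 ^ r * X ≤ K') (_ : lam ≤ K')
    (_ : 0 ≤ ε) (_ : ε ≤ 1) (_ : 2 * ε ≤ φ) (_ : α * -vv + 1 + 2 * (r + 1) * φ ≤ kf)
    (_ : α * -vv + 1 ≤ K')
    {pf : ℕ → ℝ} (_ : ∀ l < r, L l t t - φ * q ≤ pf l) {E rd : ℕ → ℝ}
    (_ : ∀ i < r + 1, E i ≤ 1) (_ : ∀ i < r + 1, 0 ≤ rd i) {Nf : ℕ → ℕ → ℝ}
    (_ : ∀ l < r, ∀ j ≤ 1, Nf l j = L l t t + kf * q - (j : ℕ) * t)
    {kf₁ e₁ : ℝ} (_ : kf₁ * C ≤ X) (_ : α * -vv + ε ≤ (α - 1) * C + φ) (_ : 0 < e₁),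
    Pool.OWN68.F1 S₁ (fun J F => Pool.PB.ptr F J) (Pool.RCD.vg (t + vv * q)) (fun _ F => F.T)
      (Pool.LA91.qJets m c 0 r 1 (fun _ _ => t + vv * q) (fun l _ => L l (t + vv * q) (t + vv * q))
        (fun l j => L l (t + vv * q) (t + vv * q) + kf₁ * (C * q) - (j : ℕ) * (t + vv * q)))
      (Pool.LA91.qJet m ((range r).image c) (c r) 1 (t + vv * q) (L r (t + vv * q) (t + vv * q))
        (L r (t + vv * q) (t + vv * q) + (α - 1) * (C * q) - (t + vv * q))) e₁ (dd * (C * q)) →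
    ∀ e : ℝ, 0 < e → e ≤ φ * q / 8 → e ≤ e₁ →
    Pool.AJX.FwX S₁ (fun J F => Pool.PB.ptr F J) (Pool.RCD.vg t) (fun _ F => F.T)
      (Pool.LA91.qJets m c 0 r 1 (fun _ _ => t) (fun l _ => pf l) Nf) c 0 (r + 1) Kc E (t + vv * q) rd
      (fun i => L i (t + vv * q) (t + vv * q))
      (Pool.AJW.ctx c 0 (r + 1) Kc (t + vv * q) (lam * q)
        (Function.update (Pool.AJW.nX r (fun l x => L l x x) (t + vv * q) (X * q)) r
          (L r t t - φ * q))) e (ε' * q) := by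
  have hαv : 0 < α * -vv := mul_pos hα (by linarith)
  obtain ⟨ε₁, hε₁⟩ : ∃ ε₁ : ℝ, ε₁ = ε' / (α * -vv + 1) := ⟨_, rfl⟩
  have hε10 : 0 < ε₁ := by rw [hε₁]; positivity
  have hε11 : ε₁ * (α * -vv + 1) = ε' := by
    rw [hε₁, div_mul_cancel₀ _ (by positivity)]
  obtain ⟨δ, hδ, key⟩ := Pool.AJW.far_ctxU Kc hε10
  obtain ⟨dd, hdd⟩ : ∃ dd : ℝ, dd = δ * (α * -vv) / C := ⟨_, rfl⟩
  have hddC : dd * C = δ * (α * -vv) := by
    rw [hdd]
    field_simp
  refine ⟨dd, by rw [hdd]; positivity, ?_⟩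
  intro m S al g₀ P θ P₂ θ₂ Eb e₂ c Pt rt h K₀ g L T Sl κ G S₀ N A V S₂ N' V' K' ε q t S₁ r K X φ
    lam kf C₀ htm R hκ hrm hSl hch U hGt hG hK hlamK hε0 hε1 hεφ hkf hKα pf hpf E rd hE hrd Nf hNf
    kf₁ e₁ hkX hαC he₁ h1 e he heφ hee
  have hq := R.q0
  have ht1 := R.t1
  have HF0 := R.farV hκ hrm.le hch U hGt hG hK hlamK hεφ hpf
  have HF1 := HF0.nf (Nf' := Nf) hNf
  have HF := HF1.cn (n' := Function.update (Pool.AJW.nX r (fun l x => L l x x) (t + vv * q) (X * q)) r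
      (L r t t - φ * q)) (fun l hl => Function.update_of_ne (by omega) _ _)
  obtain ⟨u₁, rw, hrw, hcw⟩ := hch.ch t hGt
  have hφ := U.φ0
  have hφq : 0 < φ * q := mul_pos hφ hq
  have hr0 : (0 : ℝ) ≤ r := Nat.cast_nonneg r
  have hX3 : 0 ≤ 3 ^ r * X := by
    have h2 := U.φX
    have h3 : 0 ≤ X := by
      have : 0 ≤ 32 * ((r : ℝ) + 1) * φ := by positivity
      linarith
    positivity
  have hlamk := U.lamk
  -- the level of `c r`
  have hvK : |t + vv * q - t| ≤ K' * q := by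
    rw [add_sub_cancel_left, abs_mul, abs_of_neg hvv, abs_of_pos hq]
    refine mul_le_mul_of_nonneg_right ?_ hq.le
    linarith
  have hd := abs_le.1 (R.dL r hrm _ hvK)
  rw [hSl] at hd
  have e0 : α * (t + vv * q - t) = -(α * -vv * q) := by ring
  rw [e0] at hd
  obtain ⟨hd1, hd2⟩ := hd
  have hεq0 : 0 ≤ ε * q := mul_nonneg hε0 hq.le
  have hεq1 : ε * q ≤ q := by
    have := mul_le_mul_of_nonneg_right hε1 hq.le
    linarith
  have hαq : 0 < α * -vv * q := mul_pos hαv hq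
  have hkfq : α * -vv * q + q + 2 * (r + 1) * (φ * q) ≤ kf * q := by
    have := mul_le_mul_of_nonneg_right hkf hq.le
    linarith
  have hlamq : kf * q ≤ vv * q + lam * q := by
    have := mul_le_mul_of_nonneg_right hlamk hq.le
    linarith
  have hr1 : 0 ≤ 2 * ((r : ℝ) + 1) * (φ * q) := by positivity
  have hnr : Function.update (Pool.AJW.nX r (fun l x => L l x x) (t + vv * q) (X * q)) r
      (L r t t - φ * q) r = L r t t - φ * q := Function.update_self _ _ _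
  have hmin : L r t t - (α * -vv * q + ε * q) ≤ min (L r t t) (L r (t + vv * q) (t + vv * q)) :=
    le_min (by linarith) (by linarith)
  have ht2 : t < 1 := by
    have h2 : 0 ≤ K' * q := mul_nonneg (by linarith) hq.le
    linarith
  have hμ : ε₁ * ((α * -vv + ε) * q) ≤ ε' * q := by
    rw [← hε11]
    have h2 : ε₁ * ((α * -vv + ε) * q) = ε₁ * (α * -vv + ε) * q := by ring
    rw [h2]
    refine mul_le_mul_of_nonneg_right (mul_le_mul_of_nonneg_left (by linarith) hε10.le) hq.le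
  have hfin := key htm HF (E := E) (rd := rd) (N := fun l => L l (t + vv * q) (t + vv * q) +
      kf₁ * (C * q)) (N₁ := L r (t + vv * q) (t + vv * q) + (α - 1) * (C * q) - (t + vv * q))
    (pw := L r t t) (μ := (α * -vv + ε) * q) (e₁ := e₁) (rk := rw r) ht2
    (hrw r (by omega)) (hcw.att r (by omega) (by omega))
    (by
      rw [hnr]
      linarith)
    (by
      rw [hnr]
      linarith)
    (fun l hl => by
      rw [hnr]
      have hl1 : (l : ℝ) + 1 ≤ r := by exact_mod_cast hl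
      have h2 : 2 * ((l : ℝ) + 1) * (φ * q) ≤ 2 * (r : ℝ) * (φ * q) := by
        refine mul_le_mul_of_nonneg_right ?_ hφq.le
        linarith
      linarith)
    (by positivity)
    (by
      have h2 : (α * -vv + 1) * q ≤ K' * q := mul_le_mul_of_nonneg_right hKα hq.le
      have h3 : vv * q < 0 := mul_neg_of_neg_of_pos hvv hq
      linarith)
    (by
      rw [hnr]
      linarith)
    (by
      rw [hnr]
      have h2 := mul_le_mul_of_nonneg_right hαC hq.le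
      linarith) hE hrd
    (fun i hi => by
      rw [Function.update_of_ne (by omega)]
      show L i (t + vv * q) (t + vv * q) + kf₁ * (C * q) ≤ L i (t + vv * q) (t + vv * q) +
        Pool.AJW.aX r (X * q) i
      have h2 := mul_le_mul_of_nonneg_right hkX hq.le
      have h3 := Pool.AJW.aX_ge (r := r) (X := X * q) (by
        have := U.φX
        have h4 : 0 ≤ 32 * ((r : ℝ) + 1) * φ := by positivity
        exact mul_nonneg (by linarith) hq.le) i
      linarith) he₁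
    (h1.mono le_rfl (by
      have h2 : dd * (C * q) = δ * (α * -vv) * q := by
        rw [← hddC]
        ring
      rw [h2]
      have h3 : δ * (α * -vv) * q ≤ δ * (α * -vv + ε) * q :=
        mul_le_mul_of_nonneg_right (mul_le_mul_of_nonneg_left (by linarith) hδ.le) hq.le
      linarith)) e he heφ hee
  intro K₀'
  refine Pool.S6C.Bas.mono 0 (hfin K₀') ?_
  rintro J - F A' HA V₁ z z' gg hlb u₀ hu₀
  obtain ⟨V₂, z₂, hz₂, h2⟩ := HA V₁ z z' gg hlb u₀ hu₀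
  exact ⟨V₂, z₂, hz₂, h2.trans (mul_le_mul_of_nonneg_right hμ (Nat.cast_nonneg J))⟩

end Pool.W.PKG
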