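import Pool.Agent.H73.D2.Tvf
import Pool.Agent.H31.WX.Bvf
import Pool.Agent.H31.W.H3.D2G.RecN
import Pool.Agent.H31.W.H42.D2.Nqb
import Pool.Agent.H31.W.H60.ALT.Arc
import Pool.Agent.H3.W.Bas

/-!
# The blind labels with labels of the chain and a closed own height

`BvF`: a blind label of the window `w` (`BlF`), with labels of the chain at `w` over the same code, and with own
height a closed polynomial of the chain at the window `a` (`VaD`). `bvf_ex`: they exist on a part of every event,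
from `BlX`. `bvf_rec`: for the windows of a record, in a subclass, on all events.
-/

set_option autoImplicit false

namespace Pool.W.ALT

open Pool.ALT

open Finset Real MvPolynomial
open Pool.Agent.H49.Ent Pool.Agent.H32.Dense Pool.STK Pool.KA Pool.KSAT Pool.K2S Pool.PB Pool.S6C
  Pool.GEN Pool.RCD Pool.LA91 Pool.OWN68 Pool.PKG
open Pool.UNJ (ceI)
open Pool.GRD (LbP)
open Pool.AJX (LbX)
open Pool.NPZ (Fm4 VaD)
open Pool.CR99 (BlF BlX blf_of blf_blB)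
open Pool.V0F (LbU her_extc recG_lbf)

variable {m : ℕ}


section

variable {c : ℕ → Fin m} {r K K₁ : ℕ} {e₀ ρ₀ π₀ w : ℝ} {n : ℕ} {v p₁ x₀ : ℕ → ℝ} {Kc : ℕ} {e : ℝ}
  {E rd pc : ℕ → ℝ} {Kv : ℕ} {a pa : ℝ}


end


/-- **The blind labels with labels of the chain and a closed own height, at the windows of a record**, on
all events of a subclass. -/
theorem bvf_rec (r S₀ : ℕ) (hS₀ : 1 ≤ S₀) : ∃ D Kl : ℕ, 1 ≤ D ∧ 1 ≤ Kl ∧
    ∀ {S : Pool.PB.PCl (r + 2)} {al : ℝ} {g₀ : ℝ → ℝ}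
    {P : List (Fin (r + 2)) × Fin (r + 2) → ℝ → ℝ → ℝ}
    {θ : ℝ} {P₂ : ℕ → List (Fin (r + 2)) × Fin (r + 2) → ℝ → ℝ → ℝ} {θ₂ Eb e₂ : ℕ → ℝ}
    {c : ℕ → Fin (r + 2)} {Pt : ℝ → ℝ → ℝ} {rt : ℝ → ℝ} {h K₀ g : ℝ} {L T : ℕ → ℝ → ℝ → ℝ}
    {Sl : ℕ → ℝ} {κ : ℕ → Pool.PKG.Kg} {G : Set ℝ} {N : ℕ} {A V : ℕ → ℝ} {S₂ N' : ℕ} {V' : ℕ → ℝ}
    {K' ε q t : ℝ},
    Pool.W.PKG.RecG S al g₀ P θ P₂ θ₂ Eb e₂ c Pt rt h K₀ g L T Sl κ G S₀ N A V S₂ N' V' K' ε q t →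
    1 ≤ K' → (∀ k < N', |V' k| + 1 ≤ K') →
    (∀ k < N', ∃ rd : ℕ → ℝ, Pool.LA91.Chn S c 0 (r + 1) (t + V' k * q) (t + V' k * q)
      (Pool.SWC.Lx L r (t + V' k * q)) (fun l => L l (t + V' k * q) (t + V' k * q)) rd) →
    (∀ k < N', ∃ rk E : ℝ, 0 ≤ E ∧
      E + L (r + 1) (t + V' k * q) (t + V' k * q) + 3 * K' * q ≤ 1 ∧
      Pool.V0F.LbU S ((range (r + 1)).image c) (c (r + 1)) (t + V' k * q)
        (L (r + 1) (t + V' k * q) (t + V' k * q)) rk E) →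
    ∀ {K K₁ n : ℕ} {Pw κ' ρ : ℝ} {vw p₁ x₀ : ℕ → ℝ} {i j k : ℕ}, D ≤ K → i < N' → j < N' →
    V' i ≤ V' j → k < n → vw k = t + V' j * q → 0 < κ' → 0 < ρ → ρ ≤ 1 / 4 →
    L (r + 1) (t + V' j * q) (t + V' j * q) - ρ * q ≤ p₁ k →
    x₀ k ≤ L r (t + V' j * q) (t + V' j * q) - L (r + 1) (t + V' j * q) (t + V' j * q) + ρ * q →
    L (r + 1) (t + V' i * q) (t + V' i * q) - ρ * q ≤ Pw →
    Pool.CR99.BlX S c r K K₁ (t + V' i * q) Pw n vw p₁ x₀ κ' → ∀ {e : ℝ}, 0 < e →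
    ∃ S' : Pool.PB.PCl (r + 2), S'.Ne ∧ Pool.ALT.SubC S' S ∧
      Pool.W.PKG.RecG S' al g₀ P θ P₂ θ₂ Eb e₂ c Pt rt h K₀ g L T Sl κ G S₀ N A V S₂ N' V' K' ε q t ∧
      (∀ l < N', ∃ E : ℝ, Pool.ALT.AlW S' c r (c (r + 1)) D (t + V' l * q)
        (L (r + 1) (t + V' l * q) (t + V' l * q)) (L r (t + V' l * q) (t + V' l * q)) E
        (Pool.SWC.Lx L r (t + V' l * q) - L r (t + V' l * q) (t + V' l * q))
        (Pool.SWC.Lx L r (t + V' l * q))) ∧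
      ∃ (E rd : ℕ → ℝ) (eG rG : ℝ), (∀ l ≤ r + 1, 0 ≤ E l ∧
        L l (t + V' i * q) (t + V' i * q) + E l + 3 * K' * q ≤ 1 ∧ 0 ≤ rd l ∧
        rd l + 3 * K' * q ≤ 1) ∧ 0 < eG ∧ 0 ≤ rG ∧
        eG + L (r + 1) (t + V' i * q) (t + V' i * q) + 3 * K' * q ≤ 1 + q ∧ rG + eG < 1 ∧
        Pool.S6C.Bas S' (fun J F A => ∃ (V : Type) (z : Pool.GEN.PtT F → V) (z' : Pool.GEN.LnT F → V)
          (G : V → MvPolynomial (Option (Fin (r + 2))) ℝ)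
          (g : V → ℕ → MvPolynomial (Option (Fin (r + 2))) ℝ),
          Pool.ALT.BvF c r K K₁ eG (rG + eG) (L (r + 1) (t + V' i * q) (t + V' i * q) - 2 * ρ * q)
            (t + V' i * q) n vw p₁ x₀ Kl e E rd (fun l => L l (t + V' i * q) (t + V' i * q))
            (max K D * max 1 D) (t + V' j * q)
            (L (r + 1) (t + V' j * q) (t + V' j * q) - 2 * ρ * q) J F A V z z' G g) := by
  classical
  obtain ⟨D, hD, halw⟩ := Pool.W.ALT.alw_rec r S₀ hS₀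
  obtain ⟨Kl, hKl, hlbf⟩ := Pool.W.V0F.recG_lbf (r + 2) S₀ (by omega) hS₀
  refine ⟨D, Kl, hD, hKl, ?_⟩
  intro S al g₀ P θ P₂ θ₂ Eb e₂ c Pt rt h K₀ g L T Sl κ G N A V S₂ N' V' K' ε q t R hK1 hV hch hlab
    K K₁ n Pw κ' ρ vw p₁ x₀ i j k hDK hi hj hij hk hvk hκ' hρ hρ1 hpk hxk hPw hX e he
  have hq := R.q0
  have ht0 := R.t0
  have ht1 := R.t1
  have hK0 : 0 < K' := by linarith
  have hKq : q ≤ K' * q := by
    have := mul_le_mul_of_nonneg_right hK1 hq.le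
    linarith
  have hV' : ∀ k < N', |V' k| ≤ K' := fun k hk => by linarith [hV k hk]
  choose! rk Ek hE0 hE1 hE2 using hlab
  obtain ⟨S₁, hs₁, R₁, hW⟩ := halw R hK0 hV' hch Ek rk (fun k hk => ⟨hE0 k hk, by
    have := hE1 k hk
    linarith, hE2 k hk⟩)
  obtain ⟨S₂', hs₂, R₂, hlb⟩ := hlbf R₁ hK0 hV' (le_refl (3 * K' * q)) (fun k hk => by
      obtain ⟨rd, h2⟩ := hch k hk
      exact ⟨rd, h2.sub hs₁⟩) (fun k hk => ⟨rk k, Ek k, hE0 k hk, hE1 k hk, fun e he => by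
        obtain ⟨K, hK⟩ := hE2 k hk e he
        exact ⟨K, hK.sub hs₁⟩⟩)
  have hs12 : Pool.ALT.SubC S₂' S := fun τ J F A h => hs₁ τ J F A (hs₂ τ J F A h)
  obtain ⟨E, rd, hE, hlbx⟩ := hlb i hi
  have hWi := (hW i hi).sub hs₂
  have hWj := (hW j hj).sub hs₂
  obtain ⟨w, hw⟩ : ∃ w, w = t + V' i * q := ⟨_, rfl⟩
  obtain ⟨a, ha⟩ : ∃ a, a = t + V' j * q := ⟨_, rfl⟩
  have hlow : ∀ k < N', q < t + V' k * q ∧ t + V' k * q < 1 ∧
      t + V' k * q ≤ L (r + 1) (t + V' k * q) (t + V' k * q) := fun k hk => by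
    have h1 := abs_le.1 (show |V' k| ≤ K' - 1 by linarith [hV k hk])
    have h2 := mul_le_mul_of_nonneg_right h1.1 hq.le
    have h3 := mul_le_mul_of_nonneg_right h1.2 hq.le
    have h4 : q < t + V' k * q := by linarith
    have h5 : t + V' k * q < 1 := by linarith
    exact ⟨h4, h5, R.low_at (by omega) (by linarith) le_rfl h5.le⟩
  obtain ⟨i1, i2, i3⟩ := hlow i hi
  obtain ⟨j1, j2, j3⟩ := hlow j hj
  have hwa : w ≤ a := by
    rw [hw, ha]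
    have := mul_le_mul_of_nonneg_right hij hq.le
    linarith
  rw [← hw] at hE hlbx hWi hX hPw i1 i2 i3 ⊢
  rw [← ha] at hWj hvk hpk hxk j1 j2 j3 ⊢
  have hρq : 0 < ρ * q := by positivity
  have hρq1 : ρ * q ≤ q / 4 := by
    have := mul_le_mul_of_nonneg_right hρ1 hq.le
    linarith
  -- the numbers of the upgrade
  obtain ⟨Lw, hLw⟩ : ∃ Lw, Lw = L (r + 1) w w := ⟨_, rfl⟩
  obtain ⟨Uw, hUw⟩ : ∃ Uw, Uw = Pool.SWC.Lx L r w := ⟨_, rfl⟩
  obtain ⟨Em, hEm⟩ : ∃ Em, Em = max (Ek i) (Uw - Lw) := ⟨_, rfl⟩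
  have hE1i := hE1 i hi
  have hE0i := hE0 i hi
  rw [← hw] at hE1i
  rw [← hLw] at hWi hE1i hPw i3 ⊢
  rw [← hUw, ← hEm] at hWi
  have hUr : Uw + 3 * K' * q ≤ 1 := by
    have h1 : Pool.SWC.Lx L r w ≤ 1 - 3 * K' * q := Pool.SWC.lx_le L fun l hl => by
      have h2 := hE l (by omega)
      linarith
    rw [hUw]
    linarith
  have hEm0 : 0 ≤ Em := by rw [hEm]; exact hE0i.trans (le_max_left _ _)
  have hEm1 : Em + Lw + 3 * K' * q ≤ 1 := by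
    rw [hEm]
    rcases max_choice (Ek i) (Uw - Lw) with h3 | h3
    · rw [h3]
      linarith
    · rw [h3]
      linarith
  have hEm2 : Uw - Lw ≤ Em := by rw [hEm]; exact le_max_right _ _
  obtain ⟨eG, heG⟩ : ∃ eG, eG = Em + q := ⟨_, rfl⟩
  obtain ⟨uG, huG⟩ : ∃ uG, uG = max (Uw + q / 4) eG := ⟨_, rfl⟩
  have hu1 : Uw + q / 4 ≤ uG := by rw [huG]; exact le_max_left _ _
  have hu2 : eG ≤ uG := by rw [huG]; exact le_max_right _ _
  have hLw0 : 0 < Lw := by linarith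
  have hup : Pool.ALT.Upg S₂' ((range (r + 1)).image c) (c (r + 1)) K w uG (Lw - 2 * ρ * q) eG := by
    refine hWi.upg R₂.pos hDK (by linarith) ?_ (by linarith) ?_ ?_ (by linarith)
    · rw [huG, heG]
      exact max_lt (by linarith) (by linarith)
    · rw [huG, heG]
      exact max_lt (by linarith) (by linarith)
    · rw [huG, heG]
      exact max_lt (by linarith) (by linarith)
  have hinj : Set.InjOn c (Set.Iio (r + 1)) := R.inj.mono (by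
    intro y hy
    rw [Set.mem_Iio] at hy ⊢
    omega)
  obtain ⟨rdj, hchj⟩ := hch j hj
  rw [← ha] at hchj
  have hex := Pool.ALT.bvf_ex_ch (by norm_num : (0 : ℝ) ≤ 6) R₂.tmc R₂.pos hinj hWj (hchj.sub hs12) rfl
    (by linarith : 0 ≤ w) hwa
    hκ' (Pool.ALT.blX_sub hs12 hX) hup hρq (by linarith) hk hvk (pa := L (r + 1) a a - 2 * ρ * q)
    (by linarith) (by linarith) (by linarith) (by linarith) (Pool.S6C.Bas.mono 0 (hlbx e he) (by
      rintro J - F A ⟨V, z, z', g, hg⟩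
      exact ⟨V, z, z', g, fun l _ hl => hg l (by omega)⟩))
  obtain ⟨S₃, h1, h2, h3⟩ := Pool.V0F.her_extc (ι := Unit) R₂.ne (fun _ J F A =>
      ∃ (V : Type) (z : Pool.GEN.PtT F → V) (z' : Pool.GEN.LnT F → V)
        (G : V → MvPolynomial (Option (Fin (r + 2))) ℝ)
        (g : V → ℕ → MvPolynomial (Option (Fin (r + 2))) ℝ),
        Pool.ALT.BvF c r K K₁ eG uG (Lw - 2 * ρ * q) w n vw p₁ x₀ Kl e E rd (fun l => L l w w)
            (max K D * max 1 D) a (L (r + 1) a a - 2 * ρ * q) J F A V z z' G g)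
    (fun _ J F A B hB => by
      rintro ⟨V, z, z', G, g, hG⟩
      exact ⟨V, z, z', G, g, Pool.ALT.BvF.hs J F A B V z z' G g hB hG⟩) (fun _ => ⟨8 * κ', hex⟩)
  have hs3 : Pool.ALT.SubC S₃ S := fun τ J F A h => hs12 τ J F A (h2 τ J F A h)
  refine ⟨S₃, h1, hs3, R.sub h1 hs3, fun l hl => ⟨_, ((hW l hl).sub hs₂).sub h2⟩, E, rd, eG,
    uG - eG, hE, ?_, by linarith, ?_, ?_, ?_⟩
  · rw [heG]
    linarith
  · rw [heG]
    linarith
  · rw [sub_add_cancel, huG, heG]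
    exact max_lt (by linarith) (by linarith)
  · rw [sub_add_cancel]
    exact h3 ()

end Pool.W.ALT
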