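import Pool.Agent.H73.D2.Vfe
import Pool.Agent.H31.W.H3.D2G.RecN
import Pool.Agent.H31.W.H42.D2.Nqa
import Pool.Agent.H31.W.H42.D2.Nqd
import Pool.Agent.H31.W.H42.D2.Ntd
import Pool.Agent.H31.W.H92.D2.Ceg
import Pool.Agent.H3.W.Bas

/-!
# The near path theorem with labels of any small accuracy

`NpE`, `fw2_npe`, `vfN_E`: helper42's `NpV`, `fw2_npv`, `vfN_D` without the hypothesis that the accuracy of the
own labels is less than the one of the context.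
-/

set_option autoImplicit false

namespace Pool.W.NPZ

open Pool.NPZ

open Finset Real MvPolynomial
open Pool.Agent.H49.Ent Pool.Agent.H32.Dense Pool.STK Pool.KA Pool.KSAT Pool.K2S Pool.PB Pool.GEN
open Pool.S6C Pool.RCD Pool.LA91 Pool.OWN68 Pool.CHT Pool.AJW
open Pool.GRD (LbP)
open Pool.UNJ (ceI Tub)
open Pool.ALT (DpI f1_jetq)
open Pool.AJX (LbX FwX)
open Pool.PN18 (Fm2 Fw2)

variable {m : ℕ} {S : Pool.PB.PCl m} {C₀ : ℝ}


end Pool.W.NPZ

namespace Pool.W.ALT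

open Pool.ALT

open Finset Real MvPolynomial
open Pool.Agent.H49.Ent Pool.Agent.H32.Dense Pool.STK Pool.KA Pool.KSAT Pool.K2S Pool.PB Pool.S6C
  Pool.GEN Pool.RCD Pool.LA91 Pool.OWN68 Pool.PKG
open Pool.CHT Pool.CHX Pool.ISO Pool.D2R Pool.D2G30 Pool.V1E Pool.CR99 Pool.GRW
open Pool.UNJ (ceI)
open Pool.GRD (LbP)
open Pool.PN18 (Fm2 Fw2)
open Pool.AJX (LbX FwX)
open Pool.AJW (JfU jfV jfV_mem nX aX)
open Pool.NPZ (Fm4 NpC VaD ChJ ChV NpL NpE ValP fw2_npe valP_of row_raw)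

/-- **The velocity over labels with a closed slope**, one near dead place before the target, at the
windows of a record. -/
theorem vfN_E (Kd Kv Dw r : ℕ) (hr : 1 ≤ r) {h : ℝ} (hh0 : 0 < h) (hh1 : h ≤ 1) {δ lam : ℝ}
    (hδ : 0 < δ) (hlam : 0 < lam) : ∃ δN C' : ℝ, 0 < δN ∧ 1 ≤ C' ∧
    ∀ {S : Pool.PB.PCl (r + 2)} {al : ℝ} {g₀ : ℝ → ℝ}
    {P : List (Fin (r + 2)) × Fin (r + 2) → ℝ → ℝ → ℝ} {θ : ℝ}
    {P₂ : ℕ → List (Fin (r + 2)) × Fin (r + 2) → ℝ → ℝ → ℝ} {θ₂ Eb e₂ : ℕ → ℝ}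
    {c : ℕ → Fin (r + 2)} {Pt : ℝ → ℝ → ℝ} {rt : ℝ → ℝ} {K₀ g : ℝ} {L T : ℕ → ℝ → ℝ → ℝ}
    {Sl : ℕ → ℝ} {κ : ℕ → Pool.PKG.Kg} {G : Set ℝ} {S₀ N : ℕ} {A V : ℕ → ℝ} {S₂ Na : ℕ} {Va : ℕ → ℝ}
    {K' ε q t : ℝ}
    (_ : Pool.W.PKG.RecG S al g₀ P θ P₂ θ₂ Eb e₂ c Pt rt h K₀ g L T Sl κ G S₀ N A V S₂ Na Va K' ε q t)
    (_ : ∀ l < r, κ l = .one) {s y₁ α C φ Xc X kf hh k₁ a : ℝ}
    (_ : Sl (r + 1) = s) (_ : Sl r = α) (_ : Pool.ALT.VdK r s y₁ α δN C C' δ lam φ Xc X kf hh k₁ a ε)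
    (_ : k₁ + C + 3 ^ r * Xc + kf + y₁ + lam + 3 ≤ K')
    (_ : Pool.LA91.ChG S c (r + 1) (fun l x => L l x x) G) (_ : t ∈ G)
    (_ : ∀ k ≤ r, t + Pool.AJW.jfV r (-y₁) Xc k * q ∈ G) {E rd : ℕ → ℝ} {Kl : ℕ}
    (_ : ∀ i ≤ r, 0 ≤ E i ∧ L i (t + -y₁ * q) (t + -y₁ * q) + E i + 3 * K' * q ≤ 1 ∧
      0 ≤ rd i ∧ rd i + 3 * K' * q ≤ 1)
    {e pN eG rG pa : ℝ} {Nf : ℕ → ℕ → ℝ} (_ : 0 < e) (_ : e ≤ φ * q / 8)
    (_ : pN < L (r + 1) (t + -y₁ * q) (t + -y₁ * q))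
    (_ : L (r + 1) (t + -y₁ * q) (t + -y₁ * q) - pN ≤ φ * q / 8)
    (_ : L (r + 1) (t + -y₁ * q) (t + -y₁ * q) - pN ≤ δN * (lam * q) / 8)
    (_ : L (r + 1) (t + -y₁ * q) (t + -y₁ * q) + lam * q ≤ pa) (_ : 0 < eG) (_ : 0 ≤ rG)
    (_ : eG + (L (r + 1) (t + -y₁ * q) (t + -y₁ * q) + lam * q) < 1) (_ : rG + eG ≤ 1)
    {Θ₄ : Pool.NPZ.Fm4 (r + 2)}
    (_ : Pool.NPZ.NpL Θ₄ c 0 (r + 1) Kl (t + -y₁ * q) e E rd
      (fun i => L i (t + -y₁ * q) (t + -y₁ * q)))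
    (_ : ∀ (J : ℕ) (F : Pool.KA.Fam (r + 2) J) (A : F.Ω → Prop) (V : Type) (z : Pool.GEN.PtT F → V)
      (z' : Pool.GEN.LnT F → V) (G : V → MvPolynomial (Option (Fin (r + 2))) ℝ)
      (g : V → ℕ → MvPolynomial (Option (Fin (r + 2))) ℝ), Θ₄ J F A V z z' G g →
      Pool.GEN.LbOK F ((range (r + 1)).image c) (c (r + 1)) Kd ⌊eG * J⌋₊ J ⌊(t + -y₁ * q) * J⌋₊
        ⌊(rG + eG) * J⌋₊ ⌊pN * J⌋₊ A z z' G)
    (_ : ∀ (J : ℕ) (F : Pool.KA.Fam (r + 2) J) (A B : F.Ω → Prop) (V : Type) (z : Pool.GEN.PtT F → V)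
      (z' : Pool.GEN.LnT F → V) (G : V → MvPolynomial (Option (Fin (r + 2))) ℝ)
      (g : V → ℕ → MvPolynomial (Option (Fin (r + 2))) ℝ),
      Pool.K2S.Sub B A → Θ₄ J F A V z z' G g → Θ₄ J F B V z z' G g)
    (_ : ∀ (J : ℕ) (F : Pool.KA.Fam (r + 2) J) (A : F.Ω → Prop) (V : Type) (z : Pool.GEN.PtT F → V)
      (z' : Pool.GEN.LnT F → V) (G : V → MvPolynomial (Option (Fin (r + 2))) ℝ)
      (g : V → ℕ → MvPolynomial (Option (Fin (r + 2))) ℝ), Θ₄ J F A V z z' G g →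
      Pool.NPZ.VaD F c r (c (r + 1)) Kv (t + -y₁ * q) t pa A z' G)
    (_ : Pool.S6C.Bas S (fun J F A => ∃ (V : Type) (z : Pool.GEN.PtT F → V) (z' : Pool.GEN.LnT F → V)
      (G : V → MvPolynomial (Option (Fin (r + 2))) ℝ)
      (g : V → ℕ → MvPolynomial (Option (Fin (r + 2))) ℝ), Θ₄ J F A V z z' G g))
    (_ : ∀ l < r, ∀ j ≤ 1, Nf l j = L l t t + kf * q - (j : ℕ) * t)
    (_ : Pool.AJX.FwX S (fun J F => Pool.PB.ptr F J) (Pool.RCD.vg t) (fun _ F => F.T)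
      (Pool.LA91.qJets (r + 2) c 0 r 1 (fun _ _ => t) (fun l _ => L l t t - hh * q) Nf) c 0 (r + 1) Kl E
      (t + -y₁ * q) rd (fun i => L i (t + -y₁ * q) (t + -y₁ * q))
      (Pool.AJW.ctx c 0 (r + 1) Kl (t + -y₁ * q) ((kf + y₁) * q)
        (Function.update (Pool.AJW.nX r (fun l x => L l x x) (t + -y₁ * q) (Xc * q)) r (L r t t - φ * q)))
      e (δN * (lam * q) / 4))
    {D Dr : ℕ} (_ : (max D Kd + 1) * (max D Kd + 1) ≤ Dr),
    (∀ (J : ℕ) (F : Pool.KA.Fam (r + 2) J) (A B : F.Ω → Prop) (V C : Type) (z : Pool.GEN.PtT F → V)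
      (z' : Pool.GEN.LnT F → V) (G₁ G₂ : V → MvPolynomial (Option (Fin (r + 2))) ℝ) (cc : Pool.GEN.LnT F → C),
      Pool.K2S.Sub B A → Pool.ALT.ThB Θ₄ J F A V C z z' G₁ G₂ cc → Pool.ALT.ThB Θ₄ J F B V C z z' G₁ G₂ cc) ∧
    Pool.S6C.Bas S (fun J F A => ∃ (V C : Type) (z : Pool.GEN.PtT F → V) (z' : Pool.GEN.LnT F → V)
      (G₁ G₂ : V → MvPolynomial (Option (Fin (r + 2))) ℝ) (cc : Pool.GEN.LnT F → C),
      Pool.ALT.ThB Θ₄ J F A V C z z' G₁ G₂ cc) ∧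
    ∀ {y : ℝ} {vw : ℕ → ℝ} {N₁ N₂ : ℕ} {Rg : ℕ → Prop} {be : ℕ → ℕ → ℝ} {E₁ ε₁ a₁ : ℝ}
      (κ' : ℝ) (qf : ℕ → Fin r → ℕ) (Pq : Fin r → ℝ), 0 < κ' → κ' ≤ 1 →
      (∀ i, (kf + 1) * q ≤ Pq i) → (∀ (J : ℕ) (i : Fin r), Pq i * J - 2 ≤ qf J i) →
      Pool.W.V1E.VfNU S c r D Dw Dr N₁ N₂ Rg C a₁ E₁ ε₁ (hh * q) (X * q) (s * q) (kf * q) (L (r + 1))
        (fun k => t + Pool.V1E.vG y k₁ vw k * q)
        (fun k l => Pool.ISO.lvN P c (r + 1) (L (r + 1)) l (t + Pool.V1E.vG y k₁ vw k * q)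
          (t + Pool.V1E.vG y k₁ vw k * q)) be κ' qf δ (2 * 1) (Pool.ALT.XiF (Pool.ALT.ThB Θ₄) (t + -y₁ * q)) := by
  classical
  obtain ⟨δN, hδN, Hfw⟩ := Pool.NPZ.fw2_npe Kd hh0 hh1 (ε := δ / (4 * lam)) (by positivity)
  obtain ⟨C', hC', hvf⟩ := Pool.W.V1E.vfnU_of Dw r
  refine ⟨δN, C', hδN, hC', ?_⟩
  intro S al g₀ P θ P₂ θ₂ Eb e₂ c Pt rt K₀ g L T Sl κ G S₀ N A V S₂ Na Va K' ε q t R hκ s y₁ α C φ
    Xc X kf hh k₁ a hs hα Kn hK' hCG hGt hGw E rd Kl hE e pN eG rG pa Nf he0 heφ hpN1 hpN2' hpN3 hpa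
    heG hrG heG1 hrG1 Θ₄ hNpL hLb hΘs₄ hVa hΘe hNf hFx D Dr hDr
  have hq0 := R.q0
  have ht0 := R.t0
  have ht1 := R.t1
  have hs1 := Kn.s1
  have hy1 := Kn.y1
  have hy0 : 1 < y₁ := by linarith only [hs1, hy1]
  have hsy0 : 0 < s * y₁ := by positivity
  have hkf0 : 0 < kf := by linarith only [Kn.ks, hs1, hsy0]
  have hC0 : 0 < C := by linarith only [Kn.C1]
  have hk1 : 0 < k₁ := by linarith only [Kn.kk, hkf0]
  -- the multiples of the scale
  have hKq : k₁ * q + C * q + 3 ^ r * Xc * q + kf * q + y₁ * q + lam * q + 3 * q ≤ K' * q := by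
    have h1 := mul_le_mul_of_nonneg_right hK' hq0.le
    linarith only [h1]
  have hkq8 : kf * q + 8 * q ≤ k₁ * q := by
    have h1 := mul_le_mul_of_nonneg_right Kn.kk hq0.le
    linarith only [h1]
  have hCq : q ≤ C * q := by
    have h1 := mul_le_mul_of_nonneg_right Kn.C1 hq0.le
    linarith only [h1]
  have hXq3 : 0 ≤ 3 ^ r * Xc * q := mul_nonneg Kn.X30 hq0.le
  have hkfq : 0 < kf * q := mul_pos hkf0 hq0
  have hsq : q < y₁ * q := by
    have h1 := mul_lt_mul_of_pos_right hy0 hq0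
    linarith only [h1]
  have hs0q : q < s * q := by
    have h1 := mul_lt_mul_of_pos_right hs1 hq0
    linarith only [h1]
  have hlq : 0 < lam * q := mul_pos Kn.l0 hq0
  have ht : 0 < t := by linarith only [ht0, hKq, hkq8, hCq, hXq3, hkfq, hsq, hlq, hq0]
  have ht' : t < 1 := by linarith only [ht1, hKq, hkq8, hCq, hXq3, hkfq, hsq, hlq, hq0]
  have hφq0 : 0 < φ * q := mul_pos Kn.φ0 hq0
  have hφq : φ * q ≤ q := by
    have h1 := mul_le_mul_of_nonneg_right Kn.φ1 hq0.le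
    linarith only [h1]
  have hhq : 0 < hh * q := mul_pos Kn.h0 hq0
  have hh4q : hh * q ≤ q / 4 := by
    have h1 := mul_le_mul_of_nonneg_right Kn.h4 hq0.le
    linarith only [h1]
  have hhφq : hh * q ≤ φ * q := mul_le_mul_of_nonneg_right Kn.hφ hq0.le
  have hXq : 0 < X * q := mul_pos Kn.X0 hq0
  have hX2q : X * q ≤ q / 2 := by
    have h1 := mul_le_mul_of_nonneg_right Kn.X2 hq0.le
    linarith only [h1]
  have hhXq : 4 * (hh * q) ≤ X * q := by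
    have h1 := mul_le_mul_of_nonneg_right Kn.hX hq0.le
    linarith only [h1]
  have hhCq : 4 * (C * (hh * q)) ≤ X * q := by
    have h1 := mul_le_mul_of_nonneg_right Kn.hC hq0.le
    linarith only [h1]
  have hεq0 : 0 < ε * q := mul_pos Kn.ε0 hq0
  have hεq : 2 * (ε * q) ≤ φ * q := by
    have h1 := mul_le_mul_of_nonneg_right Kn.εφ hq0.le
    linarith only [h1]
  have hεXq : 4 * (ε * q) ≤ X * q := by
    have h1 := mul_le_mul_of_nonneg_right Kn.εX hq0.le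
    linarith only [h1]
  have U : Pool.AJW.JfU r 0 (-y₁) Xc φ (kf + y₁) kf :=
    { vv0 := by linarith only [hy0]
      φ0 := Kn.φ0
      XK := by
        have h1 := Kn.sX
        push_cast
        linarith only [h1]
      φX := Kn.φX
      kfX := Kn.kX
      lamk := by linarith only [] }
  -- the windows
  have hE' : ∀ i < r, 0 ≤ E i ∧ L i (t + -y₁ * q) (t + -y₁ * q) + E i + 3 * K' * q ≤ 1 ∧
      0 ≤ rd i ∧ rd i ≤ 1 - 3 * K' * q := fun i hi => by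
    obtain ⟨h1, h2, h3, h4⟩ := hE i hi.le
    exact ⟨h1, h2, h3, by linarith only [h4]⟩
  have hsK : y₁ + 3 ^ r * Xc ≤ K' := by
    linarith only [hK', hk1, hC0, hkf0, hy0, Kn.l0]
  have hlK : kf + y₁ ≤ K' := by
    linarith only [hK', hk1, hC0, hkf0, hy0, Kn.l0, Kn.X30]
  have HC := R.chj (K := 0) hκ hr (by omega) hCG U hGt hGw (by linarith only [hsK]) hlK Kn.εφ
    (g₁ := φ * q / 4) (by linarith only [hφq0]) (m₁ := 3 * K' * q) (by
      linarith only [hKq, hkq8, hCq, hXq3, hkfq, hsq, hlq, hφq, hq0]) (ρ := 1 - 3 * K' * q)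
    (by linarith only [hKq, hkq8, hCq, hXq3, hkfq, hsq, hlq, hφq, hq0]) hE'
    (qv := lam + φ) (by linarith only [Kn.φ0, Kn.l0]) (by linarith only [Kn.lX])
  -- the level at the window
  have hv0 : 0 ≤ t + -y₁ * q := by
    linarith only [ht0, hKq, hkq8, hCq, hXq3, hkfq, hsq, hlq, hq0]
  have hlow : ∀ i ≤ r + 1, t + -y₁ * q ≤ L i (t + -y₁ * q) (t + -y₁ * q) := fun i hi =>
    R.low_at (by omega) hv0 le_rfl (by linarith only [ht', hsq, hq0])
  have hLv := hlow (r + 1) le_rfl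
  have hvq : q ≤ t + -y₁ * q := by
    linarith only [ht0, hKq, hkq8, hCq, hXq3, hkfq, hsq, hlq, hq0]
  -- the chain with the place `r`
  have hαq : α * y₁ * q + 3 * (φ * q) ≤ kf * q := by
    have h1 := mul_le_mul_of_nonneg_right Kn.αk hq0.le
    linarith only [h1]
  have HV : Pool.NPZ.ChV S c 0 (r + 1) (t + -y₁ * q) t ((kf + y₁) * q) (φ * q) (φ * q / 4) E
      (fun i => L i (t + -y₁ * q) (t + -y₁ * q)) (fun i => L i t t)
      (Function.update (Pool.AJW.nX r (fun l x => L l x x) (t + -y₁ * q) (Xc * q)) r (L r t t - φ * q))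
      (Function.update (fun l => Pool.AJW.aX r (Xc * q) l - (t - (t + -y₁ * q)) - 2 * (φ * q)) r (φ * q))
      rd := by
    refine R.chv (by omega) hCG hGt Kn.φ0 HC Kn.εφ (by linarith only [hy0])
      (by linarith only [hsK, Kn.X30, neg_neg y₁]) ?_ hα Kn.α0 (by
        rw [neg_neg]
        exact Kn.αX) (by
        rw [neg_neg]
        have h1 := Kn.αk
        linarith only [h1]) (hE r le_rfl).1 ?_ (hv0.trans (hlow r (by omega)))
      (hE r le_rfl).2.2.1 ?_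
    · have h1 := Kn.sX
      linarith only [h1, hy0]
    · have h1 := (hE r le_rfl).2.1
      rw [neg_neg]
      have h2 : (α * y₁ + φ) * q = α * y₁ * q + φ * q := by ring
      rw [h2]
      linarith only [h1, hαq, hKq, hkq8, hCq, hXq3, hkfq, hsq, hlq, hφq, hq0, hφq0]
    · have h1 := (hE r le_rfl).2.2.2
      linarith only [h1, hKq, hkq8, hCq, hXq3, hkfq, hsq, hlq, hφq, hq0, hφq0]
  obtain ⟨P₀, hP₀⟩ : ∃ P₀, P₀ = L (r + 1) (t + -y₁ * q) (t + -y₁ * q) := ⟨_, rfl⟩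
  rw [← hP₀] at hpN1 hpN2' hpN3 hpa heG1 hLv
  have hpN2 : P₀ - pN ≤ φ * q / 8 := hpN2'
  have hpN0 : 0 < pN := by linarith only [hpN2, hφq, hLv, hvq, hq0]
  -- the level at the window `t`
  have hKx : |t + -y₁ * q - t| ≤ K' * q := by
    rw [add_sub_cancel_left, abs_mul, abs_neg, abs_of_pos hq0, abs_of_pos (by linarith only [hy0])]
    linarith only [hKq, hkq8, hCq, hXq3, hkfq, hsq, hlq, hq0]
  have hdN := abs_le.1 (R.dL (r + 1) (by omega) _ hKx)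
  rw [hs, ← hP₀] at hdN
  have e1 : s * (t + -y₁ * q - t) = -(s * y₁ * q) := by ring
  rw [e1] at hdN
  obtain ⟨hdN1, hdN2⟩ := hdN
  have hlamq : lam * q + (y₁ * q - s * q + q) / 2 = s * y₁ * q := by
    have h1 : lam * q = (s * y₁ - (y₁ - s + 1) / 2) * q := by rw [← Kn.ls]
    rw [h1]
    ring
  have hy1q : s * q ≤ y₁ * q := mul_le_mul_of_nonneg_right hy1 hq0.le
  have hLt : ∀ l ≤ r + 1, 0 ≤ L l t t := fun l hl =>
    ht.le.trans (R.low_at (by omega) ht.le le_rfl ht'.le)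
  -- the value
  have hval : ∀ {α' γ' : ∀ J : ℕ, Pool.KA.Fam (r + 2) J → Type}
      {f : ∀ (J : ℕ) (F : Pool.KA.Fam (r + 2) J), F.Ω → α' J F}
      {y : ∀ (J : ℕ) (F : Pool.KA.Fam (r + 2) J), F.Ω → γ' J F},
      (∀ (J : ℕ) (F : Pool.KA.Fam (r + 2) J), ∃ φ : α' J F → Pool.GEN.PtT F, ∀ ω, Pool.PB.ptr F J ω = φ (f J F ω)) →
      Pool.OWN68.Kn0 ((range 0).image c) (t + -y₁ * q + (kf + y₁) * q) y →
      Pool.NPZ.ValP S Θ₄ c 0 (r + 1) (c (r + 1)) (t + -y₁ * q) t (P₀ + lam * q)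
        (Function.update (Pool.AJW.nX r (fun l x => L l x x) (t + -y₁ * q) (Xc * q)) r (L r t t - φ * q))
        f y := by
    intro α' γ' f y hf hy
    refine Pool.ALT.valP_mono R.pos le_rfl (fun i hi => ?_) (Pool.ALT.valP_mono (R := r + 1) R.pos (Nat.le_succ r)
      (n' := Function.update (Pool.AJW.nX r (fun l x => L l x x) (t + -y₁ * q) (Xc * q)) r (L r t t - φ * q))
      (fun i hi => (Function.update_of_ne (by omega) _ _).symm)
      (Pool.NPZ.valP_of R.tmc HC le_rfl hf hy (c (r + 1)) Kl Kv (e := e) (pN := pN) (pa := pa)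
        he0 heφ hpN0 (by linarith only [hpN1, hpa, hlq])
        hpa (by
          have h2 : (lam + φ) * q = lam * q + φ * q := by ring
          rw [h2]
          linarith only [hpN2, hφq0]) ?_))
    · rfl
    · intro J F A V z z' G g hTh
      have h1 := hLb J F A V z z' G g hTh
      refine ⟨fun l a b => (hNpL J F A V z z' G g hTh).1 l a (by omega), fun ω hω => ?_,
        hVa J F A V z z' G g hTh⟩
      have h2 := h1.pos ω hω
      rw [Pool.ALT.ojet_zx]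
      exact h2
  -- the rows
  have hrow : ∀ sa sb : ℝ, P₀ ≤ sa → sa ≤ sb → sb ≤ P₀ + lam * q →
      Pool.S6C.Bas S (fun J F A => ∀ (V : Type) (z : Pool.GEN.PtT F → V) (z' : Pool.GEN.LnT F → V)
      (G : V → MvPolynomial (Option (Fin (r + 2))) ℝ)
      (g : V → ℕ → MvPolynomial (Option (Fin (r + 2))) ℝ), Θ₄ J F A V z z' G g →
      Pool.Agent.H49.Ent.CH (Pool.Agent.H49.Ent.cond F.p A True)
        (fun ω => ⌊(2 : ℝ) ^ (sb * J) * Pool.LA91.ojet F (c (r + 1)) 0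
          (G (z' (Pool.KSAT.slam F ⌊(t + -y₁ * q) * J⌋₊ ω))) ω⌋)
        (fun ω => (⌊(2 : ℝ) ^ (sa * J) * Pool.LA91.ojet F (c (r + 1)) 0
          (G (z' (Pool.KSAT.slam F ⌊(t + -y₁ * q) * J⌋₊ ω))) ω⌋,
          (Pool.UNJ.ceI ((range (r + 1)).image c) (fun _ => J) (F.x ω),
            (z' (Pool.KSAT.slam F ⌊(t + -y₁ * q) * J⌋₊ ω), F.W ω)))) ≤
        ((1 - h) * (sb - sa) * Real.log 2 + 2 * (φ * q)) * J) := by
    intro sa sb h1 h2 h3
    have hraw := R.raw (by omega) Kn.ε0 (x := L (r + 1) t t - sa) (y := sb - sa)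
      (by linarith only [h2, h3, hdN1, hdN2, hlamq, hy1q, hεXq, hX2q, hq0])
      (by linarith only [h2])
      (by linarith only [h1, hdN1, hdN2, hlamq, hy1q, hεXq, hX2q, hq0, hKq, hkq8, hCq, hXq3, hkfq,
          hlq, hεq0, hs0q])
      (by linarith only [h1, h3, hKq, hkq8, hCq, hXq3, hkfq, hsq, hlq, hq0])
      (by
        show L (r + 1) t t - sa ≤ L (r + 1) t t
        linarith only [h1, hLv, hv0])
    have hraw' : Pool.OWN68.RawN S ((range (r + 1)).image c) (c (r + 1)) sa (sb - sa) h (2 * ε * q) := by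
      have h4 := hraw
      rw [show r + 2 - 1 = r + 1 from rfl, sub_sub_cancel] at h4
      exact h4
    have h5 := Pool.NPZ.row_raw R.tmc (w := t + -y₁ * q) (e := eG) (rr := rG + eG) (x := 0) (δ := 2 * (φ * q))
      Kd heG.le (by linarith only [h1, hLv, hv0]) (by linarith only [h3, heG1]) hrG1 le_rfl
      (by linarith only [h2]) hraw' (by linarith only [hεq, hφq0])
    refine Pool.S6C.Bas.mono 0 h5 ?_
    intro J _ F A h6 V z z' G g hTh
    have h7 := h6 V z z' G ⌊pN * J⌋₊ (hLb J F A V z z' G g hTh)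
    rw [add_sub_cancel, add_zero, sub_zero] at h7
    exact h7
  have NP : Pool.NPZ.NpE Kd h δN S c 0 (r + 1) (t + -y₁ * q) t ((kf + y₁) * q) (φ * q) (φ * q / 4) E
      (fun i => L i (t + -y₁ * q) (t + -y₁ * q)) (fun i => L i t t)
      (Function.update (Pool.AJW.nX r (fun l x => L l x x) (t + -y₁ * q) (Xc * q)) r (L r t t - φ * q))
      (Function.update (fun l => Pool.AJW.aX r (Xc * q) l - (t - (t + -y₁ * q)) - 2 * (φ * q)) r (φ * q))
      rd (c (r + 1)) ((range (r + 1)).image c) Kl e P₀ pN (lam * q) (2 * (φ * q)) rG eG t Θ₄ :=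
    { ch := HV
      e0 := he0
      e8 := heφ
      eg := by linarith only [heφ]
      pNP := hpN1
      Pδ := hpN3
      q0 := hlq
      vq := by linarith only [hLv, heG, heG1]
      wa := le_rfl
      a1 := ht'.le
      rG0 := hrG
      eG0 := heG
      dd := by
        have h2 := mul_le_mul_of_nonneg_right Kn.φN hq0.le
        have h3 : 0 < δN * (lam * q) := mul_pos hδN hlq
        have h4 : 0 ≤ (r : ℝ) * (φ * q) := by positivity
        push_cast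
        linarith only [h2, h3, h4]
      npl := hNpL
      val := hval (fun J F => ⟨id, fun ω => rfl⟩) (fun J F => by
        refine ⟨fun t => (t.2.1, t.1), fun ω => ?_⟩
        rfl)
      lb := hLb
      hs := hΘs₄
      row := hrow }
  have hpp := NP.pNP
  -- the first jet
  have HX := Pool.ALT.fwX_nf (Nf' := fun l j => Pool.ISO.lvN P c (r + 1) (L (r + 1)) l t t + kf * q - (j : ℕ) * t)
    (fun l _ hl j hj => by
      rw [hNf l hl j hj, ← R.lv_at (by omega : r + 1 < r + 2) (by omega)]) hFx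
  have HF := Hfw R.tmc NP (f := fun J F => Pool.PB.ptr F J) (y := fun _ F => F.T)
    (fun J F => ⟨id, fun ω => rfl⟩) (fun J F => by
      refine ⟨fun t => (t, fun _ => 0), fun ω => ?_⟩
      simp only [Finset.range_zero, Finset.image_empty, Finset.notMem_empty, if_false])
    (hval (fun J F => ⟨id, fun ω => rfl⟩) (fun J F => by
      refine ⟨fun t => (t, fun _ => 0), fun ω => ?_⟩
      simp only [Finset.range_zero, Finset.image_empty, Finset.notMem_empty, if_false])) HX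
    (Th := Pool.ALT.ThB Θ₄) (fun J F A V C z z' G₁ G₂ cc h => h) 1 (e' := e) le_rfl
  obtain ⟨Θ, hΘ⟩ : ∃ Θ : Pool.PN18.Fm2 (r + 2), Θ = Pool.ALT.ThB Θ₄ := ⟨_, rfl⟩
  rw [← hΘ] at HF ⊢
  have hΘs : ∀ (J : ℕ) (F : Pool.KA.Fam (r + 2) J) (A B : F.Ω → Prop) (V C : Type) (z : Pool.GEN.PtT F → V)
      (z' : Pool.GEN.LnT F → V) (G₁ G₂ : V → MvPolynomial (Option (Fin (r + 2))) ℝ) (cc : Pool.GEN.LnT F → C),
      Pool.K2S.Sub B A → Θ J F A V C z z' G₁ G₂ cc → Θ J F B V C z z' G₁ G₂ cc := by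
    intro J F A B V C z z' G₁ G₂ cc hB h
    rw [hΘ] at h ⊢
    obtain ⟨g, hg⟩ := h
    exact ⟨g, hΘs₄ J F A B V z z' G₂ g hB hg⟩
  refine ⟨hΘs, ?_, ?_⟩
  · refine Pool.S6C.Bas.mono 0 hΘe ?_
    rintro J - F A ⟨V, z, z', G₂, g, hg⟩
    rw [hΘ]
    exact ⟨V, Unit, z, z', G₂, G₂, fun _ => (), g, hg⟩
  intro y vw N₁ N₂ Rg be E₁ ε₁ a₁ κ' qf Pq hκ' hκ1 hPq hqf
  have hlv : ∀ l ≤ r + 1, ∀ x : ℝ, Pool.ISO.lvN P c (r + 1) (L (r + 1)) l x x = L l x x :=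
    fun l hl x => by rw [← R.lv_at (by omega : r + 1 < r + 2) hl]
  have v0 : Pool.V1E.vG y k₁ vw 0 = 0 := by norm_num [Pool.V1E.vG]
  have v2 : Pool.V1E.vG y k₁ vw 2 = -k₁ := by norm_num [Pool.V1E.vG]
  have v3 : Pool.V1E.vG y k₁ vw 3 = 1 := by norm_num [Pool.V1E.vG]
  have hs2q : q < s * y₁ * q := by
    have h1 : (1 : ℝ) < s * y₁ := by nlinarith only [hs1, hy0]
    have h2 := mul_lt_mul_of_pos_right h1 hq0
    linarith only [h2]
  have hksq : s * y₁ * q + s * q + q ≤ kf * q := by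
    have h1 := mul_le_mul_of_nonneg_right Kn.ks hq0.le
    linarith only [h1]
  have hΘx : ∀ (J : ℕ) (F : Pool.KA.Fam (r + 2) J) (B : F.Ω → Prop)
      (Cp : Pool.GEN.PtT F → MvPolynomial (Option (Fin (r + 2))) ℝ),
      (∃ (V C : Type) (z : Pool.GEN.PtT F → V) (z' : Pool.GEN.LnT F → V)
        (G₁ G₂ : V → MvPolynomial (Option (Fin (r + 2))) ℝ) (cc : Pool.GEN.LnT F → C),
        Θ J F B V C z z' G₁ G₂ cc ∧
        ∀ ω, B ω → Cp (Pool.PB.ptr F J ω) = G₂ (z' (Pool.KSAT.slam F ⌊(t + -y₁ * q) * J⌋₊ ω))) →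
      ∃ (V : Type) (z : Pool.GEN.PtT F → V) (z' : Pool.GEN.LnT F → V)
        (Gp : V → MvPolynomial (Option (Fin (r + 2))) ℝ),
        (∀ y, (Gp y).totalDegree ≤ Kd) ∧
        (∀ y, Pool.ALT.DpI ((range (r + 1)).image c) (Gp y)) ∧
        (∀ ω, B ω → z (Pool.PB.ptr F J ω) = z' (Pool.KSAT.slam F ⌊(t + -y₁ * q) * J⌋₊ ω)) ∧
        (∀ ω, B ω → |Pool.LA91.ojet F (c (r + 1)) 0 (Gp (z' (Pool.KSAT.slam F ⌊(t + -y₁ * q) * J⌋₊ ω))) ω| ≤
          1 / 2 ^ ⌊pN * J⌋₊) ∧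
        ∀ ω, B ω → Cp (Pool.PB.ptr F J ω) = Gp (z' (Pool.KSAT.slam F ⌊(t + -y₁ * q) * J⌋₊ ω)) := by
    rintro J F B Cp ⟨V, C, z, z', G₁, G₂, cc, h, hCp⟩
    rw [hΘ] at h
    obtain ⟨g, hg⟩ := h
    have h1 := hLb J F B V z z' G₂ g hg
    refine ⟨V, z, z', G₂, h1.deg, h1.dep, h1.cls, fun ω hω => ?_, hCp⟩
    rw [Pool.ALT.ojet_zx]
    exact h1.pos ω hω
  obtain ⟨m₁, hm₁⟩ : ∃ m₁, m₁ = pN - 2 * (hh * q) := ⟨_, rfl⟩
  have hm0 : 0 ≤ m₁ := by
    rw [hm₁]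
    linarith only [hpN2, hφq, hLv, hvq, hh4q, hq0]
  have hbx := Pool.W.V1E.bxU_part (S := S) (c := c) (r := r) (D := D) (Dw := Dw) (Dr := Dr) (N := N₁)
    (N₂ := N₂) (R := Rg) (C := C) (a := a₁) (Eb := E₁) (ε₀ := ε₁) (η₀ := hh * q) (χ := X * q)
    (mb := s * q) (Pt := L (r + 1)) (o := fun k => t + Pool.V1E.vG y k₁ vw k * q)
    (lv := fun k l => Pool.ISO.lvN P c (r + 1) (L (r + 1)) l (t + Pool.V1E.vG y k₁ vw k * q)
      (t + Pool.V1E.vG y k₁ vw k * q)) (be := be) (qf := qf) R.pos hκ1 (Kd := Kd)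
    (w := t + -y₁ * q) (pN := pN) (m₁ := m₁) (by
      simp only [v0]
      linarith only [hsq, hq0]) (by
      simp only [v0]
      linarith only [ht']) hhq.le hXq.le hDr hpN0.le (by
      rw [hm₁]
      linarith only [hhq]) (by
      simp only [v0, zero_mul, add_zero, hlv _ le_rfl]
      rw [hm₁]
      linarith only [hpp, hdN2, hs2q, hX2q, hεXq, hXq, hq0, hhq]) (by
      simp only [v0, zero_mul, add_zero]
      rw [hlv r (by omega)]
      exact hLt r (by omega)) (Ξ := Pool.ALT.XiF Θ (t + -y₁ * q))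
    (fun J F B g₀ G H Ht CL Cp h => hΘx J F B Cp h)
  refine Pool.W.V1E.VfNU.of_xi (Ξ' := fun J F B g₀ G H Ht CL Cp => Pool.ALT.XiF Θ (t + -y₁ * q) J F B g₀ G H Ht CL Cp ∧
    ∀ ω, B ω → ∀ b', Pool.GEN.NBx c (G 0 (Pool.PB.ptr F J ω)) (g₀ 0) ⌊(t + Pool.V1E.vG y k₁ vw 0 * q) * J⌋₊ (F.t ω) r b' →
      |eval b' (Pool.V1E.nW c r (G 0 (Pool.PB.ptr F J ω)) (Cp (Pool.PB.ptr F J ω)))| ≤ (2 : ℝ) ^ (-(m₁ * J))) two_pos hκ'.le
    ?_ (hvf (w := t + -y₁ * q) (m₁ := m₁) (ζ := ε * q) (kf := kf * q) (pf := fun l => L l t t - hh * q)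
      (N₁ := P₀ + lam * q - (1 : ℕ) * (t + -y₁ * q)) (e := e)
      (d := δ / (4 * lam) * (lam * q)) (Pq := Pq) (Ψ := Θ) R.pos ?_ ?_ ?_ ?_)
  · refine Pool.S6C.Bas.mono 0 hbx ?_
    rintro J - F B hB b z gc gT g₀ G H T TH Gt Ht CL Cp W hX
    obtain ⟨B₂, d1, d2, d3⟩ := hB b z gc gT g₀ G H T TH Gt Ht CL Cp W hX
    refine ⟨B₂, d1, d2, ?_, d3⟩
    obtain ⟨V, C, z, z', G₁, G₂, cc, h1, h2⟩ := hX
    exact ⟨V, C, z, z', G₁, G₂, cc, hΘs J F B B₂ V C z z' G₁ G₂ cc d1 h1, fun ω hω => h2 ω (d1 ω hω)⟩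
  · rintro J F B g₀ G H Ht CL Cp ⟨⟨V, C, z, z', G₁, G₂, cc, h1, h2⟩, -⟩
    exact ⟨V, C, z, z', G₁, G₂, cc, h1, h2⟩
  · refine Pool.S6C.Bas.mono 0 (Pool.LA91.pos_bas R.pos) ?_
    rintro J - F B - b z gc gT g₀ G H T TH Gt Ht CL Cp W hX ω hω
    refine ⟨0, fun b' hb' => ?_⟩
    rw [add_zero]
    exact hX.2 ω hω b' hb'
  · simp only [v0, zero_mul, add_zero]
    exact HF
  · exact
      { η0 := hhq
        χ1 := by linarith only [hεXq, hhXq, hXq]
        χ2 := by linarith only [hhCq, hXq]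
        ζ1 := fun l hl => by
          simp only [v0, v2, zero_mul, add_zero]
          rw [hlv l (by omega), hlv l (by omega)]
          have h1 := (abs_le.1 (R.dOne (by omega) (hκ l hl) (t + -k₁ * q) (by
            rw [add_sub_cancel_left, abs_mul, abs_neg, abs_of_pos hq0, abs_of_pos hk1]
            linarith only [hKq, hkq8, hCq, hXq3, hkfq, hsq, hlq, hq0]))).1
          linarith only [h1]
        mb0 := by linarith only [hs0q, hq0]
        kk0 := hkfq.le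
        kf0 := hkfq.le
        o01 := by
          simp only [v0, v2]
          linarith only [hkq8, hkfq, hh4q, hq0]
        o12 := by
          simp only [v0, v3]
          linarith only [hq0]
        l0 := fun l hl => by
          simp only [v0, zero_mul, add_zero]
          rw [hlv l hl]
          exact hLt l hl
        pf0 := fun l hl => by
          simp only [v0, zero_mul, add_zero]
          rw [hlv l (by omega)]
          linarith only [he0]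
        kq := by
          simp only [v0, v3]
          linarith only [hh4q, hq0]
        kf1 := by
          simp only [v0, v2]
          linarith only [hkq8, hh4q, hq0]
        kf2 := fun i => by
          have := hPq i
          linarith only [this, hh4q, hq0]
        qf1 := hqf
        N1 := by
          simp only [v0, v3, zero_mul, add_zero]
          rw [hlv _ le_rfl, Kn.ls]
          push_cast
          linarith only [hdN1, hεXq, hX2q, hq0, hy1q]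
        m1 := by
          simp only [v0, v3, zero_mul, add_zero]
          rw [hlv _ le_rfl, hm₁]
          linarith only [hdN1, hpN2, hksq, hφq, hh4q, hεXq, hX2q, hq0]
        m10 := hm0
        oJ := by
          simp only [v0, zero_mul, add_zero]
          linarith only [hhCq, hX2q, ht1, hKq, hkq8, hCq, hXq3, hkfq, hsq, hlq, hq0]
        δ0 := Kn.δ0
        sm := by
          simp only [v0, v3]
          have h1 := mul_le_mul_of_nonneg_right Kn.Xδ hq0.le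
          have h2 : δ / (4 * lam) * (lam * q) = δ / 4 * q := by
            field_simp
          have h3 : 0 < δ * q := mul_pos hδ hq0
          rw [h2]
          linarith only [h1, h3] }

end Pool.W.ALT
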