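import Pool.Agent.H73.D2.Tvi
import Pool.Agent.H31.W.H99.D2.Und
import Pool.Agent.H3.W.Bas

/-!
# The closed slope at all records

`BxT`: a closed slope of `N` in the direction of `u`, at all scales of the records, for any finite list of
windows and a closed window as early as one likes. `bxT_uni`: for `u` thin or of slope one and `N` steep or
static of slope less than the one of `u` plus one (helper99).
-/

set_option autoImplicit false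

namespace Pool.W.ALT

open Pool.ALT

open Finset Real MvPolynomial
open Pool.Agent.H49.Ent Pool.Agent.H32.Dense Pool.STK Pool.KA Pool.KSAT Pool.K2S Pool.PB Pool.S6C
  Pool.GEN Pool.RCD Pool.LA91 Pool.OWN68 Pool.PKG
open Pool.CHT Pool.CHX Pool.ISO Pool.D2R Pool.D2G30 Pool.V1E Pool.CR99 Pool.GRW
open Pool.GRD (LbP)

/-- **A closed slope at the windows of the records**, under the hypothesis `Z lam` on the class: of the labels of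
`c (r + 1)` at the windows `t + bw k q`, `k < nb`, in the direction `c r`, closed at the window
`t - y₁ q`, `y₁` as large as one likes. -/
def BxT (r : ℕ) (h : ℝ) (Sl : ℕ → ℝ) (κ : ℕ → Pool.PKG.Kg) {ι Λ : Type} (Q : Pool.PKG.PropG (r + 2) ι)
    (Z : Pool.PKG.PropZ (r + 2) Λ) : Prop :=
  ∀ al : ℝ, 0 < al → ∀ K₀ : ℝ, 0 < K₀ → ∀ S₀ : ℕ, 1 ≤ S₀ → ∀ (y₀ : ℝ) (nb : ℕ) (bw : ℕ → ℝ),
  ∃ y₁ : ℝ, y₀ ≤ y₁ ∧
  ∃ (Kr : ℝ) (Nr : ℕ) (Ar Vr : ℕ → ℝ), 1 ≤ Kr ∧ (∀ k < Nr, -Kr ≤ Vr k ∧ Vr k ≤ Ar k ∧ Ar k ≤ Kr) ∧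
  ∀ S₂ : ℕ, S₀ ≤ S₂ → ∃ Kx K₁x : ℕ, ∀ ρ : ℝ, 0 < ρ → ρ ≤ 1 →
  ∃ (lam : Λ) (K₁ : ℝ) (Nv : ℕ) (Vv : ℕ → ℝ), (∀ j < Nv, -K₁ ≤ Vv j ∧ Vv j ≤ K₁) ∧
  ∀ K' : ℝ, K₁ ≤ K' → ∃ ε₀ : ℝ, 0 < ε₀ ∧ ∀ ε : ℝ, 0 < ε → ε ≤ ε₀ →
  ∀ (S : Pool.PB.PCl (r + 2)) (g₀ : ℝ → ℝ) (P : List (Fin (r + 2)) × Fin (r + 2) → ℝ → ℝ → ℝ)
    (θ : ℝ) (P₂ : ℕ → List (Fin (r + 2)) × Fin (r + 2) → ℝ → ℝ → ℝ) (θ₂ Eb e₂ : ℕ → ℝ)
    (c : ℕ → Fin (r + 2)) (Pt : ℝ → ℝ → ℝ) (rt : ℝ → ℝ) (L T : ℕ → ℝ → ℝ → ℝ) (G : Set ℝ)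
    (g : ℝ), IsClosed G → g ∈ G → (∀ l < r + 2, HasDerivAt (fun x => L l x x) (Sl l) g) →
    Z lam S P θ c Pt rt L T κ G g →
    ∃ (p : ℕ → ι) (M : ℕ) (B₀ B₁ : ℕ → ℝ),
    (∀ j < M, B₀ j < B₁ j) ∧ ∀ k₀ : ℕ → ℕ, (∀ j < M, Q (p j) (k₀ j) S P θ c Pt rt L T κ G g) →
    ∃ q₁ : ℝ, 0 < q₁ ∧ ∀ (q t : ℝ) (x : ℕ → ℝ),
      q < q₁ → (∀ j < M, x j ∈ G ∧ t + B₀ j * q ≤ x j ∧ x j ≤ t + B₁ j * q ∧
        Q (p j) (k₀ j) S P θ c Pt rt L T κ G (x j)) →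
      ∀ (N : ℕ) (A V : ℕ → ℝ) (N' : ℕ) (V' : ℕ → ℝ),
      Pool.W.PKG.RecG S al g₀ P θ P₂ θ₂ Eb e₂ c Pt rt h K₀ g L T Sl κ G S₀ N A V S₂ N' V' K' ε q t →
      (∀ k < Nr, ∃ j < N, A j = Ar k ∧ V j = Vr k) → (∀ k < Nv, ∃ j < N', V' j = Vv k) →
      ∃ κ' : ℝ, 0 < κ' ∧ Pool.CR99.BlX S c r Kx K₁x (t + -y₁ * q)
        (L (r + 1) (t + -y₁ * q) (t + -y₁ * q) - ρ * q) nb (fun k => t + bw k * q)
        (fun k => L (r + 1) (t + bw k * q) (t + bw k * q) - ρ * q)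
        (fun k => L r (t + bw k * q) (t + bw k * q) - L (r + 1) (t + bw k * q) (t + bw k * q) +
          ρ * q) κ'


/-- **The closed slope at all records**, for `u` thin or of slope one and `N` of slope less than the one of
`u` plus one. -/
theorem bxT_uni {r : ℕ} {h : ℝ} {Sl : ℕ → ℝ} {κ : ℕ → Pool.PKG.Kg} {ι Λ : Type} [Inhabited ι]
    [Inhabited Λ] {Q : Pool.PKG.PropG (r + 2) ι} {Z : Pool.PKG.PropZ (r + 2) Λ} (hab : Sl (r + 1) < Sl r + 1)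
    (hκu : κ r = .one ∨ κ r = .thin) (hκN : κ (r + 1) = .stp ∨ κ (r + 1) = .sta) :
    Pool.W.ALT.BxT r h Sl κ Q Z := by
  intro al hal K₀ hK₀ S₀ hS₀ y₀ nb bw
  obtain ⟨α, hα⟩ : ∃ α, α = Sl r := ⟨_, rfl⟩
  obtain ⟨s, hs⟩ : ∃ s, s = Sl (r + 1) := ⟨_, rfl⟩
  rw [← hα, ← hs] at hab
  obtain ⟨Bw, hBw⟩ : ∃ Bw : ℝ, Bw = ∑ k ∈ range nb, |bw k| := ⟨_, rfl⟩
  have hBw0 : 0 ≤ Bw := by
    rw [hBw]
    exact Finset.sum_nonneg fun _ _ => abs_nonneg _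
  have hbwk : ∀ k < nb, |bw k| ≤ Bw := fun k hk => by
    rw [hBw]
    exact Finset.single_le_sum (f := fun k => |bw k|) (fun _ _ => abs_nonneg _)
      (mem_range.2 hk)
  obtain ⟨y₁, hy₁⟩ : ∃ y₁ : ℝ, y₁ = max y₀ Bw := ⟨_, rfl⟩
  have hy0 : y₀ ≤ y₁ := by rw [hy₁]; exact le_max_left _ _
  have hyB : Bw ≤ y₁ := by rw [hy₁]; exact le_max_right _ _
  obtain ⟨ϑ, hϑ⟩ : ∃ ϑ : ℝ, ϑ = max 0 (s - α) := ⟨_, rfl⟩
  have hϑ0 : 0 ≤ ϑ := by rw [hϑ]; exact le_max_left _ _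
  have hϑs : s - α ≤ ϑ := by rw [hϑ]; exact le_max_right _ _
  have hϑ1 : ϑ < 1 := by rw [hϑ]; exact max_lt one_pos (by linarith)
  obtain ⟨d, hd⟩ : ∃ d : ℝ, d = ϑ * (Bw + y₁) / (1 - ϑ) + 1 := ⟨_, rfl⟩
  have hd1 : (1 - ϑ) * d = ϑ * (Bw + y₁) + (1 - ϑ) := by
    rw [hd]
    field_simp [(by linarith : (1 - ϑ) ≠ 0)]
  have hd0 : 1 ≤ d := by
    rw [hd]
    have : 0 ≤ ϑ * (Bw + y₁) / (1 - ϑ) :=
      div_nonneg (mul_nonneg hϑ0 (by linarith)) (by linarith)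
    linarith
  obtain ⟨Ve, hVe⟩ : ∃ Ve : ℝ, Ve = -y₁ - d := ⟨_, rfl⟩
  obtain ⟨a, ha⟩ : ∃ a : ℝ, a = max (Bw + 1) ((s - 1) * (Bw - Ve) + Ve) := ⟨_, rfl⟩
  have ha1 : Bw + 1 ≤ a := by rw [ha]; exact le_max_left _ _
  have ha2 : (s - 1) * (Bw - Ve) + Ve ≤ a := by rw [ha]; exact le_max_right _ _
  obtain ⟨Vr, hVr⟩ : ∃ Vr : ℕ → ℝ, Vr = fun k => if k < nb then bw k else if k = nb then Ve else
    -y₁ := ⟨_, rfl⟩
  have v0 : ∀ k < nb, Vr k = bw k := fun k hk => by rw [hVr]; simp only [hk, if_true]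
  have v1 : Vr nb = Ve := by rw [hVr]; simp
  have v2 : Vr (nb + 1) = -y₁ := by rw [hVr]; simp
  have hVrb : ∀ k < nb + 2, Ve ≤ Vr k ∧ Vr k ≤ Bw := by
    intro k hk
    rcases Nat.lt_or_ge k nb with h1 | h1
    · rw [v0 k h1]
      have := abs_le.1 (hbwk k h1)
      constructor <;> linarith [this.1, this.2]
    · obtain ⟨j, rfl⟩ : ∃ j, k = nb + j := ⟨k - nb, by omega⟩
      have hj : j < 2 := by omega
      interval_cases j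
      · rw [Nat.add_zero, v1]
        constructor <;> linarith
      · rw [v2]
        constructor <;> linarith
  obtain ⟨Kr, hKr⟩ : ∃ Kr : ℝ, Kr = max (max 1 a) (1 - Ve) := ⟨_, rfl⟩
  have k1 : 1 ≤ Kr := by rw [hKr]; exact (le_max_left _ _).trans (le_max_left _ _)
  have k2 : a ≤ Kr := by rw [hKr]; exact (le_max_right _ _).trans (le_max_left _ _)
  have k3 : 1 - Ve ≤ Kr := by rw [hKr]; exact le_max_right _ _
  refine ⟨y₁, hy0, Kr, nb + 2, fun _ => a, Vr, k1, fun k hk => ?_, fun S₂ hS₂ => ?_⟩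
  · obtain ⟨h1, h2⟩ := hVrb k hk
    exact ⟨by linarith, by linarith, k2⟩
  obtain ⟨D, hD, hbx⟩ := Pool.W.CR99.blx_uni (r + 2) r S₂ (hS₀.trans hS₂)
  refine ⟨Pool.CR99.bmd D, D, fun ρ hρ hρ1 => ?_⟩
  obtain ⟨ε₀, hε₀, hbx⟩ := hbx (α := α) (b := s) (ρ := ρ) (a := a) (Ve := Ve) (V₀ := -y₁) (Vm := Bw)
    (μ := ϑ * (Bw - Ve)) hρ hρ1 (by linarith) (by linarith) (by linarith) (by linarith)
    (mul_le_mul_of_nonneg_right hϑs (by linarith)) (mul_nonneg hϑ0 (by linarith)) (by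
      have e1 : ϑ * (Bw - Ve) = ϑ * (Bw + y₁) + ϑ * d := by
        rw [hVe]
        ring
      rw [e1]
      have e2 : -y₁ - Ve = d := by rw [hVe]; ring
      rw [e2]
      linarith)
  refine ⟨default, Kr, 0, fun _ => 0, fun j hj => absurd hj (Nat.not_lt_zero j), fun K' hK' =>
    ⟨ε₀, hε₀, fun ε hε hεε => ?_⟩⟩
  intro S g₀ P θ P₂ θ₂ Eb e₂ c Pt rt L T G g _ _ _ _
  refine ⟨fun _ => default, 0, fun _ => 0, fun _ => 1, fun j hj => absurd hj (Nat.not_lt_zero j),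
    fun k₀ _ => ⟨1, one_pos, ?_⟩⟩
  intro q t x _ _ N A V N' V' R hpr _
  obtain ⟨W, hW⟩ : ∃ W : ℕ → ℝ, W = fun k => if k = 0 then -y₁ else bw (k - 1) := ⟨_, rfl⟩
  have W0 : W 0 = -y₁ := by rw [hW]; simp
  have W1 : ∀ k, W (k + 1) = bw k := fun k => by rw [hW]; simp
  have hWk : ∀ k ≤ nb, ∃ i < nb + 2, Vr i = W k := by
    intro k hk
    rcases Nat.eq_zero_or_pos k with rfl | h1
    · exact ⟨nb + 1, by omega, by rw [v2, W0]⟩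
    · obtain ⟨i, rfl⟩ : ∃ i, k = i + 1 := ⟨k - 1, by omega⟩
      exact ⟨i, by omega, by rw [v0 i (by omega), W1]⟩
  obtain ⟨κ', hκ', hX⟩ := hbx R (by omega) hε.le hεε hα.symm hs.symm hκu hκN (by linarith)
    (by linarith) (by linarith) (W := W) (n := nb) W0 (fun k hk => by
      obtain ⟨i, hi, e⟩ := hWk k hk
      rw [← e]
      exact hVrb i hi) (fun k hk => by
      obtain ⟨i, hi, e⟩ := hWk k hk
      obtain ⟨j, hj, h1, h2⟩ := hpr i hi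
      exact ⟨j, hj, h1, h2.trans e⟩) (by
      obtain ⟨j, hj, h1, h2⟩ := hpr nb (by omega)
      exact ⟨j, hj, h1, h2.trans v1⟩)
  refine ⟨κ', hκ', Pool.ALT.blX_mono hX le_rfl le_rfl fun k hk => ⟨k + 1, by omega, ?_, ?_, ?_⟩⟩
  · simp only [W1]
  · simp only [W1]
    exact le_rfl
  · simp only [W1]
    exact le_rfl

end Pool.W.ALT
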