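import Pool.Agent.H73.D2.Tvj
import Pool.Agent.H31.W.H19.FLN.F1s
import Pool.Agent.H31.W.H73.D2.Tva
import Pool.Agent.H31.W.H73.D2.Tvh
import Pool.Agent.H31.W.H73.D2.Tvi
import Pool.Agent.H31.W.H92.ALT.Jt1
import Pool.Agent.H3.W.Bas
import Pool.Agent.H57.SWC.Lx

/-!
# The blind family and its velocity at all records

`vbT_of`: `VbT` of helper92 from the near dead place `u` (`F1US`) and a closed slope of `N` in the direction of
`u` (`BxT`).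
-/

set_option autoImplicit false

namespace Pool.W.ALT

open Pool.ALT

open Finset Real MvPolynomial
open Pool.Agent.H49.Ent Pool.Agent.H32.Dense Pool.STK Pool.KA Pool.KSAT Pool.K2S Pool.PB Pool.S6C
  Pool.GEN Pool.RCD Pool.LA91 Pool.OWN68 Pool.PKG
open Pool.CHT Pool.CHX Pool.ISO Pool.D2R Pool.D2G30 Pool.V1E Pool.CR99 Pool.GRW
open Pool.UNJ (ceI)
open Pool.GRD (LbP)
open Pool.PN18 (Fm2)
open Pool.AJW (jfV)
open Pool.V0F (LbU ChUQ AttUQ)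


/-- **The blind family and its velocity at all records**, from a near dead place `u` and a closed slope of
`N` in the direction of `u`. -/
theorem vbT_of {r : ℕ} (hr : 1 ≤ r) {y a h : ℝ} (hh0 : 0 < h) (hh1 : h ≤ 1) {nb : ℕ}
    {bw : ℕ → ℝ} {Sl : ℕ → ℝ} {κ : ℕ → Pool.PKG.Kg} (hκ : ∀ l < r, κ l = .one) (hs1 : 1 < Sl (r + 1))
    (hα1 : 1 < Sl r) {ι₁ Λ₁ ι₂ Λ₂ : Type} {Q₁ : Pool.PKG.PropG (r + 2) ι₁} {Z₁ : Pool.PKG.PropZ (r + 2) Λ₁}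
    {Q₂ : Pool.PKG.PropG (r + 2) ι₂} {Z₂ : Pool.PKG.PropZ (r + 2) Λ₂} (hF : Pool.W.PKG.F1US (r + 2) r h Sl κ Q₁ Z₁)
    (hB : Pool.W.ALT.BxT r h Sl κ Q₂ Z₂) :
    Pool.W.ALT.VbT r y a h nb bw Sl κ (Pool.LA91.sumQ Q₁ (Pool.LA91.sumQ Q₂ (Pool.LA91.sumQ (Pool.W.V0F.ChUQ : Pool.PKG.PropG (r + 2) Unit)
      (Pool.V0F.AttUQ : Pool.PKG.PropG (r + 2) Unit)))) (fun lam : Λ₁ × Λ₂ => Pool.PKG.AndW (Z₁ lam.1) (Z₂ lam.2)) := by
  classical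
  intro al hal K₀ hK₀ S₀ hS₀
  obtain ⟨s, hs⟩ : ∃ s, s = Sl (r + 1) := ⟨_, rfl⟩
  obtain ⟨α, hα⟩ : ∃ α, α = Sl r := ⟨_, rfl⟩
  rw [← hs] at hs1
  rw [← hα] at hα1
  -- the windows of the closed slope
  obtain ⟨bx, hbx⟩ : ∃ bx : ℕ → ℝ, bx = fun k => if k = 0 then 0 else bw (k - 1) := ⟨_, rfl⟩
  have bx0 : bx 0 = 0 := by rw [hbx]; simp
  have bx1 : ∀ k, bx (k + 1) = bw k := fun k => by rw [hbx]; simp
  obtain ⟨y₁, hy₁, KrB, NrB, ArB, VrB, hKrB, hAVB, hB⟩ := hB al hal K₀ hK₀ S₀ hS₀ s (nb + 1) bx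
  have hy0 : 0 < y₁ := by linarith
  have hα0 : 0 < α := by linarith
  obtain ⟨C₁, hC₁⟩ : ∃ C₁ : ℝ, C₁ = α * y₁ / (α - 1) + 1 := ⟨_, rfl⟩
  have hC1 : 1 ≤ C₁ := by
    rw [hC₁]
    have : 0 ≤ α * y₁ / (α - 1) := div_nonneg (by positivity) (by linarith)
    linarith
  have hC0 : 0 < C₁ := by linarith
  have hαC : α * y₁ ≤ (α - 1) * C₁ := by
    have e1 : (α - 1) * C₁ = α * y₁ + (α - 1) := by
      rw [hC₁]
      field_simp [(by linarith : (α - 1) ≠ 0)]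
    rw [e1]
    linarith
  obtain ⟨KrF, NrF, ArF, VrF, hKrF, hAVF, hF⟩ := hF al hal (K₀ + y₁) (by linarith) S₀ hS₀
  obtain ⟨D₀, hD₀, ht4⟩ := Pool.W.ALT.t4_rec r S₀ hr hS₀
  obtain ⟨Kr, hKr⟩ : ∃ Kr : ℝ, Kr = max (KrF * C₁ + y₁) KrB := ⟨_, rfl⟩
  have kr1 : KrF * C₁ + y₁ ≤ Kr := by rw [hKr]; exact le_max_left _ _
  have kr2 : KrB ≤ Kr := by rw [hKr]; exact le_max_right _ _
  refine ⟨Kr, NrF + NrB, Pool.PKG.cmb NrF (fun k => ArF k * C₁ + -y₁) ArB,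
    Pool.PKG.cmb NrF (fun k => VrF k * C₁ + -y₁) VrB, hKrB.trans kr2, fun k hk => ?_,
    fun S₂ hS₂ D hD Db hDb => ?_⟩
  · rcases Nat.lt_or_ge k NrF with h1 | h1
    · rw [Pool.PKG.cmb_l h1, Pool.PKG.cmb_l h1]
      obtain ⟨h2, h3, h4⟩ := hAVF k h1
      have m1 := mul_le_mul_of_nonneg_right h2 hC0.le
      have m2 := mul_le_mul_of_nonneg_right h3 hC0.le
      have m3 := mul_le_mul_of_nonneg_right h4 hC0.le
      exact ⟨by linarith, by linarith, by linarith⟩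
    · obtain ⟨j, rfl⟩ : ∃ j, k = NrF + j := ⟨k - NrF, by omega⟩
      rw [Pool.PKG.cmb_r, Pool.PKG.cmb_r]
      obtain ⟨h2, h3, h4⟩ := hAVB j (by omega)
      exact ⟨by linarith, h3, by linarith⟩
  obtain ⟨Kx, K₁x, hB⟩ := hB S₂ hS₂
  obtain ⟨Kd, hKd⟩ : ∃ Kd : ℕ, Kd = max Kx D₀ := ⟨_, rfl⟩
  have hKd1 : Kx ≤ Kd := by rw [hKd]; exact le_max_left _ _
  have hKd2 : D₀ ≤ Kd := by rw [hKd]; exact le_max_right _ _
  refine ⟨(max D Kd + 1) * (max D Kd + 1), Kd, fun Dr hDr C hC => ⟨0, fun Dw _ δ X₀ hδ hδ1 hX₀ =>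
    ?_⟩⟩
  obtain ⟨lam, hlam⟩ : ∃ lam : ℝ, lam = s * y₁ - (y₁ - s + 1) / 2 := ⟨_, rfl⟩
  have hlp : 0 < lam := by
    rw [hlam]
    have h1 : y₁ < s * y₁ := by nlinarith only [hs1, hy0]
    linarith only [h1, hy0, hs1]
  obtain ⟨δN, C', dd, hδN, hC', hdd, ht4⟩ := ht4 Kd Dw hKd2 hh0 hh1 hδ hlp hy0 hα0 hC0
  obtain ⟨lamF, kf₁, φ₁, hkf₁, hφ₁, K₁F, NvF, VvF, hVvF, hF⟩ := hF S₂ hS₂ dd hdd
  obtain ⟨φ, Xc, kf₀, X₁, hφ, hφ1, hXc, hXm, hX₁, hvd⟩ := Pool.ALT.vdK_ex' r hs1 hy₁ hα0.le hδN hC' hδ hlam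
    one_pos (kf₁ * C₁)
  obtain ⟨kf, hkf⟩ : ∃ kf : ℝ, kf = max (max kf₀ s) (α * y₁ + 1 + 2 * (r + 1) * φ) := ⟨_, rfl⟩
  have kf1 : kf₀ ≤ kf := by rw [hkf]; exact (le_max_left _ _).trans (le_max_left _ _)
  have kf2 : s ≤ kf := by rw [hkf]; exact (le_max_right _ _).trans (le_max_left _ _)
  have kf3 : α * y₁ + 1 + 2 * (r + 1) * φ ≤ kf := by rw [hkf]; exact le_max_right _ _
  obtain ⟨X, hX⟩ : ∃ X : ℝ, X = min X₀ X₁ := ⟨_, rfl⟩
  have hX0 : 0 < X := by rw [hX]; exact lt_min hX₀ hX₁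
  have hXa : X ≤ X₀ := by rw [hX]; exact min_le_left _ _
  have hXb : X ≤ X₁ := by rw [hX]; exact min_le_right _ _
  obtain ⟨ρ, hρ⟩ : ∃ ρ : ℝ, ρ = min (min (δN * lam / 16) (φ / 16)) (min (1 / 8) (X / 8)) :=
    ⟨_, rfl⟩
  have hρ0 : 0 < ρ := by rw [hρ]; positivity
  have hρφ : 16 * ρ ≤ φ := by
    have : ρ ≤ φ / 16 := by rw [hρ]; exact (min_le_left _ _).trans (min_le_right _ _)
    linarith
  have hρa : 16 * ρ ≤ δN * lam := by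
    have : ρ ≤ δN * lam / 16 := by rw [hρ]; exact (min_le_left _ _).trans (min_le_left _ _)
    linarith
  have hρb : ρ ≤ 1 / 8 := by rw [hρ]; exact (min_le_right _ _).trans (min_le_left _ _)
  have hρc : ρ ≤ X / 8 := by rw [hρ]; exact (min_le_right _ _).trans (min_le_right _ _)
  obtain ⟨lamB, K₁B, NvB, VvB, hVvB, hB⟩ := hB ρ hρ0 (by linarith)
  obtain ⟨h₁, hh₁, hvd⟩ := hvd kf X C kf1 hX0 hXb hC
  refine ⟨(lamF, lamB), kf, X, min h₁ (X / 16), by rw [← hs]; exact kf2, hX0, hXa, by positivity,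
    fun hh k₁ hhh hhl hk1 hk2 => ?_⟩
  have hhl1 := hhl.trans (min_le_left _ _)
  have hhl2 := hhl.trans (min_le_right _ _)
  obtain ⟨ε₁, hε₁, hvd⟩ := hvd hh k₁ a hhh hhl1 hk1 hk2
  -- the windows
  obtain ⟨Nv, hNv⟩ : ∃ Nv : ℕ, Nv = NvB + (NvF + (2 + (nb + (r + 1)))) := ⟨_, rfl⟩
  obtain ⟨Va, hVa⟩ : ∃ Va : ℕ → ℝ, Va = Pool.PKG.cmb NvB VvB (Pool.PKG.cmb NvF (fun k => VvF k * C₁ + -y₁)
    (Pool.PKG.cmb 2 (fun k => if k = 0 then -y₁ else 0) (Pool.PKG.cmb nb bw (Pool.AJW.jfV r (-y₁) Xc)))) := ⟨_, rfl⟩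
  have va1 : ∀ k < NvB, Va k = VvB k := fun k hk => by rw [hVa, Pool.PKG.cmb_l hk]
  have va2 : ∀ k < NvF, Va (NvB + k) = VvF k * C₁ + -y₁ := fun k hk => by
    rw [hVa, Pool.PKG.cmb_r, Pool.PKG.cmb_l hk]
  have va3 : Va (NvB + (NvF + 0)) = -y₁ := by
    rw [hVa, Pool.PKG.cmb_r, Pool.PKG.cmb_r, Pool.PKG.cmb_l (by norm_num), if_pos rfl]
  have va4 : Va (NvB + (NvF + 1)) = 0 := by
    rw [hVa, Pool.PKG.cmb_r, Pool.PKG.cmb_r, Pool.PKG.cmb_l (by norm_num), if_neg one_ne_zero]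
  have va5 : ∀ k < nb, Va (NvB + (NvF + (2 + k))) = bw k := fun k hk => by
    rw [hVa, Pool.PKG.cmb_r, Pool.PKG.cmb_r, Pool.PKG.cmb_r, Pool.PKG.cmb_l hk]
  have va6 : ∀ k, Va (NvB + (NvF + (2 + (nb + k)))) = Pool.AJW.jfV r (-y₁) Xc k := fun k => by
    rw [hVa, Pool.PKG.cmb_r, Pool.PKG.cmb_r, Pool.PKG.cmb_r, Pool.PKG.cmb_r]
  obtain ⟨Bv, hBv⟩ : ∃ Bv : ℝ, Bv = ∑ k ∈ range Nv, |Va k| := ⟨_, rfl⟩
  have hVaB : ∀ k < Nv, |Va k| ≤ Bv := fun k hk => by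
    rw [hBv]
    exact Finset.single_le_sum (f := fun k => |Va k|) (fun _ _ => abs_nonneg _)
      (mem_range.2 hk)
  obtain ⟨KF, hKF⟩ : ∃ KF : ℝ, KF = max K₁F 0 := ⟨_, rfl⟩
  have hKF0 : 0 ≤ KF := by rw [hKF]; exact le_max_right _ _
  have hKF1 : K₁F ≤ KF := by rw [hKF]; exact le_max_left _ _
  obtain ⟨K₁, hK₁⟩ : ∃ K₁ : ℝ, K₁ = max (max (Bv + 1) K₁B) (max (KF * C₁ + y₁ + s * y₁ + 1)
    (k₁ + C + 3 ^ r * Xc + kf + (α + 1) * y₁ + lam + 4)) := ⟨_, rfl⟩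
  have k11 : Bv + 1 ≤ K₁ := by rw [hK₁]; exact (le_max_left _ _).trans (le_max_left _ _)
  have k12 : K₁B ≤ K₁ := by rw [hK₁]; exact (le_max_right _ _).trans (le_max_left _ _)
  have k13 : KF * C₁ + y₁ + s * y₁ + 1 ≤ K₁ := by
    rw [hK₁]
    exact (le_max_left _ _).trans (le_max_right _ _)
  have k14 : k₁ + C + 3 ^ r * Xc + kf + (α + 1) * y₁ + lam + 4 ≤ K₁ := by
    rw [hK₁]
    exact (le_max_right _ _).trans (le_max_right _ _)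
  refine ⟨K₁, Nv, Va, 0, fun _ => 0, fun j hj => ?_, fun j hj => absurd hj (Nat.not_lt_zero j),
    fun K' hK' => ?_⟩
  · have := abs_le.1 (hVaB j hj)
    exact ⟨by linarith [this.1], by linarith [this.2]⟩
  obtain ⟨εB, hεB, hB⟩ := hB K' (k12.trans hK')
  obtain ⟨εF, hεF, hF⟩ := hF KF hKF1
  refine ⟨min (min ε₁ εB) (min (εF / 2) (min (1 / 4) φ)), by positivity, fun ε hε hεε => ?_⟩
  have ε1 := hεε.trans ((min_le_left _ _).trans (min_le_left _ _))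
  have ε2 := hεε.trans ((min_le_left _ _).trans (min_le_right _ _))
  have ε3 := hεε.trans ((min_le_right _ _).trans (min_le_left _ _))
  have ε4 := (hεε.trans ((min_le_right _ _).trans (min_le_right _ _))).trans (min_le_left _ _)
  have ε5 := (hεε.trans ((min_le_right _ _).trans (min_le_right _ _))).trans (min_le_right _ _)
  have Kn := hvd ε hε ε1
  intro S g₀ P θ P₂ θ₂ Eb e₂ c Pt rt L T G g hG hg hder hZ
  obtain ⟨hZ1, hZ2⟩ := hZ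
  obtain ⟨pF, MF, BF₀, BF₁, hBF, hF⟩ := hF (2 * ε) (by linarith) (by linarith) S g₀ P θ P₂ θ₂ Eb e₂
    c Pt rt L T G g hG hg hder hZ1
  obtain ⟨pB, MB, BB₀, BB₁, hBB, hB⟩ := hB ε hε ε2 S g₀ P θ P₂ θ₂ Eb e₂ c Pt rt L T G g hG hg
    hder hZ2
  refine ⟨Pool.ALT.cmT MF (fun j => Sum.inl (pF j)) (Pool.ALT.cmT MB (fun j => Sum.inr (Sum.inl (pB j)))
      (fun j => Sum.inr (Sum.inr (if j = 0 then Sum.inl () else Sum.inr ())))),
    MF + (MB + 2), Pool.PKG.cmb MF (fun j => BF₀ j * C₁ + -y₁) (Pool.PKG.cmb MB BB₀ (fun _ => 0)),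
    Pool.PKG.cmb MF (fun j => BF₁ j * C₁ + -y₁) (Pool.PKG.cmb MB BB₁ (fun _ => 1)), fun j hj => ?_,
    fun k₀ hQ => ?_⟩
  · rcases Nat.lt_or_ge j MF with h1 | h1
    · rw [Pool.PKG.cmb_l h1, Pool.PKG.cmb_l h1]
      have := mul_lt_mul_of_pos_right (hBF j h1) hC0
      linarith
    · obtain ⟨i, rfl⟩ : ∃ i, j = MF + i := ⟨j - MF, by omega⟩
      rw [Pool.PKG.cmb_r, Pool.PKG.cmb_r]
      rcases Nat.lt_or_ge i MB with h2 | h2
      · rw [Pool.PKG.cmb_l h2, Pool.PKG.cmb_l h2]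
        exact hBB i h2
      · obtain ⟨i', rfl⟩ : ∃ i', i = MB + i' := ⟨i - MB, by omega⟩
        rw [Pool.PKG.cmb_r, Pool.PKG.cmb_r]
        exact one_pos
  have hQF : ∀ j < MF, Q₁ (pF j) (k₀ j) S P θ c Pt rt L T κ G g := fun j hj => by
    have h1 := hQ j (by omega)
    rw [Pool.ALT.cmT_l hj] at h1
    exact h1
  have hQB : ∀ j < MB, Q₂ (pB j) (k₀ (MF + j)) S P θ c Pt rt L T κ G g := fun j hj => by
    have h1 := hQ (MF + j) (by omega)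
    rw [Pool.ALT.cmT_r, Pool.ALT.cmT_l hj] at h1
    exact h1
  have hQ0 : Pool.W.V0F.ChUQ () (k₀ (MF + (MB + 0))) S P θ c Pt rt L T κ G g := by
    have h1 := hQ (MF + (MB + 0)) (by omega)
    rw [Pool.ALT.cmT_r, Pool.ALT.cmT_r, if_pos rfl] at h1
    exact h1
  have hQ1 : Pool.V0F.AttUQ () (k₀ (MF + (MB + 1))) S P θ c Pt rt L T κ G g := by
    have h1 := hQ (MF + (MB + 1)) (by omega)
    rw [Pool.ALT.cmT_r, Pool.ALT.cmT_r, if_neg one_ne_zero] at h1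
    exact h1
  obtain ⟨qF, hqF, hF⟩ := hF k₀ hQF
  obtain ⟨qB, hqB, hB⟩ := hB (fun j => k₀ (MF + j)) hQB
  have hK'0 : 0 < K' := by
    have h0 : 0 ≤ KF * C₁ := mul_nonneg hKF0 hC0.le
    have h1 : 0 < s * y₁ := by positivity
    linarith
  obtain ⟨km, hkm⟩ : ∃ km : ℕ, km = k₀ (MF + (MB + 1)) := ⟨_, rfl⟩
  rw [← hkm] at hQ1
  refine ⟨min (min (qF / C₁) qB) ((1 / 2) ^ km / (3 * K' + K₀)), by positivity, ?_⟩
  intro q t x hq hx N A V N' V' R hpr hwn N₁ N₂ vw hN1 hN12 hN2 hvw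
  have q1 := hq.trans_le ((min_le_left _ _).trans (min_le_left _ _))
  have q2 := hq.trans_le ((min_le_left _ _).trans (min_le_right _ _))
  have q3 := hq.trans_le (min_le_right _ _)
  rw [lt_div_iff₀ hC0] at q1
  rw [lt_div_iff₀ (by positivity)] at q3
  have hq0 := R.q0
  have h9 : 0 < K' * q := mul_pos hK'0 hq0
  have h10 : 0 < K₀ * q := mul_pos hK₀ hq0
  -- the record with the windows `Va`
  have Ra := R.mono (K₁ := K') (ε₁ := ε) (N₁ := N) (A₁ := A) (V₁ := V) (N₁' := Nv) (V₁' := Va)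
    le_rfl le_rfl (fun k hk => ⟨k, hk, rfl, rfl⟩) (fun k hk => by
      obtain ⟨j, hj, e⟩ := hwn k hk
      exact ⟨j, hj, e.symm⟩)
  -- the first jet of `u` at the window `t - y₁ q`
  have Rs := R.scs (K₀' := K₀ + y₁) (K₁ := KF) (ε₁ := 2 * ε) (C := C₁) (V₀ := -y₁) (B := s)
    (N₁ := NrF) (A₁ := ArF) (V₁ := VrF) (N₁' := NvF) (V₁' := VvF) (by omega) hC1 (by
      show |Sl (r + 2 - 1)| ≤ s
      rw [show r + 2 - 1 = r + 1 by omega, ← hs, abs_of_pos (by linarith)]) hε.le (by linarith)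
    hKF0 (by
      rw [abs_neg, abs_of_pos hy0]
      linarith) (by
      have := mul_le_mul_of_nonneg_left hC1 hε.le
      linarith) (by
      rw [abs_neg, abs_of_pos hy0]
      have h1 : 0 < K₀ + y₁ := by linarith
      have := mul_le_mul_of_nonneg_left hC1 h1.le
      linarith) (fun k hk => by
      obtain ⟨j, hj, h4, h5⟩ := hpr k (by omega)
      rw [Pool.PKG.cmb_l hk] at h4 h5
      exact ⟨j, hj, h4.symm, h5.symm⟩) (fun k hk => by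
      obtain ⟨j, hj, h4⟩ := hwn (NvB + k) (by omega)
      rw [va2 k hk] at h4
      exact ⟨j, hj, h4.symm⟩)
  have hqC : 0 < C₁ * q := mul_pos hC0 hq0
  obtain ⟨S₁, hne₁, hs₁, e₁, he₁, hF1⟩ := hF (C₁ * q) (t + -y₁ * q) x (by linarith) (fun j hj => by
      obtain ⟨h4, h5, h6, h7⟩ := hx j (by omega)
      rw [Pool.PKG.cmb_l hj] at h5 h6
      rw [Pool.ALT.cmT_l hj] at h7
      exact ⟨h4, by linarith, by linarith, h7⟩) NrF ArF VrF NvF VvF Rs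
    (fun k hk => ⟨k, hk, rfl, rfl⟩) (fun k hk => ⟨k, hk, rfl⟩)
    (fun l => L l (t + -y₁ * q) (t + -y₁ * q)) (L r (t + -y₁ * q) (t + -y₁ * q))
    (fun l j => L l (t + -y₁ * q) (t + -y₁ * q) + kf₁ * (C₁ * q) - (j : ℕ) * (t + -y₁ * q))
    (fun l hl => ⟨by
      have := mul_pos hφ₁ hqC
      linarith, le_rfl⟩) (by
      have := mul_pos hφ₁ hqC
      linarith) le_rfl (fun l _ j _ => rfl)
  -- the closed slope
  obtain ⟨κx, hκx, hBl⟩ := hB q t (fun j => x (MF + j)) q2 (fun j hj => by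
      obtain ⟨h4, h5, h6, h7⟩ := hx (MF + j) (by omega)
      rw [Pool.PKG.cmb_r, Pool.PKG.cmb_l hj] at h5 h6
      rw [Pool.ALT.cmT_r, Pool.ALT.cmT_l hj] at h7
      exact ⟨h4, h5, h6, h7⟩) N A V N' V' R (fun k hk => by
      obtain ⟨j, hj, h4, h5⟩ := hpr (NrF + k) (by omega)
      rw [Pool.PKG.cmb_r] at h4 h5
      exact ⟨j, hj, h4, h5⟩) (fun k hk => by
      obtain ⟨j, hj, h4⟩ := hwn k (by omega)
      rw [va1 k hk] at h4
      exact ⟨j, hj, h4⟩)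
  have R₁ := Ra.sub hne₁ hs₁
  obtain ⟨S', Θ, u1, u2, u3, u4, u5, u6, u7⟩ := ht4 R₁ hκ (s := Sl (r + 1)) (C := C) (φ := φ)
    (Xc := Xc) (X := X) (kf := kf) (hh := hh) (k₁ := k₁) (a := a) (ρ := ρ) (kf₁ := kf₁)
    (e₁ := e₁) (κx := κx) rfl hα.symm (by rw [← hs]; exact Kn) (k14.trans hK')
    (fun k hk => by linarith [hVaB k hk]) (fun w hw => by
      obtain ⟨rd, h1, h2⟩ := hQ0 w hw
      exact ⟨rd, h1, h2.sub hs₁⟩) (fun k hk => by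
      obtain ⟨rk, E, h1, h2, h3, h4, h5⟩ := hQ1 _ (Ra.memG.2 k hk) (by
        have h6 := R.near
        have h7 : |Va k * q| ≤ K' * q := by
          rw [abs_mul, abs_of_pos hq0]
          exact mul_le_mul_of_nonneg_right (by linarith [hVaB k hk]) hq0.le
        have h8 : |t + Va k * q - g| ≤ |Va k * q| + |t - g| := by
          have e1 : t + Va k * q - g = Va k * q + (t - g) := by ring
          rw [e1]
          exact abs_add_le _ _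
        linarith only [h6, h7, h8, h9, q3])
      refine ⟨rk, E, h3, ?_, fun e he => ?_⟩
      · have h4' : E + L (r + 1) (t + Va k * q) (t + Va k * q) ≤ 1 - (1 / 2) ^ km := h4
        linarith only [h4', h10, q3]
      · obtain ⟨K, hK⟩ := h5 e he
        exact ⟨K, hK.sub hs₁⟩) ⟨NvB + (NvF + 0), by omega, va3⟩ (nb := nb + 1) (bw := bx)
    (fun k hk => by
      rcases Nat.eq_zero_or_pos k with rfl | h1
      · exact ⟨NvB + (NvF + 1), by omega, by rw [va4, bx0]⟩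
      · obtain ⟨i, rfl⟩ : ∃ i, k = i + 1 := ⟨k - 1, by omega⟩
        exact ⟨NvB + (NvF + (2 + i)), by omega, by rw [va5 i (by omega), bx1]⟩)
    ⟨0, by omega, bx0⟩ (fun k hk => ⟨NvB + (NvF + (2 + (nb + k))), by omega, va6 k⟩) hρ0 hρa hρφ
    (by linarith) (by linarith) (by linarith) (K₁x := K₁x) hκx
    (Pool.ALT.blX_mono (Pool.ALT.blX_sub hs₁ hBl) hKd1 le_rfl fun k hk => ⟨k, hk, rfl, le_rfl, le_rfl⟩) hXm
    (by linarith) kf3 he₁ (by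
      rw [← hα] at hF1
      exact hF1) (D := D) (Dr := Dr) (Db := Db) hDr
  refine ⟨S', Θ, t + -y₁ * q, 1, u1, fun τ J F A hA => hs₁ τ J F A (u2 τ J F A hA), by
    have := mul_pos hy0 hq0
    linarith, le_rfl, u3, u4, ?_, fun k hk => ?_, fun κ' qf Pq h1 h2 h3 h4 =>
    ⟨2 * 1, by norm_num, u7 κ' qf Pq h1 h2 h3 h4⟩⟩
  · refine Pool.S6C.Bas.mono 0 u5 ?_
    rintro J - F A h1
    exact ⟨A, fun ω hω => hω, by rw [one_mul], h1⟩
  · have h1 := u6 (k + 1) (by omega)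
    rw [bx1] at h1
    exact h1

end Pool.W.ALT
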