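import Pool.Agent.H73.D2.Tvk
import Pool.Agent.H31.W.H3.ASM.C11
import Pool.Agent.H31.W.H73.D2.Tvj
import Pool.Agent.H3.W.Bas
import Pool.Agent.H31.W1.H91.FR.QpG
import Pool.Agent.H57.SWC.Lx
import Pool.Agent.H57.SWC.Lxa

/-!
# The blind family for the kinds `one, one, thin; stp`

`F1UD.us`: for a thin place the first jet is few bits. `VbT.monoZ`. `BxTP`: the closed slope for the kinds
`one, one, k; stp`. `vbTP_of`: `VbTP` for `u` thin from the first jet (`CbF`) and a closed slope.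
`vbTP_uni`: for slopes of `N` less than the one of `u` plus one.
-/

set_option autoImplicit false

namespace Pool.W.PKG

open Pool.PKG

open Finset Real
open Pool.Agent.H49.Ent Pool.Agent.H32.Dense Pool.STK Pool.KA Pool.KSAT Pool.K2S Pool.PB
open Pool.GEN Pool.S6C Pool.STAT Pool.CHT Pool.GRW Pool.ONE Pool.STA

/-- **For a thin place** the level always drops. -/
theorem F1UD.us {m r : ℕ} (hrm : r < m) {h : ℝ} {Sl : ℕ → ℝ} {κ : ℕ → Pool.PKG.Kg} (hκ : κ r = .thin)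
    (hs : 1 < Sl r) {ι Λ : Type} {Q : Pool.PKG.PropG m ι} {Z : Pool.PKG.PropZ m Λ} (hF : Pool.W.PKG.F1UD m r h Sl κ Q Z) :
    Pool.W.PKG.F1US m r h Sl κ Q Z := by
  intro al hal K₀ hK₀ S₀ hS₀
  obtain ⟨Kr, Nr, Ar, Vr, hKr, hAV, hF⟩ := hF al hal K₀ hK₀ ((Sl r - 1) / 2) (by linarith) S₀ hS₀
  refine ⟨Kr, Nr, Ar, Vr, hKr, hAV, fun S₂ hS₂ dd hdd => ?_⟩
  obtain ⟨lam, kf, φ, hkf, hφ, K₁, Nv, Vv, hVv, hF⟩ := hF S₂ hS₂ dd hdd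
  refine ⟨lam, kf, φ, hkf, hφ, max K₁ 1, Nv, Vv, fun j hj => ?_, fun K' hK' => ?_⟩
  · have h1 := hVv j hj
    have h2 := le_max_left K₁ 1
    exact ⟨by linarith [h1.1], by linarith [h1.2]⟩
  obtain ⟨ε₀, hε₀, hF⟩ := hF K' ((le_max_left _ _).trans hK')
  have hK1 : 1 ≤ K' := (le_max_right _ _).trans hK'
  refine ⟨min ε₀ ((Sl r - 1) / 8), lt_min hε₀ (by linarith), fun ε hε hεε S g₀ P θ P₂ θ₂ Eb e₂ c
    Pt rt L T G g hG hg hd hZ => ?_⟩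
  have ε1 := hεε.trans (min_le_left _ _)
  have ε2 := hεε.trans (min_le_right _ _)
  obtain ⟨p, M, B₀, B₁, hB, hF⟩ := hF ε hε ε1 S g₀ P θ P₂ θ₂ Eb e₂ c Pt rt L T G g hG hg hd hZ
  refine ⟨p, M, B₀, B₁, hB, fun k₀ hk₀ => ?_⟩
  obtain ⟨q₁, hq₁, hF⟩ := hF k₀ hk₀
  refine ⟨q₁, hq₁, fun q t x hq hx N A V N' V' R hp hv pf pr Nf h1 h2 h3 h4 => ?_⟩
  rcases hF q t x hq hx N A V N' V' R hp hv pf pr Nf h1 h2 h3 h4 with h5 | h5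
  · exact h5
  exfalso
  have hq0 := R.q0
  have hKq : q ≤ K' * q := le_mul_of_one_le_left hq0.le hK1
  have hkd := R.kd r hrm
  rw [hκ] at hkd
  obtain ⟨-, hkd⟩ := hkd
  have k1 := hkd (t + q) t (by linarith) (by linarith) (by linarith)
  have k2 := (abs_le.1 (R.dT r hrm t (by
    rw [sub_self, abs_zero]
    linarith))).2
  have k3 := (abs_le.1 (R.dL r hrm (t + q) (by
    rw [add_sub_cancel_left, abs_of_pos hq0]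
    exact hKq))).1
  rw [add_sub_cancel_left] at k3 k1
  rw [sub_self, mul_zero, sub_zero] at k2
  have k4 := mul_le_mul_of_nonneg_right ε2 hq0.le
  have k5 : 0 < (Sl r - 1) * q := mul_pos (by linarith) hq0
  have e1 : (Sl r - 1) / 8 * q = (Sl r - 1) * q / 8 := by ring
  have e2 : (Sl r - 1) / 2 * q = (Sl r - 1) * q / 2 := by ring
  have e3 : (Sl r - 1) * q = Sl r * q - q := by ring
  rw [e1] at k4
  rw [e2] at h5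
  rw [e3] at k4 k5 h5
  linarith

end Pool.W.PKG

namespace Pool.W.ALT

open Pool.ALT

open Finset Real MvPolynomial
open Pool.Agent.H49.Ent Pool.Agent.H32.Dense Pool.STK Pool.KA Pool.KSAT Pool.K2S Pool.PB Pool.S6C
  Pool.GEN Pool.RCD Pool.LA91 Pool.OWN68 Pool.PKG
open Pool.CHT Pool.CHX Pool.ISO Pool.D2R Pool.D2G30 Pool.V1E Pool.CR99 Pool.GRW

/-- A stronger hypothesis on the class. -/
theorem VbT.monoZ {r : ℕ} {y a h : ℝ} {nb : ℕ} {bw : ℕ → ℝ} {Sl : ℕ → ℝ} {κ : ℕ → Pool.PKG.Kg}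
    {ι Λ Λ' : Type} {Q : Pool.PKG.PropG (r + 2) ι} {Z : Pool.PKG.PropZ (r + 2) Λ} {Z' : Pool.PKG.PropZ (r + 2) Λ'}
    (H : Pool.W.ALT.VbT r y a h nb bw Sl κ Q Z) (f : Λ → Λ')
    (hf : ∀ lam S P θ c Pt rt L T κ G g, Z' (f lam) S P θ c Pt rt L T κ G g →
      Z lam S P θ c Pt rt L T κ G g) : Pool.W.ALT.VbT r y a h nb bw Sl κ Q Z' := by
  intro al hal K₀ hK₀ S₀ hS₀
  obtain ⟨Kr, Nr, Ar, Vr, hKr, hAV, H⟩ := H al hal K₀ hK₀ S₀ hS₀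
  refine ⟨Kr, Nr, Ar, Vr, hKr, hAV, fun S₂ hS₂ D hD Db hDb => ?_⟩
  obtain ⟨Dr₀, Kd, H⟩ := H S₂ hS₂ D hD Db hDb
  refine ⟨Dr₀, Kd, fun Dr hDr C hC => ?_⟩
  obtain ⟨Dw₀, H⟩ := H Dr hDr C hC
  refine ⟨Dw₀, fun Dw hDw δ X₀ hδ hδ1 hX₀ => ?_⟩
  obtain ⟨lam, kf, X, h₁, a1, a2, a3, a4, H⟩ := H Dw hDw δ X₀ hδ hδ1 hX₀
  refine ⟨f lam, kf, X, h₁, a1, a2, a3, a4, fun hh k₁ b1 b2 b3 b4 => ?_⟩
  obtain ⟨K₁, Nv, Vv, ns, vs, c1, c2, H⟩ := H hh k₁ b1 b2 b3 b4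
  refine ⟨K₁, Nv, Vv, ns, vs, c1, c2, fun K' hK' => ?_⟩
  obtain ⟨ε₀, hε₀, H⟩ := H K' hK'
  refine ⟨ε₀, hε₀, fun ε hε hεε S g₀ P θ P₂ θ₂ Eb e₂ c Pt rt L T G g hG hg hd hZ => ?_⟩
  exact H ε hε hεε S g₀ P θ P₂ θ₂ Eb e₂ c Pt rt L T G g hG hg hd
    (hf lam S P θ c Pt rt L T κ G g hZ)


end Pool.W.ALT

namespace Pool.W.ASM

open Pool.ASM

open MeasureTheory Set Filter Topology
open Pool.GEN Pool.PKG Pool.SW Pool.ALT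
open Pool.LA91 (FaQ sumQ HerQ her_sum her_fa aePG_fa aePG_sum)
open Pool.MIC6
open Pool.Agent.H49.Ent Pool.Agent.H32.Dense Pool.STK Pool.KA Pool.KSAT Pool.K2S Pool.PB
open Pool.V0F (ChUQ AttUQ her_chU aePG_chU her_attU aePG_attU)


/-- **A closed slope**, for the kinds `one, one, k; stp` and the slopes with `Φ`, under `Z`. -/
def BxTP (k : Pool.PKG.Kg) (Φ : (ℕ → ℝ) → Prop) {Λ : Type} (Z : (ℕ → ℝ) → Pool.PKG.PropZ 4 Λ) : Prop :=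
  ∃ (ι : Type) (_ : Countable ι) (Q : Pool.PKG.PropG 4 ι), Pool.W.PKG.AePG 4 Q ∧ Pool.LA91.HerQ Q ∧
    ∀ h : ℝ, 0 < h → h ≤ 1 → ∀ Sl : ℕ → ℝ, Pool.ASM.SlB k Sl → Φ Sl →
      Pool.W.ALT.BxT 2 h Sl (Pool.PKG.kg4 .one .one k .stp) Q (Z Sl)

/-- **The first jet of** `u` is few bits, for the kinds `one, one, k; stp` and the slopes with `Φ`,
under `Z`. -/
def F1TP (k : Pool.PKG.Kg) (Φ : (ℕ → ℝ) → Prop) {Λ : Type} (Z : (ℕ → ℝ) → Pool.PKG.PropZ 4 Λ) : Prop :=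
  ∃ (ι : Type) (_ : Countable ι) (Q : Pool.PKG.PropG 4 ι), Pool.W.PKG.AePG 4 Q ∧ Pool.LA91.HerQ Q ∧
    ∀ h : ℝ, 0 < h → h ≤ 1 → ∀ Sl : ℕ → ℝ, Pool.ASM.SlB k Sl → Φ Sl →
      Pool.W.PKG.F1US 4 2 h Sl (Pool.PKG.kg4 .one .one k .stp) Q (Z Sl)

/-- `u` thin. -/
theorem f1TP_thin {Φ : (ℕ → ℝ) → Prop} (H : Pool.W.ASM.CbF .thin Φ) : Pool.W.ASM.F1TP .thin Φ Pool.W.ASM.FulB := by
  obtain ⟨ι, hι, Q, a1, a2, H⟩ := H
  exact ⟨ι, hι, Q, a1, a2, fun h hh hh1 Sl hS hΦ =>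
    (H h hh hh1 Sl hS hΦ).us (by norm_num) rfl (hS.thin rfl)⟩

/-- **The blind family**, from the first jet of `u` and a closed slope, under full rates. -/
theorem vbTP_of {k : Pool.PKG.Kg} {Φ : (ℕ → ℝ) → Prop} (hF : Pool.W.ASM.F1TP k Φ Pool.W.ASM.FulB) (hB : Pool.W.ASM.BxTP k Φ Pool.W.ASM.FulB)
    (hk : ∀ Sl, Pool.ASM.SlB k Sl → 1 < Sl 2) : Pool.W.ASM.VbTP k Φ Pool.W.ASM.FulB := by
  obtain ⟨ι, hι, Q, a1, a2, hF⟩ := hF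
  obtain ⟨ι', hι', Q', b1, b2, hB⟩ := hB
  refine ⟨ι ⊕ (ι' ⊕ (Unit ⊕ Unit)), inferInstance, Pool.LA91.sumQ Q (Pool.LA91.sumQ Q' (Pool.LA91.sumQ (Pool.W.V0F.ChUQ : Pool.PKG.PropG 4 Unit)
      (Pool.V0F.AttUQ : Pool.PKG.PropG 4 Unit))), ?_, ?_, ?_⟩
  · exact Pool.W.LA91.aePG_sum a1 a2 (Pool.W.LA91.aePG_sum b1 b2 (Pool.W.LA91.aePG_sum (Pool.W.V0F.aePG_chU 4) (Pool.W.V0F.her_chU 4) (Pool.W.V0F.aePG_attU 4)))
  · exact Pool.LA91.her_sum a2 (Pool.LA91.her_sum b2 (Pool.LA91.her_sum (Pool.W.V0F.her_chU 4) (Pool.V0F.her_attU 4)))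
  intro h hh hh1 Sl hS hΦ y _ nb bw _
  refine ⟨0, fun a _ _ _ => ?_⟩
  have hκ : ∀ l < 2, (Pool.PKG.kg4 .one .one k .stp) l = .one := fun l hl => by interval_cases l <;> rfl
  have s3 := hS.s3
  have H := Pool.W.ALT.vbT_of (r := 2) (by norm_num) (y := y) (a := a) hh hh1 (nb := nb) (bw := bw) hκ
    (by
      show 1 < Sl 3
      linarith) (hk Sl hS) (hF h hh hh1 Sl hS hΦ) (hB h hh hh1 Sl hS hΦ)
  refine H.monoZ (fun b => (⟨min b.1.1.1 b.2.1.1, lt_min b.1.1.2 b.2.1.2⟩, max b.1.2 b.2.2))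
    fun b S P θ c Pt rt L T κ G g hZ => ⟨Pool.ASM.fulR_mono (min_le_left _ _) (le_max_left _ _) hZ,
      Pool.ASM.fulR_mono (min_le_right _ _) (le_max_right _ _) hZ⟩

/-- **A closed slope**, `u` thin and the slope of `N` less than the one of `u` plus one. -/
theorem bxTP_uni {Φ : (ℕ → ℝ) → Prop} (hΦ : ∀ Sl, Φ Sl → Sl 3 < Sl 2 + 1) {Λ : Type}
    [Inhabited Λ] {Z : (ℕ → ℝ) → Pool.PKG.PropZ 4 Λ} : Pool.W.ASM.BxTP .thin Φ Z :=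
  ⟨Unit, inferInstance, (Pool.W.V0F.ChUQ : Pool.PKG.PropG 4 Unit), Pool.W.V0F.aePG_chU 4, Pool.W.V0F.her_chU 4, fun _ _ _ Sl _ h =>
    Pool.W.ALT.bxT_uni (hΦ Sl h) (Or.inr rfl) (Or.inl rfl)⟩


/-- **The blind family**, `u` thin and the slope of `N` less than the one of `u` plus one, from the
first jet of `u`. -/
theorem vbTP_uni {Φ : (ℕ → ℝ) → Prop} (hΦ : ∀ Sl, Φ Sl → Sl 3 < Sl 2 + 1) (hF : Pool.W.ASM.CbF .thin Φ) :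
    Pool.W.ASM.VbTP .thin Φ Pool.W.ASM.FulB :=
  Pool.W.ASM.vbTP_of (Pool.W.ASM.f1TP_thin hF) (Pool.W.ASM.bxTP_uni hΦ) fun _ hS => hS.thin rfl

/-- **The last coordinate has no drop**, `u` thin, the slopes different, the slope of `N` less than
the one of `u` plus one, from the first jet of `u`. -/
theorem celT_near {Φ : (ℕ → ℝ) → Prop} (hΦ : ∀ Sl, Φ Sl → Sl 2 ≠ Sl 3 ∧ Sl 3 < Sl 2 + 1)
    (hF : Pool.W.ASM.CbF .thin Φ) : Pool.W.ASM.CelTP .thin Φ Pool.W.ASM.FulB :=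
  Pool.W.ASM.celT_thin (fun Sl h => (hΦ Sl h).1) (Pool.W.ASM.vbTP_uni (fun Sl h => (hΦ Sl h).2) hF)

/-- **The last coordinate has no drop**, `u` thin, the slopes different, from the first jet of `u`
and a closed slope. -/
theorem celT_bx {Φ : (ℕ → ℝ) → Prop} (hΦ : ∀ Sl, Φ Sl → Sl 2 ≠ Sl 3) (hF : Pool.W.ASM.CbF .thin Φ)
    (hB : Pool.W.ASM.BxTP .thin Φ Pool.W.ASM.FulB) : Pool.W.ASM.CelTP .thin Φ Pool.W.ASM.FulB :=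
  Pool.W.ASM.celT_thin hΦ (Pool.W.ASM.vbTP_of (Pool.W.ASM.f1TP_thin hF) hB fun _ hS => hS.thin rfl)

end Pool.W.ASM
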